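import Mathlib
import Pool.Agent.Lib.H16A.C1
import Pool.Agent.Lib.H16A.C2

open NumberField IsDedekindDomain

namespace H19X

/-! Chunk He (S/M): Hensel. z = 1 + 4 mu with v(mu) < 1; X^2 + X - mu has the root 0 modulo the maximal ideal of the
ring of integers of the completion, with derivative 1: H16A.isAdicComplete_integers (C1),
IsAdicComplete.henselianRing, H16A.exists_root_lift (C2: Hensel in O itself). (1 + 2 r)^2 = 1 + 4 mu. -/

theorem hensel {N : Type} [Field N] [NumberField N] (P : HeightOneSpectrum (𝓞 N))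
    (z : P.adicCompletion N) (hz : Valued.v (z - 1) < Valued.v (4 : P.adicCompletion N)) :
    ∃ β : P.adicCompletion N, z = β ^ 2 := by
  have h4 : (4 : P.adicCompletion N) ≠ 0 := by
    intro h
    rw [h, map_zero] at hz
    exact not_lt_zero hz
  obtain ⟨mu, hmu⟩ : ∃ mu, mu = (z - 1) / 4 := ⟨_, rfl⟩
  have hv : Valued.v mu < 1 := by
    rw [hmu, map_div₀, div_lt_one₀ (zero_lt_iff.2 ((map_ne_zero _).2 h4))]
    exact hz
  have hmem : mu ∈ P.adicCompletionIntegers N := hv.le
  obtain ⟨m, hm⟩ : ∃ m : P.adicCompletionIntegers N, m = ⟨mu, hmem⟩ := ⟨_, rfl⟩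
  have hmm : m ∈ IsLocalRing.maximalIdeal (P.adicCompletionIntegers N) := by
    rw [H16A.C1_mem_maximalIdeal, H16A.C1_norm_lt_one_iff, hm]
    exact hv
  have hc := H16A.isAdicComplete_integers P
  have hmon : (Polynomial.X ^ 2 + Polynomial.X - Polynomial.C m :
      Polynomial (P.adicCompletionIntegers N)).Monic := by
    have : (Polynomial.X ^ 2 + Polynomial.X - Polynomial.C m :
      Polynomial (P.adicCompletionIntegers N)) =
        Polynomial.X ^ 2 + (Polynomial.X - Polynomial.C m) := by ring
    rw [this]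
    refine (Polynomial.monic_X_pow 2).add_of_left ?_
    rw [Polynomial.degree_X_sub_C, Polynomial.degree_X_pow]
    norm_num
  obtain ⟨y, hy, -⟩ := H16A.exists_root_lift
    (IsLocalRing.maximalIdeal (P.adicCompletionIntegers N)) _ hmon 0 (by simpa using hmm) (by simp)
  have hy2 : y ^ 2 + y - m = 0 := by simpa using hy
  have hy3 : (y : P.adicCompletion N) ^ 2 + y - mu = 0 := by
    have h := congrArg (fun t : P.adicCompletionIntegers N => (t : P.adicCompletion N)) hy2
    rw [hm] at h
    exact h
  refine ⟨1 + 2 * (y : P.adicCompletion N), ?_⟩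
  have h5 : z = 1 + 4 * mu := by
    rw [hmu]
    field_simp
    ring
  rw [h5]
  linear_combination (-4 : P.adicCompletion N) * hy3

end H19X
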