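import Mathlib
import Pool.Agent.Lib.H55E.Defs

/-!
# H19X: the exact criterion, algebraic half (p = 2)

If K is contained in a Galois 2-power extension of F unramified above 6, and some prime of K which does
not divide 6, is ramified, and modulo which 2 is a cube, exists, then the 2-Selmer group of E_d over K is
not trivial. See PROOF.md.
-/

open NumberField IsDedekindDomain

namespace H19X

open H55B H55C H55E

/-- Unramified above 2. -/
def UnrTwo (K : Type) [Field K] [NumberField K] : Prop :=
  ∀ w : HeightOneSpectrum (𝓞 K), (2 : 𝓞 K) ∈ w.asIdeal →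
    w.valuation K (2 : K) = WithZero.exp (-1 : ℤ)

/-- K/F is unramified above 6. -/
def UnrSix (K : Type) [Field K] [NumberField K] [Algebra F K] : Prop :=
  ∀ w : HeightOneSpectrum (𝓞 K), (6 : 𝓞 K) ∈ w.asIdeal → w.asIdeal.ramificationIdx O = 1

/-- K is contained in a Galois extension L of F of 2-power degree unramified above 6. -/
def Sub6 (K : Type) [Field K] [NumberField K] [Algebra F K] : Prop :=
  ∃ (L : Type) (_ : Field L) (_ : NumberField L) (_ : Algebra F L) (_ : Algebra K L)
    (_ : IsScalarTower F K L), TwoExt L ∧ UnrSix L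

/-- The class of fields of the criterion (K need not contain F). -/
def Cls6 (K : Type) [Field K] [NumberField K] : Prop :=
  ∃ (L : Type) (_ : Field L) (_ : NumberField L) (_ : Algebra F L) (_ : Algebra K L),
    TwoExt L ∧ UnrSix L

/-- The local hypotheses on K: unramified above 2, the valuation of 3 at a prime above 3 is prime to 3,
and 2 is not a cube modulo the primes dividing d. -/
structure HypF (d : ℤ) (K : Type) [Field K] [NumberField K] [Algebra F K] : Prop where
  two : UnrTwo K
  three : ∀ w : HeightOneSpectrum (𝓞 K), (3 : 𝓞 K) ∈ w.asIdeal →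
    ∃ e : ℕ, ¬ 3 ∣ e ∧ w.valuation K (3 : K) = WithZero.exp (-(e : ℤ))
  dd : ∀ w : HeightOneSpectrum (𝓞 K), (d : 𝓞 K) ∈ w.asIdeal → ¬ ∃ u : 𝓞 K, u ^ 3 - 2 ∈ w.asIdeal

/-- The cube root of 2 in N = K(cbrt 2), given as a field isomorphic to the cubic algebra. -/
noncomputable abbrev th {K N : Type} [Field K] [Field N] [Algebra K N] (φ : Cub K ≃ₐ[K] N) : N :=
  φ (AdjoinRoot.root _)

/-- Square norm, even valuations outside 6d, and a congruence condition above 2: these conditions imply
that the element is in the 2-Selmer group of E_d over K (sel_of_cnd). -/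
structure Cnd (d : ℤ) (K N : Type) [Field K] [NumberField K] [Field N] [NumberField N]
    [Algebra K N] (ϑ m : N) : Prop where
  ne : m ≠ 0
  norm : ∃ n : K, Algebra.norm K m = n ^ 2
  even : ∀ P : HeightOneSpectrum (𝓞 N), ((6 * d : ℤ) : 𝓞 N) ∉ P.asIdeal →
    ∃ k : ℤ, P.valuation N m = WithZero.exp (2 * k)
  two : ∀ P : HeightOneSpectrum (𝓞 N), (2 : 𝓞 N) ∈ P.asIdeal →
    ∃ b : N, b ≠ 0 ∧ P.valuation N (m / b ^ 2 - 1) ≤ P.valuation N (ϑ ^ 2)

end H19X
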