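import Mathlib
import Pool.Agent.Lib.H19X.Defs
import Pool.Agent.Lib.H55C.A18

open NumberField IsDedekindDomain

namespace H19X

open H55B H55C H55E

/-! Chunk N2 (M): coordinates in N, th = th φ. cube: root^3 = 2 in Cub K (A18_root), apply φ. span, indep: the
power basis 1, root, root^2 of Cub K (AdjoinRoot.powerBasis'; compare H55C.A5 / H55B.J0, or H16A.H2
exists_coords / H4 h4_coeff). norm_co: A18_norm (H55C.A18) for Cub K and Algebra.norm_eq_of_algEquiv. trace_co:
Algebra.trace is linear, trace 1 = 3, trace root = trace root^2 = 0 (matrix of the multiplication in the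
power basis, as in A18_norm), Algebra.trace_eq_of_algEquiv. exists_T: the K-algebra homomorphism
Cub K -> N, root -> r th (a root of X^3 - 2), is injective (N is a field, X^3 - 2 ... Cub K is a field because it is
isomorphic to N), transported to N -> N it is bijective (finite dimension). Then
z T z T(T z) = norm: multiply out for z = a + b th + c th^2 with r^2 + r + 1 = 0: a^3 + 2b^3 + 4c^3 - 6abc. -/

variable {K N : Type} [Field K] [NumberField K] [Field N] [NumberField N] [Algebra K N]
  (φ : Cub K ≃ₐ[K] N)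

theorem th_cube : (th φ) ^ 3 = 2 := by
  rw [← map_pow, A18_root, map_ofNat]

theorem N2_phi (a b c : K) : φ (AdjoinRoot.of _ a + AdjoinRoot.of _ b * AdjoinRoot.root _ +
    AdjoinRoot.of _ c * AdjoinRoot.root _ ^ 2) = algebraMap K N a + algebraMap K N b * th φ +
    algebraMap K N c * th φ ^ 2 := by
  have h : ∀ x : K, φ (AdjoinRoot.of _ x) = algebraMap K N x := fun x => φ.commutes x
  rw [map_add, map_add, map_mul, map_mul, map_pow, h, h, h]

theorem span_co (z : N) : ∃ a b c : K, z = algebraMap K N a + algebraMap K N b * th φ +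
    algebraMap K N c * th φ ^ 2 := by
  obtain ⟨a, b, c, h⟩ := H55B.J0_span K (φ.symm z)
  refine ⟨a, b, c, ?_⟩
  rw [← N2_phi, ← φ.symm_apply_eq]
  exact h

theorem indep_co (a b c : K) (h : algebraMap K N a + algebraMap K N b * th φ +
    algebraMap K N c * th φ ^ 2 = 0) : a = 0 ∧ b = 0 ∧ c = 0 := by
  rw [← N2_phi, map_eq_zero_iff φ φ.injective] at h
  exact H55B.J0_indep K a b c h

theorem norm_co (a b c : K) : Algebra.norm K (algebraMap K N a + algebraMap K N b * th φ +
    algebraMap K N c * th φ ^ 2) = a ^ 3 + 2 * b ^ 3 + 4 * c ^ 3 - 6 * a * b * c := by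
  rw [← N2_phi, Algebra.norm_eq_of_algEquiv, A18_norm]

theorem N2_trace (K : Type) [Field K] (a b c : K) :
    Algebra.trace K (Cub K) (AdjoinRoot.of _ a + AdjoinRoot.of _ b * AdjoinRoot.root _ +
      AdjoinRoot.of _ c * AdjoinRoot.root _ ^ 2 : Cub K) = 3 * a := by
  have hf : (Polynomial.X ^ 3 - Polynomial.C 2 : Polynomial K).Monic :=
    Polynomial.monic_X_pow_sub_C 2 three_ne_zero
  have hd : (AdjoinRoot.powerBasis' hf).dim = 3 := by
    rw [AdjoinRoot.powerBasis'_dim, Polynomial.natDegree_X_pow_sub_C]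
  set B : Module.Basis (Fin 3) K (Cub K) := (AdjoinRoot.powerBasis' hf).basis.reindex (finCongr hd)
    with hB
  have hBi : ∀ i : Fin 3, B i = AdjoinRoot.root _ ^ (i : ℕ) := by
    intro i
    rw [hB, Module.Basis.reindex_apply, PowerBasis.basis_eq_pow, AdjoinRoot.powerBasis'_gen]
    rfl
  have hroot := A18_root K
  have h2 : AdjoinRoot.of (Polynomial.X ^ 3 - Polynomial.C 2 : Polynomial K) 2 = 2 := map_ofNat _ 2
  set m : Cub K := AdjoinRoot.of _ a + AdjoinRoot.of _ b * AdjoinRoot.root _ +
      AdjoinRoot.of _ c * AdjoinRoot.root _ ^ 2 with hm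
  set D : Matrix (Fin 3) (Fin 3) K := !![a, 2 * c, 2 * b; b, a, 2 * c; c, b, a] with hD
  have hM : Algebra.leftMulMatrix B m = D := by
    ext i j
    rw [Algebra.leftMulMatrix_eq_repr_mul]
    have h1 : m * B j = ∑ i, D i j • B i := by
      rw [Fin.sum_univ_three, hBi, hBi, hBi, hBi]
      simp only [Algebra.smul_def, AdjoinRoot.algebraMap_eq]
      fin_cases j
      · simp [hD, hm]
      · simp [hD, hm]
        linear_combination (AdjoinRoot.of _ c) * hroot - (AdjoinRoot.of _ c) * h2
      · simp [hD, hm]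
        linear_combination (AdjoinRoot.of _ b + AdjoinRoot.of _ c * AdjoinRoot.root _) * hroot -
          (AdjoinRoot.of _ b + AdjoinRoot.of _ c * AdjoinRoot.root _) * h2
    rw [h1]
    exact congrFun (B.repr_sum_self (fun i => D i j)) i
  rw [Algebra.trace_eq_matrix_trace B, hM, Matrix.trace_fin_three]
  simp [hD]
  ring

theorem trace_co (a b c : K) : Algebra.trace K N (algebraMap K N a + algebraMap K N b * th φ +
    algebraMap K N c * th φ ^ 2) = 3 * a := by
  rw [← N2_phi, Algebra.trace_eq_of_algEquiv, N2_trace]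

include φ in
/-- 2 is not a cube in K. -/
theorem no_cube (x : K) : x ^ 3 ≠ 2 := by
  intro hx
  have h1 : (th φ - algebraMap K N x) * (th φ ^ 2 + algebraMap K N x * th φ +
      algebraMap K N x ^ 2) = 0 := by
    have h2 := th_cube φ
    have h3 : algebraMap K N x ^ 3 = 2 := by rw [← map_pow, hx, map_ofNat]
    linear_combination h2 - h3
  rcases mul_eq_zero.1 h1 with h | h
  · have h2 := indep_co φ (-x) 1 0 (by
      rw [map_neg, map_one, map_zero]
      linear_combination h)
    exact one_ne_zero h2.2.1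
  · have h2 := indep_co φ (x ^ 2) x 1 (by
      rw [map_pow, map_one]
      linear_combination h)
    exact one_ne_zero h2.2.2

include φ in
theorem N2_finite : Module.Finite K N :=
  have hfin : Module.Finite K (Cub K) :=
    (AdjoinRoot.powerBasis' (Polynomial.monic_X_pow_sub_C (2 : K) three_ne_zero)).finite
  Module.Finite.equiv φ.toLinearEquiv

include φ in
theorem rank_three : Module.finrank K N = 3 := by
  rw [← φ.toLinearEquiv.finrank_eq,
    (AdjoinRoot.powerBasis' (Polynomial.monic_X_pow_sub_C (2 : K) three_ne_zero)).finrank,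
    AdjoinRoot.powerBasis'_dim, Polynomial.natDegree_X_pow_sub_C]

theorem N2_key {R : Type} [CommRing R] (a b c u r : R) (hcube : u ^ 3 = 2) (hrr : r ^ 2 + r + 1 = 0)
    (hrr3 : r ^ 3 = 1) :
    a ^ 3 + 2 * b ^ 3 + 4 * c ^ 3 - 6 * a * b * c =
    (a + b * u + c * u ^ 2) * (a + b * (r * u) + c * (r * u) ^ 2) *
      (a + b * (r * (r * u)) + c * (r * (r * u)) ^ 2) := by
  have key : (a + b * u + c * u ^ 2) * (a + b * (r * u) + c * (r * u) ^ 2) *
      (a + b * (r * (r * u)) + c * (r * (r * u)) ^ 2) =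
      a ^ 3 + b ^ 3 * u ^ 3 + c ^ 3 * (u ^ 3) ^ 2 - 3 * a * b * c * u ^ 3 := by
    linear_combination (a + b * u + c * u ^ 2) * ((b * u) ^ 2 +
      (a * (c * u ^ 2) + b * u * (c * u ^ 2)) * r + b * u * (c * u ^ 2) * r ^ 2 +
      (c * u ^ 2) ^ 2 * (r ^ 3 + 1)) * hrr3 + (a + b * u + c * u ^ 2) *
      (a * (b * u) + a * (c * u ^ 2) + b * u * (c * u ^ 2)) * hrr
  rw [key, hcube]
  ring

theorem exists_T (r : K) (hr : r ^ 2 + r + 1 = 0) : ∃ T : N ≃ₐ[K] N,
    T (th φ) = algebraMap K N r * th φ ∧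
    ∀ z : N, algebraMap K N (Algebra.norm K z) = z * T z * T (T z) := by
  have hfin : Module.Finite K N := N2_finite φ
  have hr3 : r ^ 3 = 1 := by linear_combination (r - 1) * hr
  have hcube := th_cube φ
  have hrr : algebraMap K N r ^ 2 + algebraMap K N r + 1 = 0 := by
    have h := congrArg (algebraMap K N) hr
    rwa [map_add, map_add, map_pow, map_one, map_zero] at h
  have hrr3 : algebraMap K N r ^ 3 = 1 := by rw [← map_pow, hr3, map_one]
  have he : Polynomial.eval₂ ((Algebra.ofId K N : K →ₐ[K] N) : K →+* N)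
      (algebraMap K N r * th φ) (Polynomial.X ^ 3 - Polynomial.C 2 : Polynomial K) = 0 := by
    rw [Polynomial.eval₂_sub, Polynomial.eval₂_pow, Polynomial.eval₂_X, Polynomial.eval₂_C,
      map_ofNat, mul_pow, hcube, hrr3, one_mul, sub_self]
  let ψ : Cub K →ₐ[K] N := AdjoinRoot.liftAlgHom (Polynomial.X ^ 3 - Polynomial.C 2 : Polynomial K)
    (Algebra.ofId K N) (algebraMap K N r * th φ) he
  have hψr : ψ (AdjoinRoot.root _) = algebraMap K N r * th φ := AdjoinRoot.liftAlgHom_root _ _ _ _
  let T0 : N →ₐ[K] N := ψ.comp (φ.symm : N →ₐ[K] Cub K)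
  have hT0 : T0 (th φ) = algebraMap K N r * th φ := by
    change ψ (φ.symm (φ (AdjoinRoot.root _))) = _
    rw [φ.symm_apply_apply, hψr]
  let T : N ≃ₐ[K] N := AlgEquiv.ofBijective T0 T0.bijective
  have hT : T (th φ) = algebraMap K N r * th φ := hT0
  refine ⟨T, hT, fun z => ?_⟩
  obtain ⟨a, b, c, rfl⟩ := span_co φ z
  rw [norm_co]
  have hTK : ∀ x : K, T (algebraMap K N x) = algebraMap K N x := T.commutes
  simp only [map_add, map_mul, map_pow, map_sub, map_ofNat, hTK, hT]
  exact N2_key _ _ _ _ _ hcube hrr hrr3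

end H19X
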