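import Mathlib
import Pool.Agent.Lib.H19X.N2

open NumberField IsDedekindDomain

namespace H19X

open H55B H55C H55E

/-! Chunk U2 (M): the prime above 2. th^3 = 2 and v_w(2) = exp(-1): for P above w, v_P(x) = v_w(x)^e for x in K (A4_glob,
e = ramification index <= 3 = [N : K]), 3 ord_P(th) = e, so e = 3 and ord_P(th) = 1; sum of e f = 3 gives uniqueness
(Ideal.sum_ramification_inertia, or: a second prime would give e + e' > 3). co2: the three terms have orders
congruent to 0, 1, 2 modulo 3 (if nonzero), so the valuation of the sum is the maximum of the three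
(Valuation.map_add_eq_of_lt_left etc.; compare A13_max in H55C.A13). -/

variable {K N : Type} [Field K] [NumberField K] [Field N] [NumberField N] [Algebra K N]
  (φ : Cub K ≃ₐ[K] N)

theorem U2_three (w : HeightOneSpectrum (𝓞 K)) (hv : w.valuation K (2 : K) = WithZero.exp (-1 : ℤ))
    (P : HeightOneSpectrum (𝓞 N)) (hP : w.asIdeal = P.asIdeal.under (𝓞 K)) :
    3 ≤ w.asIdeal.ramificationIdx' P.asIdeal ∧
      P.valuation N (th φ) ^ 3 = WithZero.exp (-1 : ℤ) ^ (w.asIdeal.ramificationIdx' P.asIdeal) := by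
  have hl : P.asIdeal.LiesOver w.asIdeal := ⟨hP⟩
  have hp := P.isPrime
  have h1 : P.valuation N (th φ) ^ 3 = WithZero.exp (-1 : ℤ) ^ (w.asIdeal.ramificationIdx' P.asIdeal) := by
    have h5 : (2 : N) = algebraMap K N 2 := (map_ofNat (algebraMap K N) 2).symm
    rw [← map_pow, th_cube, ← hv, HeightOneSpectrum.valuation_liesOver N w P 2, h5]
  refine ⟨?_, h1⟩
  have he : w.asIdeal.ramificationIdx' P.asIdeal ≠ 0 :=
    Ideal.IsDedekindDomain.ramificationIdx'_ne_zero_of_liesOver P.asIdeal w.ne_bot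
  have hne : P.valuation N (th φ) ≠ 0 := by
    intro h0
    rw [h0, zero_pow (by norm_num)] at h1
    exact pow_ne_zero _ WithZero.exp_ne_zero h1.symm
  obtain ⟨k, hk⟩ : ∃ k : ℤ, P.valuation N (th φ) = WithZero.exp k :=
    ⟨WithZero.log (P.valuation N (th φ)), (WithZero.exp_log hne).symm⟩
  rw [hk, ← WithZero.exp_nsmul, ← WithZero.exp_nsmul, WithZero.exp_inj] at h1
  simp only [nsmul_eq_mul] at h1
  push_cast at h1
  omega

theorem exists_P2 (w : HeightOneSpectrum (𝓞 K)) (h2 : (2 : 𝓞 K) ∈ w.asIdeal)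
    (hv : w.valuation K (2 : K) = WithZero.exp (-1 : ℤ)) :
    ∃ P : HeightOneSpectrum (𝓞 N), w.asIdeal = P.asIdeal.under (𝓞 K) ∧
      (∀ P' : HeightOneSpectrum (𝓞 N), w.asIdeal = P'.asIdeal.under (𝓞 K) → P' = P) ∧
      P.valuation N (th φ) = WithZero.exp (-1 : ℤ) ∧
      ∀ x : K, P.valuation N (algebraMap K N x) = w.valuation K x ^ 3 := by
  classical
  have hwm := w.isMaximal
  have hsum := Ideal.sum_ramification_inertia (𝓞 N) K N (p := w.asIdeal) w.ne_bot
  rw [rank_three φ] at hsum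
  have hmem : ∀ P : HeightOneSpectrum (𝓞 N), w.asIdeal = P.asIdeal.under (𝓞 K) →
      P.asIdeal ∈ IsDedekindDomain.primesOverFinset w.asIdeal (𝓞 N) := fun P hP =>
    (IsDedekindDomain.mem_primesOverFinset_iff w.ne_bot _).mpr ⟨P.isPrime, ⟨hP⟩⟩
  have hterm : ∀ P : HeightOneSpectrum (𝓞 N), w.asIdeal = P.asIdeal.under (𝓞 K) →
      3 ≤ w.asIdeal.ramificationIdx' P.asIdeal * w.asIdeal.inertiaDeg' P.asIdeal := by
    intro P hP
    have hl : P.asIdeal.LiesOver w.asIdeal := ⟨hP⟩
    have hPm := P.isMaximal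
    have h3 := (U2_three φ w hv P hP).1
    have h4 : w.asIdeal.inertiaDeg' P.asIdeal ≠ 0 := Ideal.inertiaDeg'_ne_zero _ _
    calc 3 ≤ w.asIdeal.ramificationIdx' P.asIdeal := h3
      _ ≤ _ := Nat.le_mul_of_pos_right _ (Nat.pos_of_ne_zero h4)
  have hex : ∃ P : HeightOneSpectrum (𝓞 N), w.asIdeal = P.asIdeal.under (𝓞 K) := by
    have hne : (IsDedekindDomain.primesOverFinset w.asIdeal (𝓞 N)).Nonempty := by
      rw [Finset.nonempty_iff_ne_empty]
      intro h0
      rw [h0, Finset.sum_empty] at hsum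
      omega
    obtain ⟨I, hI⟩ := hne
    obtain ⟨hI1, hI2⟩ := (IsDedekindDomain.mem_primesOverFinset_iff w.ne_bot _).mp hI
    have hI3 : I ≠ ⊥ := by
      rintro rfl
      have h5 : w.asIdeal = (⊥ : Ideal (𝓞 N)).under (𝓞 K) := hI2.over
      apply w.ne_bot
      rw [h5]
      exact Ideal.comap_bot_of_injective _ (FaithfulSMul.algebraMap_injective (𝓞 K) (𝓞 N))
    exact ⟨⟨I, hI1, hI3⟩, hI2.over⟩
  obtain ⟨P, hP⟩ := hex
  have hl : P.asIdeal.LiesOver w.asIdeal := ⟨hP⟩
  have hPm := P.isMaximal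
  have hle : w.asIdeal.ramificationIdx' P.asIdeal * w.asIdeal.inertiaDeg' P.asIdeal ≤ 3 := by
    rw [← hsum]
    exact Finset.single_le_sum (f := fun P => w.asIdeal.ramificationIdx' P * w.asIdeal.inertiaDeg' P)
      (fun _ _ => Nat.zero_le _) (hmem P hP)
  have h4 : w.asIdeal.inertiaDeg' P.asIdeal ≠ 0 := Ideal.inertiaDeg'_ne_zero _ _
  obtain ⟨h3, h5⟩ := U2_three φ w hv P hP
  have he : w.asIdeal.ramificationIdx' P.asIdeal = 3 := by
    apply le_antisymm _ h3
    calc w.asIdeal.ramificationIdx' P.asIdeal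
        ≤ w.asIdeal.ramificationIdx' P.asIdeal * w.asIdeal.inertiaDeg' P.asIdeal :=
          Nat.le_mul_of_pos_right _ (Nat.pos_of_ne_zero h4)
      _ ≤ 3 := hle
  refine ⟨P, hP, ?_, ?_, ?_⟩
  · intro P' hP'
    by_contra hne
    have hne' : P'.asIdeal ≠ P.asIdeal := fun h => hne (HeightOneSpectrum.ext h)
    have h6 := Finset.sum_le_sum_of_subset
      (f := fun P => w.asIdeal.ramificationIdx' P * w.asIdeal.inertiaDeg' P)
      (show ({P'.asIdeal, P.asIdeal} : Finset (Ideal (𝓞 N))) ⊆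
        IsDedekindDomain.primesOverFinset w.asIdeal (𝓞 N) by
        intro x hx
        rw [Finset.mem_insert, Finset.mem_singleton] at hx
        rcases hx with rfl | rfl
        · exact hmem P' hP'
        · exact hmem P hP)
    rw [Finset.sum_pair hne', hsum] at h6
    have h7 := hterm P' hP'
    have h8 := hterm P hP
    omega
  · rw [he] at h5
    have hne : P.valuation N (th φ) ≠ 0 := by
      intro h0
      rw [h0, zero_pow (by norm_num)] at h5
      exact pow_ne_zero _ WithZero.exp_ne_zero h5.symm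
    obtain ⟨k, hk⟩ : ∃ k : ℤ, P.valuation N (th φ) = WithZero.exp k :=
      ⟨WithZero.log (P.valuation N (th φ)), (WithZero.exp_log hne).symm⟩
    rw [hk, ← WithZero.exp_nsmul, ← WithZero.exp_nsmul, WithZero.exp_inj] at h5
    rw [hk, WithZero.exp_inj]
    simp only [nsmul_eq_mul] at h5
    push_cast at h5
    omega
  · intro x
    rw [← HeightOneSpectrum.valuation_liesOver N w P x, he]

theorem U2_max {N : Type} [Field N] {Γ : Type} [LinearOrderedCommGroupWithZero Γ]
    (v : Valuation N Γ) (g : Γ) (x y z : N) (hxy : v x = v y → x = 0 ∧ y = 0)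
    (hyz : v y = v z → y = 0 ∧ z = 0) (hxz : v x = v z → x = 0 ∧ z = 0) (h : v (x + y + z) ≤ g) :
    v x ≤ g ∧ v y ≤ g ∧ v z ≤ g := by
  have key : ∀ a b c : N, v b < v a → v c < v a → v (a + b + c) = v a := by
    intro a b c hb hc
    have h1 : v (a + b) = v a := Valuation.map_add_eq_of_lt_left _ hb
    have h2 : v (a + b + c) = v (a + b) := Valuation.map_add_eq_of_lt_left _ (by rw [h1]; exact hc)
    rw [h2, h1]
  have e1 : x + y + z = y + x + z := by ring
  have e2 : x + y + z = z + x + y := by ring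
  have fin : ∀ a b c : N, v (a + b + c) ≤ g → v b < v a → v c < v a → v a ≤ g ∧ v b ≤ g ∧ v c ≤ g := by
    intro a b c hs hb hc
    have h1 := key a b c hb hc
    rw [h1] at hs
    exact ⟨hs, hb.le.trans hs, hc.le.trans hs⟩
  rcases lt_trichotomy (v x) (v y) with h1 | h1 | h1
  · rcases lt_trichotomy (v y) (v z) with h2 | h2 | h2
    · have h3 := h1.trans h2
      rw [e2] at h
      obtain ⟨ha, hb, hc⟩ := fin z x y h h3 h2
      exact ⟨hb, hc, ha⟩
    · obtain ⟨hy, hz⟩ := hyz h2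
      rw [hy, map_zero] at h1
      exact absurd h1 (not_lt.2 zero_le)
    · rw [e1] at h
      obtain ⟨ha, hb, hc⟩ := fin y x z h h1 h2
      exact ⟨hb, ha, hc⟩
  · obtain ⟨hx, hy⟩ := hxy h1
    rw [hx, hy, zero_add, zero_add] at h
    rw [hx, hy, map_zero]
    exact ⟨zero_le, zero_le, h⟩
  · rcases lt_trichotomy (v x) (v z) with h2 | h2 | h2
    · rw [e2] at h
      obtain ⟨ha, hb, hc⟩ := fin z x y h h2 (h1.trans h2)
      exact ⟨hb, hc, ha⟩
    · obtain ⟨hx, hz⟩ := hxz h2
      rw [hx, map_zero] at h1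
      exact absurd h1 (not_lt.2 zero_le)
    · obtain ⟨ha, hb, hc⟩ := fin x y z h h1 h2
      exact ⟨ha, hb, hc⟩

theorem co2 (w : HeightOneSpectrum (𝓞 K)) (P : HeightOneSpectrum (𝓞 N))
    (ht : P.valuation N (th φ) = WithZero.exp (-1 : ℤ))
    (hP : ∀ x : K, P.valuation N (algebraMap K N x) = w.valuation K x ^ 3) (a b c : K)
    (g : WithZero (Multiplicative ℤ))
    (h : P.valuation N (algebraMap K N a + algebraMap K N b * th φ + algebraMap K N c * th φ ^ 2) ≤ g) :
    P.valuation N (algebraMap K N a) ≤ g ∧ P.valuation N (algebraMap K N b * th φ) ≤ g ∧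
      P.valuation N (algebraMap K N c * th φ ^ 2) ≤ g := by
  have hth : th φ ≠ 0 := by
    intro h0
    have h1 := th_cube φ
    rw [h0] at h1
    norm_num at h1
  have hexp : ∀ x : K, x ≠ 0 → ∃ k : ℤ, w.valuation K x = WithZero.exp k := by
    intro x hx
    have h1 : w.valuation K x ≠ 0 := (Valuation.ne_zero_iff _).2 hx
    exact ⟨WithZero.log (w.valuation K x), (WithZero.exp_log h1).symm⟩
  have key : ∀ (x y : K) (i j : ℕ), i < 3 → j < 3 → i ≠ j →
      P.valuation N (algebraMap K N x * th φ ^ i) = P.valuation N (algebraMap K N y * th φ ^ j) →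
      algebraMap K N x * th φ ^ i = 0 ∧ algebraMap K N y * th φ ^ j = 0 := by
    intro x y i j hi hj hij hxy
    by_cases hx : x = 0
    · subst hx
      rw [map_zero, zero_mul, map_zero] at hxy
      refine ⟨by rw [map_zero, zero_mul], ?_⟩
      exact (Valuation.zero_iff _).1 hxy.symm
    · by_cases hy : y = 0
      · subst hy
        rw [map_zero (algebraMap K N), zero_mul, map_zero] at hxy
        refine ⟨(Valuation.zero_iff _).1 hxy, by rw [map_zero, zero_mul]⟩
      · exfalso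
        obtain ⟨k, hk⟩ := hexp x hx
        obtain ⟨l, hl⟩ := hexp y hy
        rw [map_mul, map_mul, map_pow, map_pow, ht, hP, hP, hk, hl, ← WithZero.exp_nsmul,
          ← WithZero.exp_nsmul, ← WithZero.exp_nsmul, ← WithZero.exp_nsmul, ← WithZero.exp_add,
          ← WithZero.exp_add, WithZero.exp_inj] at hxy
        simp only [nsmul_eq_mul] at hxy
        push_cast at hxy
        omega
  have e0 : algebraMap K N a = algebraMap K N a * th φ ^ 0 := by rw [pow_zero, mul_one]
  have e1 : algebraMap K N b * th φ = algebraMap K N b * th φ ^ 1 := by rw [pow_one]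
  rw [e0, e1] at h ⊢
  exact U2_max (P.valuation N) g _ _ _ (key a b 0 1 (by norm_num) (by norm_num) (by norm_num))
    (key b c 1 2 (by norm_num) (by norm_num) (by norm_num)) (key a c 0 2 (by norm_num) (by norm_num) (by norm_num)) h

/-- The residue field at w is perfect. -/
theorem sqrt2 (w : HeightOneSpectrum (𝓞 K)) (h2 : (2 : 𝓞 K) ∈ w.asIdeal) (a : K)
    (ha : w.valuation K a ≤ 1) : ∃ c : K, w.valuation K c ≤ 1 ∧ w.valuation K (a - c ^ 2) < 1 := by
  obtain ⟨a0, ha0⟩ := HeightOneSpectrum.exists_valuation_sub_lt_of_integer w ha 1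
  have hwm := w.isMaximal
  let _ : Field (𝓞 K ⧸ w.asIdeal) := Ideal.Quotient.field w.asIdeal
  have : Finite (𝓞 K ⧸ w.asIdeal) := Ideal.finiteQuotientOfFreeOfNeBot w.asIdeal w.ne_bot
  have : CharP (𝓞 K ⧸ w.asIdeal) 2 := by
    refine CharTwo.of_one_ne_zero_of_two_eq_zero one_ne_zero ?_
    have h3 : (Ideal.Quotient.mk w.asIdeal) 2 = 0 := Ideal.Quotient.eq_zero_iff_mem.2 h2
    rwa [map_ofNat] at h3
  have hsurj : Function.Surjective (fun x : 𝓞 K ⧸ w.asIdeal => x ^ 2) := by
    apply Finite.surjective_of_injective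
    intro x y hxy
    have h4 : (x - y) ^ 2 = 0 := by
      have h5 : x ^ 2 = y ^ 2 := hxy
      rw [sub_pow_char (p := 2) x y, h5, sub_self]
    exact sub_eq_zero.1 (pow_eq_zero_iff (two_ne_zero)|>.1 h4)
  obtain ⟨c', hc'⟩ := hsurj (Ideal.Quotient.mk w.asIdeal a0)
  obtain ⟨c, rfl⟩ := Ideal.Quotient.mk_surjective c'
  have hmem : a0 - c ^ 2 ∈ w.asIdeal := by
    rw [← Ideal.Quotient.eq_zero_iff_mem, map_sub, map_pow, sub_eq_zero]
    exact hc'.symm
  refine ⟨algebraMap (𝓞 K) K c, w.valuation_le_one c, ?_⟩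
  have h6 : w.valuation K (algebraMap (𝓞 K) K (a0 - c ^ 2)) < 1 :=
    (HeightOneSpectrum.valuation_lt_one_iff_mem _ _).2 hmem
  have h7 : w.valuation K (algebraMap (𝓞 K) K a0 - a) < 1 := by simpa using ha0
  have h8 : a - algebraMap (𝓞 K) K c ^ 2 =
      algebraMap (𝓞 K) K (a0 - c ^ 2) - (algebraMap (𝓞 K) K a0 - a) := by
    rw [map_sub, map_pow]
    ring
  rw [h8]
  exact lt_of_le_of_lt (Valuation.map_sub _ _ _) (max_lt h6 h7)

end H19X
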