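import Mathlib
import Pool.Agent.Lib.H19X.U2

open NumberField IsDedekindDomain

namespace H19X

open H55B H55C H55E

/-! Chunk A2 (L): normal form above 2, first half. Level n means valuation <= exp(-n) at P; an element of K of
level > 3j is of level 3(j+1), and has w-valuation <= v(2)^(j+1) (hP). co2: coordinates of an element of level n:
a of level n, b th, c th^2 of level n.
step1: m = b0^2 (1 + al), al of level 2: al = 2a + 2b th + c th^2 with a, b, c integral at w. Choose g with g^2 = c mod 2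
(sqrt2). (1 + g th)^2 = 1 + 2g th + g^2 th^2, so m/(b0 (1 + g th))^2 = 1 + be with be of level 3, so
be = 2a' + 2b' th + 2c' th^2, a', b', c' integral at w.
step2: the norm of 1 + be is (1 + 2a')^3 + 2 (2b')^3 + 4 (2c')^3 - 6 (1+2a')(2b')(2c') = A^3 mod 8, A = 1 + 2a'
(norm_co), and it is n1^2, n1 = n/norm(b0 (1 + g th)). s = n1/A: s^2 = A mod 8 (A is a unit at w); s^2 = 1 mod 2, so (s - 1)^2 =
s^2 - 2s + 1 has valuation < 1, s = 1 + 2t with t integral. Divide by s^2:
m/(b0 (1 + g th) s)^2 = 1 + 2B th + 2C th^2 modulo 8 (A/s^2 = 1 mod 8). Level 8 <= level 6. -/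

section lev

variable {R : Type*} [CommRing R] (v : Valuation R (WithZero (Multiplicative ℤ)))

/-- `x` is of level `n`. -/
def A2_lev (n : ℤ) (x : R) : Prop := v x ≤ WithZero.exp (-n)

variable {v}

theorem A2_mono {a b : ℤ} {x : R} (h : A2_lev v a x) (hab : b ≤ a) : A2_lev v b x :=
  le_trans h (by rw [WithZero.exp_le_exp]; omega)

theorem A2_add {a : ℤ} {x y : R} (h : A2_lev v a x) (h' : A2_lev v a y) : A2_lev v a (x + y) :=
  v.map_add_le h h'

theorem A2_sub {a : ℤ} {x y : R} (h : A2_lev v a x) (h' : A2_lev v a y) : A2_lev v a (x - y) :=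
  v.map_sub_le h h'

theorem A2_mul {a b : ℤ} {x y : R} (h : A2_lev v a x) (h' : A2_lev v b y) :
    A2_lev v (a + b) (x * y) := by
  unfold A2_lev at *
  rw [map_mul, neg_add, WithZero.exp_add]
  exact mul_le_mul' h h'

theorem A2_mul' {a b c : ℤ} {x y : R} (h : A2_lev v a x) (h' : A2_lev v b y) (hc : c ≤ a + b) :
    A2_lev v c (x * y) := A2_mono (A2_mul h h') hc

theorem A2_one : A2_lev v 0 (1 : R) := by
  unfold A2_lev
  simp

theorem A2_root {x : WithZero (Multiplicative ℤ)} {n m : ℤ} (h : x ^ 3 ≤ WithZero.exp n)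
    (hnm : n ≤ 3 * m + 2) : x ≤ WithZero.exp m := by
  by_cases hx : x = 0
  · rw [hx]; exact zero_le
  · obtain ⟨k, rfl⟩ : ∃ k : ℤ, x = WithZero.exp k := ⟨WithZero.log x, (WithZero.exp_log hx).symm⟩
    rw [← WithZero.exp_nsmul, WithZero.exp_le_exp] at h
    rw [WithZero.exp_le_exp]
    simp only [nsmul_eq_mul, Nat.cast_ofNat] at h
    omega

theorem A2_lt_one {x : WithZero (Multiplicative ℤ)} (h : x < 1) : x ≤ WithZero.exp (-1 : ℤ) := by
  by_cases hx : x = 0
  · rw [hx]; exact zero_le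
  · obtain ⟨k, rfl⟩ : ∃ k : ℤ, x = WithZero.exp k := ⟨WithZero.log x, (WithZero.exp_log hx).symm⟩
    rw [← WithZero.exp_zero, WithZero.exp_lt_exp] at h
    rw [WithZero.exp_le_exp]
    omega

theorem A2_canc {x a : WithZero (Multiplicative ℤ)} {n m k : ℤ} (ha : a = WithZero.exp n)
    (h : x * a ≤ WithZero.exp m) (hk : m - n = k) : x ≤ WithZero.exp k := by
  by_cases hx : x = 0
  · rw [hx]; exact zero_le
  · obtain ⟨k, rfl⟩ : ∃ k : ℤ, x = WithZero.exp k := ⟨WithZero.log x, (WithZero.exp_log hx).symm⟩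
    rw [ha, ← WithZero.exp_add, WithZero.exp_le_exp] at h
    rw [WithZero.exp_le_exp]
    omega

/-- `1 + x` is a unit if `x` has positive level. -/
theorem A2_unit {x : R} (h : A2_lev v 1 x) : v (1 + x) = 1 := by
  apply v.map_one_add_of_lt
  refine lt_of_le_of_lt h ?_
  rw [← WithZero.exp_zero, WithZero.exp_lt_exp]
  omega

end lev

variable {K N : Type} [Field K] [NumberField K] [Field N] [NumberField N] [Algebra K N]
  (φ : Cub K ≃ₐ[K] N)

/-- Dividing by a unit. -/
theorem A2_divu {F' : Type*} [Field F'] {v : Valuation F' (WithZero (Multiplicative ℤ))} {n : ℤ}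
    {x u : F'} (hu : v u = 1) (h : A2_lev v n x) : A2_lev v n (x / u) := by
  unfold A2_lev at *
  rw [map_div₀, hu, div_one]
  exact h

/-- An integral element of `K` has level `0`. -/
theorem A2_int (w : HeightOneSpectrum (𝓞 K)) (P : HeightOneSpectrum (𝓞 N))
    (hP : ∀ x : K, P.valuation N (algebraMap K N x) = w.valuation K x ^ 3) {x : K}
    (hx : w.valuation K x ≤ 1) : A2_lev (P.valuation N) 0 (algebraMap K N x) := by
  unfold A2_lev
  rw [hP, neg_zero, WithZero.exp_zero]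
  exact pow_le_one' hx 3

/-- An element of `K` of `w`-valuation at most `exp (-j)` has level `3 j`. -/
theorem A2_low (w : HeightOneSpectrum (𝓞 K)) (P : HeightOneSpectrum (𝓞 N))
    (hP : ∀ x : K, P.valuation N (algebraMap K N x) = w.valuation K x ^ 3) {x : K} {j : ℤ}
    (hx : w.valuation K x ≤ WithZero.exp (-j)) :
    A2_lev (P.valuation N) (3 * j) (algebraMap K N x) := by
  unfold A2_lev
  rw [hP]
  calc w.valuation K x ^ 3 ≤ WithZero.exp (-j) ^ 3 := pow_le_pow_left' hx 3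
    _ = WithZero.exp (-(3 * j)) := by
        rw [← WithZero.exp_nsmul]
        congr 1
        simp only [nsmul_eq_mul, Nat.cast_ofNat]
        ring

theorem A2_two (w : HeightOneSpectrum (𝓞 K))
    (hv : w.valuation K (2 : K) = WithZero.exp (-1 : ℤ)) (P : HeightOneSpectrum (𝓞 N))
    (hP : ∀ x : K, P.valuation N (algebraMap K N x) = w.valuation K x ^ 3) :
    A2_lev (P.valuation N) 3 (2 : N) := by
  have h := A2_low w P hP (x := 2) (j := 1) (le_of_eq hv)
  rw [map_ofNat] at h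
  exact h

/-- Half of an element of `K` of `w`-valuation at most `exp (-1)`. -/
theorem A2_half (w : HeightOneSpectrum (𝓞 K))
    (hv : w.valuation K (2 : K) = WithZero.exp (-1 : ℤ)) {x : K}
    (hx : w.valuation K x ≤ WithZero.exp (-1 : ℤ)) :
    ∃ y : K, x = 2 * y ∧ w.valuation K y ≤ 1 := by
  refine ⟨x / 2, by ring, ?_⟩
  have h : w.valuation K (x / 2) * w.valuation K (2 : K) ≤ WithZero.exp (-1 : ℤ) := by
    rw [← map_mul, div_mul_cancel₀ x (two_ne_zero)]
    exact hx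
  have h2 := A2_canc hv h (k := 0) (by norm_num)
  rw [WithZero.exp_zero] at h2
  exact h2

theorem normal_A (w : HeightOneSpectrum (𝓞 K)) (h2 : (2 : 𝓞 K) ∈ w.asIdeal)
    (hv : w.valuation K (2 : K) = WithZero.exp (-1 : ℤ)) (P : HeightOneSpectrum (𝓞 N))
    (ht : P.valuation N (th φ) = WithZero.exp (-1 : ℤ))
    (hP : ∀ x : K, P.valuation N (algebraMap K N x) = w.valuation K x ^ 3) (m : N) (hm : m ≠ 0)
    (n : K) (hn : Algebra.norm K m = n ^ 2)
    (h : ∃ b : N, b ≠ 0 ∧ P.valuation N (m / b ^ 2 - 1) ≤ P.valuation N (th φ ^ 2)) :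
    ∃ (b : N) (B C : K), b ≠ 0 ∧ w.valuation K B ≤ 1 ∧ w.valuation K C ≤ 1 ∧
      P.valuation N (m / b ^ 2 - (1 + algebraMap K N (2 * B) * th φ +
        algebraMap K N (2 * C) * th φ ^ 2)) ≤ WithZero.exp (-6 : ℤ) := by
  obtain ⟨b0, hb0, h0⟩ := h
  have hT : A2_lev (P.valuation N) 1 (th φ) := le_of_eq ht
  have hT2 : P.valuation N (th φ ^ 2) = WithZero.exp (-2 : ℤ) := by
    rw [map_pow, ht, ← WithZero.exp_nsmul]
    norm_num
  have hT2' : A2_lev (P.valuation N) 2 (th φ ^ 2) := le_of_eq hT2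
  have h2L := A2_two w hv P hP
  -- step 1
  rw [hT2] at h0
  obtain ⟨a, b, c, hal⟩ := span_co φ (m / b0 ^ 2 - 1)
  have hco := co2 φ w P ht hP a b c (WithZero.exp (-2 : ℤ)) (by rw [← hal]; exact h0)
  obtain ⟨a', ha, ha'⟩ := A2_half w hv (x := a) (by
    have h3 := hco.1
    rw [hP] at h3
    exact A2_root h3 (by norm_num))
  obtain ⟨b', hb, hb'⟩ := A2_half w hv (x := b) (by
    have h3 := hco.2.1
    rw [map_mul] at h3
    have h4 := A2_canc ht h3 (k := -1) (by norm_num)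
    rw [hP] at h4
    exact A2_root h4 (by norm_num))
  have hc : w.valuation K c ≤ 1 := by
    have h3 := hco.2.2
    rw [map_mul] at h3
    have h4 := A2_canc hT2 h3 (k := 0) (by norm_num)
    rw [hP] at h4
    have h5 := A2_root h4 (m := 0) (by norm_num)
    rw [WithZero.exp_zero] at h5
    exact h5
  obtain ⟨g, hg, hcg⟩ := sqrt2 w h2 c hc
  have hgL := A2_int w P hP hg
  have hu1 : P.valuation N (1 + algebraMap K N g * th φ) = 1 :=
    A2_unit (A2_mul' hgL hT (by norm_num))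
  obtain ⟨u, hu⟩ : ∃ u, u = 1 + algebraMap K N g * th φ := ⟨_, rfl⟩
  rw [← hu] at hu1
  have hu0 : u ≠ 0 := by
    rintro rfl
    rw [map_zero] at hu1
    exact zero_ne_one hu1
  obtain ⟨b1, hb1⟩ : ∃ b1, b1 = b0 * u := ⟨_, rfl⟩
  have hb10 : b1 ≠ 0 := by rw [hb1]; exact mul_ne_zero hb0 hu0
  have hu2 : P.valuation N (u ^ 2) = 1 := by rw [map_pow, hu1, one_pow]
  have hbe : A2_lev (P.valuation N) 3 (m / b1 ^ 2 - 1) := by
    have e1 : m / b1 ^ 2 - 1 = (m / b0 ^ 2 - u ^ 2) / u ^ 2 := by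
      rw [hb1]
      field_simp
    rw [e1]
    apply A2_divu hu2
    have e2 : m / b0 ^ 2 - u ^ 2 = 2 * algebraMap K N a' +
        2 * (algebraMap K N (b' - g) * th φ) + algebraMap K N (c - g ^ 2) * th φ ^ 2 := by
      have e3 : m / b0 ^ 2 = 1 + (algebraMap K N a + algebraMap K N b * th φ +
          algebraMap K N c * th φ ^ 2) := by rw [← hal]; ring
      rw [e3, hu, ha, hb]
      simp only [map_mul, map_sub, map_pow, map_ofNat]
      ring
    rw [e2]
    refine A2_add (A2_add ?_ ?_) ?_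
    · exact A2_mul' h2L (A2_int w P hP ha') (by norm_num)
    · refine A2_mul' h2L (A2_mul' (A2_int w P hP (x := b' - g) ?_) hT le_rfl) (by norm_num)
      exact (w.valuation K).map_sub_le hb' hg
    · exact A2_mul' (A2_low w P hP (j := 1) (A2_lt_one hcg)) hT2' (by norm_num)
  obtain ⟨a, b, c, hal2⟩ := span_co φ (m / b1 ^ 2 - 1)
  have hco := co2 φ w P ht hP a b c (WithZero.exp (-3 : ℤ)) (by rw [← hal2]; exact hbe)
  obtain ⟨a1, ha1, ha1'⟩ := A2_half w hv (x := a) (by
    have h3 := hco.1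
    rw [hP] at h3
    exact A2_root h3 (by norm_num))
  obtain ⟨b2, hb2, hb2'⟩ := A2_half w hv (x := b) (by
    have h3 := hco.2.1
    rw [map_mul] at h3
    have h4 := A2_canc ht h3 (k := -2) (by norm_num)
    rw [hP] at h4
    exact A2_root h4 (by norm_num))
  obtain ⟨c2, hc2, hc2'⟩ := A2_half w hv (x := c) (by
    have h3 := hco.2.2
    rw [map_mul] at h3
    have h4 := A2_canc hT2 h3 (k := -1) (by norm_num)
    rw [hP] at h4
    exact A2_root h4 (by norm_num))
  -- step 2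
  have hmb : m / b1 ^ 2 = algebraMap K N (1 + 2 * a1) + algebraMap K N (2 * b2) * th φ +
      algebraMap K N (2 * c2) * th φ ^ 2 := by
    have e3 : m / b1 ^ 2 = 1 + (m / b1 ^ 2 - 1) := by ring
    rw [e3, hal2, ha1, hb2, hc2]
    simp only [map_add, map_one]
    ring
  have h2K : A2_lev (w.valuation K) 1 (2 : K) := le_of_eq hv
  have hi : ∀ {x : K}, w.valuation K x ≤ 1 → A2_lev (w.valuation K) 0 x := by
    intro x hx
    unfold A2_lev
    rw [neg_zero, WithZero.exp_zero]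
    exact hx
  have hA : w.valuation K (1 + 2 * a1) = 1 := A2_unit (A2_mul' h2K (hi ha1') (by norm_num))
  obtain ⟨A, hAd⟩ : ∃ A, A = 1 + 2 * a1 := ⟨_, rfl⟩
  rw [← hAd] at hA hmb
  have hA0 : A ≠ 0 := by
    rintro rfl
    rw [map_zero] at hA
    exact zero_ne_one hA
  obtain ⟨n1, hn1⟩ : ∃ n1 : K, n1 = n / Algebra.norm K b1 := ⟨_, rfl⟩
  have hnb : Algebra.norm K b1 ≠ 0 := by
    rw [Ne, Algebra.norm_eq_zero_iff]
    exact hb10
  have hnorm : n1 ^ 2 = A ^ 3 + 2 * (2 * b2) ^ 3 + 4 * (2 * c2) ^ 3 - 6 * A * (2 * b2) * (2 * c2) := by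
    rw [← norm_co φ, ← hmb, hn1]
    have e1 : Algebra.norm K m = Algebra.norm K (m / b1 ^ 2) * Algebra.norm K b1 ^ 2 := by
      rw [← map_pow, ← map_mul, div_mul_cancel₀ m (pow_ne_zero 2 hb10)]
    rw [hn] at e1
    rw [div_pow, e1, mul_div_cancel_right₀ _ (pow_ne_zero 2 hnb)]
  have h4L : A2_lev (w.valuation K) 3 (8 : K) := by
    have e : (8 : K) = 2 * 2 * 2 := by norm_num
    rw [e]
    exact A2_mul' (A2_mul' h2K h2K le_rfl) h2K (by norm_num)
  have hint : ∀ k : ℕ, A2_lev (w.valuation K) 0 (k : K) := by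
    intro k
    apply hi
    have e : (k : K) = algebraMap (𝓞 K) K (k : 𝓞 K) := by simp
    rw [e]
    exact w.valuation_le_one _
  have hn8 : A2_lev (w.valuation K) 3 (n1 ^ 2 - A ^ 3) := by
    have e : n1 ^ 2 - A ^ 3 = 8 * (((2 : ℕ) : K) * (b2 * (b2 * b2)) + ((4 : ℕ) : K) * (c2 * (c2 * c2)) -
        ((3 : ℕ) : K) * (A * (b2 * c2))) := by
      rw [hnorm]
      push_cast
      ring
    rw [e]
    have hb0' := hi hb2'
    have hc0' := hi hc2'
    have hA0' := hi (le_of_eq hA)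
    refine A2_mul' h4L (A2_sub (A2_add ?_ ?_) ?_) (b := 0) (by norm_num)
    · exact A2_mul' (hint 2) (A2_mul' hb0' (A2_mul' hb0' hb0' le_rfl) le_rfl) (by norm_num)
    · exact A2_mul' (hint 4) (A2_mul' hc0' (A2_mul' hc0' hc0' le_rfl) le_rfl) (by norm_num)
    · exact A2_mul' (hint 3) (A2_mul' hA0' (A2_mul' hb0' hc0' le_rfl) le_rfl) (by norm_num)
  obtain ⟨s, hs⟩ : ∃ s, s = n1 / A := ⟨_, rfl⟩
  have hA2 : w.valuation K (A ^ 2) = 1 := by rw [map_pow, hA, one_pow]
  have hsA : A2_lev (w.valuation K) 3 (s ^ 2 - A) := by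
    have e : s ^ 2 - A = (n1 ^ 2 - A ^ 3) / A ^ 2 := by
      rw [hs]
      field_simp
    rw [e]
    exact A2_divu hA2 hn8
  have hs1 : w.valuation K s = 1 := by
    have h5 : w.valuation K (s ^ 2) = 1 := by
      have e : s ^ 2 = 1 + ((s ^ 2 - A) + 2 * a1) := by rw [hAd]; ring
      rw [e]
      exact A2_unit (A2_add (A2_mono hsA (by norm_num)) (A2_mul' h2K (hi ha1') (by norm_num)))
    rw [map_pow] at h5
    by_cases hz : w.valuation K s = 0
    · rw [hz] at h5
      simp at h5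
    · obtain ⟨k, hk⟩ : ∃ k : ℤ, w.valuation K s = WithZero.exp k :=
        ⟨WithZero.log _, (WithZero.exp_log hz).symm⟩
      rw [hk, ← WithZero.exp_nsmul, WithZero.exp_eq_one] at h5
      have hk0 : k = 0 := by simpa using h5
      rw [hk, hk0, WithZero.exp_zero]
  have hs0 : s ≠ 0 := by
    rintro rfl
    rw [map_zero] at hs1
    exact zero_ne_one hs1
  have hs2 : w.valuation K (s ^ 2) = 1 := by rw [map_pow, hs1, one_pow]
  have hsN : algebraMap K N s ≠ 0 := by
    rw [Ne, map_eq_zero]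
    exact hs0
  refine ⟨b1 * algebraMap K N s, b2 / s ^ 2, c2 / s ^ 2, mul_ne_zero hb10 hsN, ?_, ?_, ?_⟩
  · rw [map_div₀, hs2, div_one]; exact hb2'
  · rw [map_div₀, hs2, div_one]; exact hc2'
  · have e : m / (b1 * algebraMap K N s) ^ 2 - (1 + algebraMap K N (2 * (b2 / s ^ 2)) * th φ +
        algebraMap K N (2 * (c2 / s ^ 2)) * th φ ^ 2) = algebraMap K N ((A - s ^ 2) / s ^ 2) := by
      have e1 : m / (b1 * algebraMap K N s) ^ 2 = (m / b1 ^ 2) / algebraMap K N s ^ 2 := by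
        field_simp
      rw [e1, hmb]
      simp only [map_mul, map_div₀, map_sub, map_pow, map_ofNat]
      field_simp
      ring
    rw [e]
    have h6 : w.valuation K ((A - s ^ 2) / s ^ 2) ≤ WithZero.exp (-3 : ℤ) := by
      rw [map_div₀, hs2, div_one, Valuation.map_sub_swap]
      exact hsA
    exact A2_mono (A2_low w P hP (j := 3) h6) (by norm_num)

end H19X
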