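import Mathlib
import Pool.Agent.Lib.H19X.A2

open NumberField IsDedekindDomain

namespace H19X

open H55B H55C H55E

/-! Chunk B2 (M): normal form above 2, second half. Choose g with g^2 = B mod 2 (sqrt2). (1 + g th^2)^2 = 1 + 2g th^2 +
g^2 th^4 = 1 + 2g th^2 + 2g^2 th, so m/(b (1 + g th^2))^2 = 1 + 2(B - g^2) th + 2(C - g) th^2 up to level 6
(all other terms are products of two terms of level >= 4, or of level 6); 2(B - g^2) th has level 7. New C is C - g. -/

variable {K N : Type} [Field K] [NumberField K] [Field N] [NumberField N] [Algebra K N]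
  (φ : Cub K ≃ₐ[K] N)

theorem normal_B (w : HeightOneSpectrum (𝓞 K)) (h2 : (2 : 𝓞 K) ∈ w.asIdeal)
    (hv : w.valuation K (2 : K) = WithZero.exp (-1 : ℤ)) (P : HeightOneSpectrum (𝓞 N))
    (ht : P.valuation N (th φ) = WithZero.exp (-1 : ℤ))
    (hP : ∀ x : K, P.valuation N (algebraMap K N x) = w.valuation K x ^ 3) (m : N)
    (h : ∃ (b : N) (B C : K), b ≠ 0 ∧ w.valuation K B ≤ 1 ∧ w.valuation K C ≤ 1 ∧
      P.valuation N (m / b ^ 2 - (1 + algebraMap K N (2 * B) * th φ +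
        algebraMap K N (2 * C) * th φ ^ 2)) ≤ WithZero.exp (-6 : ℤ)) :
    ∃ (b : N) (C : K), b ≠ 0 ∧ w.valuation K C ≤ 1 ∧
      P.valuation N (m / b ^ 2 - (1 + algebraMap K N (2 * C) * th φ ^ 2)) ≤
        WithZero.exp (-6 : ℤ) := by
  obtain ⟨b, B, C, hb, hB, hC, h0⟩ := h
  obtain ⟨g, hg, hBg⟩ := sqrt2 w h2 B hB
  have hT : A2_lev (P.valuation N) 1 (th φ) := le_of_eq ht
  have hT2 : A2_lev (P.valuation N) 2 (th φ ^ 2) := by
    rw [pow_two]
    exact A2_mul' hT hT (by norm_num)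
  have h2L := A2_two w hv P hP
  have hgL := A2_int w P hP hg
  have hCg : w.valuation K (C - g) ≤ 1 := (w.valuation K).map_sub_le hC hg
  have hCgL := A2_int w P hP hCg
  obtain ⟨u, hu⟩ : ∃ u, u = 1 + algebraMap K N g * th φ ^ 2 := ⟨_, rfl⟩
  have hu1 : P.valuation N u = 1 := by
    rw [hu]
    exact A2_unit (A2_mul' hgL hT2 (by norm_num))
  have hu0 : u ≠ 0 := by
    rintro rfl
    rw [map_zero] at hu1
    exact zero_ne_one hu1
  have hu2 : P.valuation N (u ^ 2) = 1 := by rw [map_pow, hu1, one_pow]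
  have hc3 := th_cube φ
  refine ⟨b * u, C - g, mul_ne_zero hb hu0, hCg, ?_⟩
  obtain ⟨ε, hε⟩ : ∃ ε, ε = m / b ^ 2 - (1 + algebraMap K N (2 * B) * th φ +
        algebraMap K N (2 * C) * th φ ^ 2) := ⟨_, rfl⟩
  have hεL : A2_lev (P.valuation N) 6 ε := by rw [hε]; exact h0
  have e1 : m / (b * u) ^ 2 - (1 + algebraMap K N (2 * (C - g)) * th φ ^ 2) =
      (m / b ^ 2 - (1 + algebraMap K N (2 * (C - g)) * th φ ^ 2) * u ^ 2) / u ^ 2 := by
    field_simp
  have e2 : m / b ^ 2 = 1 + algebraMap K N (2 * B) * th φ +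
        algebraMap K N (2 * C) * th φ ^ 2 + ε := by rw [hε]; ring
  have e3 : m / b ^ 2 - (1 + algebraMap K N (2 * (C - g)) * th φ ^ 2) * u ^ 2 =
      2 * (algebraMap K N (B - g ^ 2) * th φ) -
        2 * (2 * (algebraMap K N (C - g) * (algebraMap K N g * (th φ ^ 2 * th φ ^ 2)))) -
        2 * (2 * (algebraMap K N (C - g) * (algebraMap K N g * (algebraMap K N g *
          (th φ * th φ ^ 2))))) + ε := by
    rw [e2, hu]
    simp only [map_mul, map_sub, map_pow, map_ofNat]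
    linear_combination (-(algebraMap K N g ^ 2 * th φ) -
      2 * (algebraMap K N C - algebraMap K N g) * algebraMap K N g ^ 2 * th φ ^ 3) * hc3
  unfold A2_lev at *
  rw [e1]
  apply A2_divu hu2
  rw [e3]
  refine A2_add (A2_sub (A2_sub ?_ ?_) ?_) hεL
  · exact A2_mul' (a := 3) h2L (A2_mul' (a := 3) (A2_low w P hP (j := 1) (A2_lt_one hBg)) hT le_rfl)
      (by norm_num)
  · exact A2_mul' (a := 3) h2L (A2_mul' (a := 3) h2L (A2_mul' (a := 0) hCgL
      (A2_mul' (a := 0) hgL (A2_mul' (a := 2) hT2 hT2 le_rfl) le_rfl) le_rfl) le_rfl) (by norm_num)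
  · exact A2_mul' (a := 3) h2L (A2_mul' (a := 3) h2L (A2_mul' (a := 0) hCgL
      (A2_mul' (a := 0) hgL (A2_mul' (a := 0) hgL (A2_mul' (a := 1) hT hT2 le_rfl) le_rfl)
        le_rfl) le_rfl) le_rfl) (by norm_num)

end H19X
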