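import Mathlib
import Pool.Agent.Lib.H19X.A2

open NumberField IsDedekindDomain

namespace H19X

open H55B H55C H55E

/-! Chunk C2 (M): multiplication by a formal group point. Choose r in K, r <> 0, v_w(r) <= 1, v_w(C - r) < 1 (r = C, or r = 2 if
C = 0). g = 2(2x + d th) with x = 1/(4 r^2): r^2 g = 1 + 2 d r^2 th = 1 + d r^2 th^4, and (1 + r th^2)^2 =
1 + 2r th^2 + r^2 th^4, so r^2 g = (1 + r th^2)^2 - 2r th^2 + (d - 1) r^2 th^4, the last term of level >= 10 (4 | d - 1).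
With b' = b (1 + r th^2)/r: m g/b'^2 = (1 + 2C th^2 + level 6)(1 - 2r th^2/(1 + r th^2)^2 + level 10) = 1 + 2(C - r) th^2
+ level 6, and 2(C - r) th^2 has level >= 8. -/

variable {K N : Type} [Field K] [NumberField K] [Field N] [NumberField N] [Algebra K N]
  (φ : Cub K ≃ₐ[K] N)

theorem normal_C (w : HeightOneSpectrum (𝓞 K)) (h2 : (2 : 𝓞 K) ∈ w.asIdeal)
    (hv : w.valuation K (2 : K) = WithZero.exp (-1 : ℤ)) (P : HeightOneSpectrum (𝓞 N))
    (ht : P.valuation N (th φ) = WithZero.exp (-1 : ℤ))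
    (hP : ∀ x : K, P.valuation N (algebraMap K N x) = w.valuation K x ^ 3) (d : ℤ) (hd : d % 4 = 1)
    (m : N)
    (h : ∃ (b : N) (C : K), b ≠ 0 ∧ w.valuation K C ≤ 1 ∧
      P.valuation N (m / b ^ 2 - (1 + algebraMap K N (2 * C) * th φ ^ 2)) ≤
        WithZero.exp (-6 : ℤ)) :
    ∃ (r : K) (b : N), r ≠ 0 ∧ w.valuation K r ≤ 1 ∧ b ≠ 0 ∧
      P.valuation N (m * (2 * (2 * algebraMap K N (1 / (4 * r ^ 2)) + (d : N) * th φ)) / b ^ 2 - 1) ≤
        WithZero.exp (-6 : ℤ) := by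
  obtain ⟨b, C, hb, hC, h0⟩ := h
  obtain ⟨r, hr0, hr, hCr⟩ : ∃ r : K, r ≠ 0 ∧ w.valuation K r ≤ 1 ∧
      w.valuation K (C - r) ≤ WithZero.exp (-1 : ℤ) := by
    by_cases hC0 : C = 0
    · refine ⟨2, two_ne_zero, ?_, ?_⟩
      · rw [hv, ← WithZero.exp_zero, WithZero.exp_le_exp]
        norm_num
      · rw [hC0, zero_sub, Valuation.map_neg, hv]
    · exact ⟨C, hC0, hC, by rw [sub_self, map_zero]; exact zero_le⟩
  obtain ⟨k, hk⟩ : ∃ k : ℤ, d = 1 + 4 * k := ⟨d / 4, by omega⟩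
  have hT : A2_lev (P.valuation N) 1 (th φ) := le_of_eq ht
  have hT2 : A2_lev (P.valuation N) 2 (th φ ^ 2) := by
    rw [pow_two]
    exact A2_mul' hT hT (by norm_num)
  have h2L := A2_two w hv P hP
  have hrL := A2_int w P hP hr
  have hCL := A2_int w P hP hC
  have hCrL := A2_low w P hP (x := C - r) (j := 1) hCr
  have hkL : A2_lev (P.valuation N) 0 (k : N) := by
    unfold A2_lev
    have e : (k : N) = algebraMap (𝓞 N) N (k : 𝓞 N) := by simp
    rw [e, neg_zero, WithZero.exp_zero]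
    exact P.valuation_le_one _
  obtain ⟨R, hR⟩ : ∃ R, R = algebraMap K N r := ⟨_, rfl⟩
  have hR0 : R ≠ 0 := by
    rw [hR, Ne, map_eq_zero]
    exact hr0
  rw [← hR] at hrL
  obtain ⟨u, hu⟩ : ∃ u, u = 1 + R * th φ ^ 2 := ⟨_, rfl⟩
  have hu1 : P.valuation N u = 1 := by
    rw [hu]
    exact A2_unit (A2_mul' hrL hT2 (by norm_num))
  have hu0 : u ≠ 0 := by
    rintro rfl
    rw [map_zero] at hu1
    exact zero_ne_one hu1
  have hu2 : P.valuation N (u ^ 2) = 1 := by rw [map_pow, hu1, one_pow]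
  have hc3 := th_cube φ
  refine ⟨r, b * u / R, hr0, hr, div_ne_zero (mul_ne_zero hb hu0) hR0, ?_⟩
  obtain ⟨ε, hε⟩ : ∃ ε, ε = m / b ^ 2 - (1 + algebraMap K N (2 * C) * th φ ^ 2) := ⟨_, rfl⟩
  have hεL : A2_lev (P.valuation N) 6 ε := by rw [hε]; exact h0
  have e2 : m / b ^ 2 = 1 + algebraMap K N (2 * C) * th φ ^ 2 + ε := by rw [hε]; ring
  have e0 : R ^ 2 * (2 * (2 * algebraMap K N (1 / (4 * r ^ 2)) + (d : N) * th φ)) =
      1 + 2 * (d : N) * R ^ 2 * th φ := by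
    rw [map_div₀, map_one, map_mul, map_pow, map_ofNat, ← hR]
    field_simp
    ring
  have e1 : m * (2 * (2 * algebraMap K N (1 / (4 * r ^ 2)) + (d : N) * th φ)) / (b * u / R) ^ 2 - 1 =
      ((m / b ^ 2) * (1 + 2 * (d : N) * R ^ 2 * th φ) - u ^ 2) / u ^ 2 := by
    rw [← e0]
    field_simp
  have e3 : (m / b ^ 2) * (1 + 2 * (d : N) * R ^ 2 * th φ) - u ^ 2 =
      2 * (algebraMap K N (C - r) * th φ ^ 2) +
      2 * (2 * (2 * ((k : N) * (R * (R * th φ))))) +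
      2 * (algebraMap K N C * (th φ ^ 2 * (2 * ((1 + 2 * (2 * (k : N))) * (R * (R * th φ)))))) +
      ε * (1 + 2 * ((1 + 2 * (2 * (k : N))) * (R * (R * th φ)))) := by
    rw [e2, hu, hk]
    push_cast
    simp only [map_mul, map_sub, map_ofNat, ← hR]
    linear_combination (-(R ^ 2 * th φ)) * hc3
  unfold A2_lev at *
  rw [e1]
  apply A2_divu hu2
  rw [e3]
  have hRRT : A2_lev (P.valuation N) 1 (R * (R * th φ)) :=
    A2_mul' (a := 0) hrL (A2_mul' (a := 0) hrL hT le_rfl) (by norm_num)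
  have h1k : A2_lev (P.valuation N) 0 (1 + 2 * (2 * (k : N))) :=
    A2_add A2_one (A2_mul' (a := 3) h2L (A2_mul' (a := 3) h2L hkL le_rfl) (by norm_num))
  refine A2_add (A2_add (A2_add ?_ ?_) ?_) ?_
  · exact A2_mul' (a := 3) h2L (A2_mul' (a := 3) hCrL hT2 le_rfl) (by norm_num)
  · exact A2_mul' (a := 3) h2L (A2_mul' (a := 3) h2L (A2_mul' (a := 3) h2L
      (A2_mul' (a := 0) hkL hRRT le_rfl) le_rfl) le_rfl) (by norm_num)
  · exact A2_mul' (a := 3) h2L (A2_mul' (a := 0) hCL (A2_mul' (a := 2) hT2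
      (A2_mul' (a := 3) h2L (A2_mul' (a := 0) h1k hRRT le_rfl) le_rfl) le_rfl) le_rfl) (by norm_num)
  · refine A2_mul' (a := 6) (b := 0) hεL (A2_add A2_one ?_) (by norm_num)
    exact A2_mul' (a := 3) h2L (A2_mul' (a := 0) h1k hRRT le_rfl) (by norm_num)

end H19X
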