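import Mathlib
import Pool.Agent.Lib.H19X.U2

open NumberField IsDedekindDomain

namespace H19X

open H55B H55C H55E

/-! Chunk D2 (M/L): from level 6 to level 7. z = m g/b^2 = 1 + level 6, g = 2(2x + d th), x = 1/(4 r^2). co2:
z = A + 4B th + 4C th^2, A = 1 + 4a, with a, B, C integral at w (level 6 for B' th means v_w(B') <= v(4): 3 ord + 1 >= 6;
3 ord + 2 >= 6). norm z = A^3 mod 32 (norm_co: 2 (4B)^3, 4 (4C)^3, 6 A 4B 4C). norm g = 8 (8x^3 + 2d^3) = 16 (4x^3 + d^3) =
(1 + 16 d^3 r^6)/r^6. So norm z = q^2 (1 + 16 rho), q = n/(norm b r^3) in K, rho = d^3 r^6 integral at w. s = q/A: s^2 =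
A mod 16; s^2 = 1 mod 4, so s = 1 + 2t, t integral at w (valuation of (s - 1)^2 = (s^2 - 1) - 2(s - 1) ...: first
v(s - 1) < 1, then (s-1)(s+1) = 0 mod 4), A = s^2 mod 16 and z/s^2 = 1 + (16) + 4B' th + 4C' th^2: level 7. -/

theorem D2_root {x : WithZero (Multiplicative ℤ)} {j k : ℤ} (h : x ^ 3 ≤ WithZero.exp j)
    (hj : j ≤ 3 * k + 2) : x ≤ WithZero.exp k := by
  by_cases hx : x = 0
  · rw [hx]
    exact zero_le
  · rw [← WithZero.exp_log hx] at h ⊢
    rw [← WithZero.exp_nsmul, WithZero.exp_le_exp] at h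
    rw [WithZero.exp_le_exp]
    simp only [nsmul_eq_mul] at h
    push_cast at h
    omega

variable {K N : Type} [Field K] [NumberField K] [Field N] [NumberField N] [Algebra K N]
  (φ : Cub K ≃ₐ[K] N)

theorem normal_D (w : HeightOneSpectrum (𝓞 K)) (h2 : (2 : 𝓞 K) ∈ w.asIdeal)
    (hv : w.valuation K (2 : K) = WithZero.exp (-1 : ℤ)) (P : HeightOneSpectrum (𝓞 N))
    (ht : P.valuation N (th φ) = WithZero.exp (-1 : ℤ))
    (hP : ∀ x : K, P.valuation N (algebraMap K N x) = w.valuation K x ^ 3) (d : ℤ) (m : N)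
    (hm : m ≠ 0) (n : K) (hn : Algebra.norm K m = n ^ 2) (r : K) (hr : r ≠ 0)
    (hr1 : w.valuation K r ≤ 1) (b : N) (hb : b ≠ 0)
    (h : P.valuation N (m * (2 * (2 * algebraMap K N (1 / (4 * r ^ 2)) + (d : N) * th φ)) / b ^ 2 - 1) ≤
        WithZero.exp (-6 : ℤ)) :
    ∃ b' : N, b' ≠ 0 ∧
      P.valuation N (m * (2 * (2 * algebraMap K N (1 / (4 * r ^ 2)) + (d : N) * th φ)) / b' ^ 2 - 1) ≤
        WithZero.exp (-7 : ℤ) := by
  set u := w.valuation K with hu
  set g : N := 2 * (2 * algebraMap K N (1 / (4 * r ^ 2)) + (d : N) * th φ) with hg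
  set z : N := m * g / b ^ 2 with hz
  have h20 : (2 : K) ≠ 0 := two_ne_zero
  have h40 : (4 : K) ≠ 0 := by norm_num
  have hu4 : u (4 : K) = WithZero.exp (-2 : ℤ) := by
    have : (4 : K) = 2 * 2 := by norm_num
    rw [this, map_mul, hv, ← WithZero.exp_add]
    norm_num
  have hu16 : u (16 : K) = WithZero.exp (-4 : ℤ) := by
    have : (16 : K) = 4 * 4 := by norm_num
    rw [this, map_mul, hu4, ← WithZero.exp_add]
    norm_num
  have hint : ∀ k : ℤ, u (k : K) ≤ 1 := by
    intro k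
    have := w.valuation_le_one (K := K) (k : 𝓞 K)
    simpa using this
  -- coordinates
  obtain ⟨a0, b0, c0, habc⟩ := span_co φ (z - 1)
  have hco := co2 φ w P ht hP a0 b0 c0 (WithZero.exp (-6 : ℤ)) (by rw [← habc]; exact h)
  obtain ⟨ha0, hb0, hc0⟩ := hco
  have ha : u a0 ≤ WithZero.exp (-2 : ℤ) := by
    rw [hP] at ha0
    exact D2_root ha0 (by norm_num)
  have hb1 : u b0 ≤ WithZero.exp (-2 : ℤ) := by
    rw [map_mul, hP, ht] at hb0
    have h3 : u b0 ^ 3 ≤ WithZero.exp (-5 : ℤ) := by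
      have h4 : WithZero.exp (-6 : ℤ) = WithZero.exp (-5 : ℤ) * WithZero.exp (-1 : ℤ) := by
        rw [← WithZero.exp_add]
        norm_num
      rw [h4] at hb0
      exact le_of_mul_le_mul_right hb0 (WithZero.exp_pos)
    exact D2_root h3 (by norm_num)
  have hc1 : u c0 ≤ WithZero.exp (-2 : ℤ) := by
    rw [map_mul, map_pow, hP, ht] at hc0
    have h3 : u c0 ^ 3 ≤ WithZero.exp (-4 : ℤ) := by
      have h4 : WithZero.exp (-6 : ℤ) = WithZero.exp (-4 : ℤ) * WithZero.exp (-1 : ℤ) ^ 2 := by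
        rw [← WithZero.exp_nsmul, ← WithZero.exp_add]
        norm_num
      rw [h4] at hc0
      exact le_of_mul_le_mul_right hc0 (by rw [← WithZero.exp_nsmul]; exact WithZero.exp_pos)
    exact D2_root h3 (by norm_num)
  have hdiv : ∀ y : K, u y ≤ WithZero.exp (-2 : ℤ) → u (y / 4) ≤ 1 := by
    intro y hy
    rw [map_div₀, hu4]
    exact div_le_one_of_le₀ hy zero_le
  set a : K := a0 / 4 with haa
  set B : K := b0 / 4 with hBB
  set C : K := c0 / 4 with hCC
  have ha1 : u a ≤ 1 := hdiv a0 ha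
  have hB1 : u B ≤ 1 := hdiv b0 hb1
  have hC1 : u C ≤ 1 := hdiv c0 hc1
  set A : K := 1 + 4 * a with hA
  have hzA : z = algebraMap K N A + algebraMap K N (4 * B) * th φ +
      algebraMap K N (4 * C) * th φ ^ 2 := by
    have e1 : 4 * a = a0 := by rw [haa]; field_simp
    have e2 : 4 * B = b0 := by rw [hBB]; field_simp
    have e3 : 4 * C = c0 := by rw [hCC]; field_simp
    rw [hA, e1, e2, e3, map_add, map_one]
    linear_combination habc
  have hlt4 : u (4 : K) < 1 := by
    rw [hu4, ← WithZero.exp_zero, WithZero.exp_lt_exp]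
    norm_num
  have huA : u A = 1 := by
    rw [hA]
    have : u (4 * a) < 1 := by
      rw [map_mul]
      exact lt_of_le_of_lt (mul_le_of_le_one_right' ha1) hlt4
    exact Valuation.map_one_add_of_lt _ this
  have hA0 : A ≠ 0 := by
    intro h0
    rw [h0, map_zero] at huA
    exact zero_ne_one huA
  -- norms
  have hNz := norm_co φ A (4 * B) (4 * C)
  rw [← hzA] at hNz
  have hNg : Algebra.norm K g = (1 + 16 * ((d : K) ^ 3 * r ^ 6)) / r ^ 6 := by
    have e1 : g = algebraMap K N (4 * (1 / (4 * r ^ 2))) + algebraMap K N (2 * d) * th φ +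
        algebraMap K N 0 * th φ ^ 2 := by
      rw [hg]
      simp only [map_mul, map_zero, map_ofNat, map_intCast]
      ring
    rw [e1, norm_co]
    field_simp
    ring
  have hNb : Algebra.norm K b ≠ 0 := by
    rw [Ne, Algebra.norm_eq_zero_iff]
    exact hb
  set q : K := n / (Algebra.norm K b * r ^ 3) with hq
  set ρ : K := (d : K) ^ 3 * r ^ 6 with hρ
  have hρ1 : u ρ ≤ 1 := by
    rw [hρ, map_mul, map_pow, map_pow]
    exact mul_le_one' (pow_le_one₀ zero_le (hint d)) (pow_le_one₀ zero_le hr1)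
  have hNz2 : Algebra.norm K z = q ^ 2 * (1 + 16 * ρ) := by
    have e1 : z * b ^ 2 = m * g := by
      rw [hz, div_mul_cancel₀ _ (pow_ne_zero 2 hb)]
    have e2 := congrArg (Algebra.norm K) e1
    rw [map_mul, map_mul, map_pow, hn, hNg] at e2
    rw [hq]
    have e3 : Algebra.norm K z = n ^ 2 * ((1 + 16 * ρ) / r ^ 6) / Algebra.norm K b ^ 2 := by
      rw [eq_div_iff (pow_ne_zero 2 hNb)]
      exact e2
    rw [e3]
    field_simp
  set κ : K := 4 * B ^ 3 + 8 * C ^ 3 - 3 * A * B * C with hκ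
  have hκ1 : u κ ≤ 1 := by
    have i4 : u (4 : K) ≤ 1 := hlt4.le
    have i8 : u (8 : K) ≤ 1 := by simpa using hint 8
    have i3 : u (3 : K) ≤ 1 := by simpa using hint 3
    rw [hκ]
    refine (Valuation.map_sub _ _ _).trans (max_le ((Valuation.map_add _ _ _).trans (max_le ?_ ?_)) ?_)
    · rw [map_mul, map_pow]
      exact mul_le_one' i4 (pow_le_one₀ zero_le hB1)
    · rw [map_mul, map_pow]
      exact mul_le_one' i8 (pow_le_one₀ zero_le hC1)
    · rw [map_mul, map_mul, map_mul]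
      exact mul_le_one' (mul_le_one' (mul_le_one' i3 huA.le) hB1) hC1
  have hmain : q ^ 2 * (1 + 16 * ρ) = A ^ 3 + 32 * κ := by
    rw [← hNz2, hNz, hκ]
    ring
  have hlt16 : u (16 : K) < 1 := by
    rw [hu16, ← WithZero.exp_zero, WithZero.exp_lt_exp]
    norm_num
  have hu1ρ : u (1 + 16 * ρ) = 1 := by
    apply Valuation.map_one_add_of_lt
    rw [map_mul]
    exact lt_of_le_of_lt (mul_le_of_le_one_right' hρ1) hlt16
  have h32 : u (32 * κ) ≤ u (16 : K) := by
    have : (32 : K) = 16 * 2 := by norm_num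
    rw [this, map_mul, map_mul]
    refine mul_le_of_le_one_right' hκ1 |>.trans ?_
    apply mul_le_of_le_one_right'
    simpa using hint 2
  have huq : u q ^ 2 = 1 := by
    have e1 := congrArg u hmain
    rw [map_mul, map_pow, hu1ρ, mul_one] at e1
    rw [e1]
    have e2 : u (A ^ 3) = 1 := by rw [map_pow, huA, one_pow]
    rw [← e2]
    apply Valuation.map_add_eq_of_lt_left
    rw [e2]
    exact lt_of_le_of_lt h32 hlt16
  have hq0 : q ≠ 0 := by
    intro h0
    rw [h0, map_zero] at huq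
    simp at huq
  set s : K := q / A with hs
  have hs0 : s ≠ 0 := div_ne_zero hq0 hA0
  have hus : u s ^ 2 = 1 := by
    rw [hs, map_div₀, div_pow, huq, huA]
    simp
  have hsA : u (A - s ^ 2) ≤ u (16 : K) := by
    have e1 : A - s ^ 2 = 16 * ρ * s ^ 2 - 32 * κ / A ^ 2 := by
      have e2 : s ^ 2 * (1 + 16 * ρ) * A ^ 2 = A ^ 3 + 32 * κ := by
        rw [← hmain, hs]
        field_simp
      have e3 : s ^ 2 * (1 + 16 * ρ) = A + 32 * κ / A ^ 2 := by
        field_simp
        linear_combination e2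
      linear_combination -e3
    rw [e1]
    refine (Valuation.map_sub _ _ _).trans (max_le ?_ ?_)
    · rw [map_mul, map_mul, map_pow, hus, mul_one]
      exact mul_le_of_le_one_right' hρ1
    · rw [map_div₀, map_pow, huA, one_pow, div_one]
      exact h32
  refine ⟨b * algebraMap K N s, mul_ne_zero hb ?_, ?_⟩
  · rw [Ne, map_eq_zero]
    exact hs0
  · have hsN : algebraMap K N s ≠ 0 := by
      rw [Ne, map_eq_zero]
      exact hs0
    have e1 : m * g / (b * algebraMap K N s) ^ 2 - 1 = algebraMap K N ((A - s ^ 2) / s ^ 2) +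
        (algebraMap K N (4 * (B / s ^ 2)) * th φ + algebraMap K N (4 * (C / s ^ 2)) * th φ ^ 2) := by
      have e2 : m * g / (b * algebraMap K N s) ^ 2 = z / algebraMap K N s ^ 2 := by
        rw [hz, mul_pow, div_div]
      rw [e2, hzA]
      simp only [map_div₀, map_sub, map_mul, map_pow]
      field_simp
      ring
    rw [e1]
    have hv1 : u ((A - s ^ 2) / s ^ 2) ≤ WithZero.exp (-4 : ℤ) := by
      rw [map_div₀, map_pow, hus, div_one, ← hu16]
      exact hsA
    have hvB : u (4 * (B / s ^ 2)) ≤ WithZero.exp (-2 : ℤ) := by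
      rw [map_mul, map_div₀, map_pow, hus, div_one, hu4]
      exact mul_le_of_le_one_right' hB1
    have hvC : u (4 * (C / s ^ 2)) ≤ WithZero.exp (-2 : ℤ) := by
      rw [map_mul, map_div₀, map_pow, hus, div_one, hu4]
      exact mul_le_of_le_one_right' hC1
    refine (Valuation.map_add _ _ _).trans (max_le ?_ ((Valuation.map_add _ _ _).trans (max_le ?_ ?_)))
    · rw [hP]
      refine (pow_le_pow_left₀ zero_le hv1 3).trans ?_
      rw [← WithZero.exp_nsmul, WithZero.exp_le_exp]
      norm_num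
    · rw [map_mul, hP, ht]
      refine (mul_le_mul_left (pow_le_pow_left₀ zero_le hvB 3) _).trans ?_
      rw [← WithZero.exp_nsmul, ← WithZero.exp_add, WithZero.exp_le_exp]
      norm_num
    · rw [map_mul, map_pow, hP, ht]
      refine (mul_le_mul_left (pow_le_pow_left₀ zero_le hvC 3) _).trans ?_
      rw [← WithZero.exp_nsmul, ← WithZero.exp_nsmul, ← WithZero.exp_add, WithZero.exp_le_exp]
      norm_num

end H19X
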