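import Mathlib
import Pool.Agent.Lib.H16A.C1
import Pool.Agent.Lib.H16A.C2
import Pool.Agent.Lib.H55C.A18
import Pool.Agent.Lib.H55E.Defs

open NumberField IsDedekindDomain

namespace H19X

open H55B H55C H55E

/-! Chunk L0 (M): the trivial class is the class of a point near infinity, and general remarks.
loc_one: pi a nonzero element of w (in 𝓞 K), t = 16 pi (in K_w), x = 1/t^2. 2(2x + d T) = (2/t)^2 (1 + d t^2 T/2) and
d t^2/2 = 4 (32 d pi^2), so 1 + 4 (32 d pi^2 T) is a square in R = (integers of K_w)[X]/(X^3 - 2) by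
H16A.isSquare_one_add_four; 4x^3 + d^3 = (2/t^3)^2 (1 + d^3 t^6/4), and d^3 t^6/4 = 4 (stuff in w): a square in K_w
by the same lemma for the polynomial X or Hensel (H16A.exists_root_lift with X^2 + X - mu).
y = (s - 1)/2 where s^2 = 4x^3 + d^3, s <> 0.
loc_of_sq: (norm b)^2 = norm m * norm(2(2x + dT)) = n^2 * 16 (4x^3 + d^3) (A18_norm (H55C.A18)), so
4x^3 + d^3 is a square s^2, s <> 0 because b is a unit; y = (s - 1)/2. -/

theorem loc_mul_sq {k : Type} [Field k] (d : ℤ) (m b : Cub k) (h : LocImd d k m) :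
    LocImd d k (m * b ^ 2) := by
  obtain ⟨x, y, h1, h2, c, hc⟩ := h
  refine ⟨x, y, h1, h2, c * b, ?_⟩
  rw [mul_pow, ← hc]
  ring

/-- The norm of the element of the Kummer map. -/
theorem l0_norm {k : Type} [Field k] (d : ℤ) (x : k) :
    Algebra.norm k (2 * (2 * AdjoinRoot.of _ x + (d : Cub k) * AdjoinRoot.root _) : Cub k) =
      16 * (4 * x ^ 3 + (d : k) ^ 3) := by
  have h1 : (2 * (2 * AdjoinRoot.of _ x + (d : Cub k) * AdjoinRoot.root _) : Cub k) =
      AdjoinRoot.of _ (4 * x) + AdjoinRoot.of _ (2 * (d : k)) * AdjoinRoot.root _ +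
        AdjoinRoot.of _ (0 : k) * AdjoinRoot.root _ ^ 2 := by
    have e4 : AdjoinRoot.of (Polynomial.X ^ 3 - Polynomial.C 2 : Polynomial k) (4 : k) = 4 := map_ofNat _ 4
    have e2 : AdjoinRoot.of (Polynomial.X ^ 3 - Polynomial.C 2 : Polynomial k) (2 : k) = 2 := map_ofNat _ 2
    rw [map_mul, map_mul, map_intCast, map_zero, e4, e2]
    ring
  rw [h1, A18_norm]
  ring

theorem loc_of_sq {k : Type} [Field k] [CharZero k] (d : ℤ) (m : Cub k) (hm : IsUnit m) (n : k)
    (hn : Algebra.norm k m = n ^ 2) (x : k)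
    (hx : IsUnit (2 * (2 * AdjoinRoot.of _ x + (d : Cub k) * AdjoinRoot.root _) : Cub k))
    (b : Cub k) (hb : m * (2 * (2 * AdjoinRoot.of _ x + (d : Cub k) * AdjoinRoot.root _)) = b ^ 2) :
    LocImd d k m := by
  have h1 : Algebra.norm k b ^ 2 = n ^ 2 * (16 * (4 * x ^ 3 + (d : k) ^ 3)) := by
    rw [← map_pow, ← hb, map_mul, hn, l0_norm]
  have hn0 : n ≠ 0 := by
    intro h
    have h2 := hm.map (Algebra.norm k)
    rw [hn, h] at h2
    simp at h2
  have hbu : IsUnit b := by
    have h2 := hm.mul hx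
    rw [hb] at h2
    exact isUnit_of_mul_isUnit_left (by rwa [pow_two] at h2)
  have hb0 : Algebra.norm k b ≠ 0 := (hbu.map (Algebra.norm k)).ne_zero
  have h4 : (4 : k) ≠ 0 := by norm_num
  set s : k := Algebra.norm k b / (4 * n) with hs
  have hs0 : s ≠ 0 := div_ne_zero hb0 (mul_ne_zero h4 hn0)
  have h2 : s ^ 2 = 4 * x ^ 3 + (d : k) ^ 3 := by
    rw [hs, div_pow, h1]
    field_simp
    ring
  refine ⟨x, (s - 1) / 2, ?_, ?_, b, hb⟩
  · rw [← h2]
    ring
  · have : 2 * ((s - 1) / 2) + 1 = s := by ring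
    rw [this]
    exact hs0

/-- The cubic algebra over the integers of the completion. -/
noncomputable def l0_map (K : Type) [Field K] [NumberField K] (w : HeightOneSpectrum (𝓞 K)) :
    AdjoinRoot (Polynomial.X ^ 3 - Polynomial.C 2 : Polynomial (w.adicCompletionIntegers K)) →+*
      Cub (w.adicCompletion K) :=
  AdjoinRoot.map (algebraMap (w.adicCompletionIntegers K) (w.adicCompletion K)) _ _ (by
    rw [Polynomial.map_sub, Polynomial.map_pow, Polynomial.map_X, Polynomial.map_C,
      map_ofNat (algebraMap (w.adicCompletionIntegers K) (w.adicCompletion K))])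

theorem l0_sq (K : Type) [Field K] [NumberField K] (w : HeightOneSpectrum (𝓞 K))
    (μ : w.adicCompletionIntegers K) (hμ : μ ∈ IsLocalRing.maximalIdeal (w.adicCompletionIntegers K)) :
    ∃ c : Cub (w.adicCompletion K), IsUnit c ∧
      1 + 4 * (AdjoinRoot.of _ (μ : w.adicCompletion K) * AdjoinRoot.root _) = c ^ 2 := by
  have := H16A.isAdicComplete_integers (K := K) w
  have hf : (Polynomial.X ^ 3 - Polynomial.C 2 : Polynomial (w.adicCompletionIntegers K)).Monic :=
    Polynomial.monic_X_pow_sub_C 2 three_ne_zero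
  set I := IsLocalRing.maximalIdeal (w.adicCompletionIntegers K) with hI
  set m : AdjoinRoot (Polynomial.X ^ 3 - Polynomial.C 2 : Polynomial (w.adicCompletionIntegers K)) :=
    AdjoinRoot.of _ μ * AdjoinRoot.root _ with hm
  have hmI : m ∈ I.map (AdjoinRoot.of
      (Polynomial.X ^ 3 - Polynomial.C 2 : Polynomial (w.adicCompletionIntegers K))) :=
    Ideal.mul_mem_right _ _ (Ideal.mem_map_of_mem _ hμ)
  obtain ⟨c, hc⟩ := H16A.isSquare_one_add_four I _ hf m hmI
  have hH := H16A.henselian_adjoinRoot I _ hf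
  have hu : IsUnit (1 + 4 * m) := by
    have h1 := Ideal.mem_jacobson_bot.1 (hH.jac hmI) 4
    have e : m * 4 + 1 = 1 + 4 * m := by ring
    rwa [e] at h1
  have hcu : IsUnit c := by
    rw [hc] at hu
    exact isUnit_of_mul_isUnit_left hu
  refine ⟨l0_map K w c, hcu.map _, ?_⟩
  have h2 := congrArg (l0_map K w) hc
  rw [map_mul, ← pow_two] at h2
  have e4 : l0_map K w 4 = 4 := map_ofNat _ 4
  rw [← h2, map_add, map_one, map_mul, e4, hm, map_mul]
  congr 2
  unfold l0_map
  rw [AdjoinRoot.map_of, AdjoinRoot.map_root]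
  rfl

theorem loc_one (K : Type) [Field K] [NumberField K] (w : HeightOneSpectrum (𝓞 K)) (d : ℤ)
    (hd : d ≠ 0) : LocImd d (w.adicCompletion K) 1 := by
  have : CharZero (w.adicCompletion K) := charZero_of_injective_algebraMap (algebraMap K _).injective
  obtain ⟨p, hp, hp0⟩ := Submodule.exists_mem_ne_zero_of_ne_bot w.ne_bot
  set π : w.adicCompletionIntegers K := algebraMap (𝓞 K) (w.adicCompletionIntegers K) p with hπ
  have hπI : π ∈ IsLocalRing.maximalIdeal (w.adicCompletionIntegers K) := H16A.C1_algebraMap_mem w hp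
  have hπ0 : (π : w.adicCompletion K) ≠ 0 := by
    intro h
    have h1 : (algebraMap K (w.adicCompletion K)) (algebraMap (𝓞 K) K p) = 0 := h
    rw [map_eq_zero, map_eq_zero_iff _ (RingOfIntegers.coe_injective)] at h1
    exact hp0 h1
  set μ : w.adicCompletionIntegers K := 32 * (d : w.adicCompletionIntegers K) * π ^ 2 with hμ
  have hμI : μ ∈ IsLocalRing.maximalIdeal (w.adicCompletionIntegers K) :=
    Ideal.mul_mem_left _ _ (Ideal.pow_mem_of_mem _ hπI 2 (by norm_num))
  obtain ⟨c, hcu, hc⟩ := l0_sq K w μ hμI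
  have hμc : (μ : w.adicCompletion K) = 32 * (d : w.adicCompletion K) * (π : w.adicCompletion K) ^ 2 := by
    rw [hμ]
    push_cast
    rfl
  set P : w.adicCompletion K := (π : w.adicCompletion K) with hP
  set t : w.adicCompletion K := 16 * P with ht
  have ht0 : t ≠ 0 := mul_ne_zero (by norm_num) hπ0
  have key : (2 * (2 * AdjoinRoot.of _ (1 / t ^ 2) + (d : Cub (w.adicCompletion K)) * AdjoinRoot.root _) :
      Cub (w.adicCompletion K)) = (AdjoinRoot.of _ (2 / t) * c) ^ 2 := by
    rw [mul_pow (AdjoinRoot.of _ (2 / t)) c 2, ← hc, hμc]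
    have e3 : (2 * 2 : w.adicCompletion K) * (1 / t ^ 2) = (2 / t) ^ 2 := by
      field_simp
    have e4 : (2 : w.adicCompletion K) * (d : w.adicCompletion K) =
        (2 / t) ^ 2 * (4 * (32 * (d : w.adicCompletion K) * P ^ 2)) := by
      rw [ht]
      field_simp
      norm_num
    have e5 := congrArg (AdjoinRoot.of (Polynomial.X ^ 3 - Polynomial.C 2 : Polynomial (w.adicCompletion K))) e3
    have e6 := congrArg (AdjoinRoot.of (Polynomial.X ^ 3 - Polynomial.C 2 : Polynomial (w.adicCompletion K))) e4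
    simp only [map_mul, map_pow, map_ofNat, map_intCast] at e5 e6 ⊢
    linear_combination e5 + AdjoinRoot.root (Polynomial.X ^ 3 - Polynomial.C 2 : Polynomial (w.adicCompletion K)) * e6
  have h2t : IsUnit (AdjoinRoot.of (Polynomial.X ^ 3 - Polynomial.C 2 : Polynomial (w.adicCompletion K)) (2 / t)) :=
    (IsUnit.mk0 (2 / t) (div_ne_zero (by norm_num) ht0)).map _
  refine loc_of_sq d 1 isUnit_one 1 (by rw [map_one, one_pow]) (1 / t ^ 2) ?_ (AdjoinRoot.of _ (2 / t) * c) ?_
  · rw [key]
    exact (h2t.mul hcu).pow 2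
  · rw [one_mul, key]

/-- Squares of invertible elements are in the local image. -/
theorem loc_sq (K : Type) [Field K] [NumberField K] (w : HeightOneSpectrum (𝓞 K)) (d : ℤ)
    (hd : d ≠ 0) (b : Cub (w.adicCompletion K)) : LocImd d (w.adicCompletion K) (b ^ 2) := by
  have h := loc_mul_sq d 1 b (loc_one K w d hd)
  rwa [one_mul] at h

end H19X
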