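import Mathlib
import Pool.Agent.Lib.H19X.N2

open NumberField IsDedekindDomain

namespace H19X

open H55B H55C H55E

/-! Chunk Tr (M): traces and coordinates of integral elements.
trace_int (any finite extension N/K): let D be the ideal of all x in 𝓞 N with x z integral. For P above w, D is not
contained in P (v_P(z) <= 1: write z = y/x; or: the set of primes Q with v_Q(z) > 1 is finite, none above
w, and D contains the product of powers of them). Each such Q contains an element s_Q of 𝓞 K not in w (Q ∩ 𝓞 K is a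
maximal ideal different from w), so some s in 𝓞 K, s not in w, has s z in 𝓞 N: all valuations of s z are <= 1
(HeightOneSpectrum.mem_integers_of_valuation_le_one). Then trace(s z) = s trace(z) is integral over 𝓞 K
(Algebra.isIntegral_trace), hence has valuation <= 1 at w, and v_w(s) = 1.
coords_int: z = a + b th + c th^2; trace z = 3 a, trace (z th) = 6 c, trace (z th^2) = 6 b (th^3 = 2), v_w(6) = 1, and
v_P(th) <= 1 (th is an algebraic integer). -/

variable {K N : Type} [Field K] [NumberField K] [Field N] [NumberField N] [Algebra K N]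

omit [NumberField K] in
theorem Tr_sel (w : HeightOneSpectrum (𝓞 K)) (Q : HeightOneSpectrum (𝓞 N))
    (hQ : w.asIdeal ≠ Q.asIdeal.under (𝓞 K)) :
    ∃ s : 𝓞 K, s ∉ w.asIdeal ∧ algebraMap (𝓞 K) (𝓞 N) s ∈ Q.asIdeal := by
  by_contra hcon
  push Not at hcon
  have hmax : (Q.asIdeal.under (𝓞 K)).IsMaximal := by
    have := Q.isMaximal
    exact Ideal.IsMaximal.under (𝓞 K) Q.asIdeal
  have hle : Q.asIdeal.under (𝓞 K) ≤ w.asIdeal := by
    intro s hs
    by_contra h
    exact hcon s h hs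
  exact hQ (hmax.eq_of_le w.isPrime.ne_top hle).symm

omit [NumberField K] in
theorem Tr_den (w : HeightOneSpectrum (𝓞 K)) (z : N)
    (hz : ∀ P : HeightOneSpectrum (𝓞 N), w.asIdeal = P.asIdeal.under (𝓞 K) → P.valuation N z ≤ 1) :
    ∃ s : 𝓞 K, s ∉ w.asIdeal ∧ ∀ P : HeightOneSpectrum (𝓞 N),
      P.valuation N (algebraMap (𝓞 N) N (algebraMap (𝓞 K) (𝓞 N) s) * z) ≤ 1 := by
  classical
  have hfin := HeightOneSpectrum.Support.finite (𝓞 N) z
  have h1 : ∀ Q : HeightOneSpectrum (𝓞 N), 1 < Q.valuation N z → ∃ s : 𝓞 K, s ∉ w.asIdeal ∧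
      Q.valuation N (algebraMap (𝓞 N) N (algebraMap (𝓞 K) (𝓞 N) s) * z) ≤ 1 := by
    intro Q hQ
    obtain ⟨s, hs, hsQ⟩ := Tr_sel w Q (fun h => absurd (hz Q h) (not_le.2 hQ))
    have hz0 : Q.valuation N z ≠ 0 := (zero_lt_one.trans hQ).ne'
    obtain ⟨m, hm⟩ : ∃ m : ℤ, Q.valuation N z = WithZero.exp m :=
      ⟨_, (WithZero.exp_log hz0).symm⟩
    refine ⟨s ^ m.toNat, fun h => hs (w.isPrime.mem_of_pow_mem _ h), ?_⟩
    rw [map_mul, HeightOneSpectrum.valuation_of_algebraMap, map_pow, map_pow, hm]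
    have h2 : Q.intValuation (algebraMap (𝓞 K) (𝓞 N) s) ≤ WithZero.exp (-1 : ℤ) := by
      have := (Q.intValuation_le_pow_iff_mem (algebraMap (𝓞 K) (𝓞 N) s) 1).2 (by rw [pow_one]; exact hsQ)
      exact_mod_cast this
    have h3 : Q.intValuation (algebraMap (𝓞 K) (𝓞 N) s) ^ m.toNat ≤ WithZero.exp (-1 : ℤ) ^ m.toNat :=
      pow_le_pow_left' h2 _
    refine (mul_le_mul_left h3 _).trans ?_
    rw [← WithZero.exp_nsmul, ← WithZero.exp_add, ← WithZero.exp_zero, WithZero.exp_le_exp]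
    simp only [nsmul_eq_mul]
    omega
  choose! s hs hsv using h1
  refine ⟨∏ Q ∈ hfin.toFinset, s Q, ?_, ?_⟩
  · intro h
    rw [w.isPrime.prod_mem_iff] at h
    obtain ⟨Q, hQ, hQ'⟩ := h
    exact hs Q ((Set.Finite.mem_toFinset hfin).1 hQ) hQ'
  · intro P
    have hone : ∀ t : 𝓞 K, P.valuation N (algebraMap (𝓞 N) N (algebraMap (𝓞 K) (𝓞 N) t)) ≤ 1 :=
      fun t => P.valuation_le_one _
    by_cases hP : 1 < P.valuation N z
    · have hPm : P ∈ hfin.toFinset := (Set.Finite.mem_toFinset _).2 hP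
      rw [← Finset.mul_prod_erase _ _ hPm, map_mul (algebraMap (𝓞 K) (𝓞 N)), map_mul (algebraMap (𝓞 N) N),
        mul_right_comm, map_mul]
      exact mul_le_one' (hsv P hP) (hone _)
    · rw [map_mul]
      exact mul_le_one' (hone _) (not_lt.1 hP)

theorem trace_int (w : HeightOneSpectrum (𝓞 K)) (z : N)
    (hz : ∀ P : HeightOneSpectrum (𝓞 N), w.asIdeal = P.asIdeal.under (𝓞 K) → P.valuation N z ≤ 1) :
    w.valuation K (Algebra.trace K N z) ≤ 1 := by
  obtain ⟨s, hs, hsP⟩ := Tr_den w z hz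
  obtain ⟨y, hy⟩ := HeightOneSpectrum.mem_integers_of_valuation_le_one N _ hsP
  have h1 : algebraMap (𝓞 N) N y = (algebraMap (𝓞 K) K s) • z := by
    rw [hy, Algebra.smul_def, ← IsScalarTower.algebraMap_apply (𝓞 K) (𝓞 N) N,
      ← IsScalarTower.algebraMap_apply (𝓞 K) K N]
  have h2 : IsIntegral (𝓞 K) ((algebraMap (𝓞 K) K s) • z) := by
    rw [← h1]
    exact (Algebra.IsIntegral.isIntegral (R := 𝓞 K) y).algebraMap
  have h3 : IsIntegral (𝓞 K) (Algebra.trace K N ((algebraMap (𝓞 K) K s) • z)) :=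
    Algebra.isIntegral_trace h2
  obtain ⟨t, ht⟩ := IsIntegrallyClosed.isIntegral_iff.1 h3
  have h4 : w.valuation K (Algebra.trace K N ((algebraMap (𝓞 K) K s) • z)) ≤ 1 := by
    rw [← ht]
    exact w.valuation_le_one t
  rw [map_smul, smul_eq_mul, map_mul, HeightOneSpectrum.valuation_of_algebraMap,
    (w.intValuation_eq_one_iff).2 hs, one_mul] at h4
  exact h4

theorem Tr_th (φ : Cub K ≃ₐ[K] N) (P : HeightOneSpectrum (𝓞 N)) : P.valuation N (th φ) ≤ 1 := by
  have h1 : P.valuation N (th φ) ^ 3 ≤ 1 := by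
    rw [← map_pow, th_cube φ]
    have e : algebraMap (𝓞 N) N 2 = 2 := map_ofNat _ 2
    rw [← e]
    exact P.valuation_le_one _
  exact (pow_le_one_iff_of_nonneg zero_le (by norm_num)).1 h1

theorem Tr_unit (w : HeightOneSpectrum (𝓞 K)) (t : 𝓞 K) (ht : t ∉ w.asIdeal) (x : K)
    (hx : w.valuation K (algebraMap (𝓞 K) K t * x) ≤ 1) : w.valuation K x ≤ 1 := by
  rw [map_mul, HeightOneSpectrum.valuation_of_algebraMap,
    (w.intValuation_eq_one_iff).2 ht, one_mul] at hx
  exact hx

theorem coords_int (φ : Cub K ≃ₐ[K] N) (w : HeightOneSpectrum (𝓞 K)) (h6 : (6 : 𝓞 K) ∉ w.asIdeal)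
    (z : N)
    (hz : ∀ P : HeightOneSpectrum (𝓞 N), w.asIdeal = P.asIdeal.under (𝓞 K) → P.valuation N z ≤ 1) :
    ∃ a b c : K, w.valuation K a ≤ 1 ∧ w.valuation K b ≤ 1 ∧ w.valuation K c ≤ 1 ∧
      z = algebraMap K N a + algebraMap K N b * th φ + algebraMap K N c * th φ ^ 2 := by
  obtain ⟨a, b, c, habc⟩ := span_co φ z
  have hcube := th_cube φ
  have h3 : (3 : 𝓞 K) ∉ w.asIdeal := by
    intro h
    apply h6
    have : (6 : 𝓞 K) = 2 * 3 := by norm_num
    rw [this]
    exact Ideal.mul_mem_left _ _ h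
  have hth := Tr_th φ
  have ta : Algebra.trace K N z = algebraMap (𝓞 K) K 3 * a := by
    rw [habc, trace_co, map_ofNat]
  have tc : Algebra.trace K N (z * th φ) = algebraMap (𝓞 K) K 6 * c := by
    have : z * th φ = algebraMap K N (2 * c) + algebraMap K N a * th φ + algebraMap K N b * th φ ^ 2 := by
      rw [habc, map_mul, map_ofNat]
      linear_combination (algebraMap K N c) * hcube
    rw [this, trace_co, map_ofNat]
    ring
  have tb : Algebra.trace K N (z * th φ ^ 2) = algebraMap (𝓞 K) K 6 * b := by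
    have : z * th φ ^ 2 = algebraMap K N (2 * b) + algebraMap K N (2 * c) * th φ +
        algebraMap K N a * th φ ^ 2 := by
      rw [habc, map_mul, map_mul, map_ofNat]
      linear_combination (algebraMap K N b + algebraMap K N c * th φ) * hcube
    rw [this, trace_co, map_ofNat]
    ring
  refine ⟨a, b, c, ?_, ?_, ?_, habc⟩
  · apply Tr_unit w 3 h3
    rw [← ta]
    exact trace_int w z hz
  · apply Tr_unit w 6 h6
    rw [← tb]
    apply trace_int w
    intro P hP
    rw [map_mul, map_pow]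
    exact mul_le_one' (hz P hP) (pow_le_one' (hth P) 2)
  · apply Tr_unit w 6 h6
    rw [← tc]
    apply trace_int w
    intro P hP
    rw [map_mul]
    exact mul_le_one' (hz P hP) (hth P)

end H19X
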