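import Mathlib
import Pool.Agent.Lib.H16A.C1
import Pool.Agent.Lib.H16A.C2
import Pool.Agent.Lib.H19X.Tr

open NumberField IsDedekindDomain

namespace H19X

open H55B H55C H55E

/-! Chunk Pr (M/L): if P is the only prime of N above w and z is a square in the completion of N at P, then it is a
square in the cubic algebra of the completion of K at w. Proof: β^2 = z, β <> 0. By exists_approx
(H55C.A17) there is b0 in N with β/b0 very close to 1, so y0 = z/b0^2 - 1 has v_P(y0) <= v_P(24 pi) for an element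
pi in w, pi in 𝓞 K nonzero. y = y0/(24 pi) has v_P(y) <= 1; its coordinates: 3a = trace y, 6b = trace (y th^2), 6c =
trace (y th) have valuation <= 1 at w by trace_int (P is the only prime above w). So y0 = 4 pi (a' + b' th + c' th^2)
with a', b', c' of valuation <= 1 at w. In Cub(K_w) this is the image of 1 + 4 mu, mu in (pi) (R = integers of K_w
[X]/(X^3 - 2)), a square by H16A.isSquare_one_add_four (C2; I = maximal ideal, f = X^3 - 2,
H16A.isAdicComplete_integers); map R to Cub(K_w) (AdjoinRoot.map). Multiply by the image of b0^2. -/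

variable {K N : Type} [Field K] [NumberField K] [Field N] [NumberField N] [Algebra K N]
  (φ : Cub K ≃ₐ[K] N)

theorem pr_th_le (P : HeightOneSpectrum (𝓞 N)) : P.valuation N (th φ) ≤ 1 := by
  have h1 : P.valuation N (th φ) ^ 3 ≤ 1 := by
    rw [← map_pow, th_cube φ]
    have h2 : (2 : N) = algebraMap (𝓞 N) N 2 := by rw [map_ofNat]
    rw [h2]
    exact P.valuation_le_one 2
  by_contra h
  push Not at h
  exact absurd (lt_of_lt_of_le (one_lt_pow₀ h (by norm_num)) h1) (lt_irrefl _)

open Polynomial in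
/-- an element 1 + 4 pi (a + b root + c root^2) with pi in w, a, b, c integral at w, is a square -/
theorem pr_sq (w : HeightOneSpectrum (𝓞 K)) (p : 𝓞 K) (hp : p ∈ w.asIdeal) (a b c : K)
    (ha : w.valuation K a ≤ 1) (hb : w.valuation K b ≤ 1) (hc : w.valuation K c ≤ 1) :
    ∃ s : Cub (w.adicCompletion K),
      cmap (algebraMap K (w.adicCompletion K)) (1 + 4 * (AdjoinRoot.of _ (algebraMap (𝓞 K) K p) *
        (AdjoinRoot.of _ a + AdjoinRoot.of _ b * AdjoinRoot.root _ +
          AdjoinRoot.of _ c * AdjoinRoot.root _ ^ 2))) = s ^ 2 := by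
  have hco : ∀ z : K, cmap (algebraMap K (w.adicCompletion K)) (AdjoinRoot.of _ z) =
      AdjoinRoot.of _ (algebraMap K (w.adicCompletion K) z) := fun z => AdjoinRoot.map_of _ _ _ _ z
  have hcr : cmap (algebraMap K (w.adicCompletion K)) (AdjoinRoot.root _) = AdjoinRoot.root _ :=
    AdjoinRoot.map_root _ _ _ _
  have hmem : ∀ z : K, w.valuation K z ≤ 1 →
      algebraMap K (w.adicCompletion K) z ∈ w.adicCompletionIntegers K := by
    intro z hz
    rw [HeightOneSpectrum.mem_adicCompletionIntegers, valued_alg K w z]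
    exact hz
  let O' := w.adicCompletionIntegers K
  let f : O'[X] := X ^ 3 - C 2
  have hf : f.Monic := monic_X_pow_sub_C _ (by norm_num)
  haveI := H16A.isAdicComplete_integers (K := K) w
  let a1 : O' := ⟨_, hmem a ha⟩
  let b1 : O' := ⟨_, hmem b hb⟩
  let c1 : O' := ⟨_, hmem c hc⟩
  let p1 : O' := algebraMap (𝓞 K) O' p
  have hp1 : p1 ∈ IsLocalRing.maximalIdeal O' := H16A.C1_algebraMap_mem w hp
  let m : AdjoinRoot f := AdjoinRoot.of f p1 *
    (AdjoinRoot.of f a1 + AdjoinRoot.of f b1 * AdjoinRoot.root f + AdjoinRoot.of f c1 * AdjoinRoot.root f ^ 2)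
  have hm : m ∈ (IsLocalRing.maximalIdeal O').map (AdjoinRoot.of f) :=
    Ideal.mul_mem_right _ _ (Ideal.mem_map_of_mem _ hp1)
  obtain ⟨s, hs⟩ := H16A.isSquare_one_add_four (IsLocalRing.maximalIdeal O') f hf m hm
  let ψ : AdjoinRoot f →+* Cub (w.adicCompletion K) := AdjoinRoot.map (algebraMap O' (w.adicCompletion K)) f
    (X ^ 3 - C 2 : (w.adicCompletion K)[X]) (by
      have h0 : algebraMap O' (w.adicCompletion K) 2 = 2 := rfl
      have h1 : (X ^ 3 - C 2 : O'[X]).map (algebraMap O' (w.adicCompletion K)) =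
          (X ^ 3 - C 2 : (w.adicCompletion K)[X]) := by
        rw [Polynomial.map_sub, Polynomial.map_pow, Polynomial.map_X, Polynomial.map_C, h0]
      exact dvd_of_eq h1.symm)
  have hψo : ∀ x : O', ψ (AdjoinRoot.of f x) = AdjoinRoot.of _ (x : w.adicCompletion K) :=
    fun x => AdjoinRoot.map_of _ _ _ _ x
  have hψr : ψ (AdjoinRoot.root f) = AdjoinRoot.root _ := AdjoinRoot.map_root _ _ _ _
  refine ⟨ψ s, ?_⟩
  have h1 : ψ (1 + 4 * m) = ψ s ^ 2 := by rw [hs, map_mul, sq]
  rw [← h1]
  simp only [m, map_add, map_mul, map_pow, map_one, map_ofNat, hψo, hψr, hco, hcr]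
  rfl

theorem square_of_local (w : HeightOneSpectrum (𝓞 K)) (P : HeightOneSpectrum (𝓞 N))
    (hP : w.asIdeal = P.asIdeal.under (𝓞 K))
    (hu : ∀ P' : HeightOneSpectrum (𝓞 N), w.asIdeal = P'.asIdeal.under (𝓞 K) → P' = P)
    (z : N) (hz : z ≠ 0) (hβ : ∃ β : P.adicCompletion N, algebraMap N (P.adicCompletion N) z = β ^ 2) :
    ∃ b : Cub (w.adicCompletion K),
      cmap (algebraMap K (w.adicCompletion K)) (φ.symm z) = b ^ 2 := by
  obtain ⟨β, hβ⟩ := hβ
  have hβ0 : β ≠ 0 := by
    rintro rfl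
    rw [zero_pow two_ne_zero, map_eq_zero] at hβ
    exact hz hβ
  obtain ⟨p, hp, hp0⟩ := Submodule.exists_mem_ne_zero_of_ne_bot w.ne_bot
  have hpK : algebraMap (𝓞 K) K p ≠ 0 := by
    rw [Ne, FaithfulSMul.algebraMap_eq_zero_iff]
    exact hp0
  set q : N := 24 * algebraMap K N (algebraMap (𝓞 K) K p) with hq
  have hq0 : q ≠ 0 := mul_ne_zero (by norm_num) ((map_ne_zero _).2 hpK)
  have hq1 : P.valuation N q ≤ 1 := by
    have : q = algebraMap (𝓞 N) N (24 * algebraMap (𝓞 K) (𝓞 N) p) := by
      rw [map_mul, map_ofNat]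
      rfl
    rw [this]
    exact P.valuation_le_one _
  have hvq0 : P.valuation N q ≠ 0 := (Valuation.ne_zero_iff _).2 hq0
  have hvβ0 : Valued.v β ≠ 0 := (Valuation.ne_zero_iff _).2 hβ0
  obtain ⟨b0, hb0⟩ := exists_approx N P β (Valued.v β * P.valuation N q) (mul_ne_zero hvβ0 hvq0)
  have hlt : Valued.v (β - algebraMap N (P.adicCompletion N) b0) < Valued.v β :=
    lt_of_lt_of_le hb0 (mul_le_of_le_one_right' hq1)
  have hvb : Valued.v (algebraMap N (P.adicCompletion N) b0) = Valued.v β := by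
    rw [Valuation.map_sub_swap] at hlt
    exact Valuation.map_eq_of_sub_lt _ hlt
  have hb00 : b0 ≠ 0 := by
    rintro rfl
    rw [map_zero, map_zero] at hvb
    exact hvβ0 hvb.symm
  have hy0 : P.valuation N (z / b0 ^ 2 - 1) ≤ P.valuation N q := by
    rw [← valued_alg N P (z / b0 ^ 2 - 1)]
    have h0 : algebraMap N (P.adicCompletion N) b0 ≠ 0 := (map_ne_zero _).2 hb00
    have h1 : algebraMap N (P.adicCompletion N) (z / b0 ^ 2 - 1) =
        (β - algebraMap N _ b0) * (β + algebraMap N _ b0) / (algebraMap N _ b0) ^ 2 := by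
      rw [map_sub, map_div₀, map_pow, map_one, hβ]
      field_simp
      ring
    rw [h1, map_div₀, map_mul, map_pow, hvb]
    have h2 : Valued.v (β + algebraMap N (P.adicCompletion N) b0) ≤ Valued.v β :=
      (Valuation.map_add _ _ _).trans (max_le le_rfl hvb.le)
    have h3 : Valued.v (β - algebraMap N (P.adicCompletion N) b0) * Valued.v (β + algebraMap N (P.adicCompletion N) b0)
        ≤ (Valued.v β * P.valuation N q) * Valued.v β := mul_le_mul' hb0.le h2
    have h4 : (Valued.v β * P.valuation N q) * Valued.v β = P.valuation N q * Valued.v β ^ 2 := by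
      rw [sq]
      rw [mul_comm (Valued.v β), mul_assoc]
    rw [h4] at h3
    exact div_le_of_le_mul₀ zero_le zero_le h3
  set y : N := (z / b0 ^ 2 - 1) / q with hy
  have hyle : P.valuation N y ≤ 1 := by
    rw [hy, map_div₀]
    exact div_le_one_of_le₀ hy0 zero_le
  have hall : ∀ u : N, P.valuation N u ≤ 1 → w.valuation K (Algebra.trace K N u) ≤ 1 := by
    intro u hu1
    refine trace_int w u fun P' hP' => ?_
    rw [hu P' hP']
    exact hu1
  obtain ⟨a, b, c, habc⟩ := span_co φ y
  have hth := pr_th_le φ P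
  have h3 := th_cube φ
  have ha : w.valuation K (3 * a) ≤ 1 := by
    have h1 := hall y hyle
    rwa [habc, trace_co φ] at h1
  have hc : w.valuation K (6 * c) ≤ 1 := by
    have h1 := hall (y * th φ) (by rw [map_mul]; exact mul_le_one' hyle hth)
    have h2 : y * th φ = algebraMap K N (2 * c) + algebraMap K N a * th φ + algebraMap K N b * th φ ^ 2 := by
      rw [habc, map_mul, map_ofNat]
      linear_combination (algebraMap K N c) * h3
    rw [h2, trace_co φ] at h1
    have h4 : 6 * c = 3 * (2 * c) := by ring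
    rwa [h4]
  have hb : w.valuation K (6 * b) ≤ 1 := by
    have h1 := hall (y * th φ ^ 2) (by
      rw [map_mul, map_pow]
      exact mul_le_one' hyle (pow_le_one' hth 2))
    have h2 : y * th φ ^ 2 = algebraMap K N (2 * b) + algebraMap K N (2 * c) * th φ + algebraMap K N a * th φ ^ 2 := by
      rw [habc, map_mul, map_mul, map_ofNat]
      linear_combination (algebraMap K N b + algebraMap K N c * th φ) * h3
    rw [h2, trace_co φ] at h1
    have h4 : 6 * b = 3 * (2 * b) := by ring
    rwa [h4]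
  have ha' : w.valuation K (6 * a) ≤ 1 := by
    have h1 : (6 : K) * a = algebraMap (𝓞 K) K 2 * (3 * a) := by
      rw [map_ofNat]
      ring
    rw [h1, map_mul]
    exact mul_le_one' (w.valuation_le_one 2) ha
  obtain ⟨s, hs⟩ := pr_sq w p hp (6 * a) (6 * b) (6 * c) ha' hb hc
  refine ⟨cmap (algebraMap K (w.adicCompletion K)) (φ.symm b0) * s, ?_⟩
  rw [mul_pow, ← hs, ← map_pow, ← map_mul, ← map_pow]
  congr 1
  apply φ.injective
  rw [AlgEquiv.apply_symm_apply, map_mul, AlgEquiv.apply_symm_apply]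
  have hφo : ∀ x : K, φ (AdjoinRoot.of _ x) = algebraMap K N x := fun x => φ.commutes x
  have h5 : φ (1 + 4 * (AdjoinRoot.of _ (algebraMap (𝓞 K) K p) *
        (AdjoinRoot.of _ (6 * a) + AdjoinRoot.of _ (6 * b) * AdjoinRoot.root _ +
          AdjoinRoot.of _ (6 * c) * AdjoinRoot.root _ ^ 2))) = 1 + q * y := by
    have e1 : φ (AdjoinRoot.of _ (algebraMap (𝓞 K) K p) *
        (AdjoinRoot.of _ (6 * a) + AdjoinRoot.of _ (6 * b) * AdjoinRoot.root _ +
          AdjoinRoot.of _ (6 * c) * AdjoinRoot.root _ ^ 2)) = algebraMap K N (algebraMap (𝓞 K) K p) *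
        (algebraMap K N (6 * a) + algebraMap K N (6 * b) * th φ + algebraMap K N (6 * c) * th φ ^ 2) := by
      rw [map_mul φ, map_add φ, map_add φ, map_mul φ, map_mul φ, map_pow φ, hφo, hφo, hφo, hφo]
    rw [map_add φ, map_mul φ, e1, map_one, map_ofNat, map_mul (algebraMap K N) 6 a, map_mul (algebraMap K N) 6 b,
      map_mul (algebraMap K N) 6 c, map_ofNat, hq, habc]
    ring
  rw [h5, hy]
  field_simp
  ring

end H19X
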