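import Mathlib
import Pool.Agent.Lib.H19X.B2
import Pool.Agent.Lib.H19X.C2
import Pool.Agent.Lib.H19X.D2
import Pool.Agent.Lib.H19X.He
import Pool.Agent.Lib.H19X.L0
import Pool.Agent.Lib.H19X.Pr

open NumberField IsDedekindDomain

namespace H19X

open H55B H55C H55E

/-! Chunk F2 (M): the local image above 2. exists_P2 (U2), normal_A, normal_B, normal_C, normal_D: with g = 2(2x + d th),
x = 1/(4r^2), v_P(m g/b^2 - 1) <= exp(-7) < exp(-6) = v_P(4). hensel (He; valued_alg of H55C.A17): m g/b^2, hence m g, is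
a square in the completion of N at P; m g <> 0 (th is not in K: indep_co). square_of_local (Pr): the image of
φ.symm (m g) = φ.symm m * 2(2x + dT) in Cub(K_w) is a square (cmap, map_mul; φ.symm of algebraMap and th).
loc_of_sq (L0): norm of the image of φ.symm m is the image of n^2 (A18_norm: norm commutes with cmap); units: images of
units of the field Cub K. -/

variable {K N : Type} [Field K] [NumberField K] [Field N] [NumberField N] [Algebra K N]
  (φ : Cub K ≃ₐ[K] N)

theorem F2_coords (k : Type) [Field k] (m : Cub k) : ∃ a b c : k,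
    m = AdjoinRoot.of _ a + AdjoinRoot.of _ b * AdjoinRoot.root _ +
      AdjoinRoot.of _ c * AdjoinRoot.root _ ^ 2 := by
  have hf : (Polynomial.X ^ 3 - Polynomial.C 2 : Polynomial k).Monic :=
    Polynomial.monic_X_pow_sub_C 2 three_ne_zero
  have hd : (AdjoinRoot.powerBasis' hf).dim = 3 := by
    rw [AdjoinRoot.powerBasis'_dim, Polynomial.natDegree_X_pow_sub_C]
  set B : Module.Basis (Fin 3) k (Cub k) := (AdjoinRoot.powerBasis' hf).basis.reindex (finCongr hd)
    with hB
  have hBi : ∀ i : Fin 3, B i = AdjoinRoot.root _ ^ (i : ℕ) := by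
    intro i
    rw [hB, Module.Basis.reindex_apply, PowerBasis.basis_eq_pow, AdjoinRoot.powerBasis'_gen]
    rfl
  refine ⟨B.repr m 0, B.repr m 1, B.repr m 2, ?_⟩
  conv_lhs => rw [← B.sum_repr m]
  rw [Fin.sum_univ_three, hBi, hBi, hBi]
  simp only [Algebra.smul_def, AdjoinRoot.algebraMap_eq, Fin.val_zero, pow_zero, mul_one,
    Fin.val_one, pow_one, Fin.val_two]

theorem F2_cmap_of {k k' : Type} [Field k] [Field k'] (f : k →+* k') (z : k) :
    cmap f (AdjoinRoot.of _ z) = AdjoinRoot.of _ (f z) := AdjoinRoot.map_of _ _ _ _ z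

theorem F2_cmap_root {k k' : Type} [Field k] [Field k'] (f : k →+* k') :
    cmap f (AdjoinRoot.root _) = AdjoinRoot.root _ := AdjoinRoot.map_root _ _ _ _

/-- The norm of the cubic algebra commutes with base change. -/
theorem norm_cmap {k k' : Type} [Field k] [Field k'] (f : k →+* k') (m : Cub k) :
    Algebra.norm k' (cmap f m) = f (Algebra.norm k m) := by
  obtain ⟨a, b, c, rfl⟩ := F2_coords k m
  have h1 : cmap f (AdjoinRoot.of _ a + AdjoinRoot.of _ b * AdjoinRoot.root _ +
      AdjoinRoot.of _ c * AdjoinRoot.root _ ^ 2 : Cub k) =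
      (AdjoinRoot.of _ (f a) + AdjoinRoot.of _ (f b) * AdjoinRoot.root _ +
      AdjoinRoot.of _ (f c) * AdjoinRoot.root _ ^ 2 : Cub k') := by
    rw [map_add, map_add, map_mul, map_mul, map_pow, F2_cmap_of, F2_cmap_of, F2_cmap_of,
      F2_cmap_root]
  rw [h1, A18_norm, A18_norm]
  simp only [map_add, map_sub, map_mul, map_pow, map_ofNat]

omit [NumberField K] [NumberField N] in
theorem F2_unit {z : N} (hz : z ≠ 0) : IsUnit (φ.symm z) :=
  (IsUnit.mk0 z hz).map φ.symm

theorem F2_g (w : HeightOneSpectrum (𝓞 K)) (d : ℤ) (x : K) :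
    cmap (algebraMap K (w.adicCompletion K)) (φ.symm (2 * (2 * algebraMap K N x + (d : N) * th φ))) =
      2 * (2 * AdjoinRoot.of _ (algebraMap K (w.adicCompletion K) x) +
        (d : Cub (w.adicCompletion K)) * AdjoinRoot.root _) := by
  have h1 : φ.symm (2 * (2 * algebraMap K N x + (d : N) * th φ)) =
      2 * (2 * AdjoinRoot.of _ x + (d : Cub K) * AdjoinRoot.root _) := by
    simp only [map_mul, map_add, map_ofNat, map_intCast, AlgEquiv.commutes,
      AlgEquiv.symm_apply_apply]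
    rfl
  rw [h1]
  simp only [map_mul, map_add, map_ofNat, map_intCast, F2_cmap_of, F2_cmap_root]

theorem loc_two (w : HeightOneSpectrum (𝓞 K)) (h2 : (2 : 𝓞 K) ∈ w.asIdeal)
    (hv : w.valuation K (2 : K) = WithZero.exp (-1 : ℤ)) (d : ℤ) (hd : d % 4 = 1) (m : N)
    (hm : m ≠ 0) (n : K) (hn : Algebra.norm K m = n ^ 2)
    (h : ∀ P : HeightOneSpectrum (𝓞 N), (2 : 𝓞 N) ∈ P.asIdeal →
      ∃ b : N, b ≠ 0 ∧ P.valuation N (m / b ^ 2 - 1) ≤ P.valuation N (th φ ^ 2)) :
    LocImd d (w.adicCompletion K) (cmap (algebraMap K (w.adicCompletion K)) (φ.symm m)) := by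
  obtain ⟨P, hPw, hPu, ht, hPv⟩ := exists_P2 φ w h2 hv
  have h2P : (2 : 𝓞 N) ∈ P.asIdeal := by
    have h3 : (2 : 𝓞 K) ∈ P.asIdeal.under (𝓞 K) := hPw ▸ h2
    have h4 : algebraMap (𝓞 K) (𝓞 N) 2 ∈ P.asIdeal := h3
    rwa [map_ofNat] at h4
  have hA := normal_A φ w h2 hv P ht hPv m hm n hn (h P h2P)
  have hB := normal_B φ w h2 hv P ht hPv m hA
  obtain ⟨r, b, hr, hr1, hb, hC⟩ := normal_C φ w h2 hv P ht hPv d hd m hB
  obtain ⟨b', hb', hD⟩ := normal_D φ w h2 hv P ht hPv d m hm n hn r hr hr1 b hb hC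
  obtain ⟨g, hg⟩ : ∃ g : N, g = 2 * (2 * algebraMap K N (1 / (4 * r ^ 2)) + (d : N) * th φ) :=
    ⟨_, rfl⟩
  rw [← hg] at hD
  have hg0 : g ≠ 0 := by
    intro h0
    rw [h0, mul_zero, zero_div, zero_sub, Valuation.map_neg, map_one, ← WithZero.exp_zero,
      WithZero.exp_le_exp] at hD
    norm_num at hD
  have hmg : m * g ≠ 0 := mul_ne_zero hm hg0
  have h4 : P.valuation N (4 : N) = WithZero.exp (-6 : ℤ) := by
    have e1 : (4 : N) = algebraMap K N (2 * 2) := by
      rw [map_mul, map_ofNat]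
      norm_num
    rw [e1, hPv, map_mul, hv, ← WithZero.exp_add, ← WithZero.exp_nsmul]
    rfl
  obtain ⟨β, hβ⟩ := hensel P (algebraMap N (P.adicCompletion N) (m * g / b' ^ 2)) (by
    rw [A18_valued_ofNat P 4, h4]
    have e1 : algebraMap N (P.adicCompletion N) (m * g / b' ^ 2) - 1 =
        algebraMap N (P.adicCompletion N) (m * g / b' ^ 2 - 1) := by
      rw [map_sub, map_one]
    rw [e1, valued_alg]
    refine hD.trans_lt ?_
    rw [WithZero.exp_lt_exp]
    norm_num)
  have hβ' : algebraMap N (P.adicCompletion N) (m * g) =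
      (β * algebraMap N (P.adicCompletion N) b') ^ 2 := by
    rw [mul_pow, ← hβ, ← map_pow, ← map_mul, div_mul_cancel₀ _ (pow_ne_zero 2 hb')]
  obtain ⟨c, hc⟩ := square_of_local φ w P hPw hPu (m * g) hmg ⟨_, hβ'⟩
  rw [map_mul, map_mul, hg, F2_g φ w d] at hc
  have hun : IsUnit (2 * (2 * AdjoinRoot.of _ (algebraMap K (w.adicCompletion K) (1 / (4 * r ^ 2))) +
        (d : Cub (w.adicCompletion K)) * AdjoinRoot.root _)) := by
    rw [← F2_g φ w d, ← hg]
    exact (F2_unit φ hg0).map _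
  have hch : CharZero (w.adicCompletion K) :=
    charZero_of_injective_algebraMap (algebraMap K (w.adicCompletion K)).injective
  refine loc_of_sq d _ ((F2_unit φ hm).map _) (algebraMap K (w.adicCompletion K) n) ?_ _ hun c hc
  rw [norm_cmap, Algebra.norm_eq_of_algEquiv φ.symm, hn, map_pow]

end H19X
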