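import Mathlib
import Pool.Agent.Lib.H16A.H4
import Pool.Agent.Lib.H55C.A18
import Pool.Agent.Lib.H55E.Defs

open NumberField IsDedekindDomain

namespace H19X

open H55B H55C H55E

/-! Chunk LG1 (M): comparison with H16A. EC d is Y^2 = X^3 + 16 d^3; for a point (X, Y), Y <> 0, of EC d over k the
point x = X/4, 2y + 1 = Y/4 satisfies 4(y^2 + y) = 4x^3 + d^3 - 1 (multiply (2y+1)^2 = 4x^3 + d^3 by 16). The
algebra k[X]/(X^3 + 16 d^3) is isomorphic to Cub k by theta -> -2 d T (T^3 = 2: (-2dT)^3 = -16 d^3), inverse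
T -> -theta/(2d). X - theta -> 4x + 2dT = 2(2x + dT). tau_rel: u z^2 = X - theta with z a unit of the algebra
(X - theta has norm val X = Y^2 <> 0, so it is a unit), hence tau(u) 2(2x + dT) = (tau(u) tau(z))^2. -/

/-- The curve Y^2 = X^3 + 16 d^3 in the notation of H16A. -/
def EC (d : ℤ) : H16A.Cub := ⟨0, 0, 16 * d ^ 3⟩

theorem lg1_poly (k : Type) [Field k] (d : ℤ) :
    (EC d).poly k = Polynomial.X ^ 3 + Polynomial.C (16 * (d : k) ^ 3) := by
  unfold H16A.Cub.poly EC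
  simp

theorem lg1_val {k : Type} [Field k] (d : ℤ) (x : k) : (EC d).val x = x ^ 3 + 16 * (d : k) ^ 3 := by
  unfold H16A.Cub.val EC
  simp

theorem lg1_th (k : Type) [Field k] (d : ℤ) :
    (EC d).th k ^ 3 = -(16 * (d : (EC d).Alg k) ^ 3) := by
  have h := AdjoinRoot.eval₂_root ((EC d).poly k)
  have h1 : ((EC d).poly k).eval₂ (AdjoinRoot.of ((EC d).poly k)) (AdjoinRoot.root ((EC d).poly k)) =
      (EC d).th k ^ 3 + 16 * (d : (EC d).Alg k) ^ 3 := by
    rw [Polynomial.eval₂_congr rfl rfl (lg1_poly k d)]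
    rw [Polynomial.eval₂_add, Polynomial.eval₂_pow, Polynomial.eval₂_X, Polynomial.eval₂_C, map_mul, map_pow,
      map_intCast, map_ofNat]
    rfl
  rw [h1] at h
  linear_combination h

/-- th goes to -2dT. -/
noncomputable def lg1_f (k : Type) [Field k] (d : ℤ) : (EC d).Alg k →ₐ[k] Cub k :=
  AdjoinRoot.liftAlgHom ((EC d).poly k) (Algebra.ofId k (Cub k)) (-(2 * (d : Cub k)) * AdjoinRoot.root _) (by
    rw [Polynomial.eval₂_congr rfl rfl (lg1_poly k d), Polynomial.eval₂_add, Polynomial.eval₂_pow,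
      Polynomial.eval₂_X, Polynomial.eval₂_C]
    have h := A18_root k
    have e : (Algebra.ofId k (Cub k)) (16 * (d : k) ^ 3) = 16 * (d : Cub k) ^ 3 := by
      rw [map_mul, map_pow, map_intCast, map_ofNat (Algebra.ofId k (Cub k)) 16]
    change _ + (Algebra.ofId k (Cub k)) (16 * (d : k) ^ 3) = 0
    rw [e]
    linear_combination (-8 * (d : Cub k) ^ 3) * h)

/-- T goes to -th/(2d). -/
noncomputable def lg1_g (k : Type) [Field k] [CharZero k] (d : ℤ) (hd : d ≠ 0) : Cub k →ₐ[k] (EC d).Alg k :=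
  AdjoinRoot.liftAlgHom _ (Algebra.ofId k ((EC d).Alg k)) (algebraMap k ((EC d).Alg k) (-(1 / (2 * (d : k)))) * (EC d).th k) (by
    have h := lg1_th k d
    have hd' : (d : k) ≠ 0 := Int.cast_ne_zero.2 hd
    rw [Polynomial.eval₂_sub, Polynomial.eval₂_pow, Polynomial.eval₂_X, Polynomial.eval₂_C]
    have e : (Algebra.ofId k ((EC d).Alg k)) (2 : k) = 2 := map_ofNat _ 2
    change _ - (Algebra.ofId k ((EC d).Alg k)) (2 : k) = 0
    rw [e, mul_pow, h]
    have e2 : (-(1 / (2 * (d : k)))) ^ 3 * (16 * (d : k) ^ 3) = -2 := by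
      field_simp
      norm_num
    have e3 := congrArg (algebraMap k ((EC d).Alg k)) e2
    rw [map_mul, map_pow, map_mul (algebraMap k ((EC d).Alg k)) 16, map_pow, map_intCast,
      map_ofNat (algebraMap k ((EC d).Alg k)) 16, map_neg (algebraMap k ((EC d).Alg k)) 2, map_ofNat (algebraMap k ((EC d).Alg k)) 2] at e3
    linear_combination -e3)

theorem exists_tau (k : Type) [Field k] [CharZero k] (d : ℤ) (hd : d ≠ 0) :
    ∃ τ : (EC d).Alg k ≃ₐ[k] Cub k, τ ((EC d).th k) = -(2 * (d : Cub k)) * AdjoinRoot.root _ ∧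
      ∀ (u : ((EC d).Alg k)ˣ) (x y : k)
        (h : (WeierstrassCurve.Affine.baseChange (EC d).W k).Nonsingular x y), y ≠ 0 →
        (EC d).Rel k u (WeierstrassCurve.Affine.Point.some x y h) →
        LocImd d k (τ (u : (EC d).Alg k)) := by
  have hd' : (d : k) ≠ 0 := Int.cast_ne_zero.2 hd
  have hf : lg1_f k d ((EC d).th k) = -(2 * (d : Cub k)) * AdjoinRoot.root _ := AdjoinRoot.liftAlgHom_root _ _ _ _
  have hg : lg1_g k d hd (AdjoinRoot.root _) = algebraMap k ((EC d).Alg k) (-(1 / (2 * (d : k)))) * (EC d).th k :=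
    AdjoinRoot.liftAlgHom_root _ _ _ _
  have h1 : (lg1_f k d).comp (lg1_g k d hd) = AlgHom.id k (Cub k) := by
    refine AdjoinRoot.algHom_ext ?_
    rw [AlgHom.comp_apply, hg, map_mul, AlgHom.commutes, hf, AlgHom.id_apply]
    have e2 : (-(1 / (2 * (d : k)))) * (-(2 * (d : k))) = 1 := by
      field_simp
    have e3 := congrArg (algebraMap k (Cub k)) e2
    rw [map_mul, map_neg (algebraMap k (Cub k)) (2 * (d : k)), map_mul (algebraMap k (Cub k)) 2 (d : k), map_intCast, map_ofNat (algebraMap k (Cub k)) 2, map_one] at e3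
    rw [← mul_assoc, e3, one_mul]
  have h2 : (lg1_g k d hd).comp (lg1_f k d) = AlgHom.id k ((EC d).Alg k) := by
    refine AdjoinRoot.algHom_ext ?_
    change (lg1_g k d hd) (lg1_f k d ((EC d).th k)) = (EC d).th k
    rw [hf, map_mul, hg, map_neg, map_mul, map_intCast, map_ofNat]
    have e2 : (-(2 * (d : k))) * (-(1 / (2 * (d : k)))) = 1 := by
      field_simp
    have e3 := congrArg (algebraMap k ((EC d).Alg k)) e2
    rw [map_mul, map_neg (algebraMap k ((EC d).Alg k)) (2 * (d : k)), map_mul (algebraMap k ((EC d).Alg k)) 2 (d : k), map_intCast, map_ofNat, map_one] at e3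
    rw [← mul_assoc, e3, one_mul]
  refine ⟨AlgEquiv.ofAlgHom (lg1_f k d) (lg1_g k d hd) h1 h2, hf, ?_⟩
  intro u x y h hy hR
  obtain ⟨-, z, hz⟩ := hR
  set τ : (EC d).Alg k ≃ₐ[k] Cub k := AlgEquiv.ofAlgHom (lg1_f k d) (lg1_g k d hd) h1 h2 with hτ
  have hτ1 : τ ((EC d).th k) = -(2 * (d : Cub k)) * AdjoinRoot.root _ := hf
  have hE : y ^ 2 = x ^ 3 + 16 * (d : k) ^ 3 := by
    rw [← lg1_val]
    exact ((EC d).h4_eq_iff x y).1 h.1
  refine ⟨x / 4, (y / 4 - 1) / 2, ?_, ?_, τ (u : (EC d).Alg k) * τ z, ?_⟩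
  · linear_combination hE / 16
  · have : 2 * ((y / 4 - 1) / 2) + 1 = y / 4 := by ring
    rw [this]
    exact div_ne_zero hy (by norm_num)
  · have h3 := congrArg τ hz
    rw [map_mul, map_pow, map_sub, AlgEquiv.commutes, hτ1] at h3
    have e1 : (4 : k) * (x / 4) = x := by ring
    have e2 := congrArg (AdjoinRoot.of (Polynomial.X ^ 3 - Polynomial.C 2 : Polynomial k)) e1
    rw [map_mul] at e2
    have e4 : AdjoinRoot.of (Polynomial.X ^ 3 - Polynomial.C 2 : Polynomial k) (4 : k) = 4 := map_ofNat _ 4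
    rw [e4] at e2
    rw [AdjoinRoot.algebraMap_eq] at h3
    linear_combination (τ (u : (EC d).Alg k)) * e2 - (τ (u : (EC d).Alg k)) * h3

/-- The converse: a point of E_d gives a point of EC d with the class. -/
theorem exists_rel_of_loc (k : Type) [Field k] [CharZero k] (d : ℤ) (hd : d ≠ 0)
    (τ : (EC d).Alg k ≃ₐ[k] Cub k)
    (hτ : τ ((EC d).th k) = -(2 * (d : Cub k)) * AdjoinRoot.root _)
    (u : ((EC d).Alg k)ˣ) (n : k) (hn : Algebra.norm k (u : (EC d).Alg k) = n ^ 2)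
    (h : LocImd d k (τ (u : (EC d).Alg k))) :
    ∃ (x y : k) (h : (WeierstrassCurve.Affine.baseChange (EC d).W k).Nonsingular x y), y ≠ 0 ∧
      (EC d).Rel k u (WeierstrassCurve.Affine.Point.some x y h) := by
  obtain ⟨x, y, h1, h2, b, hb⟩ := h
  have hy : (4 * (2 * y + 1)) ≠ 0 := mul_ne_zero (by norm_num) h2
  have hE : (4 * (2 * y + 1)) ^ 2 = (EC d).val (4 * x) := by
    rw [lg1_val]
    linear_combination 16 * h1
  refine ⟨4 * x, 4 * (2 * y + 1), (EC d).h4_ns two_ne_zero hE hy, hy, ⟨n, by rw [hn, pow_two]⟩, ?_⟩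
  refine ⟨τ.symm b * ((u⁻¹ : ((EC d).Alg k)ˣ) : (EC d).Alg k), τ.injective ?_⟩
  have h3 : τ (u : (EC d).Alg k) * τ ((u⁻¹ : ((EC d).Alg k)ˣ) : (EC d).Alg k) = 1 := by
    rw [← map_mul, Units.mul_inv, map_one]
  rw [map_mul, map_pow, map_mul, AlgEquiv.apply_symm_apply, map_sub, AlgEquiv.commutes, hτ, mul_pow, ← hb,
    AdjoinRoot.algebraMap_eq]
  have e4 : AdjoinRoot.of (Polynomial.X ^ 3 - Polynomial.C 2 : Polynomial k) (4 : k) = 4 := map_ofNat _ 4
  rw [map_mul, e4]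
  set U := τ (u : (EC d).Alg k)
  set V := τ ((u⁻¹ : ((EC d).Alg k)ˣ) : (EC d).Alg k)
  linear_combination (2 * (2 * AdjoinRoot.of _ x + (d : Cub k) * AdjoinRoot.root _)) * (U * V + 1) * h3

end H19X
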