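import Mathlib
import Pool.Agent.Lib.H16A.H3
import Pool.Agent.Lib.H19X.L0
import Pool.Agent.Lib.H19X.LG1

open NumberField IsDedekindDomain

namespace H19X

open H55B H55C H55E

/-! Chunk LG2 (S/M): over a completion every element of the image of the descent map comes from a point which is not
of order two and not 0. H16A.Cub.mem_imSub_iff: Rel u P. If P = (x, y) with y <> 0: exists_tau. Otherwise P + P = 0 (P = 0 or
y = 0). Let Q = (x0, y0), y0 <> 0, with Rel 1 Q: from loc_one and exists_rel_of_loc (u = 1). By rel_add Rel u (P + Q)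
(u * 1 = u). P + Q is not 0 and not of order two: otherwise 0 = 2(P + Q) = 2Q, so Q = -Q, y0 = 0 (H4 / D2: negY). -/

theorem LG2_negY (E : H16A.Cub) {L : Type*} [Field L] (x y : L) :
    (WeierstrassCurve.Affine.baseChange E.W L).negY x y = -y := by
  have ha1 : (WeierstrassCurve.Affine.baseChange E.W L).a₁ = 0 := by
    simp [WeierstrassCurve.Affine.baseChange, WeierstrassCurve.baseChange, H16A.Cub.W]
  have ha3 : (WeierstrassCurve.Affine.baseChange E.W L).a₃ = 0 := by
    simp [WeierstrassCurve.Affine.baseChange, WeierstrassCurve.baseChange, H16A.Cub.W]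
  rw [WeierstrassCurve.Affine.negY, ha1, ha3]
  ring

/-- A point of order dividing two. -/
theorem LG2_two (E : H16A.Cub) {L : Type*} [Field L] [DecidableEq L] (R : E.Pt L)
    (hR : ∀ (x y : L) (h : (WeierstrassCurve.Affine.baseChange E.W L).Nonsingular x y), y ≠ 0 →
      R ≠ WeierstrassCurve.Affine.Point.some x y h) : R + R = 0 := by
  match R with
  | 0 => exact add_zero 0
  | .some x y h =>
    have hy : y = 0 := by
      by_contra hy
      exact hR x y h hy rfl
    refine WeierstrassCurve.Affine.Point.add_self_of_Y_eq ?_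
    rw [LG2_negY, hy, neg_zero]

theorem LG2_gen (L : Type) [Field L] [CharZero L] (d : ℤ) (hd : d ≠ 0) (τ : (EC d).Alg L ≃ₐ[L] Cub L)
    (hτ : τ ((EC d).th L) = -(2 * (d : Cub L)) * AdjoinRoot.root _) (hone : LocImd d L 1)
    (u : ((EC d).Alg L)ˣ) (hu : u ∈ (EC d).imSub L) : LocImd d L (τ (u : (EC d).Alg L)) := by
  classical
  have h2 : (2 : L) ≠ 0 := two_ne_zero
  have hdisc : (((EC d).disc : ℤ) : L) ≠ 0 := by
    rw [Int.cast_ne_zero]
    have : (EC d).disc = -(27 * 256) * d ^ 6 := by
      unfold EC H16A.Cub.disc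
      ring
    rw [this]
    exact mul_ne_zero (by norm_num) (pow_ne_zero _ hd)
  obtain ⟨τ', hτ', H⟩ := exists_tau L d hd
  have e : τ = τ' := by
    have h3 : (τ : (EC d).Alg L →ₐ[L] Cub L) = (τ' : (EC d).Alg L →ₐ[L] Cub L) := by
      refine AdjoinRoot.algHom_ext ?_
      exact hτ.trans hτ'.symm
    exact AlgEquiv.coe_algHom_injective h3
  obtain ⟨P, hP⟩ := (H16A.Cub.mem_imSub_iff (EC d) h2 hdisc u).1 hu
  have h1 : LocImd d L (τ ((1 : ((EC d).Alg L)ˣ) : (EC d).Alg L)) := by
    rw [Units.val_one, map_one]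
    exact hone
  obtain ⟨x0, y0, h0, hy0, hQ⟩ := exists_rel_of_loc L d hd τ hτ 1 1
    (by rw [Units.val_one, map_one, one_pow]) h1
  by_cases hc : ∃ (x y : L) (h : (WeierstrassCurve.Affine.baseChange (EC d).W L).Nonsingular x y), y ≠ 0 ∧
      P = WeierstrassCurve.Affine.Point.some x y h
  · obtain ⟨x, y, h, hy, rfl⟩ := hc
    rw [e]
    exact H u x y h hy hP
  · have hc2 : ∀ (x y : L) (h : (WeierstrassCurve.Affine.baseChange (EC d).W L).Nonsingular x y), y ≠ 0 →
        P ≠ WeierstrassCurve.Affine.Point.some x y h := fun x y h hy hP => hc ⟨x, y, h, hy, hP⟩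
    have hPP := LG2_two (EC d) P hc2
    have hR := H16A.Cub.rel_add (EC d) h2 hdisc hP hQ
    rw [mul_one] at hR
    by_cases hc' : ∃ (x y : L) (h : (WeierstrassCurve.Affine.baseChange (EC d).W L).Nonsingular x y), y ≠ 0 ∧
        P + WeierstrassCurve.Affine.Point.some x0 y0 h0 = WeierstrassCurve.Affine.Point.some x y h
    · obtain ⟨x, y, h, hy, hxy⟩ := hc'
      rw [hxy] at hR
      rw [e]
      exact H u x y h hy hR
    · exfalso
      have hRR := LG2_two (EC d) (P + WeierstrassCurve.Affine.Point.some x0 y0 h0)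
        (fun x y h hy hP => hc' ⟨x, y, h, hy, hP⟩)
      have hQQ : WeierstrassCurve.Affine.Point.some x0 y0 h0 + WeierstrassCurve.Affine.Point.some x0 y0 h0 = 0 := by
        rw [add_add_add_comm, hPP, zero_add] at hRR
        exact hRR
      have hQn := eq_neg_of_add_eq_zero_left hQQ
      rw [WeierstrassCurve.Affine.Point.neg_some] at hQn
      have h6 := (WeierstrassCurve.Affine.Point.some.injEq _ _ _ _ _ _).mp hQn
      have h7 := h6.2
      rw [LG2_negY] at h7
      apply hy0
      have h8 : 2 * y0 = 0 := by linear_combination h7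
      rcases mul_eq_zero.1 h8 with h9 | h9
      · exact absurd h9 h2
      · exact h9

theorem loc_of_imSub (K : Type) [Field K] [NumberField K] (w : HeightOneSpectrum (𝓞 K)) (d : ℤ)
    (hd : d ≠ 0) (τ : (EC d).Alg (w.adicCompletion K) ≃ₐ[w.adicCompletion K] Cub (w.adicCompletion K))
    (hτ : τ ((EC d).th _) = -(2 * (d : Cub (w.adicCompletion K))) * AdjoinRoot.root _)
    (u : ((EC d).Alg (w.adicCompletion K))ˣ) (hu : u ∈ (EC d).imSub (w.adicCompletion K)) :
    LocImd d (w.adicCompletion K) (τ (u : (EC d).Alg (w.adicCompletion K))) := by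
  have : CharZero (w.adicCompletion K) :=
    charZero_of_injective_algebraMap (algebraMap K (w.adicCompletion K)).injective
  exact LG2_gen (w.adicCompletion K) d hd τ hτ (loc_one K w d hd) u hu

end H19X
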