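import Mathlib

open NumberField IsDedekindDomain

namespace H19X

/-! Chunk EX1 (M): units modulo squares. (𝓞 N)ˣ = torsion x Z^rank (Dirichlet: NumberField.Units.basisModTorsion /
fundSystem, exist_unique_eq_mul_prod), rank + 1 = number of infinite places, torsion is cyclic of even order (it contains -1), so
(𝓞 N)ˣ / squares has order 2 * 2^rank. many_units: representatives. few_units: the classification by the exponents modulo 2:
u = zeta * prod fund_i^(e_i), zeta = zeta0^j; class (j mod 2, e_i mod 2). -/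

theorem ex1_rank (N : Type) [Field N] [NumberField N] :
    Units.rank N + 1 = Fintype.card (InfinitePlace N) := by
  unfold Units.rank
  have : 0 < Fintype.card (InfinitePlace N) := Fintype.card_pos
  omega

theorem ex1_rep (N : Type) [Field N] [NumberField N] (z : Units.torsion N)
    (hz : ∀ x, x ∈ Subgroup.zpowers z) (u : (𝓞 N)ˣ) :
    ∃ (j : ℤ) (e : Fin (Units.rank N) → ℤ),
      u = (z : (𝓞 N)ˣ) ^ j * ∏ i, Units.fundSystem N i ^ e i := by
  obtain ⟨⟨ζ, e⟩, h, -⟩ := Units.exist_unique_eq_mul_prod N u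
  obtain ⟨j, hj⟩ := hz ζ
  refine ⟨j, e, ?_⟩
  simp only at h hj
  rw [h, ← hj]
  simp

theorem ex1_uniq (N : Type) [Field N] [NumberField N] (z : Units.torsion N)
    (hz : ∀ x, x ∈ Subgroup.zpowers z) (j j' : ℤ) (e e' : Fin (Units.rank N) → ℤ)
    (h : (z : (𝓞 N)ˣ) ^ j * ∏ i, Units.fundSystem N i ^ e i =
      (z : (𝓞 N)ˣ) ^ j' * ∏ i, Units.fundSystem N i ^ e' i) :
    e = e' ∧ (2 : ℤ) ∣ j - j' := by
  obtain ⟨ζe, -, h2⟩ := Units.exist_unique_eq_mul_prod N
    ((z : (𝓞 N)ˣ) ^ j * ∏ i, Units.fundSystem N i ^ e i)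
  have a1 := h2 (z ^ j, e) (by simp)
  have a2 := h2 (z ^ j', e') (by simp [h])
  have a3 : (z ^ j, e) = (z ^ j', e') := a1.trans a2.symm
  have a4 : z ^ j = z ^ j' := congrArg Prod.fst a3
  have a5 : e = e' := congrArg Prod.snd a3
  refine ⟨a5, ?_⟩
  have h6 : z ^ (j - j') = 1 := by
    rw [zpow_sub, a4, mul_inv_cancel]
  have h7 : (orderOf z : ℤ) ∣ j - j' := orderOf_dvd_iff_zpow_eq_one.2 h6
  have h8 : orderOf z = Units.torsionOrder N := by
    unfold Units.torsionOrder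
    exact orderOf_eq_card_of_forall_mem_zpowers hz
  have h9 : Even (Units.torsionOrder N) := Units.even_torsionOrder N
  obtain ⟨t, ht⟩ := h9
  refine dvd_trans ?_ h7
  rw [h8, ht]
  exact ⟨t, by push_cast; ring⟩

theorem many_units (N : Type) [Field N] [NumberField N] :
    ∃ f : Fin (2 ^ Fintype.card (InfinitePlace N)) → (𝓞 N)ˣ,
      ∀ i j, i ≠ j → ¬ ∃ b : (𝓞 N)ˣ, f i = f j * b ^ 2 := by
  rw [← ex1_rank N]
  obtain ⟨z, hz⟩ := IsCyclic.exists_generator (α := Units.torsion N)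
  let g : (Fin (Units.rank N + 1) → Fin 2) → (𝓞 N)ˣ := fun k =>
    (z : (𝓞 N)ˣ) ^ (((k 0 : Fin 2) : ℕ) : ℤ) * ∏ i : Fin (Units.rank N), Units.fundSystem N i ^ ((((k i.succ : Fin 2) : ℕ)) : ℤ)
  refine ⟨fun n => g (finFunctionFinEquiv.symm n), ?_⟩
  have key : ∀ k k' : Fin (Units.rank N + 1) → Fin 2, (∃ b : (𝓞 N)ˣ, g k = g k' * b ^ 2) →
      k = k' := by
    rintro k k' ⟨b, hb⟩
    obtain ⟨j, e, hje⟩ := ex1_rep N z hz b
    have h1 : (z : (𝓞 N)ˣ) ^ (((k 0 : Fin 2) : ℕ) : ℤ) * ∏ i : Fin (Units.rank N), Units.fundSystem N i ^ ((((k i.succ : Fin 2) : ℕ)) : ℤ)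
        = (z : (𝓞 N)ˣ) ^ ((((k' 0 : Fin 2) : ℕ) : ℤ) + 2 * j) * ∏ i : Fin (Units.rank N), Units.fundSystem N i ^ (((((k' i.succ : Fin 2) : ℕ)) : ℤ) + 2 * e i) := by
      have h0 : g k = g k' * b ^ 2 := hb
      simp only [g] at h0
      rw [h0, hje]
      simp only [zpow_add, Finset.prod_mul_distrib, mul_pow, ← Finset.prod_pow]
      have e1 : ((z : (𝓞 N)ˣ) ^ j) ^ 2 = (z : (𝓞 N)ˣ) ^ (2 * j) := by
        rw [← zpow_natCast, ← zpow_mul, mul_comm]; norm_num
      have e2 : ∀ i, (Units.fundSystem N i ^ e i) ^ 2 = Units.fundSystem N i ^ (2 * e i) := by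
        intro i
        rw [← zpow_natCast, ← zpow_mul, mul_comm]; norm_num
      simp only [e1, e2]
      exact mul_mul_mul_comm _ _ _ _
    obtain ⟨h2, h3⟩ := ex1_uniq N z hz _ _ _ _ h1
    funext i
    refine Fin.cases ?_ (fun i => ?_) i
    · have a := (k 0).2
      have b := (k' 0).2
      ext
      omega
    · have h4 := congrFun h2 i
      have a := (k i.succ).2
      have b := (k' i.succ).2
      ext
      omega
  intro i j hij hb
  exact hij (finFunctionFinEquiv.symm.injective (key _ _ hb))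

theorem few_units (N : Type) [Field N] [NumberField N] :
    ∃ c : (𝓞 N)ˣ → Fin (2 ^ Fintype.card (InfinitePlace N)),
      ∀ u v, c u = c v → ∃ b : (𝓞 N)ˣ, u = v * b ^ 2 := by
  rw [← ex1_rank N]
  obtain ⟨z, hz⟩ := IsCyclic.exists_generator (α := Units.torsion N)
  choose J E hJE using ex1_rep N z hz
  refine ⟨fun u => finFunctionFinEquiv (Fin.cons (α := fun _ => Fin 2) (if Even (J u) then (0 : Fin 2) else 1)
    (fun i => if Even (E u i) then (0 : Fin 2) else 1)), ?_⟩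
  intro u v huv
  have h1 := finFunctionFinEquiv.injective huv
  have h2 := congrFun h1 0
  simp only [Fin.cons_zero] at h2
  have h3 : ∀ i : Fin (Units.rank N), (if Even (E u i) then (0 : Fin 2) else 1) =
      (if Even (E v i) then (0 : Fin 2) else 1) := by
    intro i
    have := congrFun h1 i.succ
    simpa only [Fin.cons_succ] using this
  have hp : ∀ a b : ℤ, (if Even a then (0 : Fin 2) else 1) = (if Even b then (0 : Fin 2) else 1) →
      ∃ t, a = b + 2 * t := by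
    intro a b h
    by_cases ha : Even a <;> by_cases hb : Even b
    · obtain ⟨s, hs⟩ := ha
      obtain ⟨t, ht⟩ := hb
      exact ⟨s - t, by omega⟩
    · simp [ha, hb] at h
    · simp [ha, hb] at h
    · rw [Int.not_even_iff_odd] at ha hb
      obtain ⟨s, hs⟩ := ha
      obtain ⟨t, ht⟩ := hb
      exact ⟨s - t, by omega⟩
  obtain ⟨t, ht⟩ := hp _ _ h2
  choose s hs using fun i => hp _ _ (h3 i)
  refine ⟨(z : (𝓞 N)ˣ) ^ t * ∏ i, Units.fundSystem N i ^ s i, ?_⟩
  conv_lhs => rw [hJE u]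
  conv_rhs => rw [hJE v]
  rw [ht]
  simp only [hs, zpow_add, Finset.prod_mul_distrib, mul_pow, ← Finset.prod_pow]
  have e1 : ((z : (𝓞 N)ˣ) ^ t) ^ 2 = (z : (𝓞 N)ˣ) ^ (2 * t) := by
    rw [← zpow_natCast, ← zpow_mul, mul_comm]; norm_num
  have e2 : ∀ i, (Units.fundSystem N i ^ s i) ^ 2 = Units.fundSystem N i ^ (2 * s i) := by
    intro i
    rw [← zpow_natCast, ← zpow_mul, mul_comm]; norm_num
  simp only [e1, e2]
  exact mul_mul_mul_comm _ _ _ _

end H19X
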