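import Mathlib
import Pool.Agent.Lib.H19X.EX1

open NumberField IsDedekindDomain

namespace H19X

/-! Chunk EX2 (M/L): {P1, P2}-units modulo squares are many. Let h > 0 with P1^h = (a1), P2^h = (a2) (class number). U = the
group of x in N^* with v_P(x) = 1 for P different from P1, P2; ord = (ord_P1, ord_P2) : U -> Z^2 with image L, kernel (𝓞 N)ˣ.
L contains (h, 0), (0, h), so it is free of rank 2 and L/2L has 4 elements (submodule of finite index of Z^2: a basis of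
two elements, e.g. Submodule.nonempty_basis_of_pid / Smith normal form; or by hand: k = the least positive first coordinate
in L, (k, l) in L, and k' = the least positive number with (0, k') in L: then (k, l), (0, k') is a basis of L).
Choose x, y in U with ord x, ord y a basis of L; the elements f i * x^s * y^t (f from many_units, s, t in {0, 1}) are pairwise
inequivalent: if u x^s y^t = u' x^s' y^t' b^2, then b in U, comparing ord modulo 2L: s = s', t = t', and then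
u = u' b^2, b is a unit of 𝓞 N. -/

section EX2aux

variable {N : Type} [Field N] [NumberField N]

/-- the additive valuation -/
noncomputable def EX2_o (P : HeightOneSpectrum (𝓞 N)) (x : N) : ℤ := -(P.valuation N x).log

theorem EX2_o_mul (P : HeightOneSpectrum (𝓞 N)) {x y : N} (hx : x ≠ 0) (hy : y ≠ 0) :
    EX2_o P (x * y) = EX2_o P x + EX2_o P y := by
  unfold EX2_o
  rw [map_mul, WithZero.log_mul ((Valuation.ne_zero_iff _).2 hx) ((Valuation.ne_zero_iff _).2 hy)]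
  ring

theorem EX2_o_inv (P : HeightOneSpectrum (𝓞 N)) (x : N) : EX2_o P x⁻¹ = - EX2_o P x := by
  unfold EX2_o
  rw [map_inv₀, WithZero.log_inv]

theorem EX2_o_pow (P : HeightOneSpectrum (𝓞 N)) (x : N) (n : ℕ) :
    EX2_o P (x ^ n) = n * EX2_o P x := by
  unfold EX2_o
  rw [map_pow, WithZero.log_pow, nsmul_eq_mul]
  ring

theorem EX2_o_eq_zero_iff (P : HeightOneSpectrum (𝓞 N)) {x : N} (hx : x ≠ 0) :
    EX2_o P x = 0 ↔ P.valuation N x = 1 := by
  have h0 : P.valuation N x ≠ 0 := (Valuation.ne_zero_iff _).2 hx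
  unfold EX2_o
  constructor
  · intro h
    rw [← WithZero.exp_log h0, neg_eq_zero.1 h]
    rfl
  · intro h
    rw [h, WithZero.log_one, neg_zero]

theorem EX2_o_unit (P : HeightOneSpectrum (𝓞 N)) (u : (𝓞 N)ˣ) :
    P.valuation N ((u : 𝓞 N) : N) = 1 := by
  have h1 : ∀ a : 𝓞 N, P.valuation N (a : N) ≤ 1 := fun a => P.valuation_le_one a
  refine le_antisymm (h1 _) ?_
  have h2 : P.valuation N ((u : 𝓞 N) : N) * P.valuation N (((u⁻¹ : (𝓞 N)ˣ) : 𝓞 N) : N) = 1 := by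
    rw [← map_mul, ← map_mul (algebraMap (𝓞 N) N), Units.mul_inv, map_one, map_one]
  rw [← h2]
  exact mul_le_of_le_one_right' (h1 _)

theorem EX2_unit_of {b : N} (h : ∀ P : HeightOneSpectrum (𝓞 N), P.valuation N b = 1)
    (hb : b ≠ 0) : ∃ u : (𝓞 N)ˣ, ((u : 𝓞 N) : N) = b := by
  obtain ⟨c, hc⟩ := HeightOneSpectrum.mem_integers_of_valuation_le_one N b (R := 𝓞 N)
    (fun P => (h P).le)
  obtain ⟨c', hc'⟩ := HeightOneSpectrum.mem_integers_of_valuation_le_one N b⁻¹ (R := 𝓞 N)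
    (fun P => by rw [map_inv₀, h P, inv_one])
  have h1 : c * c' = 1 := by
    apply FaithfulSMul.algebraMap_injective (𝓞 N) N
    rw [map_mul, hc, hc', map_one, mul_inv_cancel₀ hb]
  exact ⟨⟨c, c', h1, by rw [mul_comm]; exact h1⟩, hc⟩

theorem EX2_elt (P1 : HeightOneSpectrum (𝓞 N)) : ∃ a : N, a ≠ 0 ∧ 0 < EX2_o P1 a ∧
    ∀ P : HeightOneSpectrum (𝓞 N), P ≠ P1 → P.valuation N a = 1 := by
  have hP0 : P1.asIdeal ∈ nonZeroDivisors (Ideal (𝓞 N)) :=
    mem_nonZeroDivisors_of_ne_zero P1.ne_bot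
  set h : ℕ := Fintype.card (ClassGroup (𝓞 N)) with hh
  have hpos : 0 < h := Fintype.card_pos
  have h1 : ClassGroup.mk0 (⟨P1.asIdeal, hP0⟩ ^ h) = 1 := by
    rw [map_pow]
    exact pow_card_eq_one
  rw [ClassGroup.mk0_eq_one_iff] at h1
  have h2 : (P1.asIdeal ^ h).IsPrincipal := by
    simpa using h1
  obtain ⟨a, ha⟩ := h2.principal
  have ha' : P1.asIdeal ^ h = Ideal.span {a} := ha
  have ha0 : a ≠ 0 := by
    rintro rfl
    rw [Ideal.span_singleton_eq_bot.2 rfl] at ha'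
    exact pow_ne_zero h P1.ne_bot ha'
  have haN : (a : N) ≠ 0 := by
    intro h
    exact ha0 (RingOfIntegers.coe_eq_zero_iff.1 h)
  refine ⟨a, haN, ?_, ?_⟩
  · have h3 : P1.valuation N (a : N) < 1 := by
      rw [HeightOneSpectrum.valuation_lt_one_iff_mem]
      have h4 : a ∈ P1.asIdeal ^ h := by
        rw [ha']
        exact Ideal.mem_span_singleton_self a
      exact Ideal.pow_le_self hpos.ne' h4
    unfold EX2_o
    rw [neg_pos]
    have h0 : P1.valuation N (a : N) ≠ 0 := (Valuation.ne_zero_iff _).2 haN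
    rwa [← WithZero.log_one, WithZero.log_lt_log h0 one_ne_zero]
  · intro P hP
    refine le_antisymm (P.valuation_le_one a) ?_
    by_contra hlt
    rw [not_le, HeightOneSpectrum.valuation_lt_one_iff_mem] at hlt
    have h3 : P1.asIdeal ^ h ≤ P.asIdeal := by
      rw [ha', Ideal.span_singleton_le_iff_mem]
      exact hlt
    have h4 := P.isPrime.le_of_pow_le h3
    apply hP
    apply HeightOneSpectrum.ext
    exact (P1.isMaximal.eq_of_le P.isPrime.ne_top h4).symm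

theorem EX2_main (P1 P2 : HeightOneSpectrum (𝓞 N)) (h12 : P1 ≠ P2) :
    ∃ x y : N, x ≠ 0 ∧ y ≠ 0 ∧
      (∀ P : HeightOneSpectrum (𝓞 N), P ≠ P1 → P ≠ P2 → P.valuation N x = 1) ∧
      (∀ P : HeightOneSpectrum (𝓞 N), P ≠ P1 → P ≠ P2 → P.valuation N y = 1) ∧
      ∀ (u u' : (𝓞 N)ˣ) (s s' t t' : ℕ), s < 2 → s' < 2 → t < 2 → t' < 2 → ∀ b : N,
        ((u : 𝓞 N) : N) * x ^ s * y ^ t = ((u' : 𝓞 N) : N) * x ^ s' * y ^ t' * b ^ 2 →
        s = s' ∧ t = t' ∧ ∃ c : (𝓞 N)ˣ, u = u' * c ^ 2 := by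
  classical
  have hex1 : ∃ k : ℕ, 0 < k ∧ ∃ x : N, x ≠ 0 ∧
      (∀ P : HeightOneSpectrum (𝓞 N), P ≠ P1 → P ≠ P2 → P.valuation N x = 1) ∧
      EX2_o P1 x = k := by
    obtain ⟨a, ha0, ha1, ha2⟩ := EX2_elt P1
    refine ⟨(EX2_o P1 a).toNat, by omega, a, ha0, fun P h _ => ha2 P h, by omega⟩
  have hex2 : ∃ k : ℕ, 0 < k ∧ ∃ x : N, x ≠ 0 ∧
      (∀ P : HeightOneSpectrum (𝓞 N), P ≠ P1 → P ≠ P2 → P.valuation N x = 1) ∧
      EX2_o P1 x = 0 ∧ EX2_o P2 x = k := by
    obtain ⟨a, ha0, ha1, ha2⟩ := EX2_elt P2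
    exact ⟨(EX2_o P2 a).toNat, by omega, a, ha0, fun P _ h => ha2 P h,
      (EX2_o_eq_zero_iff P1 ha0).2 (ha2 P1 h12), by omega⟩
  obtain ⟨hk0, x, hx0, hxP, hxk⟩ := Nat.find_spec hex1
  obtain ⟨hk0', y, hy0, hyP, hy1, hyk⟩ := Nat.find_spec hex2
  set k := Nat.find hex1 with hk
  set k' := Nat.find hex2 with hk'
  refine ⟨x, y, hx0, hy0, hxP, hyP, ?_⟩
  intro u u' s s' t t' hs hs' ht ht' b hb
  have hu0 : ∀ w : (𝓞 N)ˣ, ((w : 𝓞 N) : N) ≠ 0 := by
    intro w h
    exact w.ne_zero (RingOfIntegers.coe_eq_zero_iff.1 h)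
  have hb0 : b ≠ 0 := by
    rintro rfl
    rw [zero_pow two_ne_zero, mul_zero] at hb
    exact mul_ne_zero (mul_ne_zero (hu0 u) (pow_ne_zero _ hx0)) (pow_ne_zero _ hy0) hb
  have hord : ∀ P : HeightOneSpectrum (𝓞 N),
      (s : ℤ) * EX2_o P x + t * EX2_o P y = s' * EX2_o P x + t' * EX2_o P y + 2 * EX2_o P b := by
    intro P
    have h1 := congrArg (EX2_o P) hb
    rw [EX2_o_mul P (mul_ne_zero (hu0 u) (pow_ne_zero _ hx0)) (pow_ne_zero _ hy0),
      EX2_o_mul P (hu0 u) (pow_ne_zero _ hx0),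
      EX2_o_mul P (mul_ne_zero (mul_ne_zero (hu0 u') (pow_ne_zero _ hx0)) (pow_ne_zero _ hy0))
        (pow_ne_zero _ hb0),
      EX2_o_mul P (mul_ne_zero (hu0 u') (pow_ne_zero _ hx0)) (pow_ne_zero _ hy0),
      EX2_o_mul P (hu0 u') (pow_ne_zero _ hx0),
      (EX2_o_eq_zero_iff P (hu0 u)).2 (EX2_o_unit P u),
      (EX2_o_eq_zero_iff P (hu0 u')).2 (EX2_o_unit P u'), EX2_o_pow, EX2_o_pow, EX2_o_pow,
      EX2_o_pow, EX2_o_pow] at h1
    push_cast at h1
    linarith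
  have hbP : ∀ P : HeightOneSpectrum (𝓞 N), P ≠ P1 → P ≠ P2 → P.valuation N b = 1 := by
    intro P h1 h2
    rw [← EX2_o_eq_zero_iff P hb0]
    have h3 := hord P
    rw [(EX2_o_eq_zero_iff P hx0).2 (hxP P h1 h2), (EX2_o_eq_zero_iff P hy0).2 (hyP P h1 h2)] at h3
    omega
  have hbP' : ∀ P : HeightOneSpectrum (𝓞 N), P ≠ P1 → P ≠ P2 → P.valuation N b⁻¹ = 1 := by
    intro P h1 h2
    rw [map_inv₀, hbP P h1 h2, inv_one]
  have hss : s = s' ∧ EX2_o P1 b = 0 := by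
    have h1 := hord P1
    rw [hxk, hy1] at h1
    rcases lt_trichotomy (EX2_o P1 b) 0 with h2 | h2 | h2
    · exfalso
      have h3 : k ≤ (EX2_o P1 b⁻¹).toNat := by
        rw [hk]
        apply Nat.find_min' hex1
        rw [EX2_o_inv]
        exact ⟨by omega, b⁻¹, inv_ne_zero hb0, hbP', by rw [EX2_o_inv]; omega⟩
      rw [EX2_o_inv] at h3
      interval_cases s <;> interval_cases s' <;> omega
    · refine ⟨?_, h2⟩
      rw [h2] at h1
      interval_cases s <;> interval_cases s' <;> omega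
    · exfalso
      have h3 : k ≤ (EX2_o P1 b).toNat := by
        rw [hk]
        apply Nat.find_min' hex1
        exact ⟨by omega, b, hb0, hbP, by omega⟩
      interval_cases s <;> interval_cases s' <;> omega
  obtain ⟨rfl, hb1⟩ := hss
  have htt : t = t' ∧ EX2_o P2 b = 0 := by
    have h1 := hord P2
    rw [hyk] at h1
    rcases lt_trichotomy (EX2_o P2 b) 0 with h2 | h2 | h2
    · exfalso
      have h3 : k' ≤ (EX2_o P2 b⁻¹).toNat := by
        rw [hk']
        apply Nat.find_min' hex2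
        rw [EX2_o_inv]
        exact ⟨by omega, b⁻¹, inv_ne_zero hb0, hbP', by rw [EX2_o_inv, hb1, neg_zero],
          by rw [EX2_o_inv]; omega⟩
      rw [EX2_o_inv] at h3
      interval_cases t <;> interval_cases t' <;> omega
    · refine ⟨?_, h2⟩
      rw [h2] at h1
      interval_cases t <;> interval_cases t' <;> omega
    · exfalso
      have h3 : k' ≤ (EX2_o P2 b).toNat := by
        rw [hk']
        apply Nat.find_min' hex2
        exact ⟨by omega, b, hb0, hbP, hb1, by omega⟩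
      interval_cases t <;> interval_cases t' <;> omega
  obtain ⟨rfl, hb2⟩ := htt
  refine ⟨rfl, rfl, ?_⟩
  have hball : ∀ P : HeightOneSpectrum (𝓞 N), P.valuation N b = 1 := by
    intro P
    by_cases h1 : P = P1
    · rw [h1]
      exact (EX2_o_eq_zero_iff P1 hb0).1 hb1
    · by_cases h2 : P = P2
      · rw [h2]
        exact (EX2_o_eq_zero_iff P2 hb0).1 hb2
      · exact hbP P h1 h2
  obtain ⟨c, hc⟩ := EX2_unit_of hball hb0
  refine ⟨c, ?_⟩
  have h1 : ((u : 𝓞 N) : N) = ((u' : 𝓞 N) : N) * b ^ 2 := by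
    have h2 : x ^ s * y ^ t ≠ 0 := mul_ne_zero (pow_ne_zero _ hx0) (pow_ne_zero _ hy0)
    apply mul_right_cancel₀ h2
    linear_combination hb
  apply Units.ext
  apply FaithfulSMul.algebraMap_injective (𝓞 N) N
  rw [Units.val_mul, Units.val_pow_eq_pow_val, map_mul, map_pow]
  change ((u : 𝓞 N) : N) = ((u' : 𝓞 N) : N) * ((c : 𝓞 N) : N) ^ 2
  rw [hc]
  exact h1

end EX2aux

theorem many (N : Type) [Field N] [NumberField N] (P1 P2 : HeightOneSpectrum (𝓞 N)) (h : P1 ≠ P2) :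
    ∃ f : Fin (2 ^ (Fintype.card (InfinitePlace N) + 2)) → N,
      (∀ i, f i ≠ 0 ∧ ∀ P : HeightOneSpectrum (𝓞 N), P ≠ P1 → P ≠ P2 → P.valuation N (f i) = 1) ∧
      ∀ i j, i ≠ j → ¬ ∃ b : N, f i = f j * b ^ 2 := by
  obtain ⟨x, y, hx0, hy0, hxP, hyP, hmain⟩ := EX2_main P1 P2 h
  obtain ⟨g, hg⟩ := many_units N
  have hcard : 2 ^ (Fintype.card (InfinitePlace N) + 2) =
      2 ^ Fintype.card (InfinitePlace N) * (2 * 2) := by
    rw [pow_add]
    norm_num
  let e : Fin (2 ^ (Fintype.card (InfinitePlace N) + 2)) ≃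
      Fin (2 ^ Fintype.card (InfinitePlace N)) × (Fin 2 × Fin 2) :=
    ((finCongr hcard).trans finProdFinEquiv.symm).trans
      (Equiv.prodCongr (Equiv.refl _) finProdFinEquiv.symm)
  have hu0 : ∀ w : (𝓞 N)ˣ, ((w : 𝓞 N) : N) ≠ 0 := by
    intro w h
    exact w.ne_zero (RingOfIntegers.coe_eq_zero_iff.1 h)
  refine ⟨fun i => ((g (e i).1 : 𝓞 N) : N) * x ^ ((e i).2.1 : ℕ) * y ^ ((e i).2.2 : ℕ), ?_, ?_⟩
  · intro i
    refine ⟨mul_ne_zero (mul_ne_zero (hu0 _) (pow_ne_zero _ hx0)) (pow_ne_zero _ hy0), ?_⟩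
    intro P h1 h2
    rw [map_mul, map_mul, map_pow, map_pow, EX2_o_unit, hxP P h1 h2, hyP P h1 h2]
    simp
  · rintro i j hij ⟨b, hb⟩
    obtain ⟨h1, h2, c, hc⟩ := hmain _ _ _ _ _ _ (e i).2.1.2 (e j).2.1.2 (e i).2.2.2 (e j).2.2.2 b hb
    have h3 : (e i).1 = (e j).1 := by
      by_contra hne
      exact hg _ _ hne ⟨c, hc⟩
    apply hij
    apply e.injective
    apply Prod.ext h3
    exact Prod.ext (Fin.ext h1) (Fin.ext h2)

end H19X
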