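import Mathlib
import Pool.Agent.Lib.H19X.EX1

open NumberField IsDedekindDomain

namespace H19X

/-! Chunk EX3 (M): {w}-units modulo squares are few. Let V = group of a in K^* with v_u(a) = 1 for u different from w. If
all elements of V have even order at w, or in general: choose pi in V with odd order at w if there is one (otherwise pi = 1).
ord(V) is a subgroup Z g of Z; a in V: ord(a) = g e, a = pi^e u with pi in V of order g, u a unit of 𝓞 K. Class of a: (e mod 2, class of u
(few_units)). For other a put c(a) = 0. -/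

theorem ex3_unit (K : Type) [Field K] [NumberField K] (x : Kˣ)
    (h : ∀ u : HeightOneSpectrum (𝓞 K), u.valuation K (x : K) = 1) :
    ∃ t : (𝓞 K)ˣ, ((t : 𝓞 K) : K) = x := by
  obtain ⟨a, ha⟩ := HeightOneSpectrum.mem_integers_of_valuation_le_one K (x : K)
    (fun v => (h v).le)
  obtain ⟨b, hb⟩ := HeightOneSpectrum.mem_integers_of_valuation_le_one K ((x⁻¹ : Kˣ) : K)
    (fun v => by
      rw [Units.val_inv_eq_inv_val, map_inv₀, h v, inv_one])
  have hab : a * b = 1 := by
    apply NumberField.RingOfIntegers.coe_injective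
    rw [map_mul, map_one]
    rw [show ((algebraMap (𝓞 K) K) a : K) = x from ha, show ((algebraMap (𝓞 K) K) b : K) = ((x⁻¹ : Kˣ) : K) from hb]
    simp
  exact ⟨⟨a, b, hab, by rw [mul_comm]; exact hab⟩, ha⟩

theorem few (K : Type) [Field K] [NumberField K] (w : HeightOneSpectrum (𝓞 K)) :
    ∃ c : K → Fin (2 ^ (Fintype.card (InfinitePlace K) + 1)), ∀ a a' : K,
      (a ≠ 0 ∧ ∀ u : HeightOneSpectrum (𝓞 K), u ≠ w → u.valuation K a = 1) →
      (a' ≠ 0 ∧ ∀ u : HeightOneSpectrum (𝓞 K), u ≠ w → u.valuation K a' = 1) → c a = c a' →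
      ∃ b : K, a = a' * b ^ 2 := by
  classical
  let V : Subgroup Kˣ :=
    { carrier := {a | ∀ u : HeightOneSpectrum (𝓞 K), u ≠ w → u.valuation K (a : K) = 1}
      one_mem' := by intro u _; simp
      mul_mem' := by
        intro a b ha hb u hu
        rw [Units.val_mul, map_mul, ha u hu, hb u hu, one_mul]
      inv_mem' := by
        intro a ha u hu
        rw [Units.val_inv_eq_inv_val, map_inv₀, ha u hu, inv_one] }
  let φ : V →* Multiplicative ℤ :=
    ((WithZero.unitsWithZeroEquiv (α := Multiplicative ℤ)).toMonoidHom.comp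
      (Units.map ((w.valuation K).toMonoidWithZeroHom : K →* WithZero (Multiplicative ℤ)))).comp V.subtype
  have hφ : ∀ a : V, φ a = 1 → w.valuation K ((a : Kˣ) : K) = 1 := by
    intro a ha
    have h1 : (Units.map ((w.valuation K).toMonoidWithZeroHom : K →* WithZero (Multiplicative ℤ))) (a : Kˣ) = 1 := by
      have : (WithZero.unitsWithZeroEquiv (α := Multiplicative ℤ)) ((Units.map ((w.valuation K).toMonoidWithZeroHom : K →* WithZero (Multiplicative ℤ))) (a : Kˣ)) = 1 := ha
      exact (MulEquiv.map_eq_one_iff (WithZero.unitsWithZeroEquiv (α := Multiplicative ℤ))).1 this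
    have h2 := congrArg Units.val h1
    simpa using h2
  obtain ⟨⟨g, π, hπ⟩, hg⟩ := IsCyclic.exists_generator (α := φ.range)
  have hrep : ∀ a : V, ∃ (e : ℤ) (t : (𝓞 K)ˣ), ((a : Kˣ) : K) = ((π : Kˣ) : K) ^ e * ((t : 𝓞 K) : K) := by
    intro a
    obtain ⟨e, he⟩ := hg ⟨φ a, a, rfl⟩
    have he1 : φ π ^ e = φ a := by
      have := congrArg Subtype.val he
      simp only at this
      rw [hπ]
      simpa using this
    have h1 : φ (a * (π ^ e)⁻¹) = 1 := by
      rw [map_mul, map_inv, map_zpow, he1, mul_inv_cancel]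
    obtain ⟨t, ht⟩ := ex3_unit K ((a * (π ^ e)⁻¹ : V) : Kˣ) (by
      intro u
      by_cases hu : u = w
      · rw [hu]; exact hφ _ h1
      · exact (a * (π ^ e)⁻¹ : V).2 u hu)
    refine ⟨e, t, ?_⟩
    rw [ht]
    push_cast
    field_simp
  choose E T hET using hrep
  obtain ⟨c, hc⟩ := few_units K
  let ι : Fin 2 × Fin (2 ^ Fintype.card (InfinitePlace K)) → Fin (2 ^ (Fintype.card (InfinitePlace K) + 1)) :=
    fun p => Fin.cast (pow_succ' 2 _).symm (finProdFinEquiv p)
  have hι : Function.Injective ι := by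
    intro p q hpq
    exact finProdFinEquiv.injective (Fin.cast_injective _ hpq)
  refine ⟨fun a => if h : ∃ v : V, ((v : Kˣ) : K) = a then
    ι (if Even (E h.choose) then 0 else 1, c (T h.choose)) else ι (0, ⟨0, by positivity⟩), ?_⟩
  rintro a a' ⟨ha0, ha⟩ ⟨ha0', ha'⟩ h
  have e1 : ∃ v : V, ((v : Kˣ) : K) = a := ⟨⟨Units.mk0 a ha0, ha⟩, rfl⟩
  have e2 : ∃ v : V, ((v : Kˣ) : K) = a' := ⟨⟨Units.mk0 a' ha0', ha'⟩, rfl⟩
  simp only [dif_pos e1, dif_pos e2] at h
  have h3 := hι h
  have h4 := congrArg Prod.fst h3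
  have h5 := congrArg Prod.snd h3
  simp only at h4 h5
  obtain ⟨b, hb⟩ := hc _ _ h5
  have hp : ∃ t, E e1.choose = E e2.choose + 2 * t := by
    by_cases ha : Even (E e1.choose) <;> by_cases hb : Even (E e2.choose)
    · obtain ⟨s, hs⟩ := ha
      obtain ⟨t, ht⟩ := hb
      exact ⟨s - t, by omega⟩
    · simp [ha, hb] at h4
    · simp [ha, hb] at h4
    · rw [Int.not_even_iff_odd] at ha hb
      obtain ⟨s, hs⟩ := ha
      obtain ⟨t, ht⟩ := hb
      exact ⟨s - t, by omega⟩
  obtain ⟨t, ht⟩ := hp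
  refine ⟨((π : Kˣ) : K) ^ t * ((b : 𝓞 K) : K), ?_⟩
  have k1 := hET e1.choose
  have k2 := hET e2.choose
  rw [e1.choose_spec] at k1
  rw [e2.choose_spec] at k2
  have hπ0 : ((π : Kˣ) : K) ≠ 0 := Units.ne_zero _
  rw [k1, k2, hb, ht, zpow_add₀ hπ0, zpow_mul]
  push_cast
  have : (((π : Kˣ) : K) ^ (2 : ℤ)) ^ t = ((((π : Kˣ) : K)) ^ t) ^ 2 := by
    rw [← zpow_mul, ← zpow_natCast, ← zpow_mul, mul_comm]; norm_num
  rw [this]
  ring

end H19X
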