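import Mathlib
import Pool.Agent.Lib.H19X.N2

open NumberField IsDedekindDomain

namespace H19X

open H55B H55C H55E

/-! Chunk EX4 (S/M): infinite places of fields containing F: K is totally complex (it contains a root of X^2 + X + 1), so the
number of infinite places is [K : Q]/2 = [K : F] (InfinitePlace.card_eq..., nrRealPlaces = 0, card_add_two_mul_card_eq_rank;
compare H55E.F1 rankF). N has degree 3 over K (rank_three). -/

theorem EX4_om : om ^ 2 + om + 1 = 0 := by
  have h := zeta_spec.toInteger_isPrimitiveRoot
  have h1 : (om - 1) * (om ^ 2 + om + 1) = 0 := by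
    have h2 : om ^ 3 = 1 := h.pow_eq_one
    linear_combination h2
  rcases mul_eq_zero.1 h1 with h2 | h2
  · exfalso
    have h3 : om = 1 := sub_eq_zero.1 h2
    have h4 : (1 : O) ≠ 1 := by
      have h5 := h.ne_one (by norm_num)
      exact fun _ => h5 h3
    exact h4 rfl
  · exact h2

theorem places_F (K : Type) [Field K] [NumberField K] [Algebra F K] :
    2 * Fintype.card (InfinitePlace K) = Module.finrank ℚ K := by
  have h0 : InfinitePlace.nrRealPlaces K = 0 := by
    classical
    unfold InfinitePlace.nrRealPlaces
    rw [Fintype.card_eq_zero_iff]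
    refine ⟨fun w => ?_⟩
    have h1 := congrArg (fun z : O => InfinitePlace.embedding_of_isReal w.2
      (algebraMap F K (z : F))) EX4_om
    have h2 : (InfinitePlace.embedding_of_isReal w.2 (algebraMap F K (om : F))) ^ 2 +
        (InfinitePlace.embedding_of_isReal w.2 (algebraMap F K (om : F))) + 1 = 0 := by
      have h3 : (((om ^ 2 + om + 1 : O)) : F) = (om : F) ^ 2 + (om : F) + 1 := by
        push_cast
        rfl
      have h4 : (((0 : O)) : F) = 0 := rfl
      simp only [h3, h4, map_add, map_pow, map_one, map_zero] at h1
      exact h1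
    nlinarith [sq_nonneg (InfinitePlace.embedding_of_isReal w.2 (algebraMap F K (om : F)) + 1 / 2)]
  have h1 := InfinitePlace.card_add_two_mul_card_eq_rank K
  have h2 := InfinitePlace.card_eq_nrRealPlaces_add_nrComplexPlaces K
  omega

theorem places_N {K N : Type} [Field K] [NumberField K] [Algebra F K] [Field N] [NumberField N]
    [Algebra K N] (φ : Cub K ≃ₐ[K] N) :
    Fintype.card (InfinitePlace N) = 3 * Fintype.card (InfinitePlace K) := by
  letI : Algebra F N := ((algebraMap K N).comp (algebraMap F K)).toAlgebra
  have h1 := places_F N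
  have h2 := places_F K
  have h3 := Module.finrank_mul_finrank ℚ K N
  rw [rank_three φ] at h3
  omega

end H19X
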