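import Mathlib
import Pool.Agent.Lib.H19X.U2

open NumberField IsDedekindDomain

namespace H19X

open H55B H55C H55E

/-! Chunk EX5 (L): level-one classes above 2. R = 𝓞 N, I = (th^2) (th is in R: a root of X^3 - 2), G2 = (R/I)ˣ, G1 = (R/(th))ˣ.
(1) R/(th) has 2^[K:Q] elements (absNorm (th) = |norm_Q th| = |norm_{K/Q}(2)| = 2^[K:Q]; norm K th = 2). (2) R/(th) is reduced: v_P(th) = exp(-1)
for all P above 2 (exists_P2), so x^2 in (th) implies x in (th) (valuations); hence G1 has odd order: g^2 = 1 implies (g - 1)^2 = 2 - 2g = 0 in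
R/(th) (2 = th^3 = 0), g = 1; Cauchy. (3) kernel of G2 -> G1: the classes 1 + th x, x modulo th: at most 2^[K:Q] elements. (4) every
g in G2 is (element of the kernel) * square: g^m in the kernel, m odd the order of G1, g = g^m * (g^((1-m)/2))^2. So there is
c2 : G2 -> Fin (2^[K:Q]) with c2 g = c2 g' implies g/g' a square (c2 = injection of the kernel applied to g^m).
(5) z in N with v_P(z) = 1 for all P above 2: z = x/y with x, y in R not in any P above 2 (as in Tr: some y in R outside all P above 2 with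
y z in R: product of the primes in the denominator; or approximation) define c(z) = c2(x y^(-1)) by a choice of x, y; c(z) = c(z')
gives x y'/(x' y) = s^2 modulo th^2, s in R prime to 2 (lift), i.e. v_P(z/z'/s^2 - 1) <= v_P(th^2) for all P above 2. -/

variable {K N : Type} [Field K] [NumberField K] [Field N] [NumberField N] [Algebra K N]
  (φ : Cub K ≃ₐ[K] N)

/-- the integer cube root of 2 -/
lemma EX5_int : ∃ t : 𝓞 N, algebraMap (𝓞 N) N t = th φ ∧ t ^ 3 = 2 := by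
  have h3 := th_cube φ
  have hi : IsIntegral ℤ (th φ) := by
    refine ⟨Polynomial.X ^ 3 - Polynomial.C 2, Polynomial.monic_X_pow_sub_C _ (by norm_num), ?_⟩
    simp [h3]
  obtain ⟨t, ht⟩ := (IsIntegralClosure.isIntegral_iff (A := 𝓞 N)).1 hi
  refine ⟨t, ht, ?_⟩
  apply FaithfulSMul.algebraMap_injective (𝓞 N) N
  rw [map_pow, ht, h3, map_ofNat]

lemma EX5_val (hK : UnrTwo K) (P : HeightOneSpectrum (𝓞 N)) (hP : (2 : 𝓞 N) ∈ P.asIdeal) :
    P.valuation N (th φ) = WithZero.exp (-1 : ℤ) := by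
  have h2 : (2 : 𝓞 K) ∈ P.asIdeal.under (𝓞 K) := by
    rw [Ideal.under, Ideal.mem_comap, map_ofNat]; exact hP
  have hne : P.asIdeal.under (𝓞 K) ≠ ⊥ := by
    intro h
    rw [h, Ideal.mem_bot] at h2
    exact two_ne_zero h2
  have hpr : (P.asIdeal.under (𝓞 K)).IsPrime := inferInstance
  obtain ⟨Q, -, hu, hv, -⟩ := exists_P2 φ ⟨P.asIdeal.under (𝓞 K), hpr, hne⟩ h2 (hK _ h2)
  rw [hu P rfl]
  exact hv

omit [NumberField K] [NumberField N] in
lemma EX5_rank (φ : Cub K ≃ₐ[K] N) : Module.finrank K N = 3 := by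
  rw [← φ.toLinearEquiv.finrank_eq]
  have hm : (Polynomial.X ^ 3 - Polynomial.C 2 : Polynomial K).Monic :=
    Polynomial.monic_X_pow_sub_C (2 : K) (n := 3) (by norm_num)
  have hd : (Polynomial.X ^ 3 - Polynomial.C 2 : Polynomial K).natDegree = 3 :=
    Polynomial.natDegree_X_pow_sub_C (n := 3) (r := (2 : K))
  rw [(AdjoinRoot.powerBasis' hm).finrank, AdjoinRoot.powerBasis'_dim, hd]

/-- the ideal (th) -/
lemma EX5_card (t : 𝓞 N) (ht : t ^ 3 = 2) (hr : Module.finrank K N = 3) :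
    Ideal.absNorm (Ideal.span {t}) = 2 ^ Module.finrank ℚ K := by
  have h1 : Ideal.absNorm (Ideal.span {t}) ^ 3 = (2 ^ Module.finrank ℚ K) ^ 3 := by
    rw [← map_pow, Ideal.span_singleton_pow, ht]
    have : (2 : 𝓞 N) = ((2 : ℕ) : 𝓞 N) := by simp
    rw [this, Ideal.absNorm_span_natCast, NumberField.RingOfIntegers.rank,
      ← Module.finrank_mul_finrank ℚ K N, hr, pow_mul]
  exact Nat.pow_left_injective (by norm_num : (3 : ℕ) ≠ 0) h1

section

variable {t : 𝓞 N} (ht3 : t ^ 3 = 2)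
  (hv : ∀ P : HeightOneSpectrum (𝓞 N), (2 : 𝓞 N) ∈ P.asIdeal →
    P.valuation N (algebraMap (𝓞 N) N t) = WithZero.exp (-1 : ℤ))

include ht3

omit [NumberField N] in
lemma EX5_mem_iff (P : HeightOneSpectrum (𝓞 N)) : (2 : 𝓞 N) ∈ P.asIdeal ↔ t ∈ P.asIdeal := by
  rw [← ht3]
  exact ⟨fun h => P.isPrime.mem_of_pow_mem 3 h, fun h => Ideal.pow_mem_of_mem _ h 3 (by norm_num)⟩

lemma EX5_ne : t ≠ 0 := by
  rintro rfl
  norm_num at ht3

include hv

lemma EX5_red (x : 𝓞 N) (hx : x ^ 2 ∈ Ideal.span {t}) : x ∈ Ideal.span {t} := by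
  have hne := EX5_ne ht3
  have hne' : algebraMap (𝓞 N) N t ≠ 0 := by
    simpa using hne
  have : algebraMap (𝓞 N) N x / algebraMap (𝓞 N) N t ∈ (algebraMap (𝓞 N) N).range := by
    apply HeightOneSpectrum.mem_integers_of_valuation_le_one
    intro P
    rw [map_div₀]
    by_cases h2 : (2 : 𝓞 N) ∈ P.asIdeal
    · rw [hv P h2]
      have hxP : x ∈ P.asIdeal := by
        apply P.isPrime.mem_of_pow_mem 2
        have : Ideal.span {t} ≤ P.asIdeal := by
          rw [Ideal.span_singleton_le_iff_mem]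
          exact (EX5_mem_iff ht3 P).1 h2
        exact this hx
      have h1 : P.valuation N (algebraMap (𝓞 N) N x) < 1 :=
        (P.valuation_lt_one_iff_mem (K := N) x).2 hxP
      apply div_le_one_of_le₀ _ zero_le
      by_cases hx0 : P.valuation N (algebraMap (𝓞 N) N x) = 0
      · rw [hx0]; exact zero_le
      rw [← WithZero.exp_log hx0] at h1 ⊢
      rw [← WithZero.exp_zero, WithZero.exp_lt_exp] at h1
      rw [WithZero.exp_le_exp]
      omega
    · have : t ∉ P.asIdeal := fun h => h2 ((EX5_mem_iff ht3 P).2 h)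
      rw [(P.valuation_eq_one_iff_notMem (K := N)).2 this, div_one]
      exact P.valuation_le_one x
  obtain ⟨y, hy⟩ := this
  rw [Ideal.mem_span_singleton']
  refine ⟨y, ?_⟩
  apply FaithfulSMul.algebraMap_injective (𝓞 N) N
  rw [map_mul, hy, div_mul_cancel₀ _ hne']

/-- Frobenius is surjective modulo (th) -/
lemma EX5_sqrt (a : 𝓞 N) : ∃ s : 𝓞 N, a - s ^ 2 ∈ Ideal.span {t} := by
  have hne := EX5_ne ht3
  have hbot : Ideal.span {t} ≠ ⊥ := by simpa using hne
  have hf : Finite (𝓞 N ⧸ Ideal.span {t}) := Ideal.finiteQuotientOfFreeOfNeBot _ hbot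
  have h2 : (2 : 𝓞 N ⧸ Ideal.span {t}) = 0 := by
    have : Ideal.Quotient.mk (Ideal.span {t}) (2 : 𝓞 N) = 0 := by
      rw [Ideal.Quotient.eq_zero_iff_mem, ← ht3]
      exact Ideal.pow_mem_of_mem _ (Ideal.mem_span_singleton_self t) 3 (by norm_num)
    rwa [map_ofNat] at this
  have hinj : Function.Injective (fun g : 𝓞 N ⧸ Ideal.span {t} => g ^ 2) := by
    intro g g' h
    obtain ⟨x, hx⟩ := Ideal.Quotient.mk_surjective (I := Ideal.span {t}) (g - g')
    have h1 : (g - g') ^ 2 = 0 := by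
      have : (g - g') ^ 2 = g ^ 2 - g' ^ 2 + 2 * (g' ^ 2 - g * g') := by ring
      rw [this, h2, zero_mul, add_zero]
      simpa [sub_eq_zero] using h
    rw [← hx, ← map_pow, Ideal.Quotient.eq_zero_iff_mem] at h1
    have h3 := EX5_red ht3 hv x h1
    rw [← Ideal.Quotient.eq_zero_iff_mem, hx, sub_eq_zero] at h3
    exact h3
  obtain ⟨g, hg⟩ := (Finite.injective_iff_surjective.1 hinj) (Ideal.Quotient.mk _ a)
  obtain ⟨s, rfl⟩ := Ideal.Quotient.mk_surjective g
  refine ⟨s, ?_⟩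
  rw [← Ideal.Quotient.eq_zero_iff_mem, map_sub, map_pow]
  simp only at hg
  rw [hg, sub_self]

omit hv in
/-- elements prime to 2 are invertible modulo th^2 -/
lemma EX5_inv (D : Ideal (𝓞 N)) (hD : ∀ P : HeightOneSpectrum (𝓞 N), (2 : 𝓞 N) ∈ P.asIdeal →
    ∃ x ∈ D, x ∉ P.asIdeal) : ∃ b ∈ D, b - 1 ∈ Ideal.span {t ^ 2} := by
  have hne := EX5_ne ht3
  have h1 : D ⊔ Ideal.span {t ^ 2} = ⊤ := by
    by_contra h
    obtain ⟨Q, hQ, hle⟩ := Ideal.exists_le_maximal _ h
    have htQ : t ∈ Q := by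
      apply hQ.isPrime.mem_of_pow_mem 2
      exact hle (Ideal.mem_sup_right (Ideal.mem_span_singleton_self _))
    have hQ0 : Q ≠ ⊥ := by
      rintro rfl
      exact hne (by simpa using htQ)
    obtain ⟨x, hx, hxP⟩ := hD ⟨Q, hQ.isPrime, hQ0⟩ ((EX5_mem_iff ht3 _).2 htQ)
    exact hxP (hle (Ideal.mem_sup_left hx))
  rw [Ideal.eq_top_iff_one, Submodule.mem_sup] at h1
  obtain ⟨b, hb, c, hc, h⟩ := h1
  refine ⟨b, hb, ?_⟩
  have : b - 1 = - c := by rw [← h]; ring
  rw [this]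
  exact neg_mem hc

omit hv in
/-- representatives in the ring of integers -/
lemma EX5_rep (z : N) (hz : ∀ P : HeightOneSpectrum (𝓞 N), (2 : 𝓞 N) ∈ P.asIdeal →
    P.valuation N z = 1) : ∃ a b : 𝓞 N, z * algebraMap (𝓞 N) N b = algebraMap (𝓞 N) N a ∧
      b - 1 ∈ Ideal.span {t ^ 2} ∧
      ∀ P : HeightOneSpectrum (𝓞 N), (2 : 𝓞 N) ∈ P.asIdeal → a ∉ P.asIdeal := by
  set D : Ideal (𝓞 N) :=
    { carrier := {x | z * algebraMap (𝓞 N) N x ∈ (algebraMap (𝓞 N) N).range}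
      add_mem' := by
        intro x y hx hy
        simp only [Set.mem_ofPred_eq] at *
        rw [map_add, mul_add]
        exact add_mem hx hy
      zero_mem' := by simp
      smul_mem' := by
        intro c x hx
        simp only [Set.mem_ofPred_eq] at *
        rw [smul_eq_mul, map_mul, mul_left_comm]
        exact mul_mem ⟨c, rfl⟩ hx } with hDdef
  obtain ⟨b, hb, hb1⟩ := EX5_inv ht3 D (by
    intro P hP
    obtain ⟨n, d, h⟩ := HeightOneSpectrum.exists_primeCompl_mul_eq_of_integer P z (hz P hP).le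
    exact ⟨d, ⟨n, h.symm⟩, d.2⟩)
  obtain ⟨a, ha⟩ := hb
  refine ⟨a, b, ha.symm, hb1, ?_⟩
  intro P hP haP
  have htP := (EX5_mem_iff ht3 P).1 hP
  have hbP : b ∉ P.asIdeal := by
    intro h
    have : b - 1 ∈ P.asIdeal := by
      have h2 : Ideal.span {t ^ 2} ≤ P.asIdeal := by
        rw [Ideal.span_singleton_le_iff_mem]
        exact Ideal.pow_mem_of_mem _ htP 2 (by norm_num)
      exact h2 hb1
    have h1 : (1 : 𝓞 N) ∈ P.asIdeal := by
      have := P.asIdeal.sub_mem h this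
      simpa using this
    exact P.isPrime.ne_top ((Ideal.eq_top_iff_one _).2 h1)
  have h1 := congrArg (P.valuation N) ha
  rw [map_mul, hz P hP, one_mul, (P.valuation_eq_one_iff_notMem (K := N)).2 hbP] at h1
  exact (P.valuation_eq_one_iff_notMem (K := N)).1 h1 haP

include hv in
/-- normal form modulo th^2 -/
lemma EX5_form (z : N) (hz : ∀ P : HeightOneSpectrum (𝓞 N), (2 : 𝓞 N) ∈ P.asIdeal →
    P.valuation N z = 1) : ∃ s y : 𝓞 N,
      (∀ P : HeightOneSpectrum (𝓞 N), (2 : 𝓞 N) ∈ P.asIdeal → s ∉ P.asIdeal) ∧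
      ∀ P : HeightOneSpectrum (𝓞 N), (2 : 𝓞 N) ∈ P.asIdeal →
        P.valuation N (z - algebraMap (𝓞 N) N (s ^ 2 * (1 + t * y))) ≤
          P.valuation N (algebraMap (𝓞 N) N (t ^ 2)) := by
  obtain ⟨a, b, hab, hb, ha⟩ := EX5_rep ht3 z hz
  obtain ⟨s, hs⟩ := EX5_sqrt ht3 hv a
  have hle : ∀ P : HeightOneSpectrum (𝓞 N), (2 : 𝓞 N) ∈ P.asIdeal →
      Ideal.span {t} ≤ P.asIdeal := by
    intro P hP
    rw [Ideal.span_singleton_le_iff_mem]
    exact (EX5_mem_iff ht3 P).1 hP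
  have hsP : ∀ P : HeightOneSpectrum (𝓞 N), (2 : 𝓞 N) ∈ P.asIdeal → s ∉ P.asIdeal := by
    intro P hP h
    have h1 := hle P hP hs
    have h2 : s ^ 2 ∈ P.asIdeal := Ideal.pow_mem_of_mem _ h 2 (by norm_num)
    have h3 := P.asIdeal.add_mem h1 h2
    rw [sub_add_cancel] at h3
    exact ha P hP h3
  obtain ⟨u', hu', hu1⟩ := EX5_inv ht3 (Ideal.span {s ^ 2}) (by
    intro P hP
    exact ⟨s ^ 2, Ideal.mem_span_singleton_self _, fun h =>
      hsP P hP (P.isPrime.mem_of_pow_mem 2 h)⟩)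
  rw [Ideal.mem_span_singleton'] at hu' hu1 hb hs
  obtain ⟨u, rfl⟩ := hu'
  obtain ⟨k, hk⟩ := hu1
  obtain ⟨l, hl⟩ := hb
  obtain ⟨j, hj⟩ := hs
  -- a u = 1 + t (j u + t k)
  refine ⟨s, j * u + k * t, hsP, ?_⟩
  intro P hP
  have hbv : P.valuation N (algebraMap (𝓞 N) N b) = 1 := by
    rw [P.valuation_eq_one_iff_notMem]
    intro h
    have h2 : b - 1 ∈ P.asIdeal := by
      rw [← hl]
      exact Ideal.mul_mem_left _ _ (Ideal.pow_mem_of_mem _ ((EX5_mem_iff ht3 P).1 hP) 2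
        (by norm_num))
    have h1 : (1 : 𝓞 N) ∈ P.asIdeal := by
      have := P.asIdeal.sub_mem h h2
      simpa using this
    exact P.isPrime.ne_top ((Ideal.eq_top_iff_one _).2 h1)
  have key : (z - algebraMap (𝓞 N) N (s ^ 2 * (1 + t * (j * u + k * t)))) *
      algebraMap (𝓞 N) N b = algebraMap (𝓞 N) N (t ^ 2) *
        algebraMap (𝓞 N) N (-(j * k * t) - s ^ 2 * k - s ^ 2 * (1 + t * (j * u + k * t)) * l) := by
    rw [sub_mul, hab, ← map_mul, ← map_mul, ← map_sub]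
    congr 1
    linear_combination (-(s ^ 2 * (1 + t * (j * u + k * t)))) * (-hl) - hj + (j * t) * hk
  have h1 := congrArg (P.valuation N) key
  rw [(P.valuation N).map_mul, hbv, mul_one, (P.valuation N).map_mul] at h1
  rw [h1]
  exact mul_le_of_le_one_right' (P.valuation_le_one _)

end

theorem level (hK : UnrTwo K) : ∃ c : N → Fin (2 ^ Module.finrank ℚ K), ∀ z z' : N,
    (∀ P : HeightOneSpectrum (𝓞 N), (2 : 𝓞 N) ∈ P.asIdeal → P.valuation N z = 1) →
    (∀ P : HeightOneSpectrum (𝓞 N), (2 : 𝓞 N) ∈ P.asIdeal → P.valuation N z' = 1) →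
    c z = c z' → ∀ P : HeightOneSpectrum (𝓞 N), (2 : 𝓞 N) ∈ P.asIdeal →
      ∃ b : N, b ≠ 0 ∧ P.valuation N (z / z' / b ^ 2 - 1) ≤ P.valuation N (th φ ^ 2) := by
  classical
  obtain ⟨t, htφ, ht3⟩ := EX5_int φ
  have hv : ∀ P : HeightOneSpectrum (𝓞 N), (2 : 𝓞 N) ∈ P.asIdeal →
      P.valuation N (algebraMap (𝓞 N) N t) = WithZero.exp (-1 : ℤ) := by
    intro P hP
    rw [htφ]
    exact EX5_val φ hK P hP
  have hne := EX5_ne ht3
  have hbot : Ideal.span {t} ≠ ⊥ := by simpa using hne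
  have hf : Finite (𝓞 N ⧸ Ideal.span {t}) := Ideal.finiteQuotientOfFreeOfNeBot _ hbot
  have hcard : Nat.card (𝓞 N ⧸ Ideal.span {t}) = 2 ^ Module.finrank ℚ K := by
    rw [← EX5_card t ht3 (EX5_rank φ), Ideal.absNorm_apply, Submodule.cardQuot_apply]
  have e : (𝓞 N ⧸ Ideal.span {t}) ≃ Fin (2 ^ Module.finrank ℚ K) := Finite.equivFinOfCardEq hcard
  choose! s y hs hy using fun (z : N) (hz : ∀ P : HeightOneSpectrum (𝓞 N),
    (2 : 𝓞 N) ∈ P.asIdeal → P.valuation N z = 1) => EX5_form ht3 hv z hz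
  refine ⟨fun z => e (Ideal.Quotient.mk _ (y z)), ?_⟩
  intro z z' hz hz' hc P hP
  have hc' : Ideal.Quotient.mk (Ideal.span {t}) (y z) = Ideal.Quotient.mk _ (y z') :=
    e.injective hc
  rw [Ideal.Quotient.eq, Ideal.mem_span_singleton'] at hc'
  obtain ⟨k, hk⟩ := hc'
  have hs1 : P.valuation N (algebraMap (𝓞 N) N (s z)) = 1 :=
    (P.valuation_eq_one_iff_notMem (K := N)).2 (hs z hz P hP)
  have hs2 : P.valuation N (algebraMap (𝓞 N) N (s z')) = 1 :=
    (P.valuation_eq_one_iff_notMem (K := N)).2 (hs z' hz' P hP)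
  have hn1 : algebraMap (𝓞 N) N (s z) ≠ 0 := by
    intro h
    rw [h, map_zero] at hs1
    exact zero_ne_one hs1
  have hn2 : algebraMap (𝓞 N) N (s z') ≠ 0 := by
    intro h
    rw [h, map_zero] at hs2
    exact zero_ne_one hs2
  have hz0 : z' ≠ 0 := by
    rintro rfl
    have := hz' P hP
    rw [map_zero] at this
    exact zero_ne_one this
  refine ⟨algebraMap (𝓞 N) N (s z) / algebraMap (𝓞 N) N (s z'), div_ne_zero hn1 hn2, ?_⟩
  have h1 := hy z hz P hP
  have h2 := hy z' hz' P hP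
  rw [← htφ, ← map_pow]
  set A := P.valuation N (algebraMap (𝓞 N) N (t ^ 2)) with hA
  have key : z / z' / (algebraMap (𝓞 N) N (s z) / algebraMap (𝓞 N) N (s z')) ^ 2 - 1 =
      (algebraMap (𝓞 N) N (s z') ^ 2 *
        (z - algebraMap (𝓞 N) N (s z ^ 2 * (1 + t * y z))) -
       algebraMap (𝓞 N) N (s z) ^ 2 *
        (z' - algebraMap (𝓞 N) N (s z' ^ 2 * (1 + t * y z'))) +
       algebraMap (𝓞 N) N (s z ^ 2 * s z' ^ 2 * k) * algebraMap (𝓞 N) N (t ^ 2)) /
        (z' * algebraMap (𝓞 N) N (s z) ^ 2) := by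
    have hk' : algebraMap (𝓞 N) N (y z) = algebraMap (𝓞 N) N (y z') +
        algebraMap (𝓞 N) N k * algebraMap (𝓞 N) N t := by
      rw [← map_mul, hk, map_sub]; ring
    simp only [map_mul, map_add, map_pow, map_one, hk']
    field_simp
    ring
  rw [key, map_div₀, (P.valuation N).map_mul, (P.valuation N).map_pow, hs1, hz' P hP, one_pow,
    mul_one, div_one]
  refine (Valuation.map_add_le _ (Valuation.map_sub_le (v := P.valuation N) ?_ ?_) ?_)
  · rw [(P.valuation N).map_mul, (P.valuation N).map_pow, hs2, one_pow, one_mul]; exact h1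
  · rw [(P.valuation N).map_mul, (P.valuation N).map_pow, hs1, one_pow, one_mul]; exact h2
  · rw [(P.valuation N).map_mul]
    exact mul_le_of_le_one_left' (P.valuation_le_one _)

end H19X
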