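import Mathlib
import Pool.Agent.Lib.H19X.N2

open NumberField IsDedekindDomain

namespace H19X

open H55B H55C H55E

/-! Chunk EX6 (M): two primes above a bad place: x^3 = 2 modulo w, w not above 6. (th - x)(th^2 + x th + x^2) = 2 - x^3 is in
w. The ideals (w, th - x) and (w, th^2 + x th + x^2) of 𝓞 N are not the unit ideal and comaximal: modulo (th - x) the second
factor is 3x^2, and 3 x is a unit modulo w (x^3 = 2). Not the unit ideal: if 1 = sum of w-multiples + (th - x) y, take norms to K: norm(th - x) =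
2 - x^3 in w and the norm of an element congruent to (th - x) y modulo w 𝓞 N is congruent to norm((th - x) y) modulo w (or: if (w, th - x) = 1 then
th^2 + x th + x^2 would be in w 𝓞 N; but the residue classes of 1, th, th^2 modulo w 𝓞 N are linearly independent over 𝓞 K/w: by
coords_int-like trace argument, 6 is a unit modulo w). Choose primes P1, P2 containing them; both lie above w. -/

theorem EX6_trace {K N : Type} [Field K] [NumberField K] [Field N] [NumberField N] [Algebra K N]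
    (w : Ideal (𝓞 K)) {z : 𝓞 N} (hz : z ∈ Ideal.map (algebraMap (𝓞 K) (𝓞 N)) w) :
    ∀ y : 𝓞 N, Algebra.intTrace (𝓞 K) (𝓞 N) (z * y) ∈ w := by
  unfold Ideal.map at hz
  induction hz using Submodule.span_induction with
  | mem z hz =>
    intro y
    obtain ⟨r, hr, rfl⟩ := hz
    rw [← Algebra.smul_def, map_smul, smul_eq_mul]
    exact w.mul_mem_right _ hr
  | zero =>
    intro y
    rw [zero_mul, map_zero]
    exact w.zero_mem
  | add a b _ _ ha hb =>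
    intro y
    rw [add_mul, map_add]
    exact w.add_mem (ha y) (hb y)
  | smul c a _ ha =>
    intro y
    have h1 : c • a * y = a * (c * y) := by
      rw [smul_eq_mul]
      ring
    rw [h1]
    exact ha _

theorem EX6_six {K N : Type} [Field K] [NumberField K] [Field N] [NumberField N] [Algebra K N]
    (φ : Cub K ≃ₐ[K] N) (z : 𝓞 N) (a b c : K) (ha : a = 2)
    (hz : (z : N) = algebraMap K N a + algebraMap K N b * th φ + algebraMap K N c * th φ ^ 2) :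
    Algebra.intTrace (𝓞 K) (𝓞 N) z = 6 := by
  have h1 : algebraMap (𝓞 K) K (Algebra.intTrace (𝓞 K) (𝓞 N) z) = Algebra.trace K N (z : N) :=
    Algebra.algebraMap_intTrace (A := 𝓞 K) (K := K) (L := N) (B := 𝓞 N) z
  rw [hz, trace_co, ha] at h1
  apply RingOfIntegers.ext
  change algebraMap (𝓞 K) K (Algebra.intTrace (𝓞 K) (𝓞 N) z) = algebraMap (𝓞 K) K 6
  rw [h1, map_ofNat]
  norm_num

theorem EX6_prime {K N : Type} [Field K] [NumberField K] [Field N] [NumberField N] [Algebra K N]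
    (w : HeightOneSpectrum (𝓞 K)) (I : Ideal (𝓞 N)) (hI : I ≠ ⊤)
    (hw : Ideal.map (algebraMap (𝓞 K) (𝓞 N)) w.asIdeal ≤ I) :
    ∃ P : HeightOneSpectrum (𝓞 N), I ≤ P.asIdeal ∧ w.asIdeal = P.asIdeal.under (𝓞 K) := by
  obtain ⟨P, hP, hIP⟩ := Ideal.exists_le_maximal I hI
  have hwP : w.asIdeal ≤ P.under (𝓞 K) := by
    intro r hr
    exact hIP (hw (Ideal.mem_map_of_mem _ hr))
  have hPb : P ≠ ⊥ := by
    rintro rfl
    obtain ⟨r, hr, hr0⟩ := Submodule.exists_mem_ne_zero_of_ne_bot w.ne_bot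
    have h1 : algebraMap (𝓞 K) (𝓞 N) r = 0 := by
      have := hwP hr
      exact this
    exact hr0 ((FaithfulSMul.algebraMap_injective (𝓞 K) (𝓞 N)) (by rw [h1, map_zero]))
  refine ⟨⟨P, hP.isPrime, hPb⟩, hIP, ?_⟩
  have hPu : (P.under (𝓞 K)).IsPrime := by
    haveI := hP.isPrime
    exact Ideal.IsPrime.under (𝓞 K) P
  exact w.isMaximal.eq_of_le hPu.ne_top hwP

theorem exists_two {K N : Type} [Field K] [NumberField K] [Field N] [NumberField N] [Algebra K N]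
    (φ : Cub K ≃ₐ[K] N) (w : HeightOneSpectrum (𝓞 K)) (h6 : (6 : 𝓞 K) ∉ w.asIdeal) (x : 𝓞 K)
    (hx : x ^ 3 - 2 ∈ w.asIdeal) :
    ∃ P1 P2 : HeightOneSpectrum (𝓞 N), P1 ≠ P2 ∧ w.asIdeal = P1.asIdeal.under (𝓞 K) ∧
      w.asIdeal = P2.asIdeal.under (𝓞 K) := by
  have hint : IsIntegral ℤ (th φ) := by
    refine IsIntegral.of_pow (n := 3) (by norm_num) ?_
    rw [th_cube]
    have h := isIntegral_algebraMap (R := ℤ) (A := N) (x := 2)
    simpa using h
  obtain ⟨θ, hθ⟩ : ∃ θ : 𝓞 N, (θ : N) = th φ := ⟨⟨th φ, hint⟩, rfl⟩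
  have hc : θ ^ 3 = 2 := by
    apply RingOfIntegers.ext
    have h1 : ((θ ^ 3 : 𝓞 N) : N) = (θ : N) ^ 3 := rfl
    have h2 : ((2 : 𝓞 N) : N) = 2 := rfl
    rw [h1, h2, hθ, th_cube]
  obtain ⟨y, hy⟩ : ∃ y : 𝓞 N, y = algebraMap (𝓞 K) (𝓞 N) x := ⟨_, rfl⟩
  have hyN : (y : N) = algebraMap K N (x : K) := by
    rw [hy]
    rfl
  have hyw : y ^ 3 - 2 ∈ Ideal.map (algebraMap (𝓞 K) (𝓞 N)) w.asIdeal := by
    have h1 := Ideal.mem_map_of_mem (algebraMap (𝓞 K) (𝓞 N)) hx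
    rwa [map_sub, map_pow, map_ofNat, ← hy] at h1
  have hI1 : Ideal.map (algebraMap (𝓞 K) (𝓞 N)) w.asIdeal ⊔ Ideal.span {θ - y} ≠ ⊤ := by
    intro h
    rw [Ideal.eq_top_iff_one, Submodule.mem_sup] at h
    obtain ⟨m, hm, s, hs, hms⟩ := h
    rw [Ideal.mem_span_singleton'] at hs
    obtain ⟨t, ht⟩ := hs
    have hq : θ ^ 2 + y * θ + y ^ 2 ∈ Ideal.map (algebraMap (𝓞 K) (𝓞 N)) w.asIdeal := by
      have h1 : θ ^ 2 + y * θ + y ^ 2 = (θ ^ 2 + y * θ + y ^ 2) * m + (-t) * (y ^ 3 - 2) := by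
        linear_combination (-(θ ^ 2 + y * θ + y ^ 2)) * hms - (θ ^ 2 + y * θ + y ^ 2) * ht
          + t * hc
      rw [h1]
      exact Ideal.add_mem _ (Ideal.mul_mem_left _ _ hm) (Ideal.mul_mem_left _ _ hyw)
    have h2 := EX6_trace w.asIdeal hq θ
    have h3 : (θ ^ 2 + y * θ + y ^ 2) * θ = 2 + y ^ 2 * θ + y * θ ^ 2 := by
      linear_combination hc
    have h4 : Algebra.intTrace (𝓞 K) (𝓞 N) ((θ ^ 2 + y * θ + y ^ 2) * θ) = 6 := by
      refine EX6_six φ _ 2 ((x : K) ^ 2) (x : K) rfl ?_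
      rw [h3]
      have h5 : ((2 + y ^ 2 * θ + y * θ ^ 2 : 𝓞 N) : N) =
        2 + (y : N) ^ 2 * (θ : N) + (y : N) * (θ : N) ^ 2 := rfl
      rw [h5, hθ, hyN, map_ofNat, map_pow]
    rw [h4] at h2
    exact h6 h2
  have hI2 : Ideal.map (algebraMap (𝓞 K) (𝓞 N)) w.asIdeal ⊔
      Ideal.span {θ ^ 2 + y * θ + y ^ 2} ≠ ⊤ := by
    intro h
    rw [Ideal.eq_top_iff_one, Submodule.mem_sup] at h
    obtain ⟨m, hm, s, hs, hms⟩ := h
    rw [Ideal.mem_span_singleton'] at hs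
    obtain ⟨t, ht⟩ := hs
    have hq : θ - y ∈ Ideal.map (algebraMap (𝓞 K) (𝓞 N)) w.asIdeal := by
      have h1 : θ - y = (θ - y) * m + (-t) * (y ^ 3 - 2) := by
        linear_combination (-(θ - y)) * hms - (θ - y) * ht + t * hc
      rw [h1]
      exact Ideal.add_mem _ (Ideal.mul_mem_left _ _ hm) (Ideal.mul_mem_left _ _ hyw)
    have h2 := EX6_trace w.asIdeal hq (θ ^ 2)
    have h3 : (θ - y) * θ ^ 2 = 2 + 0 * θ + (-y) * θ ^ 2 := by
      linear_combination hc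
    have h4 : Algebra.intTrace (𝓞 K) (𝓞 N) ((θ - y) * θ ^ 2) = 6 := by
      refine EX6_six φ _ 2 0 (-(x : K)) rfl ?_
      rw [h3]
      have h5 : ((2 + 0 * θ + (-y) * θ ^ 2 : 𝓞 N) : N) =
        2 + 0 * (θ : N) + (-(y : N)) * (θ : N) ^ 2 := rfl
      rw [h5, hθ, hyN, map_ofNat, map_zero, map_neg]
    rw [h4] at h2
    exact h6 h2
  obtain ⟨P1, hP1, hwP1⟩ := EX6_prime w _ hI1 le_sup_left
  obtain ⟨P2, hP2, hwP2⟩ := EX6_prime w _ hI2 le_sup_left
  refine ⟨P1, P2, ?_, hwP1, hwP2⟩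
  rintro rfl
  have h1 : θ - y ∈ P1.asIdeal := hP1 (Submodule.mem_sup_right (Ideal.mem_span_singleton_self _))
  have h2 : θ ^ 2 + y * θ + y ^ 2 ∈ P1.asIdeal :=
    hP2 (Submodule.mem_sup_right (Ideal.mem_span_singleton_self _))
  have h3 : y ^ 3 - 2 ∈ P1.asIdeal := hP1 (Submodule.mem_sup_left hyw)
  have h4 : (6 : 𝓞 N) = y * (θ ^ 2 + y * θ + y ^ 2) - y * (θ + 2 * y) * (θ - y)
      - 3 * (y ^ 3 - 2) := by ring
  have h5 : (6 : 𝓞 N) ∈ P1.asIdeal := by
    rw [h4]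
    exact Ideal.sub_mem _ (Ideal.sub_mem _ (Ideal.mul_mem_left _ _ h2)
      (Ideal.mul_mem_left _ _ h1)) (Ideal.mul_mem_left _ _ h3)
  apply h6
  rw [hwP1, Ideal.under_def, Ideal.mem_comap, map_ofNat]
  exact h5

end H19X
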