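import Mathlib
import Pool.Agent.Lib.H19X.EX2
import Pool.Agent.Lib.H19X.EX3
import Pool.Agent.Lib.H19X.EX4
import Pool.Agent.Lib.H19X.EX5
import Pool.Agent.Lib.H19X.EX6
import Pool.Agent.Lib.H55C.A14

open NumberField IsDedekindDomain

namespace H19X

open H55B H55C H55E

/-! Chunk EX7 (M): the pigeonhole. n = number of infinite places of K, [K:Q] = 2n, N has 3n (EX4). many: 2^(3n+2) inequivalent
elements f i of N, units outside P1, P2 (above w, EX6). norm K (f i) is nonzero and a unit outside w (norm_unit: om is in K, exists_T,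
norm = z Tz T(Tz) and T permutes the primes above u, val_auto of H55C.A14). Classes: few for norm K (f i): 2^(n+1); level for f i (P1, P2
are not above 2): 2^(2n). 2^(n+1) 2^(2n) < 2^(3n+2): there are i <> j with the same two classes
(Fintype.exists_ne_map_eq_of_card_lt). z = f i/f j: not a square, norm K z = b^2, unit outside w, level condition. -/

theorem EX7_above {K N : Type} [Field K] [NumberField K] [Field N] [NumberField N] [Algebra K N]
    (u : HeightOneSpectrum (𝓞 K)) : ∃ P : HeightOneSpectrum (𝓞 N), u.asIdeal = P.asIdeal.under (𝓞 K) := by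
  have hint : Algebra.IsIntegral (𝓞 K) (𝓞 N) := inferInstance
  have hinj : Function.Injective (algebraMap (𝓞 K) (𝓞 N)) := FaithfulSMul.algebraMap_injective _ _
  have := u.isPrime
  obtain ⟨Q, hQ, hQv⟩ := Ideal.exists_ideal_over_prime_of_isIntegral_of_isDomain
    (S := 𝓞 N) u.asIdeal (by
      rw [(RingHom.injective_iff_ker_eq_bot _).1 hinj]
      exact bot_le)
  have hQb : Q ≠ ⊥ := by
    rintro rfl
    apply u.ne_bot
    rw [← hQv, ← RingHom.ker_eq_comap_bot]
    exact (RingHom.injective_iff_ker_eq_bot _).1 hinj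
  exact ⟨⟨Q, hQ, hQb⟩, hQv.symm⟩

theorem EX7_eq {K : Type} [Field K] [NumberField K] {u w : HeightOneSpectrum (𝓞 K)}
    (h : w.asIdeal ≤ u.asIdeal) : w = u := by
  have := w.isMaximal
  exact HeightOneSpectrum.ext (w.isMaximal.eq_of_le u.isPrime.ne_top h)

theorem EX7_under {K N : Type} [Field K] [NumberField K] [Field N] [NumberField N] [Algebra K N]
    (T : N ≃ₐ[K] N) (P P' : HeightOneSpectrum (𝓞 N))
    (h : ∀ z : N, P.valuation N (T z) = P'.valuation N z) :
    P'.asIdeal.under (𝓞 K) = P.asIdeal.under (𝓞 K) := by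
  ext x
  rw [Ideal.under_def, Ideal.under_def, Ideal.mem_comap, Ideal.mem_comap,
    ← HeightOneSpectrum.valuation_lt_one_iff_mem (K := N), ← HeightOneSpectrum.valuation_lt_one_iff_mem (K := N)]
  have e : algebraMap (𝓞 N) N (algebraMap (𝓞 K) (𝓞 N) x) = algebraMap K N (algebraMap (𝓞 K) K x) := by
    rw [← IsScalarTower.algebraMap_apply, ← IsScalarTower.algebraMap_apply]
  change P'.valuation N (algebraMap (𝓞 N) N (algebraMap (𝓞 K) (𝓞 N) x)) < 1 ↔
    P.valuation N (algebraMap (𝓞 N) N (algebraMap (𝓞 K) (𝓞 N) x)) < 1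
  rw [e, ← h, T.commutes]

theorem EX7_norm {K N : Type} [Field K] [NumberField K] [Field N] [NumberField N]
    [Algebra K N] (T : N ≃ₐ[K] N)
    (hT : ∀ z : N, algebraMap K N (Algebra.norm K z) = z * T z * T (T z))
    (u : HeightOneSpectrum (𝓞 K)) (z : N)
    (hz : ∀ P : HeightOneSpectrum (𝓞 N), u.asIdeal = P.asIdeal.under (𝓞 K) → P.valuation N z = 1) :
    u.valuation K (Algebra.norm K z) = 1 := by
  obtain ⟨P, hP⟩ := EX7_above (N := N) u
  obtain ⟨w, e, hw, he, hval⟩ := A4_glob (K := K) (N := N) P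
  have hwu : w = u := HeightOneSpectrum.ext (hw.trans hP.symm)
  subst hwu
  obtain ⟨P', hP', -⟩ := val_auto (T : N ≃+* N) P
  obtain ⟨P'', hP'', -⟩ := val_auto (T : N ≃+* N) P'
  have h1 := EX7_under T P P' hP'
  have h2 := EX7_under T P' P'' hP''
  have h3 : P.valuation N (T z) = P'.valuation N z := hP' z
  have h4 : P.valuation N (T (T z)) = P'.valuation N (T z) := hP' (T z)
  have h5 : P'.valuation N (T z) = P''.valuation N z := hP'' z
  have h6 : P.valuation N (algebraMap K N (Algebra.norm K z)) = 1 := by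
    rw [hT, map_mul, map_mul, h4, h5, h3, hz P hP, hz P' (hP.trans h1.symm),
      hz P'' ((hP.trans h1.symm).trans h2.symm), one_mul, one_mul]
  rw [hval] at h6
  exact (pow_eq_one_iff.1 h6).resolve_right he

theorem exists_z {K N : Type} [Field K] [NumberField K] [Algebra F K] [Field N] [NumberField N]
    [Algebra K N] (φ : Cub K ≃ₐ[K] N) (hK : UnrTwo K) (w : HeightOneSpectrum (𝓞 K))
    (h6 : (6 : 𝓞 K) ∉ w.asIdeal) (x : 𝓞 K) (hx : x ^ 3 - 2 ∈ w.asIdeal) :
    ∃ z : N, z ≠ 0 ∧ (¬ ∃ b : N, z = b ^ 2) ∧ (∃ n : K, Algebra.norm K z = n ^ 2) ∧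
      (∀ P : HeightOneSpectrum (𝓞 N), w.asIdeal ≠ P.asIdeal.under (𝓞 K) → P.valuation N z = 1) ∧
      ∀ P : HeightOneSpectrum (𝓞 N), (2 : 𝓞 N) ∈ P.asIdeal →
        ∃ b : N, b ≠ 0 ∧ P.valuation N (z / b ^ 2 - 1) ≤ P.valuation N (th φ ^ 2) := by
  obtain ⟨P1, P2, h12, hP1, hP2⟩ := exists_two φ w h6 x hx
  obtain ⟨f, hf, hne⟩ := many N P1 P2 h12
  obtain ⟨c1, hc1⟩ := few K w
  obtain ⟨c2, hc2⟩ := level φ hK
  obtain ⟨T, -, hT⟩ := exists_T φ (algebraMap O K om) (A18_om K)
  have hunit : ∀ i, ∀ P : HeightOneSpectrum (𝓞 N), w.asIdeal ≠ P.asIdeal.under (𝓞 K) →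
      P.valuation N (f i) = 1 := by
    intro i P hP
    apply (hf i).2
    · rintro rfl
      exact hP hP1
    · rintro rfl
      exact hP hP2
  have h2w : (2 : 𝓞 K) ∉ w.asIdeal := by
    intro h
    apply h6
    have h7 : (6 : 𝓞 K) = 3 * 2 := by norm_num
    rw [h7]
    exact w.asIdeal.mul_mem_left _ h
  have habove : ∀ P : HeightOneSpectrum (𝓞 N), (2 : 𝓞 N) ∈ P.asIdeal →
      w.asIdeal ≠ P.asIdeal.under (𝓞 K) := by
    intro P hP hw
    exact h2w (A18_under P w hw 2 hP)
  have hnu : ∀ i, Algebra.norm K (f i) ≠ 0 ∧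
      ∀ u : HeightOneSpectrum (𝓞 K), u ≠ w → u.valuation K (Algebra.norm K (f i)) = 1 := by
    intro i
    have hfin : Module.Finite K N := N2_finite φ
    refine ⟨Algebra.norm_ne_zero_iff.2 (hf i).1, fun u hu => ?_⟩
    apply EX7_norm T hT
    intro P hP
    apply hunit
    intro hw
    exact hu (HeightOneSpectrum.ext (hP.trans hw.symm))
  have hN : Fintype.card (InfinitePlace N) = 3 * Fintype.card (InfinitePlace K) := places_N φ
  have hQ : Module.finrank ℚ K = 2 * Fintype.card (InfinitePlace K) := (places_F K).symm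
  have hcard : Fintype.card (Fin (2 ^ (Fintype.card (InfinitePlace K) + 1)) ×
      Fin (2 ^ Module.finrank ℚ K)) <
      Fintype.card (Fin (2 ^ (Fintype.card (InfinitePlace N) + 2))) := by
    rw [Fintype.card_prod, Fintype.card_fin, Fintype.card_fin, Fintype.card_fin, hN, hQ, ← pow_add]
    exact Nat.pow_lt_pow_right (by norm_num) (by omega)
  obtain ⟨i, j, hij, hg⟩ := Fintype.exists_ne_map_eq_of_card_lt
    (fun i => (c1 (Algebra.norm K (f i)), c2 (f i))) hcard
  have hg1 : c1 (Algebra.norm K (f i)) = c1 (Algebra.norm K (f j)) := congrArg Prod.fst hg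
  have hg2 : c2 (f i) = c2 (f j) := congrArg Prod.snd hg
  refine ⟨f i / f j, div_ne_zero (hf i).1 (hf j).1, ?_, ?_, ?_, ?_⟩
  · rintro ⟨b, hb⟩
    apply hne i j hij
    refine ⟨b, ?_⟩
    rw [← hb, mul_div_cancel₀ _ (hf j).1]
  · obtain ⟨b, hb⟩ := hc1 _ _ (hnu i) (hnu j) hg1
    refine ⟨b, ?_⟩
    have h7 : Algebra.norm K (f i / f j) * Algebra.norm K (f j) = Algebra.norm K (f i) := by
      rw [← map_mul, div_mul_cancel₀ _ (hf j).1]
    rw [hb, mul_comm] at h7
    exact mul_left_cancel₀ (hnu j).1 h7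
  · intro P hP
    rw [map_div₀, hunit i P hP, hunit j P hP, div_one]
  · exact hc2 (f i) (f j) (fun P hP => hunit i P (habove P hP))
      (fun P hP => hunit j P (habove P hP)) hg2

end H19X
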