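import Mathlib
import Pool.Agent.Lib.H55E.Defs

open NumberField IsDedekindDomain

namespace H19X

open H55B H55C H55E

/-! Chunk N1 (S): the field N = K(cbrt 2). N = AdjoinRoot (X^3 - 2 : K[X]) itself, the isomorphism is the
identity (AlgEquiv.refl). X^3 - 2 is irreducible by X_pow_sub_C_irreducible_of_prime Nat.prime_three; the
number field instance: finite over K (AdjoinRoot.powerBasis'), NumberField.of_module_finite. Compare
H55C.A5 (exists_comp). -/

theorem exists_N (K : Type) [Field K] [NumberField K] (h : ¬ ∃ x : K, x ^ 3 = 2) :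
    ∃ (N : Type) (_ : Field N) (_ : NumberField N) (_ : Algebra K N), Nonempty (Cub K ≃ₐ[K] N) := by
  have hirr : Fact (Irreducible (Polynomial.X ^ 3 - Polynomial.C 2 : Polynomial K)) :=
    ⟨X_pow_sub_C_irreducible_of_prime Nat.prime_three (fun b hb => h ⟨b, hb⟩)⟩
  have hfin : Module.Finite K (Cub K) :=
    (AdjoinRoot.powerBasis' (Polynomial.monic_X_pow_sub_C (2 : K) three_ne_zero)).finite
  have hNF : NumberField (Cub K) := NumberField.of_module_finite K (Cub K)
  exact ⟨Cub K, inferInstance, hNF, inferInstance, ⟨AlgEquiv.refl⟩⟩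

end H19X
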