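import Mathlib
import Pool.Agent.Lib.H19X.Defs
import Pool.Agent.Lib.H55B.G5
import Pool.Agent.Lib.H55C.A5
import Pool.Agent.Lib.H55E.T1

open NumberField IsDedekindDomain

namespace H19X

open H55B H55C H55E

/-! Chunk T1 (M): subfields of 2-extensions. L/F Galois of 2-power degree, K inside: sub6_rank: [K:F] divides [L:F].
exists_sub6: compare H19T.A4 (exists_sub3, p = 3): a subgroup H <> G of the 2-group G = Gal(L/F), K = L^H, is contained with index 2 in
a subgroup H' (normalizer condition / Sylow); K1 = fixed field of H'. Sub6 K1 with the same L.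
unrTwo, unrThree: e(w|O) = 1 for w above 6 (ramification index of w in K divides that of a prime of L above w), 2 and om - 1 are
prime in O, A4_val-like (H55C.A4: val_two, val_lam). hypF dd: if u^3 = 2 modulo w, w above d, then w lies above a prime l | d, l = 1 mod 3, 2 not
a cube modulo l; compare ET1_cube (H55E.T1): the residue degree of w over l is a power of 2 (tower of quadratic extensions, or:
it divides the order of the decomposition group of a prime of L), so X^3 - 2 would have a root in F_l. -/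

theorem sub6_rank {K : Type} [Field K] [NumberField K] [Algebra F K] (hS : Sub6 K) :
    ∃ k : ℕ, Module.finrank F K = 2 ^ k := by
  obtain ⟨L, _, _, _, _, _, ⟨-, k, hk⟩, -⟩ := hS
  have h1 := Module.finrank_mul_finrank F K L
  have h2 : Module.finrank F K ∣ 2 ^ k := by
    rw [← hk, ← h1]
    exact dvd_mul_right _ _
  obtain ⟨j, -, hj⟩ := (Nat.dvd_prime_pow Nat.prime_two).1 h2
  exact ⟨j, hj⟩

theorem sub6_no_cube {K : Type} [Field K] [NumberField K] [Algebra F K] (hS : Sub6 K) :
    ¬ ∃ x : K, x ^ 3 = 2 := by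
  obtain ⟨k, hk⟩ := sub6_rank hS
  rintro ⟨x, hx⟩
  exact a5_no_cube K k hk x hx

theorem T1_exists (K' : Type) [Field K'] [NumberField K'] [Algebra F K'] (hS : Sub6 K')
    (hn : Module.finrank F K' ≠ 1) :
    ∃ (K : Type) (_ : Field K) (_ : NumberField K) (_ : Algebra F K) (_ : Algebra K K')
      (_ : IsScalarTower F K K'), Sub6 K ∧ Module.finrank K K' = 2 := by
  obtain ⟨L, _, _, _, _, _, ⟨hG, k, hk⟩, hU⟩ := hS
  have : FiniteDimensional F L := Module.finite_of_finrank_pos (by rw [hk]; positivity)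
  let f : K' →ₐ[F] L := IsScalarTower.toAlgHom F K' L
  let M' : IntermediateField F L := f.fieldRange
  let E : K' ≃ₐ[F] M' := AlgEquiv.ofInjectiveField f
  have h1 : Module.finrank F M' = Module.finrank F K' := E.toLinearEquiv.finrank_eq.symm
  have h2 : Module.finrank F M' * Module.finrank M' L = 2 ^ k := by
    rw [Module.finrank_mul_finrank, hk]
  obtain ⟨j, hj, hj2⟩ := (Nat.dvd_prime_pow Nat.prime_two).1
    (Dvd.intro_left _ h2 : Module.finrank M' L ∣ 2 ^ k)
  have h3 : Nat.card M'.fixingSubgroup = 2 ^ j := by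
    rw [IsGalois.card_fixingSubgroup_eq_finrank, hj2]
  have hcardG : Nat.card (L ≃ₐ[F] L) = 2 ^ k := by
    rw [IsGalois.card_aut_eq_finrank, hk]
  have hjk : j < k := by
    rcases lt_or_eq_of_le hj with h | h
    · exact h
    · exfalso
      apply hn
      rw [hj2, h, h1] at h2
      have h4 : (0 : ℕ) < 2 ^ k := by positivity
      exact Nat.eq_of_mul_eq_mul_right h4 (by rw [one_mul]; exact h2)
  have := Fact.mk Nat.prime_two
  obtain ⟨H, hH, hle⟩ := Sylow.exists_subgroup_card_pow_succ (p := 2) (G := L ≃ₐ[F] L) (n := j)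
    (by rw [hcardG]; exact pow_dvd_pow 2 hjk) h3
  let M : IntermediateField F L := IntermediateField.fixedField H
  have hM : M ≤ M' := by
    intro x hx
    rw [← IsGalois.fixedField_fixingSubgroup M', IntermediateField.mem_fixedField_iff]
    intro σ hσ
    exact (IntermediateField.mem_fixedField_iff H x).1 hx σ (hle hσ)
  let N : IntermediateField F K' := M.comap f
  have hN : N.map f = M := by
    ext x
    constructor
    · rintro ⟨y, hy, rfl⟩
      exact hy
    · intro hx
      obtain ⟨y, hy⟩ := hM hx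
      have hy' : f y = x := hy
      refine ⟨y, ?_, hy⟩
      show f y ∈ M
      rw [hy']
      exact hx
  have h5 : Module.finrank F N = Module.finrank F M := by
    rw [← hN]
    exact (IntermediateField.equivMap N f).toLinearEquiv.finrank_eq
  have h6 : Module.finrank M L = 2 ^ (j + 1) := by
    rw [IntermediateField.finrank_fixedField_eq_card, hH]
  have h7 : Module.finrank F M * Module.finrank M L = 2 ^ k := by
    rw [Module.finrank_mul_finrank, hk]
  have h8 : Module.finrank F N * Module.finrank N K' = Module.finrank F K' :=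
    Module.finrank_mul_finrank F N K'
  have h9 : Module.finrank N K' = 2 := by
    rw [h5] at h8
    rw [h1, hj2, ← h8] at h2
    rw [h6] at h7
    have h10 : 0 < Module.finrank F M := Module.finrank_pos
    have h11 : Module.finrank F M * 2 ^ j * Module.finrank N K' =
        Module.finrank F M * 2 ^ j * 2 := by
      calc _ = Module.finrank F M * Module.finrank N K' * 2 ^ j := by ring
        _ = 2 ^ k := h2
        _ = Module.finrank F M * 2 ^ (j + 1) := h7.symm
        _ = _ := by rw [pow_succ]; ring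
    exact Nat.eq_of_mul_eq_mul_left (by positivity) h11
  refine ⟨N, inferInstance, inferInstance, inferInstance, inferInstance, inferInstance,
    ⟨L, inferInstance, inferInstance, inferInstance, inferInstance, inferInstance, ⟨hG, k, hk⟩, hU⟩,
    h9⟩

theorem exists_sub6 (K : Type) [Field K] [NumberField K] [Algebra F K] (hS : Sub6 K)
    (h1 : 1 < Module.finrank F K) :
    ∃ (K1 : Type) (_ : Field K1) (_ : NumberField K1) (_ : Algebra F K1) (_ : Algebra K1 K)
      (_ : IsScalarTower F K1 K), Sub6 K1 ∧ Module.finrank K1 K = 2 := by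
  exact T1_exists K hS h1.ne'

theorem sub6_unrSix {K : Type} [Field K] [NumberField K] [Algebra F K] (hS : Sub6 K) : UnrSix K := by
  obtain ⟨L, _, _, _, _, _, -, hU⟩ := hS
  intro w hw
  obtain ⟨W, hW, -⟩ := H55N.T0_above L w
  have h6 : (6 : 𝓞 L) ∈ W.asIdeal := by
    have h3 : (6 : 𝓞 K) ∈ W.asIdeal.under (𝓞 K) := hW.over ▸ hw
    rw [Ideal.mem_under, map_ofNat] at h3
    exact h3
  have h1 := hU W h6
  have h2 := Ideal.ramificationIdx_tower (R := O) w.asIdeal W.asIdeal
  rw [h1] at h2
  exact Nat.eq_one_of_mul_eq_one_right h2.symm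

theorem T1_inertia {K : Type} [Field K] [NumberField K] [Algebra F K] (h : Sub6 K)
    (w : HeightOneSpectrum (𝓞 K)) : ∃ j : ℕ, w.asIdeal.inertiaDeg O = 2 ^ j := by
  obtain ⟨L, _, _, _, _, _, ⟨hG, k, hk⟩, -⟩ := h
  obtain ⟨W, hW, hW2⟩ := H55N.T0_above L w
  obtain ⟨j, hj⟩ := inertia_pow hG k hk W
  have h2 := Ideal.inertiaDeg_tower (R := O) w.asIdeal W.asIdeal
  have h3 : w.asIdeal.inertiaDeg O ∣ 2 ^ j := by
    rw [← hj, h2]
    exact dvd_mul_right _ _
  obtain ⟨i, -, hi⟩ := (Nat.dvd_prime_pow Nat.prime_two).1 h3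
  exact ⟨i, hi⟩

theorem T1_val {K : Type} [Field K] [NumberField K] [Algebra F K]
    (w : HeightOneSpectrum (𝓞 K)) (he : w.asIdeal.ramificationIdx O = 1) (π : O) (hπ : Prime π)
    (hw : algebraMap O (𝓞 K) π ∈ w.asIdeal) :
    w.valuation K (algebraMap O K π) = WithZero.exp (-1 : ℤ) := by
  have hwm := w.isMaximal
  have hwp := w.isPrime
  let v : HeightOneSpectrum O := ⟨Ideal.span {π}, (Ideal.span_singleton_prime hπ.ne_zero).2 hπ,
    by simpa using hπ.ne_zero⟩
  have hvm := v.isMaximal
  have hunder : v.asIdeal = w.asIdeal.under O := by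
    apply hvm.eq_of_le (Ideal.IsPrime.ne_top inferInstance)
    show Ideal.span {π} ≤ _
    rw [Ideal.span_singleton_le_iff_mem]
    exact hw
  have hl : w.asIdeal.LiesOver v.asIdeal := ⟨hunder⟩
  have hram : v.asIdeal.ramificationIdx' w.asIdeal = 1 := by
    rw [Ideal.ramificationIdx'_eq_ramificationIdx v.asIdeal w.asIdeal v.ne_bot]
    exact he
  have h4 := HeightOneSpectrum.valuation_liesOver K v w (algebraMap O F π)
  rw [hram, pow_one] at h4
  rw [IsScalarTower.algebraMap_apply O F K, ← h4, HeightOneSpectrum.valuation_of_algebraMap]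
  exact HeightOneSpectrum.intValuation_singleton v hπ.ne_zero rfl

/-- 2 is not a cube modulo primes of K above good primes -/
theorem T1_nocube (K : Type) [Field K] [NumberField K] [Algebra F K] (hS : Sub6 K)
    (W : HeightOneSpectrum (𝓞 K)) (hno : ¬ ∃ x : O, x ^ 3 - 2 ∈ W.asIdeal.under O) (u : 𝓞 K)
    (hu : u ^ 3 - 2 ∈ W.asIdeal) : False := by
  obtain ⟨j, hj⟩ := T1_inertia hS W
  have hp : (W.asIdeal.under O).IsPrime := inferInstance
  have hl : W.asIdeal.LiesOver (W.asIdeal.under O) := ⟨rfl⟩
  have hne : W.asIdeal.under O ≠ ⊥ := by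
    intro h
    have h1 := Ideal.eq_bot_of_comap_eq_bot (R := O) (I := W.asIdeal) h
    exact W.ne_bot h1
  have hmax : (W.asIdeal.under O).IsMaximal := hp.isMaximal hne
  have hWm := W.isMaximal
  rw [Ideal.inertiaDeg_eq_of_isMaximal (W.asIdeal.under O) W.asIdeal] at hj
  let : Field (O ⧸ W.asIdeal.under O) := Ideal.Quotient.field _
  let : Field (𝓞 K ⧸ W.asIdeal) := Ideal.Quotient.field _
  have hirr : Irreducible (Polynomial.X ^ 3 - Polynomial.C (2 : O ⧸ W.asIdeal.under O)) := by
    refine X_pow_sub_C_irreducible_of_prime Nat.prime_three ?_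
    intro b hb
    obtain ⟨x, rfl⟩ := Ideal.Quotient.mk_surjective b
    apply hno
    refine ⟨x, ?_⟩
    rw [← Ideal.Quotient.eq_zero_iff_mem, map_sub, map_pow, hb, map_ofNat, sub_self]
  have hroot : Polynomial.aeval (Ideal.Quotient.mk W.asIdeal u)
      (Polynomial.X ^ 3 - Polynomial.C (2 : O ⧸ W.asIdeal.under O)) = 0 := by
    rw [map_sub, map_pow, Polynomial.aeval_X, Polynomial.aeval_C, map_ofNat]
    have h1 := Ideal.Quotient.eq_zero_iff_mem.2 hu
    rw [map_sub, map_pow, map_ofNat] at h1
    exact h1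
  have hmin := minpoly.eq_of_irreducible_of_monic hirr hroot
    (Polynomial.monic_X_pow_sub_C _ three_ne_zero)
  have hfin : FiniteDimensional (O ⧸ W.asIdeal.under O) (𝓞 K ⧸ W.asIdeal) := by
    apply FiniteDimensional.of_finrank_pos
    rw [hj]
    positivity
  have hdvd : (minpoly (O ⧸ W.asIdeal.under O) (Ideal.Quotient.mk W.asIdeal u)).natDegree ∣
      Module.finrank (O ⧸ W.asIdeal.under O) (𝓞 K ⧸ W.asIdeal) :=
    minpoly.degree_dvd (IsIntegral.of_finite _ _)
  rw [← hmin, Polynomial.natDegree_X_pow_sub_C, hj] at hdvd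
  have h3 := Nat.prime_three.dvd_of_dvd_pow hdvd
  omega

theorem T1_three {K : Type} [Field K] [NumberField K] [Algebra F K]
    (w : HeightOneSpectrum (𝓞 K))
    (hl : w.valuation K (algebraMap O K (om - 1)) = WithZero.exp (-1 : ℤ)) :
    w.valuation K (3 : K) = WithZero.exp (-2 : ℤ) := by
  have h1 : (om - 1) ^ 2 * (-(om ^ 2)) = 3 := by
    have hr := om_rel
    linear_combination (-om ^ 2 + 3 * om - 3) * hr
  have h2 : w.valuation K (algebraMap O K (om ^ 2)) = 1 := by
    have h3 : om ^ 2 * om = 1 := by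
      have hr := om_rel
      linear_combination (om - 1) * hr
    have h4 : ∀ x : O, w.valuation K (algebraMap O K x) ≤ 1 := by
      intro x
      have hint : IsIntegral ℤ (algebraMap O K x) := by
        have h5 : algebraMap O K x = algebraMap F K (algebraMap O F x) :=
          IsScalarTower.algebraMap_apply O F K x
        rw [h5]
        exact (RingOfIntegers.isIntegral_coe x).map (algebraMap F K : F →+* K).toIntAlgHom
      have h6 : algebraMap O K x = algebraMap (𝓞 K) K ⟨algebraMap O K x, hint⟩ := rfl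
      rw [h6]
      exact w.valuation_le_one _
    have h5 : w.valuation K (algebraMap O K (om ^ 2)) * w.valuation K (algebraMap O K om) = 1 := by
      rw [← map_mul, ← map_mul, h3, map_one, map_one]
    refine le_antisymm (h4 _) ?_
    calc (1 : WithZero (Multiplicative ℤ)) =
        w.valuation K (algebraMap O K (om ^ 2)) * w.valuation K (algebraMap O K om) := h5.symm
      _ ≤ w.valuation K (algebraMap O K (om ^ 2)) * 1 := mul_le_mul' le_rfl (h4 om)
      _ = _ := mul_one _
  have h7 : (3 : K) = algebraMap O K (om - 1) ^ 2 * (-(algebraMap O K (om ^ 2))) := by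
    rw [← map_pow, ← map_neg, ← map_mul, h1, map_ofNat]
  rw [h7, map_mul, map_pow, Valuation.map_neg, h2, hl, mul_one, ← WithZero.exp_nsmul]
  rfl

theorem hypF_of_sub6 {K : Type} [Field K] [NumberField K] [Algebra F K] (hS : Sub6 K) (d : ℤ)
    (hd : AdmD d) : HypF d K := by
  have hU := sub6_unrSix hS
  refine ⟨?_, ?_, ?_⟩
  · intro w hw
    have h6 : (6 : 𝓞 K) ∈ w.asIdeal := by
      have e : (6 : 𝓞 K) = 3 * 2 := by norm_num
      rw [e]
      exact w.asIdeal.mul_mem_left _ hw
    have h := T1_val w (hU w h6) 2 two_prime (by rw [map_ofNat]; exact hw)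
    rwa [map_ofNat] at h
  · intro w hw
    have h6 : (6 : 𝓞 K) ∈ w.asIdeal := by
      have e : (6 : 𝓞 K) = 2 * 3 := by norm_num
      rw [e]
      exact w.asIdeal.mul_mem_left _ hw
    have hwm := w.isMaximal
    have hwp := w.isPrime
    refine ⟨2, by norm_num, ?_⟩
    apply T1_three w
    apply T1_val w (hU w h6) (om - 1) lam_prime
    have h1 : (3 : 𝓞 K) = algebraMap O (𝓞 K) 3 := (map_ofNat (algebraMap O (𝓞 K)) 3).symm
    rw [h1, three_eq, neg_mul, map_neg, Ideal.neg_mem_iff, map_mul] at hw
    rcases hwp.mem_or_mem hw with h2 | h2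
    · exact absurd h2 (G5_om _ _ hwm.ne_top)
    · rw [map_pow] at h2
      exact hwp.mem_of_pow_mem _ h2
  · rintro w hdw ⟨u, hu⟩
    have hwp := w.isPrime
    have hn : (d.natAbs : 𝓞 K) ∈ w.asIdeal := by
      rw [← Int.cast_natCast]
      rcases Int.natAbs_eq d with h | h
      · have h' : ((d.natAbs : ℤ) : 𝓞 K) = (d : 𝓞 K) := congrArg (Int.cast) h.symm
        rw [h']
        exact hdw
      · have h' : ((d.natAbs : ℤ) : 𝓞 K) = -(d : 𝓞 K) := by
          rw [← Int.cast_neg]
          exact congrArg (Int.cast) (by omega)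
        rw [h']
        exact w.asIdeal.neg_mem hdw
    obtain ⟨l, hl, hld, hlw⟩ := ET1_prime w.asIdeal d.natAbs (Int.natAbs_ne_zero.2 hd.ne_zero) hn
    have hlv : (l : O) ∈ w.asIdeal.under O := by
      rw [Ideal.mem_under, map_natCast]
      exact hlw
    have hp : (w.asIdeal.under O).IsPrime := inferInstance
    have hne : w.asIdeal.under O ≠ ⊥ := by
      intro h
      have h1 := Ideal.eq_bot_of_comap_eq_bot (R := O) (I := w.asIdeal) h
      exact w.ne_bot h1
    obtain ⟨hg1, hg2⟩ := hd.good l hl (Int.natCast_dvd.2 hld)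
    have hgood := H55D.X3_good ⟨w.asIdeal.under O, hp, hne⟩ l hl hlv hg1 hg2
    exact T1_nocube K hS w hgood.2.2 u hu

end H19X
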