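import Mathlib
import Pool.Agent.Lib.H19X.N2
import Pool.Agent.Lib.H55E.S2

open NumberField IsDedekindDomain

namespace H19X

open H55B H55C H55E

/-! Chunk UP (M): from K to a quadratic extension K' ramified at w. iota : N -> N', φ' o cmap o φ.symm, iota (th φ) = th φ'. norm: norm_co (the
norm commutes with iota and algebraMap K K'). P' prime of N', P the prime of N below it (A4_glob for the algebra structure
iota.toAlgebra): v_P'(iota z) = v_P(z)^e. even: if P is not above w, v_P(z) = 1. If P is above w: e(P'/P) e(P/w) = e(P'/w') e(w'/w), where w'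
below P' is THE prime of K' above w (quadratic extension, ramified: unique), e(w'/w) = 2, e(P/w) in {1, 3}: N/K is Galois of
degree 3 (exists_T) so e divides 3 (compare a10_dvd in H55C.A10); so e(P'/P) is even. two: P' above 2 lies over P above 2, use iota b,
v_P'(th φ'^2) = v_P(th^2)^e, monotone. ne: injective. nonsq: H55E.sq_descent (X^3 - 2 has no root in K': N' exists, no_cube). -/

section aux

variable {K K' N N' : Type} [Field K] [NumberField K] [Field K'] [NumberField K']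
  [Algebra K K'] [Field N] [NumberField N] [Algebra K N]
  [Field N'] [NumberField N'] [Algebra K' N'] (φ : Cub K ≃ₐ[K] N) (φ' : Cub K' ≃ₐ[K'] N')

/-- the embedding of N in N' -/
noncomputable def UP_i : N →+* N' :=
  ((φ' : Cub K' →+* N').comp (cmap (algebraMap K K'))).comp (φ.symm : N →+* Cub K)

theorem UP_i_apply (z : N) : UP_i φ φ' z = φ' (cmap (algebraMap K K') (φ.symm z)) := rfl

theorem UP_i_K (x : K) : UP_i φ φ' (algebraMap K N x) = algebraMap K' N' (algebraMap K K' x) := by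
  rw [UP_i_apply, AlgEquiv.commutes]
  have h1 : algebraMap K (Cub K) x = AdjoinRoot.of _ x := rfl
  rw [h1, H55D.DS2_of]
  exact φ'.commutes _

theorem UP_i_th : UP_i φ φ' (th φ) = th φ' := by
  rw [UP_i_apply, AlgEquiv.symm_apply_apply, H55D.DS2_root]

theorem UP_norm (z : N) :
    Algebra.norm K' (UP_i φ φ' z) = algebraMap K K' (Algebra.norm K z) := by
  rw [UP_i_apply, Algebra.norm_eq_of_algEquiv φ', H55D.DS2_norm,
    Algebra.norm_eq_of_algEquiv φ.symm]

theorem UP_nonsq (h2 : Module.finrank K K' = 2) (z : N) (hz : z ≠ 0)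
    (hns : ¬ ∃ b : N, z = b ^ 2) (n : K) (hn : Algebra.norm K z = n ^ 2) :
    ¬ ∃ b : N', UP_i φ φ' z = b ^ 2 := by
  rintro ⟨b, hb⟩
  apply hns
  have hu : IsUnit (φ.symm z) := (isUnit_iff_ne_zero.mpr hz).map φ.symm
  have hn' : Algebra.norm K (φ.symm z) = n ^ 2 := by
    rw [Algebra.norm_eq_of_algEquiv φ.symm, hn]
  have hb' : cmap (algebraMap K K') (φ.symm z) = (φ'.symm b) ^ 2 := by
    rw [← map_pow, ← hb, UP_i_apply, AlgEquiv.symm_apply_apply]
  obtain ⟨c, hc⟩ := H55E.sq_descent K K' h2 (fun ⟨x, hx⟩ => no_cube φ' x hx) (φ.symm z) hu n hn'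
    (φ'.symm b) hb'
  refine ⟨φ c, ?_⟩
  rw [← map_pow, ← hc, AlgEquiv.apply_symm_apply]

/-- valuations in N'/N -/
theorem UP_val (P' : HeightOneSpectrum (𝓞 N')) :
    ∃ (P : HeightOneSpectrum (𝓞 N)) (e : ℕ),
      (∀ x : ℤ, (x : 𝓞 N) ∈ P.asIdeal ↔ (x : 𝓞 N') ∈ P'.asIdeal) ∧ e ≠ 0 ∧
      ∀ z : N, P'.valuation N' (UP_i φ φ' z) = P.valuation N z ^ e := by
  let _ : Algebra N N' := (UP_i φ φ').toAlgebra
  obtain ⟨P, e, hP, he, hval⟩ := A4_glob (K := N) (N := N') P'
  refine ⟨P, e, fun x => ?_, he, hval⟩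
  rw [hP, Ideal.mem_comap, map_intCast]

theorem UP_two (P' : HeightOneSpectrum (𝓞 N')) (h2 : (2 : 𝓞 N') ∈ P'.asIdeal) (z : N)
    (ht : ∀ P : HeightOneSpectrum (𝓞 N), (2 : 𝓞 N) ∈ P.asIdeal →
        ∃ b : N, b ≠ 0 ∧ P.valuation N (z / b ^ 2 - 1) ≤ P.valuation N (th φ ^ 2)) :
    ∃ b : N', b ≠ 0 ∧ P'.valuation N' (UP_i φ φ' z / b ^ 2 - 1) ≤
      P'.valuation N' (th φ' ^ 2) := by
  obtain ⟨P, e, hP, he, hval⟩ := UP_val φ φ' P'
  have h2' : (2 : 𝓞 N) ∈ P.asIdeal := by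
    have h3 := (hP 2).mpr (by exact_mod_cast h2)
    exact_mod_cast h3
  obtain ⟨b, hb, h⟩ := ht P h2'
  refine ⟨UP_i φ φ' b, (map_ne_zero (UP_i φ φ')).mpr hb, ?_⟩
  have e1 : UP_i φ φ' z / (UP_i φ φ' b) ^ 2 - 1 = UP_i φ φ' (z / b ^ 2 - 1) := by
    rw [map_sub, map_div₀, map_pow, map_one]
  rw [e1, ← UP_i_th φ φ', ← map_pow, hval, hval]
  exact pow_le_pow_left₀ zero_le h e

end aux

theorem UP_galois {K N : Type} [Field K] [NumberField K] [Field N] [NumberField N] [Algebra K N]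
    (φ : Cub K ≃ₐ[K] N) (r : K) (hr : r ^ 2 + r + 1 = 0) : IsGalois K N := by
  have hfin : FiniteDimensional K N := Module.Finite.right ℚ K N
  obtain ⟨T, hT, -⟩ := exists_T φ r hr
  have hr1 : r ≠ 1 := by
    intro h
    rw [h] at hr
    norm_num at hr
  have hr2 : r ^ 2 ≠ 1 := by
    intro h
    have h3 : r = -2 := by linear_combination hr - h
    rw [h3] at h
    norm_num at h
  apply IsGalois.of_fixedField_eq_bot
  rw [eq_bot_iff]
  intro z hz
  have h1 : T z = z := hz ⟨T, trivial⟩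
  obtain ⟨a, b, c, rfl⟩ := span_co φ z
  rw [map_add, map_add, map_mul, map_mul, map_pow, T.commutes, T.commutes, T.commutes, hT] at h1
  have h4 : algebraMap K N 0 + algebraMap K N (b * (r - 1)) * th φ +
      algebraMap K N (c * (r ^ 2 - 1)) * th φ ^ 2 = 0 := by
    simp only [map_zero, map_mul, map_sub, map_one, map_pow]
    linear_combination h1
  obtain ⟨-, h5, h6⟩ := indep_co φ _ _ _ h4
  have hb : b = 0 := (mul_eq_zero.mp h5).resolve_right (sub_ne_zero.mpr hr1)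
  have hc : c = 0 := (mul_eq_zero.mp h6).resolve_right (sub_ne_zero.mpr hr2)
  rw [hb, hc, IntermediateField.mem_bot]
  exact ⟨a, by rw [map_zero, zero_mul, zero_mul, add_zero, add_zero]⟩

theorem UP_odd {K N : Type} [Field K] [NumberField K] [Field N] [NumberField N] [Algebra K N]
    (φ : Cub K ≃ₐ[K] N) (r : K) (hr : r ^ 2 + r + 1 = 0) (w : HeightOneSpectrum (𝓞 K))
    (P : HeightOneSpectrum (𝓞 N)) (hP : P.asIdeal.LiesOver w.asIdeal) :
    Odd (P.asIdeal.ramificationIdx (𝓞 K)) := by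
  have hfin : FiniteDimensional K N := Module.Finite.right ℚ K N
  have hG : IsGalois K N := UP_galois φ r hr
  have hPp := P.isPrime
  have hwp := w.isPrime
  have h1 := Ideal.ncard_primesOver_mul_ramificationIdxIn_mul_inertiaDegIn w.asIdeal (𝓞 N)
    (N ≃ₐ[K] N)
  rw [IsGalois.card_aut_eq_finrank, rank_three φ,
    Ideal.ramificationIdxIn_eq_ramificationIdx w.asIdeal P.asIdeal (N ≃ₐ[K] N)] at h1
  have h2 : P.asIdeal.ramificationIdx (𝓞 K) ∣ 3 :=
    ⟨(w.asIdeal.primesOver (𝓞 N)).ncard * w.asIdeal.inertiaDegIn (𝓞 N), h1.symm.trans (by ring)⟩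
  rcases (Nat.dvd_prime Nat.prime_three).1 h2 with h3 | h3
  · rw [h3]
    exact odd_one
  · rw [h3]
    exact ⟨1, rfl⟩

/-- all primes above w have ramification index two -/
theorem UP_e2 {K K' : Type} [Field K] [NumberField K] [Field K'] [NumberField K'] [Algebra K K']
    (h2 : Module.finrank K K' = 2) (w : HeightOneSpectrum (𝓞 K)) (w' : HeightOneSpectrum (𝓞 K'))
    (hw : w.asIdeal = w'.asIdeal.under (𝓞 K)) (he : w'.asIdeal.ramificationIdx (𝓞 K) ≠ 1)
    (u : HeightOneSpectrum (𝓞 K')) (hu : u.asIdeal.LiesOver w.asIdeal) :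
    u.asIdeal.ramificationIdx (𝓞 K) = 2 := by
  have hfin : FiniteDimensional K K' := Module.Finite.right ℚ K K'
  have hq : Algebra.IsQuadraticExtension K K' := ⟨h2⟩
  have hG : IsGalois K K' := inferInstance
  have hw'p := w'.isPrime
  have hwp := w.isPrime
  have hup := u.isPrime
  have hl : w'.asIdeal.LiesOver w.asIdeal := ⟨hw⟩
  have h1 := Ideal.ncard_primesOver_mul_ramificationIdxIn_mul_inertiaDegIn w.asIdeal (𝓞 K')
    (K' ≃ₐ[K] K')
  have e1 := Ideal.ramificationIdxIn_eq_ramificationIdx w.asIdeal w'.asIdeal (K' ≃ₐ[K] K')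
  have e2 := Ideal.ramificationIdxIn_eq_ramificationIdx w.asIdeal u.asIdeal (K' ≃ₐ[K] K')
  rw [← e1] at he
  rw [← e2]
  rw [IsGalois.card_aut_eq_finrank, h2] at h1
  have h3 : w.asIdeal.ramificationIdxIn (𝓞 K') ∣ 2 :=
    ⟨(w.asIdeal.primesOver (𝓞 K')).ncard * w.asIdeal.inertiaDegIn (𝓞 K'), h1.symm.trans (by ring)⟩
  rcases (Nat.dvd_prime Nat.prime_two).1 h3 with h4 | h4
  · exact absurd h4 he
  · exact h4

theorem cnd_up {K K' N N' : Type} [Field K] [NumberField K] [Algebra F K] [Field K'] [NumberField K']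
    [Algebra F K'] [Algebra K K'] [IsScalarTower F K K'] [Field N] [NumberField N] [Algebra K N]
    [Field N'] [NumberField N'] [Algebra K' N'] (φ : Cub K ≃ₐ[K] N) (φ' : Cub K' ≃ₐ[K'] N')
    (h2 : Module.finrank K K' = 2) (w : HeightOneSpectrum (𝓞 K)) (w' : HeightOneSpectrum (𝓞 K'))
    (hw : w.asIdeal = w'.asIdeal.under (𝓞 K)) (he : w'.asIdeal.ramificationIdx (𝓞 K) ≠ 1) (d : ℤ)
    (z : N) (hz : z ≠ 0) (hns : ¬ ∃ b : N, z = b ^ 2) (n : K) (hn : Algebra.norm K z = n ^ 2)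
    (hv : ∀ P : HeightOneSpectrum (𝓞 N), w.asIdeal ≠ P.asIdeal.under (𝓞 K) → P.valuation N z = 1)
    (ht : ∀ P : HeightOneSpectrum (𝓞 N), (2 : 𝓞 N) ∈ P.asIdeal →
        ∃ b : N, b ≠ 0 ∧ P.valuation N (z / b ^ 2 - 1) ≤ P.valuation N (th φ ^ 2)) :
    Cnd d K' N' (th φ') (φ' (cmap (algebraMap K K') (φ.symm z))) ∧
      ¬ ∃ b : N', φ' (cmap (algebraMap K K') (φ.symm z)) = b ^ 2 := by
  rw [← UP_i_apply φ φ']
  refine ⟨⟨(map_ne_zero (UP_i φ φ')).mpr hz, ⟨algebraMap K K' n, ?_⟩, ?_, ?_⟩,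
    UP_nonsq φ φ' h2 z hz hns n hn⟩
  · rw [UP_norm, hn, map_pow]
  · intro P' _
    let _ : Algebra N N' := (UP_i φ φ').toAlgebra
    let _ : Algebra K N' := ((algebraMap K' N').comp (algebraMap K K')).toAlgebra
    have t1 : IsScalarTower K K' N' := IsScalarTower.of_algebraMap_eq (fun x => rfl)
    have t2 : IsScalarTower K N N' := IsScalarTower.of_algebraMap_eq (fun x => (UP_i_K φ φ' x).symm)
    have t1' : IsScalarTower (𝓞 K) (𝓞 K') (𝓞 N') := inferInstance
    have t2' : IsScalarTower (𝓞 K) (𝓞 N) (𝓞 N') := inferInstance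
    have hP'p := P'.isPrime
    have hP'm := P'.isMaximal
    let P : HeightOneSpectrum (𝓞 N) := ⟨P'.asIdeal.under (𝓞 N), P'.isPrime.under (𝓞 N),
      Ideal.IsIntegral.comap_ne_bot _ P'.ne_bot⟩
    let u : HeightOneSpectrum (𝓞 K') := ⟨P'.asIdeal.under (𝓞 K'), P'.isPrime.under (𝓞 K'),
      Ideal.IsIntegral.comap_ne_bot _ P'.ne_bot⟩
    have hl : P'.asIdeal.LiesOver P.asIdeal := ⟨rfl⟩
    have hlu : P'.asIdeal.LiesOver u.asIdeal := ⟨rfl⟩
    have hval : P'.valuation N' (UP_i φ φ' z) =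
        P.valuation N z ^ P.asIdeal.ramificationIdx' P'.asIdeal :=
      (HeightOneSpectrum.valuation_liesOver N' P P' z).symm
    by_cases hPw : w.asIdeal = P.asIdeal.under (𝓞 K)
    · have hlPw : P.asIdeal.LiesOver w.asIdeal := ⟨hPw⟩
      have hlPw' : P'.asIdeal.LiesOver w.asIdeal :=
        Ideal.LiesOver.trans P'.asIdeal P.asIdeal w.asIdeal
      have hluw : u.asIdeal.LiesOver w.asIdeal := by
        refine ⟨?_⟩
        rw [hlPw'.over]
        change P'.asIdeal.under (𝓞 K) = (P'.asIdeal.under (𝓞 K')).under (𝓞 K)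
        rw [Ideal.under_under]
      have e1 : P'.asIdeal.ramificationIdx (𝓞 K) = P.asIdeal.ramificationIdx (𝓞 K) *
          P'.asIdeal.ramificationIdx (𝓞 N) := Ideal.ramificationIdx_tower P.asIdeal P'.asIdeal
      have e2 : P'.asIdeal.ramificationIdx (𝓞 K) = u.asIdeal.ramificationIdx (𝓞 K) *
          P'.asIdeal.ramificationIdx (𝓞 K') := Ideal.ramificationIdx_tower u.asIdeal P'.asIdeal
      have e3 : P.asIdeal.ramificationIdx' P'.asIdeal = P'.asIdeal.ramificationIdx (𝓞 N) :=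
        Ideal.ramificationIdx'_eq_ramificationIdx P.asIdeal P'.asIdeal P.ne_bot
      have hr : (algebraMap O K om) ^ 2 + algebraMap O K om + 1 = 0 := by
        rw [← map_pow, ← map_add, ← map_one (algebraMap O K), ← map_add, om_rel, map_zero]
      have hodd := UP_odd φ (algebraMap O K om) hr w P hlPw
      rw [UP_e2 h2 w w' hw he u hluw, e1] at e2
      have heven : Even (P'.asIdeal.ramificationIdx (𝓞 N)) := by
        have h3 : Even (P.asIdeal.ramificationIdx (𝓞 K) * P'.asIdeal.ramificationIdx (𝓞 N)) := by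
          rw [e2]
          exact even_two_mul _
        rcases Nat.even_mul.mp h3 with h4 | h4
        · exact absurd h4 (Nat.not_even_iff_odd.mpr hodd)
        · exact h4
      obtain ⟨j, hj⟩ := heven
      have hPz : P.valuation N z ≠ 0 := (Valuation.ne_zero_iff _).2 hz
      obtain ⟨i, hi⟩ : ∃ i : ℤ, P.valuation N z = WithZero.exp i :=
        ⟨WithZero.log (P.valuation N z), (WithZero.exp_log hPz).symm⟩
      refine ⟨j * i, ?_⟩
      rw [hval, e3, hj, hi, ← WithZero.exp_nsmul, WithZero.exp_inj, nsmul_eq_mul]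
      push_cast
      ring
    · refine ⟨0, ?_⟩
      rw [hval, hv P hPw, one_pow, mul_zero, WithZero.exp_zero]
  · intro P' hP'
    exact UP_two φ φ' P' hP' z ht

/-- The conditions go up in every quadratic extension: norm (norm_co), even and two as above (v_P'(iota z) = v_P(z)^e), not a
square by sq_descent. -/
theorem cnd_mono {K K' N N' : Type} [Field K] [NumberField K] [Algebra F K] [Field K'] [NumberField K']
    [Algebra F K'] [Algebra K K'] [IsScalarTower F K K'] [Field N] [NumberField N] [Algebra K N]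
    [Field N'] [NumberField N'] [Algebra K' N'] (φ : Cub K ≃ₐ[K] N) (φ' : Cub K' ≃ₐ[K'] N')
    (h2 : Module.finrank K K' = 2) (d : ℤ) (z : N) (hz : Cnd d K N (th φ) z)
    (hns : ¬ ∃ b : N, z = b ^ 2) :
    Cnd d K' N' (th φ') (φ' (cmap (algebraMap K K') (φ.symm z))) ∧
      ¬ ∃ b : N', φ' (cmap (algebraMap K K') (φ.symm z)) = b ^ 2 := by
  rw [← UP_i_apply φ φ']
  obtain ⟨n, hn⟩ := hz.norm
  refine ⟨⟨(map_ne_zero (UP_i φ φ')).mpr hz.ne, ⟨algebraMap K K' n, ?_⟩, ?_, ?_⟩,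
    UP_nonsq φ φ' h2 z hz.ne hns n hn⟩
  · rw [UP_norm, hn, map_pow]
  · intro P' hP'
    obtain ⟨P, e, hP, he, hval⟩ := UP_val φ φ' P'
    obtain ⟨k, hk⟩ := hz.even P (fun h => hP' ((hP _).mp h))
    refine ⟨e * k, ?_⟩
    rw [hval, hk, ← WithZero.exp_nsmul, WithZero.exp_inj, nsmul_eq_mul]
    ring
  · intro P' hP'
    exact UP_two φ φ' P' hP' z hz.two

end H19X
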