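import Mathlib
import Pool.Agent.Lib.H19X.T1
import Pool.Agent.Lib.H19X.N1
import Pool.Agent.Lib.H19X.EX7
import Pool.Agent.Lib.H19X.UP

open NumberField IsDedekindDomain

namespace H19X

open H55B H55C H55E

/-! Chunk T2 (M): induction over the tower of quadratic extensions. cube_down: if 2 is a cube modulo w (K/K1 quadratic) then it
is a cube modulo w1 = w ∩ 𝓞 K1: the residue field of w has degree <= 2 over that of w1 (H55E.T1 / inertia degree <= [K : K1]), and X^3 - 2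
without root over the residue field of w1 is irreducible of degree 3, so it has no root in an extension of degree <= 2.
exists_cnd_F: induction on k, [K:F] = 2^k (sub6_rank). k = 0: e(w|O) = 1 (the algebra map F -> K is bijective, so O -> 𝓞 K is). Step: K1
from exists_sub6, w1 = w ∩ 𝓞 K1, e(w|O) = e(w|w1) e(w1|O) (Ideal.ramificationIdx_algebra_tower or the like). N1, N from exists_N
(sub6_no_cube; Sub6 K). If e(w|w1) <> 1: exists_z for K1 and w1 (unrTwo from hypF_of_sub6 with d = 1, 6 not in w1, cube_down), cnd_up. If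
e(w|w1) = 1: e(w1|O) <> 1, induction hypothesis for K1 and w1, cnd_mono. -/

/-- ramification index and inertia degree are at most the degree -/
theorem T2_le {K1 K : Type} [Field K1] [NumberField K1] [Field K] [NumberField K] [Algebra K1 K]
    (w : HeightOneSpectrum (𝓞 K)) :
    w.asIdeal.ramificationIdx (𝓞 K1) * w.asIdeal.inertiaDeg (𝓞 K1) ≤ Module.finrank K1 K := by
  have hwp := w.isPrime
  have hp : (w.asIdeal.under (𝓞 K1)).IsPrime := inferInstance
  have hf : Fintype ((w.asIdeal.under (𝓞 K1)).primesOver (𝓞 K)) :=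
    (Algebra.QuasiFinite.finite_primesOver _).fintype
  have h := Ideal.sum_ramification_inertia_eq_finrank (w.asIdeal.under (𝓞 K1)) (𝓞 K)
  rw [← IsFractionRing.finrank_eq (𝓞 K1) K1 (𝓞 K) K] at h
  rw [← h]
  have hmem : w.asIdeal ∈ (w.asIdeal.under (𝓞 K1)).primesOver (𝓞 K) := ⟨hwp, ⟨rfl⟩⟩
  exact Finset.single_le_sum (f := fun q : (w.asIdeal.under (𝓞 K1)).primesOver (𝓞 K) =>
    q.1.ramificationIdx (𝓞 K1) * q.1.inertiaDeg (𝓞 K1)) (fun _ _ => Nat.zero_le _)
    (Finset.mem_univ ⟨w.asIdeal, hmem⟩)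

theorem cube_down {K1 K : Type} [Field K1] [NumberField K1] [Field K] [NumberField K] [Algebra K1 K]
    (h2 : Module.finrank K1 K = 2) (w : HeightOneSpectrum (𝓞 K)) (w1 : HeightOneSpectrum (𝓞 K1))
    (hw : w1.asIdeal = w.asIdeal.under (𝓞 K1)) (x : 𝓞 K) (hx : x ^ 3 - 2 ∈ w.asIdeal) :
    ∃ y : 𝓞 K1, y ^ 3 - 2 ∈ w1.asIdeal := by
  by_contra hno
  have hwp := w.isPrime
  have hl : w.asIdeal.LiesOver w1.asIdeal := ⟨hw⟩
  have hmax := w1.isMaximal
  have hWm := w.isMaximal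
  have hle := T2_le (K1 := K1) w
  have hep := w.asIdeal.ramificationIdx_pos (𝓞 K1)
  have hfp := w.asIdeal.inertiaDeg_pos (𝓞 K1)
  have hj : w.asIdeal.inertiaDeg (𝓞 K1) ≤ 2 := by
    rw [h2] at hle
    nlinarith
  rw [Ideal.inertiaDeg_eq_of_isMaximal w1.asIdeal w.asIdeal] at hj hfp
  let : Field (𝓞 K1 ⧸ w1.asIdeal) := Ideal.Quotient.field _
  let : Field (𝓞 K ⧸ w.asIdeal) := Ideal.Quotient.field _
  have hirr : Irreducible (Polynomial.X ^ 3 - Polynomial.C (2 : 𝓞 K1 ⧸ w1.asIdeal)) := by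
    refine X_pow_sub_C_irreducible_of_prime Nat.prime_three ?_
    intro b hb
    obtain ⟨y, rfl⟩ := Ideal.Quotient.mk_surjective b
    apply hno
    refine ⟨y, ?_⟩
    rw [← Ideal.Quotient.eq_zero_iff_mem, map_sub, map_pow, hb, map_ofNat, sub_self]
  have hroot : Polynomial.aeval (Ideal.Quotient.mk w.asIdeal x)
      (Polynomial.X ^ 3 - Polynomial.C (2 : 𝓞 K1 ⧸ w1.asIdeal)) = 0 := by
    rw [map_sub, map_pow, Polynomial.aeval_X, Polynomial.aeval_C, map_ofNat]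
    have h1 := Ideal.Quotient.eq_zero_iff_mem.2 hx
    rw [map_sub, map_pow, map_ofNat] at h1
    exact h1
  have hmin := minpoly.eq_of_irreducible_of_monic hirr hroot
    (Polynomial.monic_X_pow_sub_C _ three_ne_zero)
  have hfin : FiniteDimensional (𝓞 K1 ⧸ w1.asIdeal) (𝓞 K ⧸ w.asIdeal) :=
    FiniteDimensional.of_finrank_pos hfp
  have hdvd : (minpoly (𝓞 K1 ⧸ w1.asIdeal) (Ideal.Quotient.mk w.asIdeal x)).natDegree ∣
      Module.finrank (𝓞 K1 ⧸ w1.asIdeal) (𝓞 K ⧸ w.asIdeal) :=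
    minpoly.degree_dvd (IsIntegral.of_finite _ _)
  rw [← hmin, Polynomial.natDegree_X_pow_sub_C] at hdvd
  have := Nat.le_of_dvd hfp hdvd
  omega

theorem T2_ind (d : ℤ) : ∀ (k : ℕ) (K : Type) [Field K] [NumberField K] [Algebra F K],
    Sub6 K → Module.finrank F K = 2 ^ k → ∀ (w : HeightOneSpectrum (𝓞 K)), (6 : 𝓞 K) ∉ w.asIdeal →
    (∃ x : 𝓞 K, x ^ 3 - 2 ∈ w.asIdeal) → w.asIdeal.ramificationIdx O ≠ 1 →
    ∃ (N : Type) (_ : Field N) (_ : NumberField N) (_ : Algebra K N) (φ : Cub K ≃ₐ[K] N) (m : N),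
      Cnd d K N (th φ) m ∧ ¬ ∃ b : N, m = b ^ 2 := by
  intro k
  induction k with
  | zero =>
    intro K _ _ _ hS hk w h6 hx he
    exfalso
    apply he
    have hwp := w.isPrime
    have hle := T2_le (K1 := F) w
    have hep := w.asIdeal.ramificationIdx_pos O
    have hfp := w.asIdeal.inertiaDeg_pos O
    rw [hk] at hle
    nlinarith
  | succ k ih =>
    intro K _ _ _ hS hk w h6 hx he
    have h1 : 1 < Module.finrank F K := by
      rw [hk]
      exact Nat.one_lt_two_pow (by omega)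
    obtain ⟨K1, i1, i2, i3, i4, i5, hS1, h2⟩ := exists_sub6 K hS h1
    have hk1 : Module.finrank F K1 = 2 ^ k := by
      have h := Module.finrank_mul_finrank F K1 K
      rw [h2, hk, pow_succ] at h
      omega
    have hwp := w.isPrime
    have hp : (w.asIdeal.under (𝓞 K1)).IsPrime := inferInstance
    have hne : w.asIdeal.under (𝓞 K1) ≠ ⊥ := by
      intro h
      exact w.ne_bot (Ideal.eq_bot_of_comap_eq_bot (R := 𝓞 K1) (I := w.asIdeal) h)
    obtain ⟨w1, hw⟩ : ∃ w1 : HeightOneSpectrum (𝓞 K1), w1.asIdeal = w.asIdeal.under (𝓞 K1) :=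
      ⟨⟨w.asIdeal.under (𝓞 K1), hp, hne⟩, rfl⟩
    have hl : w.asIdeal.LiesOver w1.asIdeal := ⟨hw⟩
    obtain ⟨x, hx⟩ := hx
    obtain ⟨y, hy⟩ := cube_down h2 w w1 hw x hx
    have h61 : (6 : 𝓞 K1) ∉ w1.asIdeal := by
      rw [hw, Ideal.mem_under, map_ofNat]
      exact h6
    have htow : w.asIdeal.ramificationIdx O =
        w1.asIdeal.ramificationIdx O * w.asIdeal.ramificationIdx (𝓞 K1) :=
      Ideal.ramificationIdx_tower w1.asIdeal w.asIdeal
    obtain ⟨N, j1, j2, j3, ⟨φ⟩⟩ := exists_N K (sub6_no_cube hS)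
    by_cases he1 : w.asIdeal.ramificationIdx (𝓞 K1) = 1
    · rw [he1, mul_one] at htow
      obtain ⟨N1, l1, l2, l3, φ1, m, hm, hns⟩ := ih K1 hS1 hk1 w1 h61 ⟨y, hy⟩ (by
        rw [← htow]; exact he)
      have h := cnd_mono φ1 φ h2 d m hm hns
      exact ⟨N, j1, j2, j3, φ, _, h⟩
    · obtain ⟨N1, l1, l2, l3, ⟨φ1⟩⟩ := exists_N K1 (sub6_no_cube hS1)
      have hd1 : AdmD 1 := by
        refine ⟨squarefree_one, by norm_num, ?_⟩
        intro l hl h
        exfalso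
        have h1 := Int.eq_one_of_dvd_one (Int.natCast_nonneg l) h
        exact hl.one_lt.ne' (by exact_mod_cast h1)
      obtain ⟨z, hz, hzs, ⟨n, hn⟩, hzv, hzt⟩ := exists_z φ1 (hypF_of_sub6 hS1 1 hd1).two w1 h61 y hy
      have h := cnd_up φ1 φ h2 w1 w hw he1 d z hz hzs n hn hzv hzt
      exact ⟨N, j1, j2, j3, φ, _, h⟩

theorem exists_cnd_F (K : Type) [Field K] [NumberField K] [Algebra F K] (hS : Sub6 K) (d : ℤ)
    (w : HeightOneSpectrum (𝓞 K)) (h6 : (6 : 𝓞 K) ∉ w.asIdeal) (x : 𝓞 K)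
    (hx : x ^ 3 - 2 ∈ w.asIdeal) (he : w.asIdeal.ramificationIdx O ≠ 1) :
    ∃ (N : Type) (_ : Field N) (_ : NumberField N) (_ : Algebra K N) (φ : Cub K ≃ₐ[K] N) (m : N),
      Cnd d K N (th φ) m ∧ ¬ ∃ b : N, m = b ^ 2 := by
  obtain ⟨k, hk⟩ := sub6_rank hS
  exact T2_ind d k K hS hk w h6 ⟨x, hx⟩ he

end H19X
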