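import Mathlib
import Pool.Agent.Lib.H19X.T2

open NumberField IsDedekindDomain

namespace H19X

open H55B H55C H55E

/-! Chunk T4 (S/M): ramification over Z and over O. e_iff: for w not above 3: e(w|Z) = e(w|O), because O is unramified over Z outside 3
(the discriminant of Z[om] is -3; e(v|Z) = 1 for v not above 3; multiplicativity of ramification indices).
good_up: K = K₀(sqrt -3): w of K not above 6, 2 a cube modulo w, w₀ = w ∩ 𝓞 K₀: 2 is a cube modulo w₀ (cube_down), so e(w₀|Z) = 1, and e(w|w₀) = 1 as w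
is not above 3 (compare H13E.T8 / Q2, H55E.X2 UnrAt_up), so e(w|Z) = 1 = e(w|O).
bad_up: w₀ of K₀ not above 6, 2 a cube modulo w₀, e(w₀|Z) <> 1: any w above w₀ has 2 a cube modulo w and e(w|O) = e(w|Z) <> 1. -/

/-- Every prime of K not above 6 which is ramified over the rationals is such that 2 is not a cube modulo it. -/
def GoodRam (K : Type) [Field K] [NumberField K] : Prop :=
  ∀ w : HeightOneSpectrum (𝓞 K), (6 : 𝓞 K) ∉ w.asIdeal → (∃ x : 𝓞 K, x ^ 3 - 2 ∈ w.asIdeal) →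
    w.asIdeal.ramificationIdx ℤ = 1

theorem T4_unr (v : HeightOneSpectrum O) (h3 : (3 : O) ∉ v.asIdeal) :
    v.asIdeal.ramificationIdx ℤ = 1 := by
  have hvp := v.isPrime
  have hp : (v.asIdeal.under ℤ).IsPrime := inferInstance
  have hne : v.asIdeal.under ℤ ≠ ⊥ := Ideal.IsIntegral.comap_ne_bot ℤ v.ne_bot
  obtain ⟨g, hg⟩ := (IsPrincipalIdealRing.principal (v.asIdeal.under ℤ)).1
  have hg' : v.asIdeal.under ℤ = Ideal.span {((g.natAbs : ℕ) : ℤ)} := by
    rw [Int.span_natAbs]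
    exact hg
  have hg0 : ((g.natAbs : ℕ) : ℤ) ≠ 0 := by
    intro h
    rw [h, Ideal.span_singleton_zero] at hg'
    exact hne hg'
  have hpr : Nat.Prime g.natAbs := by
    rw [hg'] at hp
    rw [Nat.prime_iff_prime_int]
    exact (Ideal.span_singleton_prime hg0).1 hp
  have hF : Fact (Nat.Prime g.natAbs) := ⟨hpr⟩
  have hl : v.asIdeal.LiesOver (Ideal.span {((g.natAbs : ℕ) : ℤ)}) := ⟨hg'.symm⟩
  refine IsCyclotomicExtension.Rat.ramificationIdx_eq_of_not_dvd (m := 3) g.natAbs F v.asIdeal ?_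
  intro hd
  have h4 : g.natAbs = 3 := (Nat.prime_dvd_prime_iff_eq hpr Nat.prime_three).1 hd
  apply h3
  have h5 : (3 : ℤ) ∈ v.asIdeal.under ℤ := by
    rw [hg', h4]
    exact Ideal.mem_span_singleton_self _
  rw [Ideal.mem_under] at h5
  simpa using h5

theorem T4_under {K₀ K : Type} [Field K₀] [NumberField K₀] [Field K] [NumberField K] [Algebra K₀ K]
    (w : HeightOneSpectrum (𝓞 K)) :
    ∃ w₁ : HeightOneSpectrum (𝓞 K₀), w₁.asIdeal = w.asIdeal.under (𝓞 K₀) := by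
  have hp := w.isPrime
  refine ⟨⟨w.asIdeal.under (𝓞 K₀), Ideal.IsPrime.under (𝓞 K₀) w.asIdeal, ?_⟩, rfl⟩
  exact Ideal.IsIntegral.comap_ne_bot (𝓞 K₀) w.ne_bot

theorem e_iff {K : Type} [Field K] [NumberField K] [Algebra F K] (w : HeightOneSpectrum (𝓞 K))
    (h3 : (3 : 𝓞 K) ∉ w.asIdeal) : w.asIdeal.ramificationIdx ℤ = 1 ↔ w.asIdeal.ramificationIdx O = 1 := by
  obtain ⟨v, hv⟩ := T4_under (K₀ := F) w
  have hl : w.asIdeal.LiesOver v.asIdeal := ⟨hv⟩
  have h3' : (3 : O) ∉ v.asIdeal := by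
    rw [hv, Ideal.mem_under, map_ofNat]
    exact h3
  rw [Ideal.ramificationIdx_tower (R := ℤ) (S := O) v.asIdeal w.asIdeal, T4_unr v h3', one_mul]

/-- K/K₀ is unramified outside 3 -/
theorem T4_one {K₀ K : Type} [Field K₀] [NumberField K₀] [Field K] [NumberField K] [Algebra F K]
    [Algebra K₀ K] (hQ : H13E.Quad K₀ K) (w : HeightOneSpectrum (𝓞 K))
    (h3 : (3 : 𝓞 K) ∉ w.asIdeal) : w.asIdeal.ramificationIdx (𝓞 K₀) = 1 := by
  have hwp := w.isPrime
  have hG := H13E.quad_galois hQ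
  rw [← X2_card (K₀ := K₀) w, Subgroup.card_eq_one, Subgroup.eq_bot_iff_forall]
  intro g hg
  obtain ⟨c, -, hc, -, hall, -⟩ := H13E.exists_c hQ
  rcases hall g with h | h
  · exact h
  · exfalso
    rw [h] at hg
    have hg' : ∀ y : 𝓞 K, c • y - y ∈ w.asIdeal := hg
    have h1 := hg' (algebraMap O (𝓞 K) om)
    have h2 : c • (algebraMap O (𝓞 K) om) = (algebraMap O (𝓞 K) om) ^ 2 := by
      apply NumberField.RingOfIntegers.ext
      show c (algebraMap O K om) = _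
      rw [hc, cj_om, map_pow]
      rfl
    rw [h2] at h1
    have hrel : (algebraMap O (𝓞 K) om) ^ 2 + algebraMap O (𝓞 K) om + 1 = 0 := by
      have h := congrArg (algebraMap O (𝓞 K)) om_rel
      simpa only [map_add, map_pow, map_one, map_zero] using h
    apply h3
    have h4 : (3 : 𝓞 K) = ((algebraMap O (𝓞 K) om) ^ 2 - algebraMap O (𝓞 K) om) *
        (-(algebraMap O (𝓞 K) om) ^ 2 + algebraMap O (𝓞 K) om) := by
      generalize algebraMap O (𝓞 K) om = z at hrel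
      linear_combination (z ^ 2 - 3 * z + 3) * hrel
    rw [h4]
    exact w.asIdeal.mul_mem_right _ h1

theorem T4_six {R : Type} [CommRing R] {P : Ideal R} (h6 : (6 : R) ∉ P) : (3 : R) ∉ P := by
  intro h
  apply h6
  have : (6 : R) = 2 * 3 := by norm_num
  rw [this]
  exact P.mul_mem_left _ h

theorem good_up {K₀ K : Type} [Field K₀] [NumberField K₀] [Field K] [NumberField K] [Algebra F K]
    [Algebra K₀ K] (hQ : H13E.Quad K₀ K) (h : GoodRam K₀) : GoodRam K := by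
  intro w h6 hx
  obtain ⟨w₀, hw⟩ := T4_under (K₀ := K₀) w
  have hl : w.asIdeal.LiesOver w₀.asIdeal := ⟨hw⟩
  obtain ⟨x, hx⟩ := hx
  have h2 : Module.finrank K₀ K = 2 := (H13E.q1_quad hQ).finrank_eq_two'
  obtain ⟨y, hy⟩ := cube_down h2 w w₀ hw x hx
  have h60 : (6 : 𝓞 K₀) ∉ w₀.asIdeal := by
    rw [hw, Ideal.mem_under, map_ofNat]
    exact h6
  rw [Ideal.ramificationIdx_tower (R := ℤ) (S := 𝓞 K₀) w₀.asIdeal w.asIdeal,
    T4_one hQ w (T4_six h6), h w₀ h60 ⟨y, hy⟩]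

theorem bad_up {K₀ K : Type} [Field K₀] [NumberField K₀] [Field K] [NumberField K] [Algebra F K]
    [Algebra K₀ K] (hQ : H13E.Quad K₀ K) (h : GoodRam K) : GoodRam K₀ := by
  intro w₀ h6 hx
  obtain ⟨Q, hQm, hQl⟩ := Ideal.exists_maximal_ideal_liesOver_of_isIntegral (S := 𝓞 K) w₀.asIdeal
  have hunder : w₀.asIdeal = Q.under (𝓞 K₀) := hQl.over
  have hQ0 : Q ≠ ⊥ := by
    rintro rfl
    apply w₀.ne_bot
    rw [hunder]
    exact Ideal.under_bot (𝓞 K₀) (𝓞 K)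
  obtain ⟨w, hW⟩ : ∃ W : HeightOneSpectrum (𝓞 K), W.asIdeal = Q := ⟨⟨Q, hQm.isPrime, hQ0⟩, rfl⟩
  rw [← hW] at hunder
  have hl : w.asIdeal.LiesOver w₀.asIdeal := ⟨hunder⟩
  have h6' : (6 : 𝓞 K) ∉ w.asIdeal := by
    intro h
    apply h6
    rw [hunder, Ideal.mem_under, map_ofNat]
    exact h
  obtain ⟨x, hx⟩ := hx
  have hx' : (algebraMap (𝓞 K₀) (𝓞 K) x) ^ 3 - 2 ∈ w.asIdeal := by
    have h1 : x ^ 3 - 2 ∈ w.asIdeal.under (𝓞 K₀) := hunder ▸ hx
    rw [Ideal.mem_under, map_sub, map_pow, map_ofNat] at h1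
    exact h1
  have h1 := h w h6' ⟨_, hx'⟩
  rw [Ideal.ramificationIdx_tower (R := ℤ) (S := 𝓞 K₀) w₀.asIdeal w.asIdeal,
    T4_one hQ w (T4_six h6'), mul_one] at h1
  exact h1

end H19X
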