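import Mathlib
import Pool.Agent.Lib.H19X.N2
import Pool.Agent.Lib.H55C.A14

open NumberField IsDedekindDomain

namespace H19X

open H55B H55C H55E

/-! Chunk U3 (M): the prime above 3, v_w(3) = exp(-e'), 3 does not divide e'.
(th + 1)^3 = 3 (1 + th + th^2) and (th - 1)(1 + th + th^2) = th^3 - 1 = 1, so 3 ord_P(th + 1) = ord_P(3) = e' e (e = ramification
index of P over w, A4_glob), so 3 | e, e = 3 (e <= 3), P is the only prime above w and the residue field of P is that of w
(sum e f = 3). So for v_P(z) <= 1 there is a in K, v_w(a) <= 1, with v_P(z - a) < 1; T is the identity on K and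
v_P(T y) = v_P(y) (T permutes the primes above w, val_auto in H55C.A14; or: uniqueness of P), so
T z - z = T (z - a) - (z - a) has valuation < 1. -/

variable {K N : Type} [Field K] [NumberField K] [Algebra F K] [Field N] [NumberField N] [Algebra K N]
  (φ : Cub K ≃ₐ[K] N)

/-- Primes over `w`, the fundamental identity. -/
theorem u3_sum {K N : Type} [Field K] [NumberField K] [Field N] [NumberField N] [Algebra K N]
    (w : HeightOneSpectrum (𝓞 K)) :
    ∑ Q ∈ IsDedekindDomain.primesOverFinset w.asIdeal (𝓞 N),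
      w.asIdeal.ramificationIdx' Q * w.asIdeal.inertiaDeg' Q = Module.finrank K N := by
  have := w.isMaximal
  exact Ideal.sum_ramification_inertia (𝓞 N) K N w.ne_bot

theorem u3_mem {K N : Type} [Field K] [NumberField K] [Field N] [NumberField N] [Algebra K N]
    (w : HeightOneSpectrum (𝓞 K)) (P : HeightOneSpectrum (𝓞 N))
    (hP : w.asIdeal = P.asIdeal.under (𝓞 K)) :
    P.asIdeal ∈ IsDedekindDomain.primesOverFinset w.asIdeal (𝓞 N) := by
  have := w.isMaximal
  rw [IsDedekindDomain.mem_primesOverFinset_iff w.ne_bot]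
  exact ⟨P.isPrime, ⟨hP⟩⟩

theorem u3_pos {K N : Type} [Field K] [NumberField K] [Field N] [NumberField N] [Algebra K N]
    (w : HeightOneSpectrum (𝓞 K)) (Q : Ideal (𝓞 N))
    (hQ : Q ∈ IsDedekindDomain.primesOverFinset w.asIdeal (𝓞 N)) :
    1 ≤ w.asIdeal.ramificationIdx' Q ∧ 1 ≤ w.asIdeal.inertiaDeg' Q := by
  have := w.isMaximal
  rw [IsDedekindDomain.mem_primesOverFinset_iff w.ne_bot] at hQ
  have h1 : Q.IsPrime := hQ.1
  have h2 : Q.LiesOver w.asIdeal := hQ.2
  exact ⟨Nat.one_le_iff_ne_zero.2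
    (Ideal.IsDedekindDomain.ramificationIdx'_ne_zero_of_liesOver Q w.ne_bot),
    Nat.one_le_iff_ne_zero.2 (Ideal.inertiaDeg'_ne_zero w.asIdeal Q)⟩

/-- If `e ≥ [N : K]` for one prime then it is the only one, and its residue field is that of `w`. -/
theorem u3_only {K N : Type} [Field K] [NumberField K] [Field N] [NumberField N] [Algebra K N]
    (w : HeightOneSpectrum (𝓞 K)) (P : HeightOneSpectrum (𝓞 N))
    (hP : w.asIdeal = P.asIdeal.under (𝓞 K))
    (he : Module.finrank K N ≤ w.asIdeal.ramificationIdx' P.asIdeal) :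
    (∀ P' : HeightOneSpectrum (𝓞 N), w.asIdeal = P'.asIdeal.under (𝓞 K) → P' = P) ∧
      w.asIdeal.inertiaDeg' P.asIdeal = 1 := by
  have hsum := u3_sum (N := N) w
  have hmem := u3_mem w P hP
  have hp := u3_pos w P.asIdeal hmem
  rw [← Finset.add_sum_erase _ _ hmem] at hsum
  have hle : Module.finrank K N ≤
      w.asIdeal.ramificationIdx' P.asIdeal * w.asIdeal.inertiaDeg' P.asIdeal :=
    he.trans (Nat.le_mul_of_pos_right _ hp.2)
  have h0 : ∑ Q ∈ (IsDedekindDomain.primesOverFinset w.asIdeal (𝓞 N)).erase P.asIdeal,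
      w.asIdeal.ramificationIdx' Q * w.asIdeal.inertiaDeg' Q = 0 := by omega
  refine ⟨fun P' hP' => ?_, ?_⟩
  · by_contra hne
    have hmem' : P'.asIdeal ∈ (IsDedekindDomain.primesOverFinset w.asIdeal (𝓞 N)).erase P.asIdeal := by
      rw [Finset.mem_erase]
      exact ⟨fun h => hne (HeightOneSpectrum.ext h), u3_mem w P' hP'⟩
    have h1 := (Finset.sum_eq_zero_iff.1 h0) _ hmem'
    have h2 := u3_pos w P'.asIdeal (u3_mem w P' hP')
    have h3 := Nat.mul_le_mul h2.1 h2.2
    omega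
  · have h1 : w.asIdeal.ramificationIdx' P.asIdeal * w.asIdeal.inertiaDeg' P.asIdeal =
        Module.finrank K N := by omega
    have h2 : w.asIdeal.ramificationIdx' P.asIdeal * w.asIdeal.inertiaDeg' P.asIdeal ≤
        w.asIdeal.ramificationIdx' P.asIdeal * 1 := by
      rw [mul_one]
      omega
    exact le_antisymm (Nat.le_of_mul_le_mul_left h2 (by omega)) hp.2

/-- Residues. -/
theorem u3_res {K N : Type} [Field K] [NumberField K] [Field N] [NumberField N] [Algebra K N]
    (w : HeightOneSpectrum (𝓞 K)) (P : HeightOneSpectrum (𝓞 N))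
    (hP : w.asIdeal = P.asIdeal.under (𝓞 K)) (hf : w.asIdeal.inertiaDeg' P.asIdeal = 1)
    (y : 𝓞 N) : ∃ a : 𝓞 K, y - algebraMap (𝓞 K) (𝓞 N) a ∈ P.asIdeal := by
  have hwm := w.isMaximal
  have hPm := P.isMaximal
  have hl : P.asIdeal.LiesOver w.asIdeal := ⟨hP⟩
  rw [Ideal.inertiaDeg'_algebraMap] at hf
  let _ := Ideal.Quotient.field w.asIdeal
  let _ := Ideal.Quotient.field P.asIdeal
  have hs := (Algebra.finrank_eq_one_iff_bijective_algebraMap.mp hf).2
  obtain ⟨a', ha'⟩ := hs (Ideal.Quotient.mk P.asIdeal y)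
  obtain ⟨a, rfl⟩ := Ideal.Quotient.mk_surjective a'
  refine ⟨a, ?_⟩
  rw [← Ideal.Quotient.eq_zero_iff_mem, map_sub, sub_eq_zero, ← ha']
  rfl

include φ in
theorem exists_P3 (w : HeightOneSpectrum (𝓞 K)) (h3 : (3 : 𝓞 K) ∈ w.asIdeal)
    (hl : ∃ e : ℕ, ¬ 3 ∣ e ∧ w.valuation K (3 : K) = WithZero.exp (-(e : ℤ))) (T : N ≃ₐ[K] N) :
    ∃ P : HeightOneSpectrum (𝓞 N), w.asIdeal = P.asIdeal.under (𝓞 K) ∧
      (∀ P' : HeightOneSpectrum (𝓞 N), w.asIdeal = P'.asIdeal.under (𝓞 K) → P' = P) ∧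
      (∀ z : N, P.valuation N (T z) = P.valuation N z) ∧
      ∀ z : N, P.valuation N z ≤ 1 → P.valuation N (T z - z) < 1 := by
  have hwm := w.isMaximal
  obtain ⟨e₀, he₀, hl⟩ := hl
  have hrank : Module.finrank K N = 3 := rank_three φ
  -- a prime above w
  obtain ⟨Q, hQ⟩ : (IsDedekindDomain.primesOverFinset w.asIdeal (𝓞 N)).Nonempty := by
    by_contra hcon
    rw [Finset.not_nonempty_iff_eq_empty] at hcon
    have h1 := u3_sum (N := N) w
    rw [hcon, Finset.sum_empty, hrank] at h1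
    omega
  have hQ' := (IsDedekindDomain.mem_primesOverFinset_iff w.ne_bot (𝓞 N)).1 hQ
  have hQ1 : Q.IsPrime := hQ'.1
  have hQ2 : Q.LiesOver w.asIdeal := hQ'.2
  let P : HeightOneSpectrum (𝓞 N) := ⟨Q, hQ1, Ideal.ne_bot_of_liesOver_of_ne_bot w.ne_bot Q⟩
  have hP : w.asIdeal = P.asIdeal.under (𝓞 K) := hQ2.over
  have hlP : P.asIdeal.LiesOver w.asIdeal := hQ2
  have hval : ∀ z : K, P.valuation N (algebraMap K N z) =
      w.valuation K z ^ (w.asIdeal.ramificationIdx' P.asIdeal) := fun z =>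
    (HeightOneSpectrum.valuation_liesOver N w P z).symm
  have hepos := (u3_pos w P.asIdeal (u3_mem w P hP)).1
  -- the ramification index is divisible by 3
  have hth := th_cube φ
  have hthle : P.valuation N (th φ) ≤ 1 := by
    have h1 : (P.valuation N (th φ)) ^ 3 ≤ 1 := by
      rw [← map_pow, hth]
      have h2 : P.valuation N (algebraMap (𝓞 N) N 2) ≤ 1 := P.valuation_le_one (K := N) (2 : 𝓞 N)
      rwa [map_ofNat] at h2
    by_contra hcon
    exact absurd h1 (not_le.2 (one_lt_pow₀ (not_le.1 hcon) (by norm_num)))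
  have h1le : P.valuation N (th φ - 1) ≤ 1 :=
    (Valuation.map_sub _ _ _).trans (max_le hthle (by rw [map_one]))
  have h2le : P.valuation N (1 + th φ + th φ ^ 2) ≤ 1 := by
    refine (Valuation.map_add _ _ _).trans (max_le ((Valuation.map_add _ _ _).trans
      (max_le (by rw [map_one]) hthle)) ?_)
    rw [map_pow]
    exact pow_le_one' hthle 2
  have hu : P.valuation N (1 + th φ + th φ ^ 2) = 1 := by
    have h3' : P.valuation N (th φ - 1) * P.valuation N (1 + th φ + th φ ^ 2) = 1 := by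
      rw [← map_mul]
      have e : (th φ - 1) * (1 + th φ + th φ ^ 2) = 1 := by linear_combination hth
      rw [e, map_one]
    refine le_antisymm h2le ?_
    rw [← h3']
    exact mul_le_of_le_one_left' h1le
  have hcube : P.valuation N (th φ + 1) ^ 3 =
      WithZero.exp (-(e₀ * w.asIdeal.ramificationIdx' P.asIdeal : ℕ) : ℤ) := by
    rw [← map_pow]
    have e : (th φ + 1) ^ 3 = algebraMap K N 3 * (1 + th φ + th φ ^ 2) := by
      rw [map_ofNat]
      linear_combination hth
    rw [e, map_mul, hu, mul_one, hval, hl, ← WithZero.exp_nsmul]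
    congr 1
    rw [nsmul_eq_mul]
    push_cast
    ring
  have he3 : 3 ≤ w.asIdeal.ramificationIdx' P.asIdeal := by
    have hne : P.valuation N (th φ + 1) ≠ 0 := by
      intro h0
      rw [h0, zero_pow (by norm_num)] at hcube
      exact WithZero.exp_ne_zero hcube.symm
    obtain ⟨n, hn⟩ : ∃ n : ℤ, P.valuation N (th φ + 1) = WithZero.exp n :=
      ⟨WithZero.log _, (WithZero.exp_log hne).symm⟩
    rw [hn, ← WithZero.exp_nsmul, nsmul_eq_mul] at hcube
    have h4 := WithZero.exp_injective hcube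
    have h5 : (3 : ℤ) ∣ ((e₀ * w.asIdeal.ramificationIdx' P.asIdeal : ℕ) : ℤ) :=
      ⟨-n, by push_cast at h4 ⊢; linarith⟩
    have h6 : 3 ∣ e₀ * w.asIdeal.ramificationIdx' P.asIdeal := by exact_mod_cast h5
    rcases Nat.prime_three.dvd_mul.1 h6 with h7 | h7
    · exact absurd h7 he₀
    · exact Nat.le_of_dvd hepos h7
  obtain ⟨huniq, hf⟩ := u3_only w P hP (by rw [hrank]; exact he3)
  have hT : ∀ z : N, P.valuation N (T z) = P.valuation N z := by
    obtain ⟨P', hP', -⟩ := val_auto (T : N ≃+* N) P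
    have h5 : P' = P := by
      apply huniq
      ext x
      rw [Ideal.mem_comap]
      have h6 : algebraMap (𝓞 K) (𝓞 N) x ∈ P'.asIdeal ↔ algebraMap (𝓞 K) (𝓞 N) x ∈ P.asIdeal := by
        rw [← P'.valuation_lt_one_iff_mem (K := N), ← P.valuation_lt_one_iff_mem (K := N), ← hP']
        have e : (T : N ≃+* N) (algebraMap (𝓞 N) N (algebraMap (𝓞 K) (𝓞 N) x)) =
            algebraMap (𝓞 N) N (algebraMap (𝓞 K) (𝓞 N) x) := by
          rw [← IsScalarTower.algebraMap_apply (𝓞 K) (𝓞 N) N,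
            IsScalarTower.algebraMap_apply (𝓞 K) K N]
          exact T.commutes _
        rw [e]
      rw [h6]
      rw [hP, Ideal.mem_comap]
    intro z
    have h7 := hP' z
    rw [h5] at h7
    exact h7
  refine ⟨P, hP, huniq, hT, fun z hz => ?_⟩
  have hint : ∀ y : 𝓞 N, P.valuation N (T (algebraMap (𝓞 N) N y) - algebraMap (𝓞 N) N y) < 1 := by
    intro y
    obtain ⟨a, ha⟩ := u3_res w P hP hf y
    have ha' : P.valuation N (algebraMap (𝓞 N) N (y - algebraMap (𝓞 K) (𝓞 N) a)) < 1 :=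
      (P.valuation_lt_one_iff_mem (K := N) _).2 ha
    rw [map_sub (algebraMap (𝓞 N) N)] at ha'
    have e : T (algebraMap (𝓞 N) N y) - algebraMap (𝓞 N) N y =
        T (algebraMap (𝓞 N) N y - algebraMap (𝓞 N) N (algebraMap (𝓞 K) (𝓞 N) a)) -
          (algebraMap (𝓞 N) N y - algebraMap (𝓞 N) N (algebraMap (𝓞 K) (𝓞 N) a)) := by
      rw [map_sub T]
      have e2 : T (algebraMap (𝓞 N) N (algebraMap (𝓞 K) (𝓞 N) a)) =
          algebraMap (𝓞 N) N (algebraMap (𝓞 K) (𝓞 N) a) := by
        rw [← IsScalarTower.algebraMap_apply (𝓞 K) (𝓞 N) N,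
          IsScalarTower.algebraMap_apply (𝓞 K) K N]
        exact T.commutes _
      rw [e2]
      ring
    rw [e]
    refine lt_of_le_of_lt (Valuation.map_sub _ _ _) (max_lt ?_ ha')
    rw [hT]
    exact ha'
  obtain ⟨x, y, hxy⟩ := HeightOneSpectrum.exists_primeCompl_mul_eq_of_integer P z hz
  have hy1 : P.valuation N (algebraMap (𝓞 N) N (y : 𝓞 N)) = 1 := by
    rw [HeightOneSpectrum.valuation_of_algebraMap]
    exact (P.intValuation_eq_one_iff_mem_primeCompl _).2 y.2
  have hx1 : P.valuation N (algebraMap (𝓞 N) N x) ≤ 1 := P.valuation_le_one (K := N) x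
  have hTy : P.valuation N (T (algebraMap (𝓞 N) N (y : 𝓞 N))) = 1 := by rw [hT, hy1]
  have key : P.valuation N ((T z - z) * (T (algebraMap (𝓞 N) N (y : 𝓞 N)) *
      algebraMap (𝓞 N) N (y : 𝓞 N))) < 1 := by
    have hTx : T z * T (algebraMap (𝓞 N) N (y : 𝓞 N)) = T (algebraMap (𝓞 N) N x) := by
      rw [← map_mul, hxy]
    have e : (T z - z) * (T (algebraMap (𝓞 N) N (y : 𝓞 N)) * algebraMap (𝓞 N) N (y : 𝓞 N)) =
        (T (algebraMap (𝓞 N) N x) - algebraMap (𝓞 N) N x) * algebraMap (𝓞 N) N (y : 𝓞 N) -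
          algebraMap (𝓞 N) N x * (T (algebraMap (𝓞 N) N (y : 𝓞 N)) -
            algebraMap (𝓞 N) N (y : 𝓞 N)) := by
      rw [← hTx, ← hxy]
      ring
    rw [e]
    refine lt_of_le_of_lt (Valuation.map_sub _ _ _) (max_lt ?_ ?_)
    · rw [map_mul, hy1, mul_one]
      exact hint x
    · rw [map_mul]
      exact lt_of_le_of_lt (mul_le_of_le_one_left' hx1) (hint y)
  rw [map_mul, map_mul, hTy, hy1, mul_one, mul_one] at key
  exact key

end H19X
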