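import Mathlib
import Pool.Agent.Lib.H19X.N2
import Pool.Agent.Lib.H13E.Q1

open NumberField IsDedekindDomain

namespace H19X

open H55B H55C H55E

/-! Chunk Q0 (M): K = K₀(sqrt -3), N₀ = K₀(cbrt 2), N = K(cbrt 2). iota: φ o cmap o φ₀.symm. c on N: the ring homomorphism
Cub K -> Cub K, a + b T + c T^2 -> c(a) + c(b) T + c(c) T^2 (cmap of the automorphism c of H13E.exists_c), transported by φ.
Fixed points: coordinates fixed by c, so in K₀. norm: norm_co (the norm is a polynomial in the coordinates).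
hasT: the field N is N₀(om): z = iota a + iota b * om (quad_span for the coordinates). -/

variable {K₀ K N₀ N : Type} [Field K₀] [NumberField K₀] [Field K] [NumberField K] [Algebra F K]
  [Algebra K₀ K] [Field N₀] [NumberField N₀] [Algebra K₀ N₀] [Field N] [NumberField N] [Algebra K N]
  (φ₀ : Cub K₀ ≃ₐ[K₀] N₀) (φ : Cub K ≃ₐ[K] N)

/-- The data of the square of fields K₀, K, N₀, N. -/
structure Sq (ι : N₀ →+* N) (cK : K ≃ₐ[K₀] K) (c : N ≃+* N) : Prop where
  base : ∀ x : K₀, ι (algebraMap K₀ N₀ x) = algebraMap K N (algebraMap K₀ K x)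
  map_th : ι (th φ₀) = th φ
  map_cub : ∀ m : Cub K₀, ι (φ₀ m) = φ (cmap (algebraMap K₀ K) m)
  conj_O : ∀ x : O, cK (algebraMap O K x) = algebraMap O K (cj x)
  conj_K : ∀ x : K, c (algebraMap K N x) = algebraMap K N (cK x)
  conj_th : c (th φ) = th φ
  conj_conj : ∀ z, c (c z) = z
  fixK : ∀ z : K, cK z = z → ∃ x : K₀, algebraMap K₀ K x = z
  fixN : ∀ z : N, c z = z ↔ ∃ x : N₀, ι x = z
  norm : ∀ z : N, Algebra.norm K (c z) = cK (Algebra.norm K z)
  norm0 : ∀ z : N₀, Algebra.norm K (ι z) = algebraMap K₀ K (Algebra.norm K₀ z)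
  span : ∀ z : N, ∃ a b : N₀, z = ι a + ι b * algebraMap K N (algebraMap O K om)

theorem Q0_cmap_of {k k' : Type} [Field k] [Field k'] (f : k →+* k') (z : k) :
    cmap f (AdjoinRoot.of _ z) = AdjoinRoot.of _ (f z) := AdjoinRoot.map_of _ _ _ _ z

theorem Q0_cmap_root {k k' : Type} [Field k] [Field k'] (f : k →+* k') :
    cmap f (AdjoinRoot.root _) = AdjoinRoot.root _ := AdjoinRoot.map_root _ _ _ _

/-- the map induced on the cubic extension fields -/
noncomputable def Q0_map (f : K₀ →+* K) : N₀ →+* N :=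
  ((φ : Cub K ≃+* N) : Cub K →+* N).comp ((cmap f).comp ((φ₀.symm : N₀ ≃+* Cub K₀) : N₀ →+* Cub K₀))

omit [NumberField K₀] [NumberField K] [Algebra F K] [Algebra K₀ K] [NumberField N₀] [NumberField N] in
theorem Q0_map_alg (f : K₀ →+* K) (x : K₀) :
    Q0_map φ₀ φ f (algebraMap K₀ N₀ x) = algebraMap K N (f x) := by
  change φ (cmap f (φ₀.symm (algebraMap K₀ N₀ x))) = _
  rw [AlgEquiv.commutes]
  have h1 : algebraMap K₀ (Cub K₀) x = AdjoinRoot.of _ x := rfl
  rw [h1, Q0_cmap_of]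
  exact φ.commutes (f x)

omit [NumberField K₀] [NumberField K] [Algebra F K] [Algebra K₀ K] [NumberField N₀] [NumberField N] in
theorem Q0_map_th (f : K₀ →+* K) : Q0_map φ₀ φ f (th φ₀) = th φ := by
  change φ (cmap f (φ₀.symm (φ₀ (AdjoinRoot.root _)))) = _
  rw [AlgEquiv.symm_apply_apply, Q0_cmap_root]

omit [NumberField K₀] [NumberField K] [Algebra F K] [Algebra K₀ K] [NumberField N₀] [NumberField N] in
theorem Q0_map_co (f : K₀ →+* K) (a b c : K₀) :
    Q0_map φ₀ φ f (algebraMap K₀ N₀ a + algebraMap K₀ N₀ b * th φ₀ + algebraMap K₀ N₀ c * th φ₀ ^ 2) =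
      algebraMap K N (f a) + algebraMap K N (f b) * th φ + algebraMap K N (f c) * th φ ^ 2 := by
  simp only [map_add, map_mul, map_pow, Q0_map_alg, Q0_map_th]

theorem exists_sq (hQ : H13E.Quad K₀ K) :
    ∃ (ι : N₀ →+* N) (cK : K ≃ₐ[K₀] K) (c : N ≃+* N), Sq φ₀ φ ι cK c := by
  obtain ⟨cK, hc1, hcO, hcc, hcall, hcfix⟩ := H13E.exists_c hQ
  have hCC : ∀ z : N, Q0_map φ φ (cK : K →+* K) (Q0_map φ φ (cK : K →+* K) z) = z := by
    intro z
    obtain ⟨a, b, c, rfl⟩ := span_co φ z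
    rw [Q0_map_co, Q0_map_co]
    simp only [RingHom.coe_coe, hcc]
  obtain ⟨c, hc⟩ : ∃ c : N ≃+* N, ∀ z, c z = Q0_map φ φ (cK : K →+* K) z :=
    ⟨RingEquiv.ofRingHom (Q0_map φ φ (cK : K →+* K)) (Q0_map φ φ (cK : K →+* K))
      (RingHom.ext hCC) (RingHom.ext hCC), fun _ => rfl⟩
  have hcco : ∀ a b d : K, c (algebraMap K N a + algebraMap K N b * th φ + algebraMap K N d * th φ ^ 2) =
      algebraMap K N (cK a) + algebraMap K N (cK b) * th φ + algebraMap K N (cK d) * th φ ^ 2 := by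
    intro a b d
    rw [hc, Q0_map_co]
    rfl
  refine ⟨Q0_map φ₀ φ (algebraMap K₀ K), cK, c, ?_⟩
  exact {
    base := fun x => Q0_map_alg φ₀ φ _ x
    map_th := Q0_map_th φ₀ φ _
    map_cub := by
      intro m
      change φ (cmap (algebraMap K₀ K) (φ₀.symm (φ₀ m))) = _
      rw [AlgEquiv.symm_apply_apply]
    conj_O := hcO
    conj_K := by
      intro x
      rw [hc, Q0_map_alg]
      rfl
    conj_th := by
      rw [hc, Q0_map_th]
    conj_conj := by
      intro z
      rw [hc, hc]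
      exact hCC z
    fixK := hcfix
    fixN := by
      intro z
      constructor
      · intro hz
        obtain ⟨a, b, d, rfl⟩ := span_co φ z
        rw [hcco] at hz
        obtain ⟨h1, h2, h3⟩ := indep_co φ (cK a - a) (cK b - b) (cK d - d) (by
          rw [map_sub, map_sub, map_sub]
          linear_combination hz)
        obtain ⟨a', rfl⟩ := hcfix a (sub_eq_zero.1 h1)
        obtain ⟨b', rfl⟩ := hcfix b (sub_eq_zero.1 h2)
        obtain ⟨d', rfl⟩ := hcfix d (sub_eq_zero.1 h3)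
        exact ⟨_, Q0_map_co φ₀ φ _ a' b' d'⟩
      · rintro ⟨x, rfl⟩
        obtain ⟨a, b, d, rfl⟩ := span_co φ₀ x
        rw [Q0_map_co, hcco, AlgEquiv.commutes, AlgEquiv.commutes, AlgEquiv.commutes]
    norm := by
      intro z
      obtain ⟨a, b, d, rfl⟩ := span_co φ z
      rw [hcco, norm_co, norm_co]
      simp only [map_add, map_sub, map_mul, map_pow, map_ofNat]
    norm0 := by
      intro z
      obtain ⟨a, b, d, rfl⟩ := span_co φ₀ z
      rw [Q0_map_co, norm_co, norm_co]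
      simp only [map_add, map_sub, map_mul, map_pow, map_ofNat]
    span := by
      intro z
      obtain ⟨a, b, d, rfl⟩ := span_co φ z
      obtain ⟨a1, a2, ha⟩ := H13E.quad_span hQ a
      obtain ⟨b1, b2, hb⟩ := H13E.quad_span hQ b
      obtain ⟨d1, d2, hd⟩ := H13E.quad_span hQ d
      refine ⟨algebraMap K₀ N₀ a1 + algebraMap K₀ N₀ b1 * th φ₀ + algebraMap K₀ N₀ d1 * th φ₀ ^ 2,
        algebraMap K₀ N₀ a2 + algebraMap K₀ N₀ b2 * th φ₀ + algebraMap K₀ N₀ d2 * th φ₀ ^ 2, ?_⟩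
      rw [Q0_map_co, Q0_map_co, ha, hb, hd]
      simp only [map_add, map_mul]
      ring }

end H19X
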