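import Mathlib
import Pool.Agent.Lib.H19X.Q0
import Pool.Agent.Lib.H55C.A14

open NumberField IsDedekindDomain

namespace H19X

open H55B H55C H55E

/-! Chunk Q1 (M): from N to N₀, algebra. cnd_mul, cnd_sq, cnd_c: closure properties of Cnd (compare cond_mul, cond_sq,
cond_act in H55C.A14; val_auto for c; conj_th). cnd_neg3: -3 = (2 om + 1)^2 is a square in N (cnd_sq).
desc: let m be as in the hypothesis, m1 = m c(m), c(m1) = m1, so m1 = iota x1.
Case A: x1 is not a square in N₀: m0 = x1; norm K₀ x1 = n₀^2: norm K (m c(m)) = n^2 cK(n)^2 = (n cK n)^2 and n cK(n) is fixed by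
cK, so it is in K₀ (norm0, injectivity).
Case B: x1 = y^2 in N₀. Then m c(m) = iota(y)^2. Put be = iota(y)/m: be c(be) = 1. Hilbert 90: there is g <> 0 in N with be = g/c(g)
(g = 1 + be if that is not 0: c(1 + be) be = be + 1; if be = -1 take g = 2 om + 1, c g = -g). Then c(m) = m be^2 and
c(m g^2) = m be^2 c(g)^2 = m g^2, so m g^2 = iota x0. x0 is not a square (m would be a square). norm K (iota x0) =
(n norm(g))^2 =: q^2, q in K, q^2 in K₀: cK(q) = q or -q. If cK(q) = q: q in K₀, m0 = x0. If cK(q) = -q: m0 = -3 x0,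
iota(m0) = iota(x0) (2 om + 1)^2, norm K₀ (-3 x0) = -27 q^2 = ((3 (2 om + 1) q))^2 and 3 (2 om + 1) q is fixed by cK. -/

variable {K₀ K N₀ N : Type} [Field K₀] [NumberField K₀] [Field K] [NumberField K] [Algebra F K]
  [Algebra K₀ K] [Field N₀] [NumberField N₀] [Algebra K₀ N₀] [Field N] [NumberField N] [Algebra K N]
  {φ₀ : Cub K₀ ≃ₐ[K₀] N₀} {φ : Cub K ≃ₐ[K] N} {ι : N₀ →+* N} {cK : K ≃ₐ[K₀] K} {c : N ≃+* N}

omit [Algebra F K] in
theorem Q1_theta (φ : Cub K ≃ₐ[K] N) (P : HeightOneSpectrum (𝓞 N)) :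
    P.valuation N (th φ ^ 2) ≤ 1 := by
  have h1 := th_cube φ
  have h2 : P.valuation N (2 : N) ≤ 1 := by
    have h4 : P.valuation N (algebraMap (𝓞 N) N 2) ≤ 1 := P.valuation_le_one (K := N) (2 : 𝓞 N)
    rwa [map_ofNat] at h4
  rw [← h1, map_pow] at h2
  rw [map_pow]
  have h3 : P.valuation N (th φ) ≤ 1 := by
    by_contra h
    rw [not_le] at h
    have h4 := one_lt_pow₀ h (n := 3) (by norm_num)
    exact absurd h2 (not_le.2 h4)
  exact pow_le_one' h3 2

omit [Algebra F K] in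
theorem cnd_mul {d : ℤ} {m m' : N} (h : Cnd d K N (th φ) m) (h' : Cnd d K N (th φ) m') :
    Cnd d K N (th φ) (m * m') where
  ne := mul_ne_zero h.ne h'.ne
  norm := by
    obtain ⟨n, hn⟩ := h.norm
    obtain ⟨n', hn'⟩ := h'.norm
    exact ⟨n * n', by rw [map_mul, hn, hn', mul_pow]⟩
  even := by
    intro P hP
    obtain ⟨k, hk⟩ := h.even P hP
    obtain ⟨k', hk'⟩ := h'.even P hP
    refine ⟨k + k', ?_⟩
    rw [map_mul, hk, hk', ← WithZero.exp_add]
    congr 1
    ring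
  two := by
    intro P hP
    obtain ⟨b, hb, hv⟩ := h.two P hP
    obtain ⟨b', hb', hv'⟩ := h'.two P hP
    refine ⟨b * b', mul_ne_zero hb hb', ?_⟩
    have hθ := Q1_theta φ P
    have e : m * m' / (b * b') ^ 2 - 1 =
        (m / b ^ 2 - 1) + ((m' / b' ^ 2 - 1) + (m / b ^ 2 - 1) * (m' / b' ^ 2 - 1)) := by
      field_simp
      ring
    rw [e]
    refine ((P.valuation N).map_add _ _).trans (max_le hv ?_)
    refine ((P.valuation N).map_add _ _).trans (max_le hv' ?_)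
    rw [map_mul]
    calc P.valuation N (m / b ^ 2 - 1) * P.valuation N (m' / b' ^ 2 - 1) ≤
        P.valuation N (th φ ^ 2) * 1 := mul_le_mul' hv (hv'.trans hθ)
      _ = _ := mul_one _

omit [Algebra F K] in
theorem cnd_sq {d : ℤ} {b : N} (hb : b ≠ 0) : Cnd d K N (th φ) (b ^ 2) where
  ne := pow_ne_zero 2 hb
  norm := ⟨Algebra.norm K b, by rw [map_pow]⟩
  even := by
    intro P _
    obtain ⟨k, hk⟩ := A14_exp P hb
    refine ⟨k, ?_⟩
    rw [pow_two, map_mul, hk, ← WithZero.exp_add]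
    congr 1
    ring
  two := by
    intro P _
    refine ⟨b, hb, ?_⟩
    rw [div_self (pow_ne_zero 2 hb), sub_self, map_zero]
    exact zero_le

theorem Q1_auto {N : Type} [Field N] [NumberField N] (ρ : N ≃+* N) (P : HeightOneSpectrum (𝓞 N)) :
    ∃ P' : HeightOneSpectrum (𝓞 N), (∀ z : N, P.valuation N (ρ z) = P'.valuation N z) ∧
      ∀ n : ℤ, ((n : 𝓞 N) ∈ P.asIdeal ↔ (n : 𝓞 N) ∈ P'.asIdeal) := by
  refine ⟨A14_cj ρ P, fun z => ?_, fun n => ?_⟩
  · obtain ⟨a, b, hb, hab⟩ := IsFractionRing.div_surjective (A := 𝓞 N) z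
    have hz : z = (a : N) / (b : N) := hab.symm
    rw [hz, map_div₀, map_div₀, map_div₀, A14_int, A14_int]
  · change _ ↔ (n : 𝓞 N) ∈ P.asIdeal.comap (RingOfIntegers.mapRingEquiv ρ : 𝓞 N →+* 𝓞 N)
    rw [Ideal.mem_comap, map_intCast]

theorem cnd_c (S : Sq φ₀ φ ι cK c) {d : ℤ} {m : N} (h : Cnd d K N (th φ) m) :
    Cnd d K N (th φ) (c m) where
  ne := (map_ne_zero_iff _ (RingEquiv.injective c)).2 h.ne
  norm := by
    obtain ⟨n, hn⟩ := h.norm
    exact ⟨cK n, by rw [S.norm, hn, map_pow]⟩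
  even := by
    intro P hP
    obtain ⟨P', hP', h2⟩ := Q1_auto c P
    obtain ⟨k, hk⟩ := h.even P' (fun h3 => hP ((h2 _).2 h3))
    exact ⟨k, by rw [hP', hk]⟩
  two := by
    intro P hP
    obtain ⟨P', hP', h2⟩ := Q1_auto c P
    have h3 := (h2 2).1 (by rw [Int.cast_ofNat]; exact hP)
    rw [Int.cast_ofNat] at h3
    obtain ⟨b, hb, hv⟩ := h.two P' h3
    refine ⟨c b, (map_ne_zero_iff _ (RingEquiv.injective c)).2 hb, ?_⟩
    have e : c m / c b ^ 2 - 1 = c (m / b ^ 2 - 1) := by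
      rw [map_sub, map_div₀, map_pow, map_one]
    have e2 : th φ ^ 2 = c (th φ ^ 2) := by
      rw [map_pow, S.conj_th]
    rw [e, e2, hP', hP']
    exact hv

theorem Q1_cc (S : Sq φ₀ φ ι cK c) (x : K) : cK (cK x) = x := by
  have h := S.conj_conj (algebraMap K N x)
  rw [S.conj_K, S.conj_K] at h
  exact (algebraMap K N).injective h

theorem Q1_r (S : Sq φ₀ φ ι cK c) : ∃ r : K, r ^ 2 = -3 ∧ cK r = -r ∧ r ≠ 0 := by
  have h1 : (algebraMap O K om) ^ 2 + algebraMap O K om + 1 = 0 := by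
    rw [← map_pow, ← map_add, ← map_one (algebraMap O K), ← map_add, om_rel, map_zero]
  have h2 : cK (algebraMap O K om) = (algebraMap O K om) ^ 2 := by
    rw [S.conj_O, cj_om, map_pow]
  refine ⟨2 * algebraMap O K om + 1, ?_, ?_, ?_⟩
  · linear_combination 4 * h1
  · rw [map_add, map_mul, h2, map_one, map_ofNat]
    linear_combination 2 * h1
  · intro h
    have h3 : (2 * algebraMap O K om + 1) ^ 2 = (-3 : K) := by linear_combination 4 * h1
    rw [h] at h3
    norm_num at h3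

theorem desc (S : Sq φ₀ φ ι cK c) (d : ℤ) (m : N) (hm : Cnd d K N (th φ) m)
    (hns : ¬ ∃ b : N, m = b ^ 2) :
    ∃ m0 : N₀, Cnd d K N (th φ) (ι m0) ∧ (¬ ∃ b : N₀, m0 = b ^ 2) ∧
      ∃ n : K₀, Algebra.norm K₀ m0 = n ^ 2 := by
  have hm0 := hm.ne
  have hcm := cnd_c S hm
  have hcm0 := hcm.ne
  obtain ⟨n, hn⟩ := hm.norm
  have hinj : Function.Injective (algebraMap K₀ K) := (algebraMap K₀ K).injective
  obtain ⟨x1, hx1⟩ := (S.fixN (m * c m)).1 (by rw [map_mul, S.conj_conj, mul_comm])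
  by_cases hsq : ∃ y : N₀, x1 = y ^ 2
  swap
  · refine ⟨x1, ?_, hsq, ?_⟩
    · rw [hx1]
      exact cnd_mul hm hcm
    · obtain ⟨x, hx⟩ := S.fixK (n * cK n) (by rw [map_mul, Q1_cc S, mul_comm])
      refine ⟨x, hinj ?_⟩
      rw [← S.norm0, hx1, map_mul, S.norm, hn, map_pow, map_pow, hx, mul_pow]
  · obtain ⟨y, rfl⟩ := hsq
    rw [map_pow] at hx1
    obtain ⟨r, hr2, hcr, hr0⟩ := Q1_r S
    have hcy : c (ι y) = ι y := (S.fixN (ι y)).2 ⟨y, rfl⟩
    have hbe : (ι y / m) * c (ι y / m) = 1 := by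
      rw [map_div₀, hcy, div_mul_div_comm, ← pow_two, hx1]
      exact div_self (mul_ne_zero hm0 hcm0)
    obtain ⟨g, hg0, hg⟩ : ∃ g : N, g ≠ 0 ∧ (ι y / m) * c g = g := by
      by_cases h1 : 1 + ι y / m = 0
      · refine ⟨algebraMap K N r, ?_, ?_⟩
        · rw [Ne, map_eq_zero]
          exact hr0
        · rw [S.conj_K, hcr, map_neg]
          linear_combination (-(algebraMap K N r)) * h1
      · refine ⟨1 + ι y / m, h1, ?_⟩
        rw [map_add, map_one]
        linear_combination hbe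
    have hcg0 : c g ≠ 0 := (map_ne_zero_iff _ (RingEquiv.injective c)).2 hg0
    have hfix : c (m * g ^ 2) = m * g ^ 2 := by
      have h3 : m * g ^ 2 = c m * c g ^ 2 := by
        calc m * g ^ 2 = m * ((ι y / m) * c g) ^ 2 := by rw [hg]
          _ = (ι y ^ 2 / m) * c g ^ 2 := by field_simp
          _ = c m * c g ^ 2 := by
              rw [hx1]
              field_simp
      rw [map_mul, map_pow, ← h3]
    obtain ⟨x0, hx0⟩ := (S.fixN (m * g ^ 2)).1 hfix
    have hCx0 : Cnd d K N (th φ) (ι x0) := by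
      rw [hx0]
      exact cnd_mul hm (cnd_sq hg0)
    obtain ⟨q, hq⟩ : ∃ q, q = n * Algebra.norm K g := ⟨_, rfl⟩
    have hqn : algebraMap K₀ K (Algebra.norm K₀ x0) = q ^ 2 := by
      rw [← S.norm0, hx0, map_mul, map_pow, hn, hq, mul_pow]
    have hqq : cK q ^ 2 = q ^ 2 := by
      rw [← map_pow, ← hqn]
      exact cK.commutes _
    rcases sq_eq_sq_iff_eq_or_eq_neg.1 hqq with h4 | h4
    · refine ⟨x0, hCx0, ?_, ?_⟩
      · rintro ⟨z, rfl⟩
        apply hns
        refine ⟨ι z / g, ?_⟩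
        rw [div_pow, ← map_pow, hx0]
        field_simp
      · obtain ⟨x, hx⟩ := S.fixK q h4
        refine ⟨x, hinj ?_⟩
        rw [hqn, map_pow, hx]
    · have hr2N : (algebraMap K N r) ^ 2 = -3 := by
        rw [← map_pow, hr2, map_neg, map_ofNat]
      have hrN0 : algebraMap K N r ≠ 0 := by
        rw [Ne, map_eq_zero]
        exact hr0
      refine ⟨-3 * x0, ?_, ?_, ?_⟩
      · have e : ι (-3 * x0) = (algebraMap K N r) ^ 2 * ι x0 := by
          rw [map_mul, map_neg, map_ofNat, hr2N]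
        rw [e]
        exact cnd_mul (cnd_sq hrN0) hCx0
      · rintro ⟨z, hz⟩
        apply hns
        refine ⟨ι z / (g * algebraMap K N r), ?_⟩
        rw [div_pow, ← map_pow, ← hz, mul_pow, hr2N, map_mul, map_neg, map_ofNat, hx0]
        field_simp
      · obtain ⟨x, hx⟩ := S.fixK (3 * r * q) (by
          rw [map_mul, map_mul, hcr, h4, map_ofNat]
          ring)
        refine ⟨x, hinj ?_⟩
        have e3 : Algebra.norm K₀ (-3 : N₀) = (-3) ^ 3 := by
          have e4 : (-3 : N₀) = algebraMap K₀ N₀ (-3) := by rw [map_neg, map_ofNat]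
          rw [e4, Algebra.norm_algebraMap, rank_three φ₀]
        rw [map_mul, e3, map_mul, hqn, map_pow, map_pow, hx, map_neg, map_ofNat, mul_pow, mul_pow, hr2]
        ring

end H19X
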