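import Mathlib
import Pool.Agent.Lib.H55B.D1
import Pool.Agent.Lib.H55C.W8
import Pool.Agent.Lib.H55E.Defs

open NumberField IsDedekindDomain

namespace H19X

open H55B H55C H55E

/-! Chunk Va (M): an element with prescribed valuations at finitely many primes. exists_val: for a finite set S of
primes of N and integers k(P) there is b with v_P(b) = exp(-k(P)) for P in S: choose pi_P in P, not in P^2, and
not in the other Q in S (Chinese remainder theorem for the ideals P^2 and Q, Q in S), b = product of pi_P^k(P).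
exists_half: S = the primes above w (finite: they contain a fixed nonzero element of 𝓞 K), k(P) = - half of the
exponent of v_P(z). -/

theorem Va_unif {N : Type} [Field N] [NumberField N] (S : Finset (HeightOneSpectrum (𝓞 N)))
    (P : HeightOneSpectrum (𝓞 N)) (hP : P ∈ S) :
    ∃ y : 𝓞 N, P.valuation N (algebraMap (𝓞 N) N y) = WithZero.exp (-1 : ℤ) ∧
      ∀ Q ∈ S, Q ≠ P → Q.valuation N (algebraMap (𝓞 N) N y) = 1 := by
  classical
  obtain ⟨π, hπ⟩ := P.intValuation_exists_uniformizer
  obtain ⟨y, hy⟩ := IsDedekindDomain.exists_forall_sub_mem_ideal (s := S)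
    (fun Q : HeightOneSpectrum (𝓞 N) => Q.asIdeal) (fun _ => 2) (fun Q _ => Q.prime)
    (fun Q _ Q' _ h h' => h (HeightOneSpectrum.ext h')) (fun Q => if Q.1 = P then π else 1)
  refine ⟨y, ?_, ?_⟩
  · have h1 := hy P hP
    simp only [if_true] at h1
    rw [← P.intValuation_le_pow_iff_mem] at h1
    rw [HeightOneSpectrum.valuation_of_algebraMap]
    have h2 : P.intValuation (y - π) < P.intValuation π := by
      refine h1.trans_lt ?_
      rw [hπ, WithZero.exp_lt_exp]
      norm_num
    have h3 := Valuation.map_add_eq_of_lt_left P.intValuation h2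
    rw [add_sub_cancel] at h3
    rw [h3, hπ]
  · intro Q hQ hne
    have h1 := hy Q hQ
    simp only [if_neg hne] at h1
    rw [← Q.intValuation_le_pow_iff_mem] at h1
    rw [HeightOneSpectrum.valuation_of_algebraMap]
    have h2 : Q.intValuation (y - 1) < Q.intValuation 1 := by
      refine h1.trans_lt ?_
      rw [map_one, ← WithZero.exp_zero, WithZero.exp_lt_exp]
      norm_num
    have h3 := Valuation.map_add_eq_of_lt_left Q.intValuation h2
    rw [add_sub_cancel] at h3
    rw [h3, map_one]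

theorem exists_val {N : Type} [Field N] [NumberField N] (S : Finset (HeightOneSpectrum (𝓞 N)))
    (k : HeightOneSpectrum (𝓞 N) → ℤ) :
    ∃ b : N, b ≠ 0 ∧ ∀ P ∈ S, P.valuation N b = WithZero.exp (k P) := by
  classical
  choose y hy1 hy2 using fun (P : HeightOneSpectrum (𝓞 N)) (hP : P ∈ S) => Va_unif S P hP
  refine ⟨∏ P : S, (algebraMap (𝓞 N) N (y P.1 P.2)) ^ (-(k P.1)), ?_, ?_⟩
  · rw [Finset.prod_ne_zero_iff]
    intro P _
    apply zpow_ne_zero
    intro h0
    have h1 := hy1 P.1 P.2
    rw [h0, map_zero] at h1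
    exact WithZero.exp_ne_zero h1.symm
  · intro Q hQ
    rw [map_prod, Finset.prod_eq_single (⟨Q, hQ⟩ : S)]
    · rw [map_zpow₀, hy1 Q hQ, ← WithZero.exp_zsmul]
      congr 1
      simp
    · intro P _ hne
      rw [map_zpow₀, hy2 P.1 P.2 Q hQ (fun h => hne (Subtype.ext h.symm)), one_zpow]
    · intro h
      exact absurd (Finset.mem_univ _) h

theorem Va_finite {K N : Type} [Field K] [NumberField K] [Field N] [NumberField N] [Algebra K N]
    (w : HeightOneSpectrum (𝓞 K)) :
    {P : HeightOneSpectrum (𝓞 N) | w.asIdeal = P.asIdeal.under (𝓞 K)}.Finite := by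
  obtain ⟨a, ha, ha0⟩ := Submodule.exists_mem_ne_zero_of_ne_bot w.ne_bot
  have h0 : algebraMap (𝓞 K) (𝓞 N) a ≠ 0 := by
    rw [Ne, FaithfulSMul.algebraMap_eq_zero_iff]
    exact ha0
  have h1 : Ideal.span {algebraMap (𝓞 K) (𝓞 N) a} ≠ 0 := by
    rw [Ne, Ideal.zero_eq_bot, Ideal.span_singleton_eq_bot]
    exact h0
  refine (Ideal.finite_factors h1).subset ?_
  intro P hP
  rw [Set.mem_ofPred_eq] at hP ⊢
  rw [Ideal.dvd_span_singleton]
  rw [hP] at ha
  exact ha

theorem exists_half {K N : Type} [Field K] [NumberField K] [Field N] [NumberField N] [Algebra K N]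
    (w : HeightOneSpectrum (𝓞 K)) (z : N) (hz : z ≠ 0)
    (he : ∀ P : HeightOneSpectrum (𝓞 N), w.asIdeal = P.asIdeal.under (𝓞 K) →
      ∃ k : ℤ, P.valuation N z = WithZero.exp (2 * k)) :
    ∃ b : N, b ≠ 0 ∧ ∀ P : HeightOneSpectrum (𝓞 N), w.asIdeal = P.asIdeal.under (𝓞 K) →
      P.valuation N (z / b ^ 2) = 1 := by
  classical
  choose k hk using he
  obtain ⟨b, hb0, hb⟩ := exists_val (Va_finite (N := N) w).toFinset
    (fun P => if h : w.asIdeal = P.asIdeal.under (𝓞 K) then k P h else 0)
  refine ⟨b, hb0, ?_⟩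
  intro P hP
  have h1 := hb P ((Set.Finite.mem_toFinset _).2 hP)
  rw [dif_pos hP] at h1
  rw [map_div₀, map_pow, h1, hk P hP, ← WithZero.exp_nsmul, nsmul_eq_mul, Nat.cast_ofNat]
  exact div_self WithZero.exp_ne_zero

end H19X
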