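import Mathlib
import Pool.Agent.Lib.H19X.LG2
import Pool.Agent.Lib.H19X.Tr
import Pool.Agent.Lib.H19X.Va
import Pool.Agent.Lib.H16A.C3

open NumberField IsDedekindDomain

namespace H19X

open H55B H55C H55E

/-! Chunk LG3 (M/L): good places. loc_unit': z and z^(-1) have coordinates of valuation <= 1 at w (coords_int), so they are
images of elements of (integers of K_w)[T]/(T^3 - 2), inverse to each other. 2 and d are units at w, so
(integers)[X]/(X^3 + 16 d^3) is isomorphic to it (X = -2dT), and the disc of EC d, -27 * 256 d^6, is a unit. So the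
image of z in Cub(K_w) is tau (uMap u) with u a unit of (EC d).Alg (integers of K_w). Its norm is n^2
(norm commutes with base change: A18_norm or H16A.H5 norm_algMap; tau is an algebra isomorphism). H16A.loc_unit (C3) gives
uMap u in imSub, loc_of_imSub (LG2) gives the claim.
loc_good: even valuations: exists_half (Va): m = b^2 z with z as before (norm z = (n/norm b)^2), loc_mul_sq. -/

theorem LG3_gen {O L : Type} [CommRing O] [IsDomain O] [IsDiscreteValuationRing O] [Field L] [CharZero L]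
    [Algebra O L] [IsFractionRing O L] [IsAdicComplete (IsLocalRing.maximalIdeal O) O]
    [Finite (IsLocalRing.ResidueField O)] (d : ℤ) (hd : d ≠ 0) (h6 : IsUnit ((6 * d : ℤ) : O)) (a b c n' : O)
    (hn' : (a ^ 3 + 2 * b ^ 3 + 4 * c ^ 3 - 6 * a * b * c) * n' = 1) (n : L)
    (hn : algebraMap O L (a ^ 3 + 2 * b ^ 3 + 4 * c ^ 3 - 6 * a * b * c) = n ^ 2)
    (hone : LocImd d L 1) :
    LocImd d L (AdjoinRoot.of _ (algebraMap O L a) + AdjoinRoot.of _ (algebraMap O L b) * AdjoinRoot.root _ +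
      AdjoinRoot.of _ (algebraMap O L c) * AdjoinRoot.root _ ^ 2) := by
  have h6' : IsUnit ((2 : O) * (3 * (d : O))) := by
    have e : ((6 * d : ℤ) : O) = (2 : O) * (3 * (d : O)) := by
      push_cast
      ring
    rwa [e] at h6
  have hu2 : IsUnit (2 : O) := isUnit_of_mul_isUnit_left h6'
  have h3d := isUnit_of_mul_isUnit_right h6'
  have hu3 : IsUnit (3 : O) := isUnit_of_mul_isUnit_left h3d
  have hud : IsUnit (d : O) := isUnit_of_mul_isUnit_right h3d
  have hdisc : IsUnit (((EC d).disc : ℤ) : O) := by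
    have e1 : (EC d).disc = -(3 ^ 3 * 2 ^ 8) * d ^ 6 := by
      unfold EC H16A.Cub.disc
      ring
    rw [e1]
    have e2 : ((-(3 ^ 3 * 2 ^ 8) * d ^ 6 : ℤ) : O) = -((3 : O) ^ 3 * (2 : O) ^ 8) * (d : O) ^ 6 := by
      push_cast
      ring
    rw [e2]
    exact (((hu3.pow 3).mul (hu2.pow 8)).neg).mul (hud.pow 6)
  obtain ⟨δ, hδ⟩ := (hu2.mul hud).exists_right_inv
  obtain ⟨τ, hτ, -⟩ := exists_tau L d hd
  -- the element of the algebra over O
  have hth : (EC d).th O ^ 3 + 16 * algebraMap O ((EC d).Alg O) (d : O) ^ 3 = 0 := by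
    have h := (EC d).c3_th (R := O)
    have e1 : (((EC d).a : ℤ) : (EC d).Alg O) = 0 := by
      change ((0 : ℤ) : (EC d).Alg O) = 0
      exact Int.cast_zero
    have e2 : (((EC d).b : ℤ) : (EC d).Alg O) = 0 := by
      change ((0 : ℤ) : (EC d).Alg O) = 0
      exact Int.cast_zero
    have e3 : (((EC d).c : ℤ) : (EC d).Alg O) = 16 * algebraMap O ((EC d).Alg O) (d : O) ^ 3 := by
      change ((16 * d ^ 3 : ℤ) : (EC d).Alg O) = _
      rw [map_intCast]
      push_cast
      ring
    rw [e1, e2, e3] at h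
    linear_combination h
  have hδ' : 2 * algebraMap O ((EC d).Alg O) (d : O) * algebraMap O ((EC d).Alg O) δ = 1 := by
    have h := congrArg (algebraMap O ((EC d).Alg O)) hδ
    rw [map_mul, map_mul, map_one, map_ofNat] at h
    exact h
  set al := algebraMap O ((EC d).Alg O) with hal
  set T : (EC d).Alg O := -(al δ * (EC d).th O) with hT
  have hT3 : T ^ 3 = 2 := by
    rw [hT]
    linear_combination (-(al δ) ^ 3) * hth + 2 * ((2 * al (d : O) * al δ) ^ 2 + (2 * al (d : O) * al δ) + 1) * hδ'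
  have hnn : (al a ^ 3 + 2 * al b ^ 3 + 4 * al c ^ 3 - 6 * al a * al b * al c) * al n' = 1 := by
    have h := congrArg al hn'
    simpa only [map_mul, map_sub, map_add, map_pow, map_one, map_ofNat] using h
  have huu : (al a + al b * T + al c * T ^ 2) * (al n' * ((al a ^ 2 - 2 * al b * al c) +
      (2 * al c ^ 2 - al a * al b) * T + (al b ^ 2 - al a * al c) * T ^ 2)) = 1 := by
    linear_combination hnn + al n' * (al b ^ 3 + 2 * al c ^ 3 - 2 * al a * al b * al c +
      (al b ^ 2 * al c - al a * al c ^ 2) * T) * hT3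
  obtain ⟨u, hu⟩ : ∃ u : ((EC d).Alg O)ˣ, (u : (EC d).Alg O) = al a + al b * T + al c * T ^ 2 :=
    ⟨Units.mkOfMulEqOne _ _ huu, rfl⟩
  have hval : τ (((EC d).uMap (algebraMap O L) u : ((EC d).Alg L)ˣ) : (EC d).Alg L) =
      AdjoinRoot.of _ (algebraMap O L a) + AdjoinRoot.of _ (algebraMap O L b) * AdjoinRoot.root _ +
      AdjoinRoot.of _ (algebraMap O L c) * AdjoinRoot.root _ ^ 2 := by
    have e1 : (((EC d).uMap (algebraMap O L) u : ((EC d).Alg L)ˣ) : (EC d).Alg L) =
        (EC d).algMap (algebraMap O L) (u : (EC d).Alg O) := rfl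
    have e2 : ∀ r : O, τ ((EC d).algMap (algebraMap O L) (al r)) = AdjoinRoot.of _ (algebraMap O L r) := by
      intro r
      rw [hal, (EC d).c3_algMap_al]
      exact τ.commutes _
    have e3 : τ ((EC d).algMap (algebraMap O L) T) = AdjoinRoot.root _ := by
      rw [hT, map_neg, map_neg, map_mul, map_mul, e2, (EC d).c3_algMap_th, hτ]
      have h := congrArg (fun r : O => (AdjoinRoot.of (Polynomial.X ^ 3 - Polynomial.C 2 : Polynomial L)) (algebraMap O L r)) hδ
      simp only [map_mul, map_one, map_ofNat, map_intCast] at h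
      linear_combination (AdjoinRoot.root (Polynomial.X ^ 3 - Polynomial.C 2 : Polynomial L)) * h
    rw [e1, hu]
    simp only [map_add, map_mul, map_pow, e2, e3]
  rw [← hval]
  refine LG2_gen L d hd τ hτ hone _ ?_
  refine H16A.Cub.loc_unit (EC d) hu2 hdisc u ?_
  rw [← Algebra.norm_eq_of_algEquiv τ, hval, A18_norm]
  refine ⟨n, ?_⟩
  rw [← sq, ← hn]
  simp only [map_mul, map_sub, map_add, map_pow, map_ofNat]

variable {K N : Type} [Field K] [NumberField K] [Field N] [NumberField N] [Algebra K N]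
  (φ : Cub K ≃ₐ[K] N)

theorem LG3_above (w : HeightOneSpectrum (𝓞 K)) :
    ∃ P : HeightOneSpectrum (𝓞 N), w.asIdeal = P.asIdeal.under (𝓞 K) := by
  have := w.isMaximal
  obtain ⟨Q, hQ, hQw⟩ := Ideal.exists_ideal_over_maximal_of_isIntegral (S := 𝓞 N) w.asIdeal (by
    rw [(RingHom.injective_iff_ker_eq_bot _).1 (FaithfulSMul.algebraMap_injective (𝓞 K) (𝓞 N))]
    exact bot_le)
  refine ⟨⟨Q, hQ.isPrime, ?_⟩, hQw.symm⟩
  rintro rfl
  apply w.ne_bot
  rw [← hQw, eq_bot_iff]
  intro x hx
  rw [Ideal.mem_comap, Ideal.mem_bot] at hx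
  exact (map_eq_zero_iff _ (FaithfulSMul.algebraMap_injective (𝓞 K) (𝓞 N))).1 hx

theorem LG3_repr (z : N) (a b c : K)
    (h : z = algebraMap K N a + algebraMap K N b * th φ + algebraMap K N c * th φ ^ 2) :
    φ.symm z = AdjoinRoot.of _ a + AdjoinRoot.of _ b * AdjoinRoot.root _ +
      AdjoinRoot.of _ c * AdjoinRoot.root _ ^ 2 := by
  have h1 : ∀ r : K, φ.symm (algebraMap K N r) = AdjoinRoot.of _ r := fun r => φ.symm.commutes r
  have h2 : φ.symm (th φ) = AdjoinRoot.root _ := φ.symm_apply_apply _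
  rw [h]
  simp only [map_add, map_mul, map_pow, h1, h2]

theorem loc_unit' (w : HeightOneSpectrum (𝓞 K)) (d : ℤ) (h6 : ((6 * d : ℤ) : 𝓞 K) ∉ w.asIdeal)
    (z : N) (hz : ∀ P : HeightOneSpectrum (𝓞 N), w.asIdeal = P.asIdeal.under (𝓞 K) →
      P.valuation N z = 1) (n : K) (hn : Algebra.norm K z = n ^ 2) :
    LocImd d (w.adicCompletion K) (cmap (algebraMap K (w.adicCompletion K)) (φ.symm z)) := by
  have hd : d ≠ 0 := by
    rintro rfl
    apply h6
    rw [mul_zero, Int.cast_zero]
    exact w.asIdeal.zero_mem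
  have h6' : (6 : 𝓞 K) ∉ w.asIdeal := by
    intro h
    apply h6
    rw [Int.cast_mul, Int.cast_ofNat]
    exact w.asIdeal.mul_mem_right _ h
  obtain ⟨P0, hP0⟩ := LG3_above (N := N) w
  have hz0 : z ≠ 0 := by
    rintro rfl
    have := hz P0 hP0
    rw [map_zero] at this
    exact zero_ne_one this
  obtain ⟨a, b, c, ha, hb, hc, habc⟩ := coords_int φ w h6' z (fun P hP => (hz P hP).le)
  obtain ⟨a', b', c', ha', hb', hc', habc'⟩ := coords_int φ w h6' z⁻¹ (fun P hP => by
    rw [map_inv₀, hz P hP, inv_one])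
  have hr := LG3_repr φ z a b c habc
  have hr' := LG3_repr φ z⁻¹ a' b' c' habc'
  have hN := A18_norm K a b c
  rw [← hr] at hN
  have hN' := A18_norm K a' b' c'
  rw [← hr'] at hN'
  have hprod : (a ^ 3 + 2 * b ^ 3 + 4 * c ^ 3 - 6 * a * b * c) *
      (a' ^ 3 + 2 * b' ^ 3 + 4 * c' ^ 3 - 6 * a' * b' * c') = 1 := by
    rw [← hN, ← hN', ← map_mul, ← map_mul, mul_inv_cancel₀ hz0, map_one, map_one]
  have hn2 : a ^ 3 + 2 * b ^ 3 + 4 * c ^ 3 - 6 * a * b * c = n ^ 2 := by
    rw [← hN, ← hn]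
    exact Algebra.norm_eq_of_algEquiv φ.symm z
  have : CharZero (w.adicCompletion K) :=
    charZero_of_injective_algebraMap (algebraMap K (w.adicCompletion K)).injective
  have hac : IsAdicComplete (IsLocalRing.maximalIdeal (w.adicCompletionIntegers K))
    (w.adicCompletionIntegers K) := H16A.isAdicComplete_integers w
  have hfr : Finite (IsLocalRing.ResidueField (w.adicCompletionIntegers K)) := H16A.finite_residueField w
  have lift : ∀ x : K, w.valuation K x ≤ 1 → ∃ X : w.adicCompletionIntegers K,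
      algebraMap (w.adicCompletionIntegers K) (w.adicCompletion K) X = algebraMap K (w.adicCompletion K) x := by
    intro x hx
    refine ⟨⟨algebraMap K (w.adicCompletion K) x, ?_⟩, rfl⟩
    rw [HeightOneSpectrum.mem_adicCompletionIntegers]
    have := HeightOneSpectrum.valuedAdicCompletion_eq_valuation' w x
    rw [← this] at hx
    exact hx
  have hinj : Function.Injective (algebraMap (w.adicCompletionIntegers K) (w.adicCompletion K)) :=
    Subtype.val_injective
  obtain ⟨A, hA⟩ := lift a ha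
  obtain ⟨B, hB⟩ := lift b hb
  obtain ⟨C, hC⟩ := lift c hc
  obtain ⟨A', hA'⟩ := lift a' ha'
  obtain ⟨B', hB'⟩ := lift b' hb'
  obtain ⟨C', hC'⟩ := lift c' hc'
  have hu6 : IsUnit ((6 * d : ℤ) : w.adicCompletionIntegers K) := by
    have h1 : w.valuation K (((6 * d : ℤ) : 𝓞 K) : K) = 1 := by
      have h2 := HeightOneSpectrum.valuation_le_one w (K := K) ((6 * d : ℤ) : 𝓞 K)
      have h3 : ¬ w.valuation K (((6 * d : ℤ) : 𝓞 K) : K) < 1 := by
        rw [HeightOneSpectrum.valuation_lt_one_iff_mem]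
        exact h6
      exact le_antisymm h2 (not_lt.1 h3)
    have h4 : (((6 * d : ℤ) : 𝓞 K) : K) ≠ 0 := by
      intro h
      rw [h, map_zero] at h1
      exact zero_ne_one h1
    obtain ⟨X, hX⟩ := lift (((6 * d : ℤ) : 𝓞 K) : K) h1.le
    obtain ⟨Y, hY⟩ := lift (((6 * d : ℤ) : 𝓞 K) : K)⁻¹ (by rw [map_inv₀, h1, inv_one])
    have hXY : X * Y = 1 := by
      apply hinj
      rw [map_mul, hX, hY, map_one, ← map_mul, mul_inv_cancel₀ h4, map_one]
    have hXd : ((6 * d : ℤ) : w.adicCompletionIntegers K) = X := by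
      apply hinj
      have e : (((6 * d : ℤ) : 𝓞 K) : K) = ((6 * d : ℤ) : K) := map_intCast (algebraMap (𝓞 K) K) _
      rw [hX, map_intCast, e, map_intCast]
    rw [hXd]
    exact IsUnit.of_mul_eq_one _ hXY
  have key := LG3_gen (O := w.adicCompletionIntegers K) (L := w.adicCompletion K) d hd hu6 A B C
    (A' ^ 3 + 2 * B' ^ 3 + 4 * C' ^ 3 - 6 * A' * B' * C') (by
      apply hinj
      have h := congrArg (algebraMap K (w.adicCompletion K)) hprod
      simp only [map_mul, map_sub, map_add, map_pow, map_one, map_ofNat] at h ⊢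
      rw [hA, hB, hC, hA', hB', hC']
      exact h) (algebraMap K (w.adicCompletion K) n) (by
      have h := congrArg (algebraMap K (w.adicCompletion K)) hn2
      simp only [map_mul, map_sub, map_add, map_pow, map_ofNat] at h ⊢
      rw [hA, hB, hC]
      exact h) (loc_one K w d hd)
  rw [hr]
  have e1 : ∀ r : K, cmap (algebraMap K (w.adicCompletion K)) (AdjoinRoot.of _ r) =
      AdjoinRoot.of _ (algebraMap K (w.adicCompletion K) r) := fun r => AdjoinRoot.map_of _ _ _ _ r
  have e2 : cmap (algebraMap K (w.adicCompletion K)) (AdjoinRoot.root _) = AdjoinRoot.root _ :=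
    AdjoinRoot.map_root _ _ _ _
  rw [hA, hB, hC] at key
  simp only [map_add, map_mul, map_pow, e1, e2]
  exact key

theorem loc_good (w : HeightOneSpectrum (𝓞 K)) (d : ℤ) (h6 : ((6 * d : ℤ) : 𝓞 K) ∉ w.asIdeal)
    (m : N) (hm : m ≠ 0)
    (he : ∀ P : HeightOneSpectrum (𝓞 N), w.asIdeal = P.asIdeal.under (𝓞 K) →
      ∃ k : ℤ, P.valuation N m = WithZero.exp (2 * k)) (n : K) (hn : Algebra.norm K m = n ^ 2) :
    LocImd d (w.adicCompletion K) (cmap (algebraMap K (w.adicCompletion K)) (φ.symm m)) := by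
  obtain ⟨b, hb, hval⟩ := exists_half w m hm he
  have hbn : Algebra.norm K b ≠ 0 := (Algebra.norm_ne_zero_iff_of_basis
    (Module.finBasis K N)).2 hb
  have h1 := loc_unit' φ w d h6 (m / b ^ 2) hval (n / Algebra.norm K b) (by
    rw [div_pow, eq_div_iff (pow_ne_zero 2 hbn), ← hn, ← map_pow, ← map_mul, div_mul_cancel₀ _ (pow_ne_zero 2 hb)])
  have h2 := loc_mul_sq d _ (cmap (algebraMap K (w.adicCompletion K)) (φ.symm b)) h1
  have e : cmap (algebraMap K (w.adicCompletion K)) (φ.symm (m / b ^ 2)) *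
      cmap (algebraMap K (w.adicCompletion K)) (φ.symm b) ^ 2 =
      cmap (algebraMap K (w.adicCompletion K)) (φ.symm m) := by
    rw [← map_pow, ← map_mul, ← map_pow, ← map_mul, div_mul_cancel₀ _ (pow_ne_zero 2 hb)]
  rwa [e] at h2

end H19X
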