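import Mathlib
import Pool.Agent.Lib.H19X.Q0
import Pool.Agent.Lib.H19X.U2
import Pool.Agent.Lib.H13E.Q2
import Pool.Agent.Lib.H13E.T8

open NumberField IsDedekindDomain

namespace H19X

open H55B H55C H55E

/-! Chunk Q2 (M/L): valuations in N/N₀ (N = N₀(om), quadratic or smaller degree). For a prime P₀ of N₀ not above 3 let P be a prime of N above it:
v_P(iota x) = v_P₀(x) for all x in N₀: the ramification index e is 1, because N is generated by a root of X^2 + X + 1, whose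
discriminant -3 is a unit at P₀ (e = 2 would give an element pi of N with pi^2 = unit * uniformizer; or: the different
divides the derivative 2 om + 1, (2om+1)^2 = -3; or compare H13E.T8 / Q2; or by the automorphism c acting trivially on 𝓞 N / P while
c(om) - om = -(2 om + 1) is a unit: if e = 2 then f = g = 1, c acts trivially on 𝓞 N/P = 𝓞 N₀/P₀, contradiction).
even0: v_P₀(m) = v_P(iota m) = exp(2k).
two0: P₀ above 2, w₀ below it in K₀, th₀ = th φ₀. UnrTwo K₀ (unr0: v_w₀(2) = exp(-1) as v_w(2) = exp(-1) for w above w₀). exists_P2, co2 for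
N₀: write m = b0^2 u with v_P₀(u) = 1 (v_P₀(m) is even, since v_P(m/b^2 - 1) < 1), coordinates u = a0 + b1 th₀ + ..., a0 a unit at w₀;
sqrt2: a0 = s^2 modulo w₀; u/s^2 = 1 + b1' th₀ + level 2 (b1' integral at w₀). In N: 1 + b1' th + level 2 = (b/(b0 s))^2 (1 + level 2);
x = b/(b0 s) is a unit at P, x^2 = 1 + level 1, so x = 1 + level 1 (char 2), x^2 = 1 + 2y + y^2 with y of level 1, so x^2 = 1 + level 2
and b1' th has level 2: v(b1') < 1. So m/(b0 s)^2 - 1 has level 2 at P₀. -/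

theorem q2x_one {N' : Type} [Field N'] {v : Valuation N' (WithZero (Multiplicative ℤ))} {ρ : WithZero (Multiplicative ℤ)}
    (hρ : ρ < 1) {a : N'} (ha : v (a - 1) ≤ ρ) : v a = 1 := by
  have h3 : v (a - 1) < v 1 := by
    rw [map_one]
    exact lt_of_le_of_lt ha hρ
  rw [Valuation.map_eq_of_sub_lt v h3, map_one]

variable {K₀ K N₀ N : Type} [Field K₀] [NumberField K₀] [Field K] [NumberField K] [Algebra F K]
  [Algebra K₀ K] [Field N₀] [NumberField N₀] [Algebra K₀ N₀] [Field N] [NumberField N] [Algebra K N]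
  {φ₀ : Cub K₀ ≃ₐ[K₀] N₀} {φ : Cub K ≃ₐ[K] N} {ι : N₀ →+* N} {cK : K ≃ₐ[K₀] K} {c : N ≃+* N}

/-- the valuations in a quadratic extension generated by om, outside 3 -/
theorem q2x_val (hQ : H13E.Quad K₀ K) (w₀ : HeightOneSpectrum (𝓞 K₀)) (h3 : (3 : 𝓞 K₀) ∉ w₀.asIdeal) :
    ∃ w : HeightOneSpectrum (𝓞 K), w₀.asIdeal = w.asIdeal.under (𝓞 K₀) ∧
      ∀ x : K₀, w.valuation K (algebraMap K₀ K x) = w₀.valuation K₀ x := by
  obtain ⟨W⟩ := (inferInstance : Nonempty (w₀.asIdeal.primesOver (𝓞 K)))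
  obtain ⟨w, -, hw⟩ := (H13E.q2_over w₀ W.1).1 W.2
  refine ⟨w, hw, fun x => ?_⟩
  have hwm := w.isMaximal
  have hwp := w.isPrime
  have hl : w.asIdeal.LiesOver w₀.asIdeal := ⟨hw⟩
  have hG := H13E.quad_galois hQ
  have h1 : w.asIdeal.ramificationIdx (𝓞 K₀) = 1 := by
    have h2 : ¬ differentIdeal (𝓞 K₀) (𝓞 K) ≤ w.asIdeal := by
      intro h
      have h4 := H13E.t8_three hQ w h
      apply h3
      rw [hw, Ideal.mem_comap, map_ofNat]
      exact h4
    rw [← Ideal.dvd_iff_le, dvd_differentIdeal_iff, not_not] at h2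
    exact Ideal.ramificationIdx_eq_one_iff.2 h2
  have h2 : w₀.asIdeal.ramificationIdx' w.asIdeal = 1 := by
    rw [Ideal.ramificationIdx'_eq_ramificationIdx w₀.asIdeal w.asIdeal w₀.ne_bot]
    exact h1
  have h4 := HeightOneSpectrum.valuation_liesOver K w₀ w x
  rw [h2, pow_one] at h4
  exact h4.symm

theorem q2x_three {A : Type} [Field A] [NumberField A] (w : HeightOneSpectrum (𝓞 A))
    (h2 : (2 : 𝓞 A) ∈ w.asIdeal) : (3 : 𝓞 A) ∉ w.asIdeal := by
  intro h3
  apply w.isPrime.ne_top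
  rw [Ideal.eq_top_iff_one]
  have h1 : (1 : 𝓞 A) = 3 - 2 := by norm_num
  rw [h1]
  exact sub_mem h3 h2

theorem unr0 (hQ : H13E.Quad K₀ K) (h : UnrTwo K) : UnrTwo K₀ := by
  intro w₀ h2
  obtain ⟨w, hw, hv⟩ := q2x_val hQ w₀ (q2x_three w₀ h2)
  have h2' : (2 : 𝓞 K) ∈ w.asIdeal := by
    rw [hw, Ideal.mem_comap, map_ofNat] at h2
    exact h2
  have h1 := hv 2
  rw [map_ofNat, h w h2'] at h1
  exact h1.symm

omit [NumberField K₀] in
theorem q2x_quad (S : Sq φ₀ φ ι cK c) : letI : Algebra N₀ N := ι.toAlgebra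
    letI : Algebra F N := ((algebraMap K N).comp (algebraMap F K)).toAlgebra
    H13E.Quad N₀ N := by
  letI i1 : Algebra N₀ N := ι.toAlgebra
  letI i2 : Algebra F N := ((algebraMap K N).comp (algebraMap F K)).toAlgebra
  set z : N := algebraMap K N (algebraMap O K om) with hz
  have hz0 : z ^ 2 + z + 1 = 0 := by
    have h := congrArg (algebraMap K N) (H13E.q1_rel (K := K))
    rwa [map_add, map_add, map_pow, map_one, map_zero] at h
  have hcz : c z = z ^ 2 := by
    rw [hz, S.conj_K, S.conj_O, cj_om, map_pow, map_pow]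
  have hnz : ¬ ∃ x : N₀, ι x = z := by
    rintro ⟨x, hx⟩
    have h1 := (S.fixN z).2 ⟨x, hx⟩
    rw [hcz] at h1
    have h3 : (3 : N) = 0 := by
      linear_combination (3 - 2 * z) * hz0 + (2 * z + 1) * h1
    norm_num at h3
  have hroot : ∀ x : N₀, x ^ 2 + x + 1 ≠ 0 := by
    intro x hx
    have h1 : (ι x) ^ 2 + ι x + 1 = 0 := by
      have h := congrArg ι hx
      rwa [map_add, map_add, map_pow, map_one, map_zero] at h
    have h2 : (ι x - z) * (ι x + 1 + z) = 0 := by linear_combination h1 - hz0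
    rcases mul_eq_zero.1 h2 with h3 | h3
    · exact hnz ⟨x, sub_eq_zero.1 h3⟩
    · refine hnz ⟨-x - 1, ?_⟩
      rw [map_sub, map_neg, map_one]
      linear_combination -h3
  refine ⟨?_, hroot⟩
  have hli : LinearIndependent N₀ ![(1 : N), z] := by
    rw [LinearIndependent.pair_iff]
    intro s t hst
    rw [Algebra.smul_def, Algebra.smul_def, mul_one] at hst
    have hst' : ι s + ι t * z = 0 := hst
    have ht : t = 0 := by
      by_contra ht
      have ht' : ι t ≠ 0 := by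
        rw [Ne, map_eq_zero]
        exact ht
      apply hnz
      refine ⟨-s / t, ?_⟩
      rw [map_div₀, map_neg, div_eq_iff ht']
      linear_combination -hst'
    refine ⟨?_, ht⟩
    rw [ht, map_zero, zero_mul, add_zero] at hst'
    exact ι.injective (by rw [hst', map_zero])
  have hsp : ⊤ ≤ Submodule.span N₀ (Set.range ![(1 : N), z]) := by
    intro y _
    rw [Matrix.range_cons, Matrix.range_cons, Matrix.range_empty, Set.union_empty,
      Set.singleton_union, Submodule.mem_span_pair]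
    obtain ⟨a, b, hab⟩ := S.span y
    refine ⟨a, b, ?_⟩
    rw [hab, Algebra.smul_def, Algebra.smul_def, mul_one]
    rfl
  have hb := Module.finrank_eq_card_basis (Module.Basis.mk hli hsp)
  rw [hb]
  rfl

theorem val0 (S : Sq φ₀ φ ι cK c) (P₀ : HeightOneSpectrum (𝓞 N₀)) (h3 : (3 : 𝓞 N₀) ∉ P₀.asIdeal) :
    ∃ P : HeightOneSpectrum (𝓞 N), ∀ x : N₀, P.valuation N (ι x) = P₀.valuation N₀ x := by
  letI i1 : Algebra N₀ N := ι.toAlgebra
  letI i2 : Algebra F N := ((algebraMap K N).comp (algebraMap F K)).toAlgebra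
  obtain ⟨P, -, h⟩ := q2x_val (q2x_quad S) P₀ h3
  exact ⟨P, h⟩

theorem q2x_mem {A : Type} [Field A] [NumberField A] (w : HeightOneSpectrum (𝓞 A)) (x : 𝓞 A) :
    x ∈ w.asIdeal ↔ w.valuation A (algebraMap (𝓞 A) A x) < 1 := by
  rw [HeightOneSpectrum.valuation_of_algebraMap]
  exact (w.intValuation_lt_one_iff_mem x).symm

theorem q2x_lt {a : WithZero (Multiplicative ℤ)} (ha : a < 1) : a ≤ WithZero.exp (-1 : ℤ) :=
  A4_lt ha

theorem q2x_sq {a : WithZero (Multiplicative ℤ)} (ha : a ^ 2 ≤ WithZero.exp (-1 : ℤ)) :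
    a ≤ WithZero.exp (-1 : ℤ) := by
  apply q2x_lt
  by_contra h
  push Not at h
  have h1 : (1 : WithZero (Multiplicative ℤ)) ≤ a ^ 2 := one_le_pow₀ h
  have h2 := h1.trans ha
  rw [← WithZero.exp_zero, WithZero.exp_le_exp] at h2
  omega

theorem cnd_desc (hQ : H13E.Quad K₀ K) (S : Sq φ₀ φ ι cK c) (hK : UnrTwo K) (d : ℤ) (m : N₀)
    (h : Cnd d K N (th φ) (ι m)) (n : K₀) (hn : Algebra.norm K₀ m = n ^ 2) :
    Cnd d K₀ N₀ (th φ₀) m := by
  have hm : m ≠ 0 := by
    rintro rfl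
    exact h.ne (map_zero ι)
  refine ⟨hm, ⟨n, hn⟩, ?_, ?_⟩
  · intro P₀ hP₀
    have h3 : (3 : 𝓞 N₀) ∉ P₀.asIdeal := by
      intro h3
      apply hP₀
      have h1 : ((6 * d : ℤ) : 𝓞 N₀) = 3 * (2 * (d : 𝓞 N₀)) := by
        push_cast
        ring
      rw [h1]
      exact Ideal.mul_mem_right _ _ h3
    obtain ⟨P, hP⟩ := val0 S P₀ h3
    have h4 : ((6 * d : ℤ) : 𝓞 N) ∉ P.asIdeal := by
      intro h5
      apply hP₀
      rw [q2x_mem] at h5 ⊢
      rw [← hP]
      have h6 : ι (algebraMap (𝓞 N₀) N₀ ((6 * d : ℤ) : 𝓞 N₀)) = algebraMap (𝓞 N) N ((6 * d : ℤ) : 𝓞 N) := by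
        rw [map_intCast, map_intCast, map_intCast]
      rw [h6]
      exact h5
    obtain ⟨k, hk⟩ := h.even P h4
    exact ⟨k, by rw [← hP, hk]⟩
  · intro P₀ h2
    have h3 := q2x_three P₀ h2
    obtain ⟨P, hP⟩ := val0 S P₀ h3
    have h2' : (2 : 𝓞 N) ∈ P.asIdeal := by
      rw [q2x_mem] at h2 ⊢
      rw [← hP] at h2
      have h6 : ι (algebraMap (𝓞 N₀) N₀ 2) = algebraMap (𝓞 N) N 2 := by
        rw [map_ofNat, map_ofNat, map_ofNat]
      rwa [h6] at h2
    -- the prime below in K₀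
    obtain ⟨w₀, e, hw₀, -, -⟩ := A4_glob (K := K₀) (N := N₀) P₀
    have h2w : (2 : 𝓞 K₀) ∈ w₀.asIdeal := by
      rw [hw₀, Ideal.mem_comap, map_ofNat]
      exact h2
    obtain ⟨P', -, hu, ht', -⟩ := exists_P2 φ₀ w₀ h2w (unr0 hQ hK w₀ h2w)
    have hPP : P₀ = P' := hu P₀ hw₀
    have ht : P₀.valuation N₀ (th φ₀) = WithZero.exp (-1 : ℤ) := by
      rw [hPP]
      exact ht'
    have htN : P.valuation N (th φ) = WithZero.exp (-1 : ℤ) := by
      rw [← S.map_th, hP, ht]
    have hth0 : th φ₀ ≠ 0 := by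
      intro h0
      rw [h0, map_zero] at ht
      exact WithZero.exp_ne_zero ht.symm
    have htwo : P.valuation N (2 : N) = WithZero.exp (-3 : ℤ) := by
      rw [← th_cube φ, map_pow, htN, ← WithZero.exp_nsmul]
      rfl
    obtain ⟨b, hb, hb2⟩ := h.two P h2'
    have hlev : P.valuation N (th φ ^ 2) = WithZero.exp (-2 : ℤ) := by
      rw [map_pow, htN, ← WithZero.exp_nsmul]
      rfl
    have hlev0 : P₀.valuation N₀ (th φ₀ ^ 2) = WithZero.exp (-2 : ℤ) := by
      rw [map_pow, ht, ← WithZero.exp_nsmul]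
      rfl
    rw [hlev] at hb2
    have hlt1 : WithZero.exp (-2 : ℤ) < (1 : WithZero (Multiplicative ℤ)) := by
      rw [← WithZero.exp_zero, WithZero.exp_lt_exp]
      norm_num
    have hq1 : P.valuation N (ι m / b ^ 2) = 1 := q2x_one hlt1 hb2
    have hvb : P.valuation N b ≠ 0 := (Valuation.ne_zero_iff _).2 hb
    obtain ⟨k, hk⟩ : ∃ k : ℤ, P.valuation N b = WithZero.exp k :=
      ⟨WithZero.log (P.valuation N b), (WithZero.exp_log hvb).symm⟩
    have hvm : P₀.valuation N₀ m = WithZero.exp (2 * k) := by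
      rw [← hP]
      rw [map_div₀, div_eq_one_iff_eq (by rw [map_pow]; exact pow_ne_zero 2 hvb), map_pow, hk,
        ← WithZero.exp_nsmul] at hq1
      rw [hq1]
      congr 1
    -- a unit
    set b0 : N₀ := th φ₀ ^ (-k) with hb0
    have hb00 : b0 ≠ 0 := zpow_ne_zero _ hth0
    have hvb0 : P₀.valuation N₀ b0 = WithZero.exp k := by
      rw [hb0, map_zpow₀, ht, ← WithZero.exp_zsmul]
      simp
    have hvu : P₀.valuation N₀ (m / b0 ^ 2) = 1 := by
      rw [map_div₀, map_pow, hvb0, hvm, ← WithZero.exp_nsmul]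
      rw [div_eq_one_iff_eq WithZero.exp_ne_zero]
      congr 1
    obtain ⟨s, hs1, hs⟩ := sqrt2 P₀ h2 (m / b0 ^ 2) hvu.le
    have hvs2 : P₀.valuation N₀ (s ^ 2) = 1 := by
      rw [Valuation.map_sub_swap] at hs
      rw [← hvu]
      refine Valuation.map_eq_of_sub_lt _ ?_
      rw [hvu]
      exact hs
    have hs0 : s ≠ 0 := by
      rintro rfl
      rw [zero_pow two_ne_zero, map_zero] at hvs2
      exact zero_ne_one hvs2
    have hq2 : P₀.valuation N₀ (m / (b0 * s) ^ 2 - 1) < 1 := by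
      have h1 : m / (b0 * s) ^ 2 - 1 = (m / b0 ^ 2 - s ^ 2) / s ^ 2 := by
        field_simp
      rw [h1, map_div₀, hvs2, div_one]
      exact hs
    have hBs : b0 * s ≠ 0 := mul_ne_zero hb00 hs0
    refine ⟨b0 * s, hBs, ?_⟩
    rw [hlev0]
    set B : N := ι (b0 * s) with hB
    have hB0 : B ≠ 0 := (map_ne_zero ι).2 hBs
    have hq3 : P.valuation N (ι m / B ^ 2 - 1) ≤ WithZero.exp (-1 : ℤ) := by
      apply q2x_lt
      have h1 : ι m / B ^ 2 - 1 = ι (m / (b0 * s) ^ 2 - 1) := by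
        rw [map_sub, map_div₀, map_pow, map_one]
      rw [h1, hP]
      exact hq2
    have hιm : ι m ≠ 0 := h.ne
    -- x = b / B
    set x : N := b / B with hx
    have hx0 : x ≠ 0 := div_ne_zero hb hB0
    have hx2 : x ^ 2 = (ι m / B ^ 2) / (ι m / b ^ 2) := by
      rw [hx]
      field_simp
    have hxm : P.valuation N (x ^ 2 - 1) ≤ WithZero.exp (-1 : ℤ) := by
      have h1 : x ^ 2 - 1 = ((ι m / B ^ 2 - 1) - (ι m / b ^ 2 - 1)) / (ι m / b ^ 2) := by
        rw [hx2]
        field_simp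
        ring
      rw [h1, map_div₀, hq1, div_one]
      refine (Valuation.map_sub _ _ _).trans (max_le hq3 (hb2.trans ?_))
      rw [WithZero.exp_le_exp]
      norm_num
    have hlt2 : WithZero.exp (-1 : ℤ) < (1 : WithZero (Multiplicative ℤ)) := by
      rw [← WithZero.exp_zero, WithZero.exp_lt_exp]
      norm_num
    have hvx2 : P.valuation N (x ^ 2) = 1 := q2x_one hlt2 hxm
    have hvx : P.valuation N x ≤ 1 := by
      by_contra hcon
      push Not at hcon
      rw [map_pow] at hvx2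
      have := one_lt_pow₀ hcon (two_ne_zero)
      rw [hvx2] at this
      exact lt_irrefl _ this
    have hx1 : P.valuation N (x - 1) ≤ 1 :=
      (Valuation.map_sub _ _ _).trans (max_le hvx (by rw [map_one]))
    have hx1' : P.valuation N (x - 1) ≤ WithZero.exp (-1 : ℤ) := by
      apply q2x_sq
      rw [← map_pow]
      have h1 : (x - 1) ^ 2 = (x ^ 2 - 1) - 2 * (x - 1) := by ring
      rw [h1]
      refine (Valuation.map_sub _ _ _).trans (max_le hxm ?_)
      rw [map_mul, htwo]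
      refine (mul_le_of_le_one_right' hx1).trans ?_
      rw [WithZero.exp_le_exp]
      norm_num
    have hx3 : P.valuation N (x ^ 2 - 1) ≤ WithZero.exp (-2 : ℤ) := by
      have h1 : x ^ 2 - 1 = (x - 1) ^ 2 + 2 * (x - 1) := by ring
      rw [h1]
      refine (Valuation.map_add _ _ _).trans (max_le ?_ ?_)
      · rw [map_pow]
        have h2 := pow_le_pow_left₀ zero_le hx1' 2
        rw [← WithZero.exp_nsmul] at h2
        exact h2
      · rw [map_mul, htwo]
        refine (mul_le_of_le_one_right' hx1).trans ?_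
        rw [WithZero.exp_le_exp]
        norm_num
    have hfin : P₀.valuation N₀ (m / (b0 * s) ^ 2 - 1) = P.valuation N (ι m / B ^ 2 - 1) := by
      rw [← hP, map_sub, map_div₀, map_pow, map_one]
    rw [hfin]
    have h1 : ι m / B ^ 2 - 1 = (x ^ 2 - 1) * (ι m / b ^ 2) + (ι m / b ^ 2 - 1) := by
      rw [hx]
      field_simp
      ring
    rw [h1]
    refine (Valuation.map_add _ _ _).trans (max_le ?_ hb2)
    rw [map_mul, hq1, mul_one]
    exact hx3

end H19X
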