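import Mathlib
import Pool.Agent.Lib.H55E.S2

open NumberField IsDedekindDomain

namespace H19X

open H55B H55C H55E

/-! Chunk Q3 (M): squares descend, local version. sq_desc': if r is in the range of f, then f is surjective (span), so cmap f is
bijective. Otherwise k' = k(r) has degree 2 over k (with f.toAlgebra; 1, r is a basis) and H55E.sq_descent applies.
span_loc: w above w₀, K = K₀(om); iota : K₀_w₀ -> K_w (exists_iota, H55C.A17). V = iota K₀_w₀ + iota K₀_w₀ om is a finite
dimensional subspace of the topological vector space K_w over the complete field K₀_w₀ (continuity of iota: from the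
valuations), hence closed (Submodule.closed_of_finiteDimensional), and it contains K = K₀ + K₀ om, which is dense. -/

theorem Q3_cmap_comp {k k' k'' : Type} [Field k] [Field k'] [Field k''] (f : k →+* k')
    (g : k' →+* k'') (m : Cub k) : cmap g (cmap f m) = cmap (g.comp f) m := by
  have h : (cmap g).comp (cmap f) = cmap (g.comp f) := by
    apply AdjoinRoot.ringHom_ext
    · ext x
      simp only [RingHom.comp_apply, cmap, AdjoinRoot.map_of]
    · simp only [RingHom.comp_apply, cmap, AdjoinRoot.map_root]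
  exact RingHom.congr_fun h m

theorem Q3_cmap_id {k : Type} [Field k] (f : k →+* k) (hf : ∀ x, f x = x) (m : Cub k) :
    cmap f m = m := by
  have h : cmap f = RingHom.id _ := by
    apply AdjoinRoot.ringHom_ext
    · ext x
      simp only [RingHom.comp_apply, cmap, AdjoinRoot.map_of, hf, RingHom.id_apply]
    · simp only [cmap, AdjoinRoot.map_root, RingHom.id_apply]
  rw [h]
  rfl

theorem sq_desc' {k k' : Type} [Field k] [CharZero k] [Field k'] [CharZero k'] (f : k →+* k') (r : k')
    (hr : r ^ 2 + r + 1 = 0) (hspan : ∀ x : k', ∃ a b : k, x = f a + f b * r)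
    (hirr : ¬ ∃ x : k', x ^ 3 = 2) (m : Cub k) (hm : IsUnit m) (n : k) (hn : Algebra.norm k m = n ^ 2)
    (b : Cub k') (hb : cmap f m = b ^ 2) : ∃ c : Cub k, m = c ^ 2 := by
  by_cases hrf : ∃ r0 : k, f r0 = r
  · obtain ⟨r0, rfl⟩ := hrf
    have hsurj : Function.Surjective f := by
      intro x
      obtain ⟨a, c, rfl⟩ := hspan x
      exact ⟨a + c * r0, by rw [map_add, map_mul]⟩
    let e : k ≃+* k' := RingEquiv.ofBijective f ⟨f.injective, hsurj⟩
    refine ⟨cmap (e.symm : k' →+* k) b, ?_⟩
    rw [← map_pow, ← hb, Q3_cmap_comp, Q3_cmap_id]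
    intro x
    exact e.symm_apply_apply x
  · letI : Algebra k k' := f.toAlgebra
    have hf : ∀ x : k, algebraMap k k' x = f x := fun x => rfl
    have hli : LinearIndependent k ![(1 : k'), r] := by
      rw [LinearIndependent.pair_iff]
      intro s t hst
      rw [Algebra.smul_def, Algebra.smul_def, hf, hf, mul_one] at hst
      have ht : t = 0 := by
        by_contra ht
        apply hrf
        refine ⟨-s / t, ?_⟩
        have hft : f t ≠ 0 := by rw [Ne, map_eq_zero]; exact ht
        rw [map_div₀, map_neg]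
        field_simp
        linear_combination (-1 : k') * hst
      refine ⟨?_, ht⟩
      rw [ht, map_zero, zero_mul, add_zero, map_eq_zero] at hst
      exact hst
    have hsp : ⊤ ≤ Submodule.span k (Set.range ![(1 : k'), r]) := by
      intro x _
      obtain ⟨a, c, rfl⟩ := hspan x
      rw [Matrix.range_cons, Matrix.range_cons, Matrix.range_empty, Set.union_empty]
      change _ ∈ Submodule.span k ({(1 : k')} ∪ {r})
      rw [Set.singleton_union, Submodule.mem_span_pair]
      exact ⟨a, c, by rw [Algebra.smul_def, Algebra.smul_def, hf, hf, mul_one]⟩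
    have h2 : Module.finrank k k' = 2 := by
      rw [Module.finrank_eq_card_basis (Module.Basis.mk hli hsp)]
      rfl
    exact sq_descent k k' h2 hirr m hm n hn b hb

theorem span_loc {K₀ K : Type} [Field K₀] [NumberField K₀] [Field K] [NumberField K] [Algebra F K]
    [Algebra K₀ K] (hQ : H13E.Quad K₀ K) (w₀ : HeightOneSpectrum (𝓞 K₀))
    (w : HeightOneSpectrum (𝓞 K)) (hw : w₀.asIdeal = w.asIdeal.under (𝓞 K₀)) :
    ∃ f : w₀.adicCompletion K₀ →+* w.adicCompletion K,
      (∀ x : K₀, f (algebraMap K₀ _ x) = algebraMap K _ (algebraMap K₀ K x)) ∧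
      ∀ x : w.adicCompletion K, ∃ a b : w₀.adicCompletion K₀,
        x = f a + f b * algebraMap K _ (algebraMap O K om) := by
  haveI : w.asIdeal.LiesOver w₀.asIdeal := ⟨hw⟩
  refine ⟨A17_io K₀ K w w₀, A17_io_coe K₀ K w w₀, ?_⟩
  obtain ⟨f, hf⟩ : ∃ f, f = A17_io K₀ K w w₀ := ⟨_, rfl⟩
  have hcont : Continuous f := by rw [hf]; exact A17_io_continuous K₀ K w w₀
  have hcoe : ∀ x : K₀, f (algebraMap K₀ _ x) = algebraMap K _ (algebraMap K₀ K x) := by
    rw [hf]
    exact A17_io_coe K₀ K w w₀
  rw [← hf]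
  obtain ⟨y, hy⟩ : ∃ y : w₀.adicCompletion K₀, 1 < ‖y‖ := by
    obtain ⟨z, hz, hz0⟩ := Submodule.exists_mem_ne_zero_of_ne_bot w₀.ne_bot
    refine ⟨(algebraMap K₀ (w₀.adicCompletion K₀) (algebraMap (𝓞 K₀) K₀ z))⁻¹, ?_⟩
    have h1 : w₀.valuation K₀ (algebraMap (𝓞 K₀) K₀ z) < 1 := by
      rw [HeightOneSpectrum.valuation_lt_one_iff_mem]
      exact hz
    have h2 : ‖algebraMap K₀ (w₀.adicCompletion K₀) (algebraMap (𝓞 K₀) K₀ z)‖ <
        ‖(1 : w₀.adicCompletion K₀)‖ := by
      rw [A17_norm_lt_norm_iff, valued_alg, map_one]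
      exact h1
    rw [norm_one] at h2
    have h3 : 0 < ‖algebraMap K₀ (w₀.adicCompletion K₀) (algebraMap (𝓞 K₀) K₀ z)‖ := by
      rw [norm_pos_iff, Ne, map_eq_zero, map_eq_zero_iff _ (RingOfIntegers.coe_injective)]
      exact hz0
    rw [norm_inv]
    exact (one_lt_inv₀ h3).2 h2
  letI : NontriviallyNormedField (w₀.adicCompletion K₀) :=
    { (inferInstance : NormedField (w₀.adicCompletion K₀)) with non_trivial := ⟨y, hy⟩ }
  letI : Algebra (w₀.adicCompletion K₀) (w.adicCompletion K) := f.toAlgebra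
  have hsm : ∀ (a : w₀.adicCompletion K₀) (x : w.adicCompletion K), a • x = f a * x :=
    fun a x => rfl
  haveI : ContinuousSMul (w₀.adicCompletion K₀) (w.adicCompletion K) :=
    ⟨(hcont.comp continuous_fst).mul continuous_snd⟩
  intro x
  let V : Submodule (w₀.adicCompletion K₀) (w.adicCompletion K) :=
    Submodule.span _ {(1 : w.adicCompletion K), algebraMap K _ (algebraMap O K om)}
  haveI : FiniteDimensional (w₀.adicCompletion K₀) V :=
    FiniteDimensional.span_of_finite _ (Set.toFinite _)
  have hc : IsClosed (V : Set (w.adicCompletion K)) := Submodule.closed_of_finiteDimensional V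
  have hsub : Set.range (algebraMap K (w.adicCompletion K)) ⊆ (V : Set (w.adicCompletion K)) := by
    rintro _ ⟨z, rfl⟩
    obtain ⟨a, b, hab⟩ := H13E.quad_span hQ z
    rw [SetLike.mem_coe, Submodule.mem_span_pair]
    refine ⟨algebraMap K₀ _ a, algebraMap K₀ _ b, ?_⟩
    rw [hsm, hsm, hcoe, hcoe, mul_one, hab, map_add, map_mul]
  have hx : x ∈ (V : Set (w.adicCompletion K)) :=
    closure_minimal hsub hc (HeightOneSpectrum.denseRange_algebraMap K w x)
  rw [SetLike.mem_coe, Submodule.mem_span_pair] at hx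
  obtain ⟨a, b, hab⟩ := hx
  refine ⟨a, b, ?_⟩
  rw [hsm, hsm, mul_one] at hab
  exact hab.symm

end H19X
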