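import Mathlib
import Pool.Agent.Lib.H19X.He
import Pool.Agent.Lib.H19X.Pr
import Pool.Agent.Lib.H19X.U3
import Pool.Agent.Lib.H19X.Va

open NumberField IsDedekindDomain

namespace H19X

open H55B H55C H55E

/-! Chunk S3 (M): above 3 an element of square norm is a square. exists_T (N2) with r = om, exists_P3. z Tz T(Tz) = n^2, all
three factors have the same valuation: v_P(z)^3 = v_P(n)^2, so v_P(z) = exp(2k) (A3_root), exists_val (Va): z = b^2 u, v_P(u) = 1,
u Tu T(Tu) = n1^2, n1 = n/norm b. T u = u, T(T u) = u modulo P (exists_P3), so u^3 = n1^2 mod P, u = (n1/u)^2 mod P: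
v_P(u/(n1/u)^2 - 1) < 1 = v_P(4) (3 in P, so 2 is not). hensel: u and z are squares in the completion at P;
square_of_local. -/

variable {K N : Type} [Field K] [NumberField K] [Algebra F K] [Field N] [NumberField N] [Algebra K N]
  (φ : Cub K ≃ₐ[K] N)

theorem s3_two (w : HeightOneSpectrum (𝓞 K)) (P : HeightOneSpectrum (𝓞 N))
    (hP : w.asIdeal = P.asIdeal.under (𝓞 K)) (h3 : (3 : 𝓞 K) ∈ w.asIdeal) :
    P.valuation N (4 : N) = 1 := by
  have h3P : (3 : 𝓞 N) ∈ P.asIdeal := by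
    rw [hP, Ideal.mem_comap, map_ofNat] at h3
    exact h3
  have h4 : (4 : 𝓞 N) ∉ P.asIdeal := by
    intro h
    apply P.isPrime.ne_top
    rw [Ideal.eq_top_iff_one]
    have h1 : (4 : 𝓞 N) - 3 ∈ P.asIdeal := P.asIdeal.sub_mem h h3P
    have e : (4 : 𝓞 N) - 3 = 1 := by ring
    rwa [e] at h1
  exact A18_val_eq P 4 h4

theorem s3_unit {v : Valuation N (WithZero (Multiplicative ℤ))} {u u1 u2 ν : N} (h0 : v u = 1)
    (h1 : v u1 = 1) (h2 : v u2 = 1) (h3 : v (u1 - u) < 1) (h4 : v (u2 - u1) < 1)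
    (h : u * u1 * u2 = ν ^ 2) : v (u / (ν / u) ^ 2 - 1) < 1 := by
  have hu0 : u ≠ 0 := by
    intro h
    rw [h, map_zero] at h0
    exact zero_ne_one h0
  have hu10 : u1 ≠ 0 := by
    intro h
    rw [h, map_zero] at h1
    exact zero_ne_one h1
  have hu20 : u2 ≠ 0 := by
    intro h
    rw [h, map_zero] at h2
    exact zero_ne_one h2
  have hν0 : ν ≠ 0 := by
    intro h'
    rw [h'] at h
    have : u * u1 * u2 ≠ 0 := mul_ne_zero (mul_ne_zero hu0 hu10) hu20
    exact this (by rw [h]; ring)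
  have e : u / (ν / u) ^ 2 - 1 = (u * -(u1 - u) + u1 * (-((u1 - u) + (u2 - u1)))) / (u1 * u2) := by
    rw [div_pow, ← h]
    field_simp
    ring
  rw [e, map_div₀, map_mul v u1 u2, h1, h2, mul_one, div_one]
  refine Valuation.map_add_lt _ ?_ ?_
  · rw [map_mul, h0, one_mul, Valuation.map_neg]
    exact h3
  · rw [map_mul, h1, one_mul, Valuation.map_neg]
    exact Valuation.map_add_lt _ h3 h4

theorem loc_three (w : HeightOneSpectrum (𝓞 K)) (h3 : (3 : 𝓞 K) ∈ w.asIdeal)
    (hl : ∃ e : ℕ, ¬ 3 ∣ e ∧ w.valuation K (3 : K) = WithZero.exp (-(e : ℤ))) (m : N) (hm : m ≠ 0)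
    (n : K) (hn : Algebra.norm K m = n ^ 2) :
    ∃ b : Cub (w.adicCompletion K),
      cmap (algebraMap K (w.adicCompletion K)) (φ.symm m) = b ^ 2 := by
  obtain ⟨T, -, hT⟩ := exists_T φ (algebraMap O K om) (A18_om K)
  obtain ⟨P, hP, hPu, hPT, hPd⟩ := exists_P3 φ w h3 hl T
  have hTm : T m ≠ 0 := (map_ne_zero_iff _ T.injective).2 hm
  have hTTm : T (T m) ≠ 0 := (map_ne_zero_iff _ T.injective).2 hTm
  have hn2 : m * T m * T (T m) = (algebraMap K N n) ^ 2 := by
    rw [← hT m, hn, map_pow]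
  have hν0 : algebraMap K N n ≠ 0 := by
    intro h
    rw [h] at hn2
    exact mul_ne_zero (mul_ne_zero hm hTm) hTTm (by rw [hn2]; ring)
  have hvm0 : P.valuation N m ≠ 0 := (Valuation.ne_zero_iff _).2 hm
  have hvν0 : P.valuation N (algebraMap K N n) ≠ 0 := (Valuation.ne_zero_iff _).2 hν0
  have hv : P.valuation N m ^ 3 = P.valuation N (algebraMap K N n) ^ 2 := by
    rw [← map_pow (P.valuation N) (algebraMap K N n) 2, ← hn2, map_mul, map_mul, hPT (T m), hPT m,
      pow_succ, pow_two]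
  obtain ⟨k, hk⟩ := A3_root (P.valuation N) m (algebraMap K N n) hvm0 hvν0 hv
  obtain ⟨b, hb0, hb⟩ := exists_half w m hm (fun P' hP' => ⟨k, by rw [hPu P' hP']; exact hk⟩)
  have hu1 : P.valuation N (m / b ^ 2) = 1 := hb P hP
  set u : N := m / b ^ 2 with hu
  have hu0 : u ≠ 0 := div_ne_zero hm (pow_ne_zero 2 hb0)
  have hTu : P.valuation N (T u) = 1 := by rw [hPT, hu1]
  have hTTu : P.valuation N (T (T u)) = 1 := by rw [hPT, hTu]
  have hNb : Algebra.norm K b ≠ 0 := by
    intro h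
    have h1 := hT b
    rw [h, map_zero] at h1
    have hTb : T b ≠ 0 := (map_ne_zero_iff _ T.injective).2 hb0
    exact mul_ne_zero (mul_ne_zero hb0 hTb) ((map_ne_zero_iff _ T.injective).2 hTb) h1.symm
  set ν : N := algebraMap K N n / (b * T b * T (T b)) with hν
  have hTb : T b ≠ 0 := (map_ne_zero_iff _ T.injective).2 hb0
  have hTTb : T (T b) ≠ 0 := (map_ne_zero_iff _ T.injective).2 hTb
  have hprod : u * T u * T (T u) = ν ^ 2 := by
    rw [hu, hν, map_div₀, map_div₀, map_pow, map_pow, div_pow, ← hn2]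
    field_simp
  have hlt := s3_unit (v := P.valuation N) hu1 hTu hTTu (hPd u hu1.le) (hPd (T u) hTu.le) hprod
  have h4 : P.valuation N (4 : N) = 1 := s3_two w P hP h3
  have hval : Valued.v (algebraMap N (P.adicCompletion N) (u / (ν / u) ^ 2) - 1) <
      Valued.v (4 : P.adicCompletion N) := by
    rw [A18_valued_ofNat P 4, h4]
    have e : algebraMap N (P.adicCompletion N) (u / (ν / u) ^ 2) - 1 =
        algebraMap N (P.adicCompletion N) (u / (ν / u) ^ 2 - 1) := by rw [map_sub, map_one]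
    rw [e, valued_alg N P]
    exact hlt
  obtain ⟨β, hβ⟩ := hensel P _ hval
  refine square_of_local φ w P hP hPu m hm ⟨β * algebraMap N (P.adicCompletion N) (ν / u * b), ?_⟩
  have hν0' : ν ≠ 0 := div_ne_zero hν0 (mul_ne_zero (mul_ne_zero hb0 hTb) hTTb)
  have e : m = (u / (ν / u) ^ 2) * (ν / u * b) ^ 2 := by
    have h1 : m = u * b ^ 2 := by
      rw [hu]
      field_simp
    conv_lhs => rw [h1]
    field_simp
  rw [mul_pow, ← hβ, ← map_pow, ← map_mul, ← e]

end H19X
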