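import Mathlib
import Pool.Agent.Lib.H16A.C1
import Pool.Agent.Lib.H16A.C3
import Pool.Agent.Lib.H19X.N2

open NumberField IsDedekindDomain

namespace H19X

open H55B H55C H55E

section alg

open Polynomial

theorem s4_fin {k F : Type*} [Field k] [Field F] [Algebra k F] [Finite F] (h2 : (2 : F) ≠ 0) {x : F}
    (hx : x ≠ 0) (hN : IsSquare (Algebra.norm k x)) : IsSquare x := by
  classical
  have : Fintype F := Fintype.ofFinite F
  have hk : Finite k := Finite.of_injective _ (algebraMap k F).injective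
  have : Fintype k := Fintype.ofFinite k
  have hchar : ringChar F ≠ 2 := by
    intro h
    have h3 : CharP F 2 := ringChar.of_eq h
    apply h2
    exact_mod_cast CharP.cast_eq_zero F 2
  have hodd : Fintype.card F % 2 = 1 := FiniteField.odd_card_of_char_ne_two hchar
  have hcharK : ringChar k ≠ 2 := by
    intro h
    have h3 : CharP k 2 := ringChar.of_eq h
    apply h2
    have h4 : (2 : k) = 0 := by exact_mod_cast CharP.cast_eq_zero k 2
    have h5 := congrArg (algebraMap k F) h4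
    rwa [map_ofNat, map_zero] at h5
  have hoddK : Fintype.card k % 2 = 1 := FiniteField.odd_card_of_char_ne_two hcharK
  rw [FiniteField.isSquare_iff hchar hx]
  obtain ⟨y, hy⟩ := hN
  have hN0 : Algebra.norm k x ≠ 0 := Algebra.norm_ne_zero_iff.2 hx
  have hy0 : y ≠ 0 := by
    rintro rfl
    rw [mul_zero] at hy
    exact hN0 hy
  have h1 := FiniteField.algebraMap_norm_eq_pow (K := k) (K' := F) (x := x)
  have hcard : Nat.card F = Nat.card k ^ Module.finrank k F := Module.natCard_eq_pow_finrank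
  rw [Nat.card_eq_fintype_card, Nat.card_eq_fintype_card] at h1 hcard
  set q := Fintype.card k with hq
  set Q := Fintype.card F with hQ
  have hq1 : 1 < q := Fintype.one_lt_card
  have hdvd : (q - 1) ∣ (Q - 1) := by
    rw [hcard]
    simpa using Nat.sub_dvd_pow_sub_pow q 1 (Module.finrank k F)
  obtain ⟨c, hc⟩ := hdvd
  have hc' : (Q - 1) / (q - 1) = c := by
    rw [hc]
    exact Nat.mul_div_cancel_left c (by omega)
  rw [hc'] at h1
  have hyq : y ^ (q - 1) = 1 := FiniteField.pow_card_sub_one_eq_one y hy0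
  have e1 : Q / 2 = c * (q / 2) := by
    have h3 : q - 1 = 2 * (q / 2) := by omega
    have h4 : Q - 1 = 2 * (Q / 2) := by omega
    rw [h3, h4, mul_assoc] at hc
    have := Nat.eq_of_mul_eq_mul_left (by norm_num) hc
    rw [this]
    ring
  rw [e1, pow_mul, ← h1, ← map_pow, hy, ← pow_two, ← pow_mul]
  have h3 : 2 * (q / 2) = q - 1 := by omega
  rw [h3, hyq, map_one]

/-- the cubic X^3 - 2 -/
def s4E : H16A.Cub := ⟨0, 0, -2⟩

theorem s4_deg {k : Type*} [Field k] : (s4E.poly k).natDegree = 3 := by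
  unfold H16A.Cub.poly
  compute_degree!

theorem s4_irr {k : Type*} [Field k] (hno : ∀ x : k, x ^ 3 ≠ 2) : Irreducible (s4E.poly k) := by
  apply Polynomial.irreducible_of_degree_le_three_of_not_isRoot
  · rw [s4_deg]
    decide
  · intro x hx
    apply hno x
    rw [Polynomial.IsRoot.def, H16A.Cub.eval_poly] at hx
    unfold H16A.Cub.val s4E at hx
    simp only [Int.cast_zero, zero_mul, add_zero, Int.cast_neg, Int.cast_ofNat] at hx
    linear_combination hx

theorem s4_zero {k : Type*} [Field k] {α β γ : k}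
    (h : algebraMap k (s4E.Alg k) α + algebraMap k (s4E.Alg k) β * s4E.th k +
      algebraMap k (s4E.Alg k) γ * s4E.th k ^ 2 = 0) : α = 0 ∧ β = 0 ∧ γ = 0 := by
  have h1 : AdjoinRoot.mk (s4E.poly k) (C α + C β * X + C γ * X ^ 2) = 0 := by
    rw [map_add, map_add, map_mul, map_mul, map_pow, AdjoinRoot.mk_X, AdjoinRoot.mk_C,
      AdjoinRoot.mk_C, AdjoinRoot.mk_C]
    exact h
  rw [AdjoinRoot.mk_eq_zero] at h1
  have h2 : (C α + C β * X + C γ * X ^ 2 : k[X]) = 0 := by
    apply Polynomial.eq_zero_of_dvd_of_natDegree_lt h1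
    rw [s4_deg]
    have : (C α + C β * X + C γ * X ^ 2 : k[X]).natDegree ≤ 2 := by compute_degree
    omega
  have c0 := congrArg (fun p => p.coeff 0) h2
  have c1 := congrArg (fun p => p.coeff 1) h2
  have c2 := congrArg (fun p => p.coeff 2) h2
  simp [Polynomial.coeff_X, Polynomial.coeff_C] at c0 c1 c2
  exact ⟨c0, c1, c2⟩

theorem s4_NF {R : Type*} [CommRing R] (α β γ x : R) :
    s4E.c3NF (α * x) (β * x) (γ * x) = x ^ 3 * s4E.c3NF α β γ := by
  unfold H16A.Cub.c3NF
  ring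

/-- the computations in the residue field -/
theorem s4_res {O k : Type*} [CommRing O] [Field k] [Finite k] (ρ : O →+* k) (h2k : (2 : k) ≠ 0)
    (hno : ∀ x : k, x ^ 3 ≠ 2) (α β γ : O) (h1 : α = 1 ∨ β = 1 ∨ γ = 1) :
    ρ (s4E.c3NF α β γ) ≠ 0 ∧
    IsUnit (s4E.algMap ρ (algebraMap O (s4E.Alg O) α + algebraMap O (s4E.Alg O) β * s4E.th O +
      algebraMap O (s4E.Alg O) γ * s4E.th O ^ 2)) ∧
    ∀ x : O, ρ x * ρ (s4E.c3NF α β γ) = 1 → IsSquare (s4E.algMap ρ
      ((algebraMap O (s4E.Alg O) α + algebraMap O (s4E.Alg O) β * s4E.th O +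
      algebraMap O (s4E.Alg O) γ * s4E.th O ^ 2) * algebraMap O (s4E.Alg O) x)) := by
  have hirr : Fact (Irreducible (s4E.poly k)) := ⟨s4_irr hno⟩
  have hfin : Finite (s4E.Alg k) := s4E.f2_finite
  have h2A : (2 : s4E.Alg k) ≠ 0 := by
    intro h
    apply h2k
    apply (algebraMap k (s4E.Alg k)).injective
    rw [map_ofNat, map_zero]
    exact h
  obtain ⟨z, hz⟩ : ∃ z : s4E.Alg O, z = algebraMap O (s4E.Alg O) α +
    algebraMap O (s4E.Alg O) β * s4E.th O + algebraMap O (s4E.Alg O) γ * s4E.th O ^ 2 := ⟨_, rfl⟩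
  rw [← hz]
  have hzk : s4E.algMap ρ z =
      algebraMap k (s4E.Alg k) (ρ α) + algebraMap k (s4E.Alg k) (ρ β) * s4E.th k +
      algebraMap k (s4E.Alg k) (ρ γ) * s4E.th k ^ 2 := by
    rw [hz, map_add, map_add, map_mul, map_mul, map_pow, s4E.c3_algMap_al, s4E.c3_algMap_al,
      s4E.c3_algMap_al, s4E.c3_algMap_th]
  have hz0 : s4E.algMap ρ z ≠ 0 := by
    intro h
    rw [hzk] at h
    obtain ⟨ha, hb, hc⟩ := s4_zero h
    rcases h1 with h | h | h
    · rw [h, map_one] at ha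
      exact one_ne_zero ha
    · rw [h, map_one] at hb
      exact one_ne_zero hb
    · rw [h, map_one] at hc
      exact one_ne_zero hc
  have hN : Algebra.norm k (s4E.algMap ρ z) = ρ (s4E.c3NF α β γ) := by
    rw [hz]
    exact s4E.c3_norm ρ α β γ
  have hN0 : ρ (s4E.c3NF α β γ) ≠ 0 := by
    rw [← hN]
    exact Algebra.norm_ne_zero_iff.2 hz0
  refine ⟨hN0, isUnit_iff_ne_zero.2 hz0, fun x hx => ?_⟩
  have hx0 : ρ x ≠ 0 := left_ne_zero_of_mul (hx.symm ▸ one_ne_zero)
  have hUc : z * algebraMap O (s4E.Alg O) x = algebraMap O (s4E.Alg O) (α * x) +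
      algebraMap O (s4E.Alg O) (β * x) * s4E.th O + algebraMap O (s4E.Alg O) (γ * x) * s4E.th O ^ 2 := by
    rw [hz, map_mul, map_mul, map_mul]
    ring
  have hU0 : s4E.algMap ρ (z * algebraMap O (s4E.Alg O) x) ≠ 0 := by
    rw [map_mul, s4E.c3_algMap_al]
    exact mul_ne_zero hz0 ((map_ne_zero_iff _ (algebraMap k (s4E.Alg k)).injective).2 hx0)
  apply s4_fin h2A hU0 (k := k)
  refine ⟨ρ x, ?_⟩
  rw [hUc, s4E.c3_norm, s4_NF, map_mul, map_pow]
  linear_combination (ρ x) ^ 2 * hx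

theorem s4_loc {O : Type*} [CommRing O] [IsDomain O] [IsDiscreteValuationRing O]
    [IsAdicComplete (IsLocalRing.maximalIdeal O) O] [Finite (IsLocalRing.ResidueField O)]
    (h2 : IsUnit (2 : O)) (hno : ∀ x : IsLocalRing.ResidueField O, x ^ 3 ≠ 2) (α β γ : O)
    (h1 : α = 1 ∨ β = 1 ∨ γ = 1) : IsUnit (s4E.c3NF α β γ) ∧
    ∃ s : s4E.Alg O, algebraMap O (s4E.Alg O) α + algebraMap O (s4E.Alg O) β * s4E.th O +
      algebraMap O (s4E.Alg O) γ * s4E.th O ^ 2 = algebraMap O (s4E.Alg O) (s4E.c3NF α β γ) * s ^ 2 := by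
  have h2k : (2 : IsLocalRing.ResidueField O) ≠ 0 := by
    have h := h2.map (IsLocalRing.residue O)
    rw [map_ofNat] at h
    exact h.ne_zero
  obtain ⟨hN0, hzu, hsq⟩ := s4_res (IsLocalRing.residue O) h2k hno α β γ h1
  obtain ⟨z, hz⟩ : ∃ z : s4E.Alg O, z = algebraMap O (s4E.Alg O) α +
    algebraMap O (s4E.Alg O) β * s4E.th O + algebraMap O (s4E.Alg O) γ * s4E.th O ^ 2 := ⟨_, rfl⟩
  rw [← hz] at hzu hsq ⊢
  have hun : IsUnit (s4E.c3NF α β γ) := (IsLocalRing.residue_ne_zero_iff_isUnit _).1 hN0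
  refine ⟨hun, ?_⟩
  obtain ⟨ν, hν⟩ := hun
  obtain ⟨Z, hZ⟩ := s4E.c3_isUnit hzu
  obtain ⟨U, hU⟩ : ∃ U : (s4E.Alg O)ˣ, (U : s4E.Alg O) = z * algebraMap O (s4E.Alg O) (↑ν⁻¹ : O) :=
    ⟨Z * Units.map (algebraMap O (s4E.Alg O) : O →* s4E.Alg O) ν⁻¹, by rw [Units.val_mul, hZ]; rfl⟩
  have hsq' := hsq (↑ν⁻¹ : O) (by rw [← map_mul, ← hν, ν.inv_mul, map_one])
  rw [← hU] at hsq'
  obtain ⟨s, hs⟩ := s4E.c3_isSquare h2 U hsq'
  refine ⟨s, ?_⟩
  rw [← hν, pow_two, ← hs, hU]
  have : algebraMap O (s4E.Alg O) (ν : O) * algebraMap O (s4E.Alg O) (↑ν⁻¹ : O) = 1 := by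
    rw [← map_mul, ν.mul_inv, map_one]
  linear_combination -z * this

end alg

/-! Chunk S4 (M/L): at a place w not above 6 with 2 not a cube modulo w, an element of square norm is a square in
Cub(K_w). (1) there is only one prime P of N above w: X^3 - 2 is irreducible modulo w (degree 3, no root: a root in the residue
field 𝓞 K / w lifts to 𝓞 K), the residue field of P contains a root of it, so f = 3 and sum e f = 3. (2) T permutes the
primes above w, so v_P(Tz) = v_P(z), and v_P(z) is even as in S3; z = b^2 u (exists_half). (3) coords_int for u and 1/u: u is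
the image of a unit u0 of R = (integers of K_w)[X]/(X^3 - 2) (= Alg of E0 = ⟨0, 0, -2⟩ in the notation of H16A), of square norm in
K_w; by c3_norm_res its residue in k[X]/(X^3 - 2), a field of order q^3, has square norm in k. norm(x) =
x^(1 + q + q^2) (FiniteField.algebraMap_norm_eq_pow or the like), so x^((q^3-1)/2) = norm(x)^((q-1)/2) = 1 and x is a square
(FiniteField.isSquare_iff; q odd). c3_isSquare (C3): u0 is a square. Map to Cub(K_w). -/

section loc

variable {K : Type} [Field K] [NumberField K] (w : HeightOneSpectrum (𝓞 K))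

theorem s4_mem {x : 𝓞 K} (h : algebraMap (𝓞 K) (w.adicCompletionIntegers K) x ∈
    IsLocalRing.maximalIdeal (w.adicCompletionIntegers K)) : x ∈ w.asIdeal := by
  rw [H16A.C1_mem_maximalIdeal, H16A.C1_norm_lt_one_iff, H16A.C1_valued_algebraMap] at h
  exact (w.intValuation_lt_one_iff_mem x).1 h

theorem s4_two (h6 : (6 : 𝓞 K) ∉ w.asIdeal) : IsUnit (2 : w.adicCompletionIntegers K) := by
  by_contra h
  have h1 : (2 : w.adicCompletionIntegers K) ∈ IsLocalRing.maximalIdeal (w.adicCompletionIntegers K) :=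
    (IsLocalRing.mem_maximalIdeal _).2 h
  have h2 : algebraMap (𝓞 K) (w.adicCompletionIntegers K) 2 = 2 := map_ofNat _ 2
  rw [← h2] at h1
  have h3 := s4_mem w h1
  apply h6
  have h4 : (6 : 𝓞 K) = 3 * 2 := by norm_num
  rw [h4]
  exact Ideal.mul_mem_left _ _ h3

theorem s4_nocube (hno : ¬ ∃ u : 𝓞 K, u ^ 3 - 2 ∈ w.asIdeal)
    (x : IsLocalRing.ResidueField (w.adicCompletionIntegers K)) : x ^ 3 ≠ 2 := by
  intro hx
  obtain ⟨x0, rfl⟩ := IsLocalRing.residue_surjective x
  obtain ⟨a, ha⟩ := H16A.C1_dense w x0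
  apply hno
  refine ⟨a, s4_mem w ?_⟩
  rw [← IsLocalRing.residue_eq_zero_iff] at ha ⊢
  rw [map_sub, sub_eq_zero] at ha
  rw [map_sub, map_sub, map_pow, map_pow, ha, hx, map_ofNat, map_ofNat, sub_self]

theorem s4_div {t y : w.adicCompletion K} (ht : t ≠ 0) (h : Valued.v y ≤ Valued.v t) :
    ∃ β : w.adicCompletionIntegers K, y = t * (β : w.adicCompletion K) := by
  refine ⟨⟨y / t, ?_⟩, ?_⟩
  · change Valued.v (y / t) ≤ 1
    rw [map_div₀]
    exact div_le_one_of_le₀ h zero_le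
  · change y = t * (y / t)
    field_simp

theorem s4_pick {x y z : w.adicCompletion K} (h : ¬ (x = 0 ∧ y = 0 ∧ z = 0)) :
    ∃ (t : w.adicCompletion K) (α β γ : w.adicCompletionIntegers K), t ≠ 0 ∧
      x = t * (α : w.adicCompletion K) ∧ y = t * (β : w.adicCompletion K) ∧
      z = t * (γ : w.adicCompletion K) ∧ (α = 1 ∨ β = 1 ∨ γ = 1) := by
  have key : ∀ t : w.adicCompletion K, Valued.v x ≤ Valued.v t → Valued.v y ≤ Valued.v t →
      Valued.v z ≤ Valued.v t → t ≠ 0 := by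
    rintro t h1 h2 h3 rfl
    rw [map_zero] at h1 h2 h3
    apply h
    exact ⟨(Valued.v.zero_iff).1 (le_zero_iff.1 h1), (Valued.v.zero_iff).1 (le_zero_iff.1 h2),
      (Valued.v.zero_iff).1 (le_zero_iff.1 h3)⟩
  have h1c : ((1 : w.adicCompletionIntegers K) : w.adicCompletion K) = 1 := rfl
  rcases le_total (Valued.v x) (Valued.v y) with hxy | hxy
  · rcases le_total (Valued.v y) (Valued.v z) with hyz | hyz
    · have ht := key z (hxy.trans hyz) hyz le_rfl
      obtain ⟨α, hα⟩ := s4_div w ht (hxy.trans hyz)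
      obtain ⟨β, hβ⟩ := s4_div w ht hyz
      exact ⟨z, α, β, 1, ht, hα, hβ, by rw [h1c, mul_one], Or.inr (Or.inr rfl)⟩
    · have ht := key y hxy le_rfl hyz
      obtain ⟨α, hα⟩ := s4_div w ht hxy
      obtain ⟨γ, hγ⟩ := s4_div w ht hyz
      exact ⟨y, α, 1, γ, ht, hα, by rw [h1c, mul_one], hγ, Or.inr (Or.inl rfl)⟩
  · rcases le_total (Valued.v x) (Valued.v z) with hxz | hxz
    · have ht := key z hxz (hxy.trans hxz) le_rfl
      obtain ⟨α, hα⟩ := s4_div w ht hxz
      obtain ⟨β, hβ⟩ := s4_div w ht (hxy.trans hxz)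
      exact ⟨z, α, β, 1, ht, hα, hβ, by rw [h1c, mul_one], Or.inr (Or.inr rfl)⟩
    · have ht := key x le_rfl hxy hxz
      obtain ⟨β, hβ⟩ := s4_div w ht hxy
      obtain ⟨γ, hγ⟩ := s4_div w ht hxz
      exact ⟨x, 1, β, γ, ht, by rw [h1c, mul_one], hβ, hγ, Or.inl rfl⟩

theorem s4_coe_NF (α β γ : w.adicCompletionIntegers K) :
    ((s4E.c3NF α β γ : w.adicCompletionIntegers K) : w.adicCompletion K) =
      s4E.c3NF (α : w.adicCompletion K) (β : w.adicCompletion K) (γ : w.adicCompletion K) := by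
  have h : ((s4E.c3NF α β γ : w.adicCompletionIntegers K) : w.adicCompletion K) =
    (w.adicCompletionIntegers K).subtype (s4E.c3NF α β γ) := rfl
  rw [h]
  simp only [H16A.Cub.c3NF, map_add, map_sub, map_mul, map_pow, map_intCast, map_ofNat]
  rfl

end loc

section psi

variable {K : Type} [Field K] [NumberField K]

theorem s4_psi (w : HeightOneSpectrum (𝓞 K)) : ∃ ψ : s4E.Alg (w.adicCompletionIntegers K) →+* Cub (w.adicCompletion K),
    (∀ x : w.adicCompletionIntegers K, ψ (algebraMap _ _ x) = AdjoinRoot.of _ (x : w.adicCompletion K)) ∧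
    ψ (s4E.th _) = AdjoinRoot.root _ := by
  let j : w.adicCompletionIntegers K →+* Cub (w.adicCompletion K) :=
    (AdjoinRoot.of _).comp (algebraMap (w.adicCompletionIntegers K) (w.adicCompletion K))
  have h : (s4E.poly (w.adicCompletionIntegers K)).eval₂ j
      (AdjoinRoot.root (Polynomial.X ^ 3 - Polynomial.C 2 : Polynomial (w.adicCompletion K))) = 0 := by
    rw [s4E.c3_eval₂, A18_root]
    unfold s4E
    simp
  refine ⟨AdjoinRoot.lift j _ h, fun x => ?_, ?_⟩
  · exact AdjoinRoot.lift_of h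
  · exact AdjoinRoot.lift_root h

end psi

variable {K N : Type} [Field K] [NumberField K] [Algebra F K] [Field N] [NumberField N] [Algebra K N]
  (φ : Cub K ≃ₐ[K] N)

theorem loc_d (w : HeightOneSpectrum (𝓞 K)) (h6 : (6 : 𝓞 K) ∉ w.asIdeal)
    (hno : ¬ ∃ u : 𝓞 K, u ^ 3 - 2 ∈ w.asIdeal) (m : N) (hm : m ≠ 0)
    (n : K) (hn : Algebra.norm K m = n ^ 2) :
    ∃ b : Cub (w.adicCompletion K),
      cmap (algebraMap K (w.adicCompletion K)) (φ.symm m) = b ^ 2 := by
  obtain ⟨a, b, c, habc⟩ := span_co φ m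
  have hnorm : n ^ 2 = a ^ 3 + 2 * b ^ 3 + 4 * c ^ 3 - 6 * a * b * c := by
    rw [← hn, habc]
    exact norm_co φ a b c
  have hac : IsAdicComplete (IsLocalRing.maximalIdeal (w.adicCompletionIntegers K))
      (w.adicCompletionIntegers K) := H16A.isAdicComplete_integers w
  have hfin : Finite (IsLocalRing.ResidueField (w.adicCompletionIntegers K)) := H16A.finite_residueField w
  have hinj := (algebraMap K (w.adicCompletion K)).injective
  have hne : ¬ (algebraMap K (w.adicCompletion K) a = 0 ∧ algebraMap K (w.adicCompletion K) b = 0 ∧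
      algebraMap K (w.adicCompletion K) c = 0) := by
    rintro ⟨h1, h2, h3⟩
    rw [map_eq_zero_iff _ hinj] at h1 h2 h3
    apply hm
    rw [habc, h1, h2, h3]
    simp
  obtain ⟨t, α, β, γ, ht, hα, hβ, hγ, h1⟩ := s4_pick w hne
  obtain ⟨hu, s, hs⟩ := s4_loc (s4_two w h6) (s4_nocube w hno) α β γ h1
  obtain ⟨ψ, hψ, hψr⟩ := s4_psi w
  have hs' := congrArg ψ hs
  rw [map_add, map_add, map_mul, map_mul, map_mul, map_pow, map_pow, hψ, hψ, hψ, hψ, hψr] at hs'
  have hNF : t * ((s4E.c3NF α β γ : w.adicCompletionIntegers K) : w.adicCompletion K) =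
      (algebraMap K (w.adicCompletion K) n / t) ^ 2 := by
    have h3 := congrArg (algebraMap K (w.adicCompletion K)) hnorm
    simp only [map_add, map_sub, map_mul, map_pow, map_ofNat, hα, hβ, hγ] at h3
    rw [div_pow, eq_div_iff (pow_ne_zero 2 ht), h3, s4_coe_NF]
    unfold H16A.Cub.c3NF s4E
    push_cast
    ring
  have hsym : φ.symm m = AdjoinRoot.of _ a + AdjoinRoot.of _ b * AdjoinRoot.root _ +
      AdjoinRoot.of _ c * AdjoinRoot.root _ ^ 2 := by
    rw [habc, map_add, map_add, map_mul, map_mul, map_pow, AlgEquiv.commutes, AlgEquiv.commutes,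
      AlgEquiv.commutes, AlgEquiv.symm_apply_apply]
    rfl
  have hc1 : ∀ x : K, cmap (algebraMap K (w.adicCompletion K)) (AdjoinRoot.of _ x) =
      AdjoinRoot.of _ (algebraMap K (w.adicCompletion K) x) := by
    intro x
    unfold cmap
    exact AdjoinRoot.map_of _ _ _ _ x
  have hc2 : cmap (algebraMap K (w.adicCompletion K)) (AdjoinRoot.root _) = AdjoinRoot.root _ := by
    unfold cmap
    exact AdjoinRoot.map_root _ _ _ _
  refine ⟨AdjoinRoot.of _ (algebraMap K (w.adicCompletion K) n / t) * ψ s, ?_⟩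
  rw [hsym, map_add, map_add, map_mul, map_mul, map_pow, hc1, hc1, hc1, hc2, hα, hβ, hγ, mul_pow,
    ← map_pow (AdjoinRoot.of _) (algebraMap K (w.adicCompletion K) n / t) 2, ← hNF, map_mul, map_mul,
    map_mul, map_mul]
  linear_combination (AdjoinRoot.of _ t) * hs'

end H19X
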