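import Mathlib
import Pool.Agent.Lib.H19X.F2
import Pool.Agent.Lib.H19X.LG3
import Pool.Agent.Lib.H19X.Q2
import Pool.Agent.Lib.H19X.Q3
import Pool.Agent.Lib.H19X.S3
import Pool.Agent.Lib.H19X.S4
import Pool.Agent.Lib.H55E.X2

open NumberField IsDedekindDomain

namespace H19X

open H55B H55C H55E

/-! Chunk Q4 (M): the Selmer group over K₀. no_cube_loc: at w above 3 or d there is no cube root of 2 in K_w: otherwise
Cub(K_w) has a ring homomorphism to K_w, ... simplest: if x^3 = 2 in K_w, then by loc_three / loc_d applied to m = th^2 * (an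
element of square norm which is not a local square)... instead argue directly: w | 3: (x + 1)^3 = 3(1 + x + x^2), (x - 1)(1 + x + x^2) = 1, so
3 ord(x + 1) = ord(3) = 2, impossible (v_w(3) = exp(-2)); w | d, not above 6: x is integral, its residue is a cube root of 2
(H16A.C1_dense), contradiction to HypF.dd.
sel_of_cnd0: places above 2: loc_two with unr0. Places not above 6d: loc_good. Places w₀ above 3 or d: w above w₀ (exists),
norm K (iota m) = image of n^2 (S.norm0); loc_three or loc_d for iota m at w; span_loc, sq_desc' (r = om), where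
cmap f (cmap _ (φ₀.symm m)) = cmap _ (φ.symm (iota m)) (Sq.map_cub, cmap_comp); loc_sq. -/

theorem no_cube_loc {K : Type} [Field K] [NumberField K] [Algebra F K] {d : ℤ} (hK : HypF d K)
    (w : HeightOneSpectrum (𝓞 K))
    (hw : (3 : 𝓞 K) ∈ w.asIdeal ∨ (d : 𝓞 K) ∈ w.asIdeal ∧ (6 : 𝓞 K) ∉ w.asIdeal) :
    ¬ ∃ x : w.adicCompletion K, x ^ 3 = 2 := by
  rintro ⟨x, hx⟩
  have hint : ∀ n : ℕ, Valued.v (n : w.adicCompletion K) ≤ 1 := by
    intro n
    have e : (n : w.adicCompletion K) = algebraMap K _ (algebraMap (𝓞 K) K (n : 𝓞 K)) := by simp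
    rw [e, valued_alg]
    exact w.valuation_le_one _
  have h2 : Valued.v (2 : w.adicCompletion K) ≤ 1 := by exact_mod_cast hint 2
  have hx1 : Valued.v x ≤ 1 := by
    by_contra h
    rw [not_le] at h
    have h4 := one_lt_pow₀ h (n := 3) (by norm_num)
    rw [← map_pow, hx] at h4
    exact absurd h2 (not_le.2 h4)
  rcases hw with h3 | ⟨hd, h6⟩
  · obtain ⟨e, he, hv3⟩ := hK.three w h3
    have hV3 : Valued.v (3 : w.adicCompletion K) = WithZero.exp (-(e : ℤ)) := by
      have e : (3 : w.adicCompletion K) = algebraMap K _ 3 := (map_ofNat _ 3).symm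
      rw [e, valued_alg, hv3]
    have e1 : (x + 1) ^ 3 = 3 * (1 + x + x ^ 2) := by linear_combination hx
    have e2 : (x - 1) * (1 + x + x ^ 2) = 1 := by linear_combination hx
    have h1 : Valued.v (1 : w.adicCompletion K) ≤ 1 := by rw [map_one]
    have hA : Valued.v (1 + x + x ^ 2) ≤ 1 :=
      Valuation.map_add_le _ (Valuation.map_add_le _ h1 hx1) (by
        rw [map_pow]
        exact pow_le_one' hx1 2)
    have hB : Valued.v (x - 1) ≤ 1 := Valuation.map_sub_le _ hx1 h1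
    have hA1 : Valued.v (1 + x + x ^ 2) = 1 := by
      refine le_antisymm hA ?_
      calc (1 : WithZero (Multiplicative ℤ)) = Valued.v (x - 1) * Valued.v (1 + x + x ^ 2) := by
            rw [← map_mul, e2, map_one]
        _ ≤ 1 * Valued.v (1 + x + x ^ 2) := mul_le_mul' hB le_rfl
        _ = _ := one_mul _
    have h7 : Valued.v (x + 1) ^ 3 = WithZero.exp (-(e : ℤ)) := by
      rw [← map_pow, e1, map_mul, hA1, hV3, mul_one]
    by_cases hz : Valued.v (x + 1) = 0
    · rw [hz, zero_pow three_ne_zero] at h7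
      exact WithZero.exp_ne_zero h7.symm
    · obtain ⟨k, hk⟩ : ∃ k : ℤ, Valued.v (x + 1) = WithZero.exp k :=
        ⟨WithZero.log _, (WithZero.exp_log hz).symm⟩
      rw [hk, ← WithZero.exp_nsmul, WithZero.exp_inj] at h7
      simp only [nsmul_eq_mul, Nat.cast_ofNat] at h7
      omega
  · obtain ⟨a, ha⟩ := H16A.C1_dense w ⟨x, hx1⟩
    rw [H16A.C1_mem_maximalIdeal, H16A.C1_norm_lt_one_iff] at ha
    apply hK.dd w hd
    refine ⟨a, ?_⟩
    rw [← HeightOneSpectrum.valuation_lt_one_iff_mem (K := K), ← valued_alg]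
    have e0 : ((algebraMap (𝓞 K) (w.adicCompletionIntegers K) a - ⟨x, hx1⟩ :
        w.adicCompletionIntegers K) : w.adicCompletion K) =
        algebraMap K (w.adicCompletion K) (algebraMap (𝓞 K) K a) - x := rfl
    rw [e0] at ha
    obtain ⟨A, hA⟩ : ∃ A, A = algebraMap K (w.adicCompletion K) (algebraMap (𝓞 K) K a) := ⟨_, rfl⟩
    have hA1 : Valued.v A ≤ 1 := by
      rw [hA, valued_alg]
      exact w.valuation_le_one _
    have e1 : algebraMap K (w.adicCompletion K) (algebraMap (𝓞 K) K (a ^ 3 - 2)) =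
        (A - x) * (A ^ 2 + A * x + x ^ 2) := by
      rw [map_sub, map_sub, map_pow, map_pow, map_ofNat, map_ofNat, ← hA]
      linear_combination hx
    rw [e1, map_mul]
    rw [← hA] at ha
    have h5 : Valued.v (A ^ 2 + A * x + x ^ 2) ≤ 1 := by
      refine Valuation.map_add_le _ (Valuation.map_add_le _ ?_ ?_) ?_
      · rw [map_pow]; exact pow_le_one' hA1 2
      · rw [map_mul]; exact mul_le_one' hA1 hx1
      · rw [map_pow]; exact pow_le_one' hx1 2
    calc Valued.v (A - x) * Valued.v (A ^ 2 + A * x + x ^ 2) ≤ Valued.v (A - x) * 1 :=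
          mul_le_mul' le_rfl h5
      _ = Valued.v (A - x) := mul_one _
      _ < 1 := ha

theorem sel_of_cnd0 {K₀ K N₀ N : Type} [Field K₀] [NumberField K₀] [Field K] [NumberField K]
    [Algebra F K] [Algebra K₀ K] [Field N₀] [NumberField N₀] [Algebra K₀ N₀] [Field N] [NumberField N]
    [Algebra K N] {φ₀ : Cub K₀ ≃ₐ[K₀] N₀} {φ : Cub K ≃ₐ[K] N} {ι : N₀ →+* N} {cK : K ≃ₐ[K₀] K}
    {c : N ≃+* N} (hQ : H13E.Quad K₀ K) (S : Sq φ₀ φ ι cK c) (d : ℤ) (hd : AdmD d) (hK : HypF d K)
    (m : N₀) (hm : Cnd d K₀ N₀ (th φ₀) m) : φ₀.symm m ∈ Seld d K₀ := by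
  obtain ⟨n, hn⟩ := hm.norm
  have hun : IsUnit (φ₀.symm m) := (IsUnit.mk0 m hm.ne).map φ₀.symm
  refine ⟨hun, ⟨n, ?_⟩, ?_⟩
  · rw [Algebra.norm_eq_of_algEquiv φ₀.symm, hn]
  intro w₀
  have hpr := w₀.isPrime
  by_cases h2 : (2 : 𝓞 K₀) ∈ w₀.asIdeal
  · exact loc_two φ₀ w₀ h2 (unr0 hQ hK.two w₀ h2) d hd.four m hm.ne n hn hm.two
  by_cases h6d : ((6 * d : ℤ) : 𝓞 K₀) ∈ w₀.asIdeal
  swap
  · refine loc_good φ₀ w₀ d h6d m hm.ne ?_ n hn
    intro P hP
    apply hm.even P
    intro h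
    apply h6d
    rw [hP, Ideal.mem_comap, map_intCast]
    exact h
  -- w above w₀
  haveI : w₀.asIdeal.IsMaximal := w₀.isPrime.isMaximal w₀.ne_bot
  obtain ⟨Q, hQm, hQl⟩ := Ideal.exists_maximal_ideal_liesOver_of_isIntegral (S := 𝓞 K) w₀.asIdeal
  have hQb : Q ≠ ⊥ := by
    rintro rfl
    have h := hQl.over
    rw [Ideal.under_bot] at h
    exact w₀.ne_bot h
  let w : HeightOneSpectrum (𝓞 K) := ⟨Q, hQm.isPrime, hQb⟩
  have hww : w₀.asIdeal = w.asIdeal.under (𝓞 K₀) := hQl.over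
  have hmem : ∀ x : ℤ, (x : 𝓞 K₀) ∈ w₀.asIdeal ↔ (x : 𝓞 K) ∈ w.asIdeal := by
    intro x
    rw [hww, Ideal.mem_comap, map_intCast]
  have hcase : (3 : 𝓞 K) ∈ w.asIdeal ∨ (d : 𝓞 K) ∈ w.asIdeal ∧ (6 : 𝓞 K) ∉ w.asIdeal := by
    by_cases h3 : (3 : 𝓞 K₀) ∈ w₀.asIdeal
    · left
      have h := (hmem 3).1 (by rw [Int.cast_ofNat]; exact h3)
      rw [Int.cast_ofNat] at h
      exact h
    · right
      have h6 : (6 : 𝓞 K₀) ∉ w₀.asIdeal := by
        intro h
        have e : (6 : 𝓞 K₀) = 2 * 3 := by norm_num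
        rw [e] at h
        rcases hpr.mem_or_mem h with h' | h'
        · exact h2 h'
        · exact h3 h'
      constructor
      · rw [← hmem]
        rw [Int.cast_mul, Int.cast_ofNat] at h6d
        rcases hpr.mem_or_mem h6d with h' | h'
        · exact absurd h' h6
        · exact h'
      · intro h
        apply h6
        have h' := (hmem 6).2 (by rw [Int.cast_ofNat]; exact h)
        rw [Int.cast_ofNat] at h'
        exact h'
  have hirr := no_cube_loc hK w hcase
  have hι0 : ι m ≠ 0 := by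
    rw [Ne, map_eq_zero]
    exact hm.ne
  have hnι : Algebra.norm K (ι m) = (algebraMap K₀ K n) ^ 2 := by
    rw [S.norm0, hn, map_pow]
  obtain ⟨b, hb⟩ : ∃ b : Cub (w.adicCompletion K),
      cmap (algebraMap K (w.adicCompletion K)) (φ.symm (ι m)) = b ^ 2 := by
    rcases hcase with h3 | ⟨hdw, h6⟩
    · exact loc_three φ w h3 (hK.three w h3) (ι m) hι0 _ hnι
    · exact loc_d φ w h6 (hK.dd w hdw) (ι m) hι0 _ hnι
  obtain ⟨f, hf, hspan⟩ := span_loc hQ w₀ w hww
  have hmc : φ.symm (ι m) = cmap (algebraMap K₀ K) (φ₀.symm m) := by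
    have h := S.map_cub (φ₀.symm m)
    rw [AlgEquiv.apply_symm_apply] at h
    rw [h, AlgEquiv.symm_apply_apply]
  have hbf : cmap f (cmap (algebraMap K₀ (w₀.adicCompletion K₀)) (φ₀.symm m)) = b ^ 2 := by
    have hff : f.comp (algebraMap K₀ (w₀.adicCompletion K₀)) =
        (algebraMap K (w.adicCompletion K)).comp (algebraMap K₀ K) :=
      RingHom.ext fun x => hf x
    rw [← hb, hmc, Q3_cmap_comp, Q3_cmap_comp, hff]
  haveI : CharZero (w₀.adicCompletion K₀) :=
    charZero_of_injective_algebraMap (algebraMap K₀ (w₀.adicCompletion K₀)).injective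
  haveI : CharZero (w.adicCompletion K) :=
    charZero_of_injective_algebraMap (algebraMap K (w.adicCompletion K)).injective
  obtain ⟨c', hc'⟩ := sq_desc' f (algebraMap K _ (algebraMap O K om)) (by
      rw [← map_pow, ← map_pow, ← map_add, ← map_add, ← map_one (algebraMap K (w.adicCompletion K)),
        ← map_one (algebraMap O K), ← map_add, ← map_add, om_rel, map_zero, map_zero])
    hspan hirr _ (hun.map (cmap (algebraMap K₀ (w₀.adicCompletion K₀))))
    (algebraMap K₀ (w₀.adicCompletion K₀) n) (by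
      rw [norm_cmap, Algebra.norm_eq_of_algEquiv φ₀.symm, hn, map_pow]) b hbf
  rw [hc']
  exact loc_sq K₀ w₀ d (H55E.AdmD.ne_zero hd) c'

end H19X
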