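import Mathlib
import Pool.Agent.Lib.H19X.F2
import Pool.Agent.Lib.H19X.LG3
import Pool.Agent.Lib.H19X.S3
import Pool.Agent.Lib.H19X.S4
import Pool.Agent.Lib.H55E.X2

open NumberField IsDedekindDomain

namespace H19X

open H55B H55C H55E

/-! Chunk Sel (S/M): assembly. IsUnit: φ.symm m with m <> 0. norm: Algebra.norm_eq_of_algEquiv. For w: if 2 in w: loc_two
(d % 4 = 1); if 3 in w: loc_three and loc_sq; if d in w (and 6 not): loc_d and loc_sq; otherwise 6d is not in w:
loc_good (for P above w: 6d not in P, hm.even). -/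

theorem sel_of_cnd {K N : Type} [Field K] [NumberField K] [Algebra F K] [Field N] [NumberField N]
    [Algebra K N] (φ : Cub K ≃ₐ[K] N) (d : ℤ) (hd : AdmD d) (hK : HypF d K) (m : N)
    (hm : Cnd d K N (th φ) m) : φ.symm m ∈ Seld d K := by
  have hd0 : d ≠ 0 := hd.ne_zero
  obtain ⟨n, hn⟩ := hm.norm
  refine ⟨F2_unit φ hm.ne, ⟨n, ?_⟩, ?_⟩
  · rw [Algebra.norm_eq_of_algEquiv φ.symm, hn]
  · intro w
    by_cases h2 : (2 : 𝓞 K) ∈ w.asIdeal
    · exact loc_two φ w h2 (hK.two w h2) d hd.four m hm.ne n hn hm.two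
    by_cases h3 : (3 : 𝓞 K) ∈ w.asIdeal
    · obtain ⟨b, hb⟩ := loc_three φ w h3 (hK.three w h3) m hm.ne n hn
      rw [hb]
      exact loc_sq K w d hd0 b
    have h6 : (6 : 𝓞 K) ∉ w.asIdeal := by
      intro h
      have e : (6 : 𝓞 K) = 2 * 3 := by norm_num
      rw [e] at h
      rcases w.isPrime.mem_or_mem h with h | h
      · exact h2 h
      · exact h3 h
    by_cases hdw : (d : 𝓞 K) ∈ w.asIdeal
    · obtain ⟨b, hb⟩ := loc_d φ w h6 (hK.dd w hdw) m hm.ne n hn
      rw [hb]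
      exact loc_sq K w d hd0 b
    have h6d : ((6 * d : ℤ) : 𝓞 K) ∉ w.asIdeal := by
      intro h
      rw [Int.cast_mul, Int.cast_ofNat] at h
      rcases w.isPrime.mem_or_mem h with h | h
      · exact h6 h
      · exact hdw h
    refine loc_good φ w d h6d m hm.ne ?_ n hn
    intro P hP
    refine hm.even P ?_
    intro h
    apply h6d
    rw [hP]
    change algebraMap (𝓞 K) (𝓞 N) ((6 * d : ℤ) : 𝓞 K) ∈ P.asIdeal
    rwa [map_intCast]

end H19X
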