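import Mathlib
import Pool.Agent.Lib.H19X.Defs
import Pool.Agent.Lib.H55E.X2
import Pool.Agent.Lib.H55N.T0

open NumberField IsDedekindDomain

namespace H19X

open H55B H55C H55E

/-! Chunk T3 (M): (1) the two cases: compare Cls_cases in H55E.X3 (same proof with UnrSix instead of UnrOut). (2) Galois closure: L/F
Galois of 2-power degree unramified above 6, H = Gal(L/K), C = the intersection of the conjugates of H (Subgroup.normalCore), L' = L^C:
Galois over F, contains K. Suppose w of K not above 6 and 2 a cube modulo w implies e(w|O) = 1. Then L'/F is unramified outside the good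
primes: let Q be a prime of L above the prime v of F, v not good. If 6 in Q: e(Q|v) = 1 (UnrSix). Otherwise 2 is a cube modulo v. Let I be the
inertia group of Q in G. For g in G: gQ lies above the prime w of K, 2 is a cube modulo w, so e(w|v) = 1, so the inertia
group g I g^(-1) of gQ is inside H (its order is e(gQ|v) = e(gQ|w), the order of g I g^(-1) ∩ H). So I is in C, and e(Q ∩ L'|v) = (I : I ∩ C) = 1.
Then TwoExt L', UnrOut L', Sub2 K (H55N.Sub2). Compare H13E, H19T.A4-A8 (inertia groups and fixed fields), H55E.X1. -/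

theorem t3_case1 (K L : Type) [Field K] [NumberField K] [Field L] [NumberField L]
    [Algebra F L] [Algebra K L] (hT : TwoExt L) (hU : UnrSix L) (ζ : K)
    (hζ : ζ ^ 2 + ζ + 1 = 0) : ∃ _ : Algebra F K, Sub6 K := by
  have hz := H55D.X3_z_root L
  have hmem : H55D.X3_z L ∈ (⊥ : IntermediateField K L) := by
    have h1 : (algebraMap K L ζ) ^ 2 + algebraMap K L ζ + 1 = 0 := by
      have h := congrArg (algebraMap K L) hζ
      simpa only [map_add, map_pow, map_one, map_zero] using h
    have h2 : (H55D.X3_z L - algebraMap K L ζ) * (H55D.X3_z L + algebraMap K L ζ + 1) = 0 := by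
      linear_combination hz - h1
    rw [IntermediateField.mem_bot]
    rcases mul_eq_zero.1 h2 with h | h
    · exact ⟨ζ, (sub_eq_zero.1 h).symm⟩
    · refine ⟨-ζ - 1, ?_⟩
      rw [map_sub, map_neg, map_one]
      linear_combination -h
  let ψ : F →+* (⊥ : IntermediateField K L) :=
    (algebraMap F L).codRestrict (⊥ : IntermediateField K L)
      (H55D.X3_range K L (⊥ : IntermediateField K L) hmem)
  let φ : F →+* K := ((IntermediateField.botEquiv K L : (⊥ : IntermediateField K L) →+* K)).comp ψ
  let hFK : Algebra F K := φ.toAlgebra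
  have hcomp : ∀ x : F, algebraMap F L x = algebraMap K L (algebraMap F K x) := by
    intro x
    have h1 : algebraMap K L (IntermediateField.botEquiv K L (ψ x)) = algebraMap F L x := by
      have h2 := (IntermediateField.botEquiv K L).symm_apply_apply (ψ x)
      have h3 := IntermediateField.botEquiv_symm (F := K) (E := L)
        (IntermediateField.botEquiv K L (ψ x))
      rw [h2] at h3
      have h4 := congrArg (fun z : (⊥ : IntermediateField K L) => (z : L)) h3
      exact h4.symm
    exact h1.symm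
  have htow : IsScalarTower F K L := IsScalarTower.of_algebraMap_eq hcomp
  exact ⟨hFK, L, inferInstance, inferInstance, inferInstance, inferInstance, htow, hT, hU⟩

theorem cls6_cases (K : Type) [Field K] [NumberField K] (h : Cls6 K) :
    (∃ _ : Algebra F K, Sub6 K) ∨
    ∃ (K₁ : Type) (_ : Field K₁) (_ : NumberField K₁) (_ : Algebra F K₁) (_ : Algebra K K₁),
      H13E.Quad K K₁ ∧ Sub6 K₁ := by
  classical
  obtain ⟨L, hL1, hL2, hL3, hL4, hT, hUL⟩ := h
  by_cases hnr : ∀ x : K, x ^ 2 + x + 1 ≠ 0
  · right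
    have hz := H55D.X3_z_root L
    let E : IntermediateField K L := IntermediateField.adjoin K {H55D.X3_z L}
    have hmem : H55D.X3_z L ∈ E := IntermediateField.mem_adjoin_simple_self K _
    have hint : ∀ x ∈ ({H55D.X3_z L} : Set L), IsIntegral K x := by
      rintro x rfl
      refine ⟨Polynomial.X ^ 2 + Polynomial.X + 1, by monicity!, ?_⟩
      simp only [Polynomial.eval₂_add, Polynomial.eval₂_pow, Polynomial.eval₂_X,
        Polynomial.eval₂_one]
      exact hz
    have hEfin : FiniteDimensional K E := IntermediateField.finiteDimensional_adjoin hint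
    have hnf : NumberField E := NumberField.of_module_finite K E
    let ψ : F →+* E := (algebraMap F L).codRestrict E (H55D.X3_range K L E hmem)
    let hFE : Algebra F E := ψ.toAlgebra
    have hFEL : IsScalarTower F E L := IsScalarTower.of_algebraMap_eq (fun x => rfl)
    exact ⟨E, inferInstance, hnf, hFE, inferInstance, ⟨H55D.X3_rank K L _ hz hnr, hnr⟩,
      L, hL1, hL2, hL3, inferInstance, hFEL, hT, hUL⟩
  · left
    push Not at hnr
    obtain ⟨ζ, hζ⟩ := hnr
    exact t3_case1 K L hT hUL ζ hζ

/-- e(w|O) = 1 if and only if the inertia group over F of a prime W above w fixes E. -/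
theorem t3_iff {E L : Type} [Field E] [NumberField E] [Algebra F E] [Field L] [NumberField L]
    [Algebra F L] [Algebra E L] [IsScalarTower F E L] [IsGalois F L]
    (W : HeightOneSpectrum (𝓞 L)) (w : HeightOneSpectrum (𝓞 E))
    (hw : W.asIdeal.LiesOver w.asIdeal) :
    w.asIdeal.ramificationIdx O = 1 ↔
      ∀ g : L ≃ₐ[F] L, (∀ y : 𝓞 L, g • y - y ∈ W.asIdeal) →
        ∀ x : E, g (algebraMap E L x) = algebraMap E L x := by
  have hG : IsGalois E L := IsGalois.tower_top_of_isGalois F E L
  have h1 := Y32_card (K := L) W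
  have h2 := X2_card (K₀ := E) (K := L) W
  have h3 := Ideal.ramificationIdx_tower (R := O) w.asIdeal W.asIdeal
  have hpos : 0 < W.asIdeal.ramificationIdx (𝓞 E) := by
    rw [← h2]
    exact Nat.card_pos
  let ι : (L ≃ₐ[E] L) → (L ≃ₐ[F] L) := fun g => g.restrictScalars F
  have hι : Function.Injective ι := AlgEquiv.restrictScalars_injective F
  let f : W.asIdeal.inertia (L ≃ₐ[E] L) → W.asIdeal.inertia (L ≃ₐ[F] L) := fun g =>
    ⟨ι g.1, fun y => g.2 y⟩
  have hf : Function.Injective f := by
    intro a b hab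
    apply Subtype.ext
    apply hι
    exact congrArg Subtype.val hab
  constructor
  · intro he g hg x
    rw [he, one_mul, ← h1, ← h2] at h3
    have hbij : Function.Bijective f :=
      (Nat.bijective_iff_injective_and_card f).2 ⟨hf, h3.symm⟩
    obtain ⟨g', hg'⟩ := hbij.surjective ⟨g, hg⟩
    have h4 : ι g'.1 = g := congrArg Subtype.val hg'
    rw [← h4]
    exact g'.1.commutes x
  · intro hall
    have hsurj : Function.Surjective f := by
      rintro ⟨g, hg⟩
      have h5 := hall g hg
      let g' : L ≃ₐ[E] L := AlgEquiv.ofRingEquiv (f := (g : L ≃+* L)) h5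
      refine ⟨⟨g', fun y => hg y⟩, ?_⟩
      apply Subtype.ext
      apply AlgEquiv.ext
      intro x
      rfl
    have h6 : Nat.card (W.asIdeal.inertia (L ≃ₐ[E] L)) = Nat.card (W.asIdeal.inertia (L ≃ₐ[F] L)) :=
      Nat.card_congr (Equiv.ofBijective f ⟨hf, hsurj⟩)
    rw [h1, h2, h3] at h6
    have h7 : 1 * W.asIdeal.ramificationIdx (𝓞 E) =
        w.asIdeal.ramificationIdx O * W.asIdeal.ramificationIdx (𝓞 E) := by
      rw [one_mul]
      exact h6
    exact (Nat.eq_of_mul_eq_mul_right hpos h7).symm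

/-- The conjugate prime. -/
theorem t3_conj {L : Type} [Field L] [NumberField L] [Algebra F L] (W : HeightOneSpectrum (𝓞 L))
    (g : L ≃ₐ[F] L) : ∃ W' : HeightOneSpectrum (𝓞 L), ∀ y : 𝓞 L, y ∈ W'.asIdeal ↔ g⁻¹ • y ∈ W.asIdeal := by
  have hp := W.isPrime
  let r : 𝓞 L →+* 𝓞 L := MulSemiringAction.toRingHom (L ≃ₐ[F] L) (𝓞 L) g⁻¹
  have hr : ∀ y, r y = g⁻¹ • y := fun y => rfl
  refine ⟨⟨W.asIdeal.comap r, Ideal.comap_isPrime r W.asIdeal, ?_⟩, fun y => ?_⟩
  · intro h
    apply W.ne_bot
    rw [Submodule.eq_bot_iff]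
    intro y hy
    have h1 : g • y ∈ W.asIdeal.comap r := by
      rw [Ideal.mem_comap, hr, inv_smul_smul]
      exact hy
    rw [h, Submodule.mem_bot] at h1
    have h2 := congrArg (fun z => g⁻¹ • z) h1
    simp only [inv_smul_smul, smul_zero] at h2
    exact h2
  · rw [Ideal.mem_comap, hr]

/-- The Galois group acts trivially on O. -/
theorem t3_smul_O {L : Type} [Field L] [NumberField L] [Algebra F L] (g : L ≃ₐ[F] L) (x : O) :
    g • algebraMap O (𝓞 L) x = algebraMap O (𝓞 L) x := by
  apply NumberField.RingOfIntegers.ext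
  show g (algebraMap F L (algebraMap O F x)) = algebraMap F L (algebraMap O F x)
  exact g.commutes _

theorem sub2_of_sub6 {K : Type} [Field K] [NumberField K] [Algebra F K] (hS : Sub6 K)
    (h : ∀ w : HeightOneSpectrum (𝓞 K), (6 : 𝓞 K) ∉ w.asIdeal → (∃ x : 𝓞 K, x ^ 3 - 2 ∈ w.asIdeal) →
      w.asIdeal.ramificationIdx O = 1) : H55N.Sub2 K := by
  obtain ⟨L, hL1, hL2, hL3, hL4, hL5, hT, hU⟩ := hS
  obtain ⟨hG, k, hk⟩ := hT
  let E : IntermediateField F L := (IsScalarTower.toAlgHom F K L).fieldRange
  let H : Subgroup (L ≃ₐ[F] L) := E.fixingSubgroup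
  let C : Subgroup (L ≃ₐ[F] L) := H.normalCore
  let L' : IntermediateField F L := IntermediateField.fixedField C
  have hmemH : ∀ g : L ≃ₐ[F] L, g ∈ H ↔ ∀ x : K, g (algebraMap K L x) = algebraMap K L x := by
    intro g
    rw [show H = E.fixingSubgroup from rfl, IntermediateField.mem_fixingSubgroup_iff]
    constructor
    · intro h1 x
      exact h1 _ ⟨x, rfl⟩
    · rintro h1 _ ⟨x, rfl⟩
      exact h1 x
  have hKL' : ∀ x : K, algebraMap K L x ∈ L' := by
    intro x c
    exact (hmemH c.1).1 (H.normalCore_le c.2) x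
  have hGal : IsGalois F L' := IsGalois.of_fixedField_normal_subgroup C
  have hnf : NumberField L' := NumberField.of_module_finite F L'
  let ψ : K →+* L' := (algebraMap K L).codRestrict L' hKL'
  let hKL : Algebra K L' := ψ.toAlgebra
  have htow : IsScalarTower F K L' := IsScalarTower.of_algebraMap_eq (fun x => by
    apply Subtype.ext
    show algebraMap F L x = algebraMap K L (algebraMap F K x)
    exact IsScalarTower.algebraMap_apply F K L x)
  have hdeg : ∃ j : ℕ, Module.finrank F L' = 2 ^ j := by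
    have h1 := Module.finrank_mul_finrank F L' L
    have h2 : Module.finrank F L' ∣ 2 ^ k := by
      rw [← hk, ← h1]
      exact dvd_mul_right _ _
    obtain ⟨j, -, hj⟩ := (Nat.dvd_prime_pow Nat.prime_two).1 h2
    exact ⟨j, hj⟩
  refine ⟨L', inferInstance, hnf, inferInstance, hKL, htow, ⟨hGal, hdeg⟩, ?_⟩
  intro w v hv hbad
  obtain ⟨W, hW, hW2⟩ := H55N.T0_above L w
  rw [t3_iff W w hW]
  -- the inertia group of W is contained in C
  have key : ∀ i : L ≃ₐ[F] L, (∀ y : 𝓞 L, i • y - y ∈ W.asIdeal) → i ∈ C := by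
    intro i hi
    by_cases h6 : (6 : O) ∈ v.asIdeal
    · have h6W : (6 : 𝓞 L) ∈ W.asIdeal := by
        rw [hv, hW2] at h6
        have h7 : algebraMap O (𝓞 L) 6 ∈ W.asIdeal := h6
        rwa [map_ofNat] at h7
      have h8 := (inertia_iff W).1 (hU W h6W) i hi
      rw [h8]
      exact C.one_mem
    · have hcube : ∃ x : O, x ^ 3 - 2 ∈ v.asIdeal := by
        by_contra hne
        apply hbad
        have hvp := v.isPrime
        refine ⟨fun h2 => h6 ?_, fun h3 => h6 ?_, hne⟩
        · rw [show (6 : O) = 2 * 3 by norm_num]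
          exact v.asIdeal.mul_mem_right _ h2
        · rw [show (6 : O) = 2 * 3 by norm_num]
          exact v.asIdeal.mul_mem_left _ h3
      obtain ⟨x, hx⟩ := hcube
      show ∀ g : L ≃ₐ[F] L, g * i * g⁻¹ ∈ H
      intro g
      obtain ⟨W', hW'⟩ := t3_conj W g
      have hW'p := W'.isPrime
      -- W' lies over v
      have hO : ∀ z : O, algebraMap O (𝓞 L) z ∈ W'.asIdeal ↔ z ∈ v.asIdeal := by
        intro z
        rw [hW', t3_smul_O, hv, hW2]
        rfl
      have hp : (W'.asIdeal.under (𝓞 K)).IsPrime := inferInstance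
      have hne : W'.asIdeal.under (𝓞 K) ≠ ⊥ := by
        intro h
        exact W'.ne_bot (Ideal.eq_bot_of_comap_eq_bot (R := 𝓞 K) (I := W'.asIdeal) h)
      let wK : HeightOneSpectrum (𝓞 K) := ⟨W'.asIdeal.under (𝓞 K), hp, hne⟩
      have hl : W'.asIdeal.LiesOver wK.asIdeal := ⟨rfl⟩
      have hmemK : ∀ z : O, algebraMap O (𝓞 K) z ∈ wK.asIdeal ↔ z ∈ v.asIdeal := by
        intro z
        rw [← hO]
        show algebraMap (𝓞 K) (𝓞 L) (algebraMap O (𝓞 K) z) ∈ W'.asIdeal ↔ _
        rw [← IsScalarTower.algebraMap_apply O (𝓞 K) (𝓞 L)]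
      have h1 : (6 : 𝓞 K) ∉ wK.asIdeal := by
        intro h2
        apply h6
        rw [← hmemK, map_ofNat]
        exact h2
      have h2 : ∃ x : 𝓞 K, x ^ 3 - 2 ∈ wK.asIdeal := by
        refine ⟨algebraMap O (𝓞 K) x, ?_⟩
        have h3 := (hmemK _).2 hx
        rwa [map_sub, map_pow, map_ofNat] at h3
      have h3 := h wK h1 h2
      have h4 := (t3_iff W' wK hl).1 h3 (g * i * g⁻¹) (fun y => by
        rw [hW', smul_sub, ← mul_smul]
        have h5 := hi (g⁻¹ • y)
        rwa [← mul_smul, show i * g⁻¹ = g⁻¹ * (g * i * g⁻¹) by group] at h5)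
      exact (hmemH _).2 h4
  intro g hg x
  exact x.2 ⟨g, key g hg⟩

end H19X
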